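import Pool.Agent.LowAsm.SL

set_option autoImplicit false

namespace Pool.Agent.Lib_helper56.Low

open Finset

/-! ### Block A: words -/

theorem blkA_mem_succ {K n : ℕ} {w : List ℕ} :
    w ∈ words K (n + 1) ↔ ∃ d u, (1 ≤ d ∧ d ≤ K) ∧ u ∈ words K n ∧ d :: u = w := by
  rw [words, Finset.mem_image]
  constructor
  · rintro ⟨⟨d, u⟩, hp, rfl⟩
    rw [Finset.mem_product, Finset.mem_Icc] at hp
    exact ⟨d, u, hp.1, hp.2, rfl⟩
  · rintro ⟨d, u, hd, hu, rfl⟩
    exact ⟨(d, u), by rw [Finset.mem_product, Finset.mem_Icc]; exact ⟨hd, hu⟩, rfl⟩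

theorem length_of_mem_words {K n : ℕ} {w : List ℕ} (h : w ∈ words K n) : w.length = n := by
  induction n generalizing w with
  | zero =>
    rw [words, Finset.mem_singleton] at h
    rw [h]; rfl
  | succ n ih =>
    obtain ⟨d, u, _, hu, rfl⟩ := blkA_mem_succ.mp h
    rw [List.length_cons, ih hu]

theorem mem_words {K n : ℕ} {w : List ℕ} : w ∈ words K n ↔ w.length = n ∧ ∀ d ∈ w, 1 ≤ d ∧ d ≤ K := by
  induction n generalizing w with
  | zero =>
    rw [words, Finset.mem_singleton]
    constructor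
    · rintro rfl
      simp
    · rintro ⟨h, _⟩
      exact List.length_eq_zero_iff.mp h
  | succ n ih =>
    rw [blkA_mem_succ]
    constructor
    · rintro ⟨d, u, hd, hu, rfl⟩
      rw [ih] at hu
      refine ⟨by rw [List.length_cons, hu.1], ?_⟩
      intro e he
      rcases List.mem_cons.mp he with rfl | he
      · exact hd
      · exact hu.2 e he
    · rintro ⟨h1, h2⟩
      cases w with
      | nil => simp at h1
      | cons d u =>
        refine ⟨d, u, h2 d (by simp), ih.mpr ⟨by simpa using h1, fun e he => h2 e (by simp [he])⟩,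
          rfl⟩

theorem sum_le_of_mem_words {K n : ℕ} {w : List ℕ} (h : w ∈ words K n) : n ≤ w.sum ∧ w.sum ≤ K * n := by
  induction n generalizing w with
  | zero =>
    rw [words, Finset.mem_singleton] at h
    rw [h]; simp
  | succ n ih =>
    obtain ⟨d, u, hd, hu, rfl⟩ := blkA_mem_succ.mp h
    have := ih hu
    rw [List.sum_cons, Nat.mul_succ]
    omega

theorem sum_words_succ (K n : ℕ) (F : List ℕ → ℝ) :
    ∑ w ∈ words K (n + 1), F w = ∑ d ∈ Icc 1 K, ∑ w ∈ words K n, F (d :: w) := by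
  rw [words, Finset.sum_image, Finset.sum_product]
  rintro ⟨d, u⟩ _ ⟨d', u'⟩ _ h
  simp only [List.cons.injEq] at h
  exact Prod.ext h.1 h.2

theorem sum_words_add (K m n : ℕ) (F : List ℕ → ℝ) :
    ∑ w ∈ words K (m + n), F w = ∑ u ∈ words K m, ∑ w ∈ words K n, F (u ++ w) := by
  induction m generalizing F with
  | zero =>
    rw [Nat.zero_add, words, Finset.sum_singleton]
    rfl
  | succ m ih =>
    rw [Nat.succ_add, sum_words_succ, sum_words_succ]
    refine Finset.sum_congr rfl fun d _ => ?_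
    rw [ih]
    rfl

theorem A_append (u w : List ℕ) (x : ℤ) : A (u ++ w) x = A w (A u x) := by
  induction u generalizing x with
  | nil => rfl
  | cons d u ih => exact ih (st d x)

theorem adm_append (u w : List ℕ) (x : ℤ) : adm (u ++ w) x ↔ adm u x ∧ adm w (A u x) := by
  induction u generalizing x with
  | nil => simp [adm, A]
  | cons d u ih =>
    simp only [List.cons_append, adm, A]
    rw [ih (st d x), and_assoc]

theorem blkA_st_shift (d : ℕ) (x y : ℤ) : st d (x + 5 * y) = st d x + 2 ^ d * y := by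
  unfold st
  rw [show (2 : ℤ) ^ d * (x + 5 * y) - 1 = (2 ^ d * x - 1) + 5 * (2 ^ d * y) by ring,
    Int.add_mul_ediv_left _ _ (by norm_num)]

theorem blkA_dvd_shift (d : ℕ) (x y : ℤ) :
    (5 : ℤ) ∣ 2 ^ d * (x + 5 * y) - 1 ↔ (5 : ℤ) ∣ 2 ^ d * x - 1 := by
  rw [show (2 : ℤ) ^ d * (x + 5 * y) - 1 = (2 ^ d * x - 1) + 5 * (2 ^ d * y) by ring]
  exact Int.dvd_add_left (dvd_mul_right _ _)

theorem adm_shift (w : List ℕ) (x y : ℤ) : adm w (x + 5 ^ w.length * y) ↔ adm w x := by
  induction w generalizing x y with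
  | nil => simp [adm]
  | cons d w ih =>
    simp only [adm, List.length_cons]
    rw [show (5 : ℤ) ^ (w.length + 1) * y = 5 * (5 ^ w.length * y) by ring, blkA_dvd_shift,
      blkA_st_shift, show (2 : ℤ) ^ d * (5 ^ w.length * y) = 5 ^ w.length * (2 ^ d * y) by ring,
      ih]

theorem blkA_A_shift (w : List ℕ) (x y : ℤ) :
    A w (x + 5 ^ w.length * y) = A w x + 2 ^ w.sum * y := by
  induction w generalizing x y with
  | nil => simp [A]
  | cons d w ih =>
    simp only [A, List.length_cons, List.sum_cons]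
    rw [show (5 : ℤ) ^ (w.length + 1) * y = 5 * (5 ^ w.length * y) by ring,
      blkA_st_shift, show (2 : ℤ) ^ d * (5 ^ w.length * y) = 5 ^ w.length * (2 ^ d * y) by ring,
      ih]
    ring

theorem A_shift (w : List ℕ) (x y : ℤ) (h : adm w x) :
    A w (x + 5 ^ w.length * y) = A w x + 2 ^ w.sum * y :=
  blkA_A_shift w x y

theorem A_shift' (w : List ℕ) (x y : ℤ) (h : adm w x) :
    A w (x + 5 ^ (w.length + 1) * y) = A w x + 5 * 2 ^ w.sum * y := by
  rw [show (5 : ℤ) ^ (w.length + 1) * y = 5 ^ w.length * (5 * y) by ring, blkA_A_shift]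
  ring

theorem blkA_st_mul {d : ℕ} {x : ℤ} (h : (5 : ℤ) ∣ 2 ^ d * x - 1) :
    5 * st d x = 2 ^ d * x - 1 := Int.mul_ediv_cancel' h

theorem blkA_st_odd {d : ℕ} {x : ℤ} (hd : 1 ≤ d) (h : (5 : ℤ) ∣ 2 ^ d * x - 1) :
    st d x % 2 = 1 := by
  have h1 := blkA_st_mul h
  obtain ⟨e, rfl⟩ := Nat.exists_eq_add_of_le hd
  rw [pow_add, pow_one, mul_assoc] at h1
  generalize (2 : ℤ) ^ e * x = z at h1
  omega

theorem blkA_pow_eq {d d' : ℕ} {y y' : ℤ} (hy : y % 2 = 1) (hy' : y' % 2 = 1)
    (h : (2 : ℤ) ^ d * y = 2 ^ d' * y') : d = d' ∧ y = y' := by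
  have key : ∀ (d d' : ℕ) (y y' : ℤ), y % 2 = 1 → y' % 2 = 1 → (2 : ℤ) ^ d * y = 2 ^ d' * y' →
      d ≤ d' → d = d' ∧ y = y' := by
    intro d d' y y' hy hy' h hle
    obtain ⟨e, rfl⟩ := Nat.exists_eq_add_of_le hle
    rw [pow_add, mul_assoc] at h
    have h2 : y = 2 ^ e * y' := mul_left_cancel₀ (pow_ne_zero d (by norm_num)) h
    cases e with
    | zero => exact ⟨rfl, by simpa using h2⟩
    | succ e =>
      exfalso
      rw [pow_succ, mul_comm ((2 : ℤ) ^ e) 2, mul_assoc] at h2
      omega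
  rcases le_total d d' with hle | hle
  · exact key d d' y y' hy hy' h hle
  · obtain ⟨h1, h2⟩ := key d' d y' y hy' hy h.symm hle
    exact ⟨h1.symm, h2.symm⟩

theorem blkA_inj (u u' : List ℕ) (y y' : ℤ) (hu : ∀ d ∈ u, 1 ≤ d) (hu' : ∀ d ∈ u', 1 ≤ d)
    (hl : u.length = u'.length) (hy : y % 2 = 1) (hy' : y' % 2 = 1) (ha : adm u y)
    (ha' : adm u' y') (h : A u y = A u' y') : u = u' ∧ y = y' := by
  induction u generalizing u' y y' with
  | nil =>
    cases u' with
    | nil => exact ⟨rfl, h⟩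
    | cons d' u' => simp at hl
  | cons d u ih =>
    cases u' with
    | nil => simp at hl
    | cons d' u' =>
      simp only [adm] at ha ha'
      have h1 := ih u' (st d y) (st d' y') (fun e he => hu e (by simp [he]))
        (fun e he => hu' e (by simp [he])) (by simpa using hl)
        (blkA_st_odd (hu d (by simp)) ha.1) (blkA_st_odd (hu' d' (by simp)) ha'.1) ha.2 ha'.2 h
      have h2 := blkA_st_mul ha.1
      have h3 := blkA_st_mul ha'.1
      rw [h1.2] at h2
      obtain ⟨h4, h5⟩ := blkA_pow_eq hy hy' (show (2 : ℤ) ^ d * y = 2 ^ d' * y' by linarith)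
      exact ⟨by rw [h4, h1.1], h5⟩

/-- the end point determines the word (given length and total) -/
theorem A_inj {w w' : List ℕ} {x : ℤ} (hw : ∀ d ∈ w, 1 ≤ d) (hw' : ∀ d ∈ w', 1 ≤ d)
    (hl : w.length = w'.length) (hs : w.sum = w'.sum) (ha : adm w x) (ha' : adm w' x)
    (h : A w x = A w' x) : w = w' := by
  cases w with
  | nil =>
    cases w' with
    | nil => rfl
    | cons d' u' => simp at hl
  | cons d u =>
    cases w' with
    | nil => simp at hl
    | cons d' u' =>
      simp only [adm] at ha ha'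
      have h1 := blkA_inj u u' (st d x) (st d' x) (fun e he => hw e (by simp [he]))
        (fun e he => hw' e (by simp [he])) (by simpa using hl)
        (blkA_st_odd (hw d (by simp)) ha.1) (blkA_st_odd (hw' d' (by simp)) ha'.1) ha.2 ha'.2 h
      rw [h1.1] at hs ⊢
      rw [List.sum_cons, List.sum_cons] at hs
      rw [show d = d' by omega]

theorem blkA_bound (w : List ℕ) (b M : ℤ) (hM : 0 < M) (hw : ∀ d ∈ w, 1 ≤ d) (ha : adm w b)
    (hb : |b| < 5 ^ (w.length + 1) * M) : |A w b| < 5 * 2 ^ w.sum * M := by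
  induction w generalizing b M with
  | nil => simpa [A] using hb
  | cons d w ih =>
    simp only [adm] at ha
    simp only [A, List.sum_cons]
    have h1 := blkA_st_mul ha.1
    have h2 : (2 : ℤ) ≤ 2 ^ d := by
      calc (2 : ℤ) = 2 ^ 1 := by norm_num
        _ ≤ 2 ^ d := pow_le_pow_right₀ (by norm_num) (hw d (by simp))
    have h3 : |st d b| < 5 ^ (w.length + 1) * (2 ^ d * M) := by
      rw [List.length_cons, abs_lt] at hb
      rw [abs_lt]
      have e1 : (5 : ℤ) ^ (w.length + 1 + 1) * M = 5 * (5 ^ (w.length + 1) * M) := by ring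
      rw [e1] at hb
      set X : ℤ := 5 ^ (w.length + 1) * M with hX
      have e2 : (5 : ℤ) ^ (w.length + 1) * (2 ^ d * M) = 2 ^ d * X := by rw [hX]; ring
      rw [e2]
      obtain ⟨hb1, hb2⟩ := hb
      constructor
      · nlinarith [mul_le_mul_of_nonneg_left (show -(5 * X) + 1 ≤ b by omega)
          (show (0 : ℤ) ≤ 2 ^ d by positivity)]
      · nlinarith [mul_le_mul_of_nonneg_left (show b ≤ 5 * X - 1 by omega)
          (show (0 : ℤ) ≤ 2 ^ d by positivity)]
    have h4 := ih (st d b) (2 ^ d * M) (by positivity) (fun e he => hw e (by simp [he])) ha.2 h3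
    calc |A w (st d b)| < 5 * 2 ^ w.sum * (2 ^ d * M) := h4
      _ = 5 * 2 ^ (d + w.sum) * M := by rw [pow_add]; ring

theorem A_bound {n : ℕ} {w : List ℕ} {b : ℤ} (hw : ∀ d ∈ w, 1 ≤ d) (hn : w.length = n)
    (ha : adm w b) (h0 : 0 ≤ b) (hb : b < 5 ^ (n + 1)) : |A w b| < 5 * 2 ^ w.sum := by
  have := blkA_bound w b 1 one_pos hw ha (by rw [abs_of_nonneg h0, hn, mul_one]; exact hb)
  rwa [mul_one] at this

end Pool.Agent.Lib_helper56.Low
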