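import Pool.Agent.LowAsm.LS

set_option autoImplicit false

namespace Pool.Agent.Lib_helper56.Low

open Finset

/-! ### Block CV: conversion to the trees -/

/-- the 5x+1 map -/
def T5 (m : ℤ) : ℤ := if m % 2 = 0 then m / 2 else (5 * m + 1) / 2

private theorem cv1_T5_two_mul (x : ℤ) : T5 (2 * x) = x := by
  unfold T5
  rw [if_pos (by omega)]
  omega

private theorem cv1_T5_pow (d : ℕ) (x : ℤ) : T5^[d] (2 ^ d * x) = x := by
  induction d with
  | zero => simp
  | succ d ih =>
    rw [Function.iterate_succ_apply]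
    have h : (2 : ℤ) ^ (d + 1) * x = 2 * (2 ^ d * x) := by ring
    rw [h, cv1_T5_two_mul, ih]

private theorem cv1_T5_st (d : ℕ) (x : ℤ) (hd : 1 ≤ d) (h : (5 : ℤ) ∣ 2 ^ d * x - 1) :
    T5^[d] (st d x) = x := by
  obtain ⟨e, rfl⟩ : ∃ e, d = e + 1 := ⟨d - 1, by omega⟩
  obtain ⟨y, hy⟩ := h
  have hst : st (e + 1) x = y := by
    unfold st
    rw [hy]
    omega
  have h2 : (2 : ℤ) ^ (e + 1) * x = 2 * (2 ^ e * x) := by ring
  rw [hst, Function.iterate_succ_apply]
  have hT : T5 y = 2 ^ e * x := by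
    unfold T5
    rw [h2] at hy
    rw [if_neg (by omega)]
    omega
  rw [hT, cv1_T5_pow]

theorem T5_iter_A {w : List ℕ} {x : ℤ} (hw : ∀ d ∈ w, 1 ≤ d) (h : adm w x) :
    T5^[w.sum] (A w x) = x := by
  induction w generalizing x with
  | nil => simp [A]
  | cons d w ih =>
    obtain ⟨h1, h2⟩ := h
    have h3 := ih (x := st d x) (fun e he => hw e (List.mem_cons_of_mem _ he)) h2
    rw [List.sum_cons, Function.iterate_add_apply]
    show T5^[d] (T5^[w.sum] (A w (st d x))) = x
    rw [h3]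
    exact cv1_T5_st d x (hw d List.mem_cons_self) h1

private theorem cv1_T5_subset (k : ℕ) (a : ℤ) :
    {n : ℤ | T5^[k + 1] n = a} ⊆
      (fun b : ℤ => 2 * b) '' {n : ℤ | T5^[k] n = a} ∪
        (fun b : ℤ => (2 * b - 1) / 5) '' {n : ℤ | T5^[k] n = a} := by
  intro n hn
  simp only [Set.mem_ofPred_eq, Function.iterate_succ_apply] at hn
  by_cases h : n % 2 = 0
  · left
    refine ⟨T5 n, hn, ?_⟩
    simp only [T5, if_pos h]
    omega
  · right
    refine ⟨T5 n, hn, ?_⟩
    simp only [T5, if_neg h]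
    omega

theorem T5_finite (k : ℕ) (a : ℤ) : {n : ℤ | T5^[k] n = a}.Finite := by
  induction k with
  | zero => simp
  | succ k ih =>
    exact ((ih.image _).union (ih.image _)).subset (cv1_T5_subset k a)

theorem T5_le (k : ℕ) (a : ℤ) : (({n : ℤ | T5^[k] n = a}.ncard : ℕ) : ℝ) ≤ 2 ^ k := by
  have key : ({n : ℤ | T5^[k] n = a}.ncard : ℕ) ≤ 2 ^ k := by
    induction k with
    | zero => simp
    | succ k ih =>
      have hf := T5_finite k a
      calc ({n : ℤ | T5^[k + 1] n = a}.ncard : ℕ)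
          ≤ ((fun b : ℤ => 2 * b) '' {n : ℤ | T5^[k] n = a} ∪
              (fun b : ℤ => (2 * b - 1) / 5) '' {n : ℤ | T5^[k] n = a}).ncard :=
            Set.ncard_le_ncard (cv1_T5_subset k a) ((hf.image _).union (hf.image _))
        _ ≤ ((fun b : ℤ => 2 * b) '' {n : ℤ | T5^[k] n = a}).ncard +
              ((fun b : ℤ => (2 * b - 1) / 5) '' {n : ℤ | T5^[k] n = a}).ncard :=
            Set.ncard_union_le _ _
        _ ≤ {n : ℤ | T5^[k] n = a}.ncard + {n : ℤ | T5^[k] n = a}.ncard :=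
            Nat.add_le_add (Set.ncard_image_le hf) (Set.ncard_image_le hf)
        _ ≤ 2 ^ (k + 1) := by
            rw [pow_succ]
            omega
  exact_mod_cast key

theorem count_le (K n k : ℕ) (a : ℤ) :
    (((words K n).filter (fun w => adm w a ∧ w.sum = k)).card : ℝ) ≤
      (({n : ℤ | T5^[k] n = a}.ncard : ℕ) : ℝ) := by
  have key : ((words K n).filter (fun w => adm w a ∧ w.sum = k)).card ≤
      ({n : ℤ | T5^[k] n = a}.ncard : ℕ) := by
    rw [← Set.ncard_coe_finset]
    refine Set.ncard_le_ncard_of_injOn (fun w => A w a) ?_ ?_ (T5_finite k a)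
    · intro w hw
      simp only [Finset.coe_filter, Set.mem_ofPred_eq, mem_words] at hw
      obtain ⟨⟨_, h1⟩, h2, h3⟩ := hw
      simp only [Set.mem_ofPred_eq]
      rw [← h3]
      exact T5_iter_A (fun d hd => (h1 d hd).1) h2
    · intro w hw w' hw' h
      simp only [Finset.coe_filter, Set.mem_ofPred_eq, mem_words] at hw hw'
      obtain ⟨⟨hl, h1⟩, h2, h3⟩ := hw
      obtain ⟨⟨hl', h1'⟩, h2', h3'⟩ := hw'
      exact A_inj (fun d hd => (h1 d hd).1) (fun d hd => (h1' d hd).1) (hl.trans hl'.symm)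
        (h3.trans h3'.symm) h2 h2' h
  exact_mod_cast key

end Pool.Agent.Lib_helper56.Low
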