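import Pool.Agent.LowAsm.CV1

set_option autoImplicit false

namespace Pool.Agent.Lib_helper56.Low

open Finset

private theorem cv2_v_le (K n : ℕ) (a : ℤ) :
    v K n a ≤ ∑ k ∈ Icc n (K * n), (({m : ℤ | T5^[k] m = a}.ncard : ℕ) : ℝ) * (5 / 6 : ℝ) ^ k := by
  have h1 : v K n a = ∑ w ∈ (words K n).filter (fun w => adm w a), (5 / 6 : ℝ) ^ w.sum := by
    rw [v_eq_sum, Finset.sum_filter]
  have h2 : ∑ w ∈ (words K n).filter (fun w => adm w a), (5 / 6 : ℝ) ^ w.sum =
      ∑ k ∈ Icc n (K * n), ∑ w ∈ ((words K n).filter (fun w => adm w a)).filter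
        (fun w => w.sum = k), (5 / 6 : ℝ) ^ w.sum := by
    refine (Finset.sum_fiberwise_of_maps_to (fun w hw => ?_) _).symm
    rw [Finset.mem_Icc]
    exact sum_le_of_mem_words (Finset.mem_filter.mp hw).1
  rw [h1, h2]
  refine Finset.sum_le_sum (fun k _ => ?_)
  have h3 : ∑ w ∈ ((words K n).filter (fun w => adm w a)).filter
        (fun w => w.sum = k), (5 / 6 : ℝ) ^ w.sum =
      (((words K n).filter (fun w => adm w a ∧ w.sum = k)).card : ℝ) * (5 / 6 : ℝ) ^ k := by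
    rw [Finset.filter_filter, ← nsmul_eq_mul, ← Finset.sum_const]
    refine Finset.sum_congr rfl (fun w hw => ?_)
    rw [(Finset.mem_filter.mp hw).2.2]
  rw [h3]
  exact mul_le_mul_of_nonneg_right (count_le K n k a) (by positivity)

private theorem cv2_exists_K (ε : ℝ) (hε : 0 < ε) :
    ∃ K : ℕ, 20 ≤ K ∧ - Real.log (1 - (5 / 6 : ℝ) ^ K) ≤ ε := by
  have h1 : Filter.Tendsto (fun K : ℕ => (5 / 6 : ℝ) ^ K) Filter.atTop (nhds 0) :=
    tendsto_pow_atTop_nhds_zero_of_lt_one (by norm_num) (by norm_num)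
  have h2 : Filter.Tendsto (fun K : ℕ => - Real.log (1 - (5 / 6 : ℝ) ^ K)) Filter.atTop (nhds 0) := by
    have h3 : Filter.Tendsto (fun K : ℕ => 1 - (5 / 6 : ℝ) ^ K) Filter.atTop (nhds (1 - 0)) :=
      tendsto_const_nhds.sub h1
    have h4 := ((Real.continuousAt_log (x := 1 - 0) (by norm_num)).tendsto.comp h3).neg
    simpa using h4
  have h5 : ∀ᶠ K : ℕ in Filter.atTop, - Real.log (1 - (5 / 6 : ℝ) ^ K) < ε :=
    h2.eventually (gt_mem_nhds hε)
  obtain ⟨K, hK1, hK2⟩ := (h5.and (Filter.eventually_ge_atTop 20)).exists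
  exact ⟨K, hK2, hK1.le⟩

theorem lower_freq (a : ℤ) (ha : ¬ (5 : ℤ) ∣ a) (ε : ℝ) (hε : 0 < ε) :
    ∃ᶠ k : ℕ in Filter.atTop,
      Real.log (6 / 5) - ε ≤ Real.log (({n : ℤ | T5^[k] n = a}.ncard : ℕ) : ℝ) / (k : ℝ) := by
  rw [Filter.frequently_atTop]
  intro N
  by_contra hcon
  push Not at hcon
  obtain ⟨K, hK20, hKκ⟩ := cv2_exists_K (ε / 4) (by positivity)
  obtain ⟨n₀, hn₀⟩ := low_sharp hK20 (ε / 4) (by positivity)
  obtain ⟨n₁, hn₁⟩ := exists_nat_gt (48 * (K : ℝ) / ε ^ 2)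
  set n := max n₀ (max n₁ N) with hn
  have hnn₀ : n₀ ≤ n := le_max_left _ _
  have hnn₁ : n₁ ≤ n := le_trans (le_max_left _ _) (le_max_right _ _)
  have hnN : N ≤ n := le_trans (le_max_right _ _) (le_max_right _ _)
  have hlow := hn₀ n hnn₀ a ha
  have hv1 := (v_one_bounds (K := K) (by omega) ha).1
  have hv1pos : 0 < v K 1 a := by linarith
  have hvn : 1 / 3 * Real.exp (-(ε / 2) * n) ≤ v K (n + 1) a := by
    have h1 : v K (n + 1) a = hh K n a * v K 1 a := by
      unfold hh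
      rw [div_mul_cancel₀ _ hv1pos.ne']
    have h2 : Real.exp (-(ε / 2) * n) ≤ hh K n a := by
      refine le_trans (Real.exp_le_exp.mpr ?_) hlow
      have : (0 : ℝ) ≤ n := Nat.cast_nonneg n
      nlinarith
    rw [h1, mul_comm (hh K n a)]
    exact mul_le_mul hv1 h2 (Real.exp_pos _).le hv1pos.le
  have hterm : ∀ k ∈ Icc (n + 1) (K * (n + 1)),
      (({m : ℤ | T5^[k] m = a}.ncard : ℕ) : ℝ) * (5 / 6 : ℝ) ^ k ≤ Real.exp (-ε * (n + 1)) := by
    intro k hk
    rw [Finset.mem_Icc] at hk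
    have hkN : N ≤ k := by omega
    have hkpos : (0 : ℝ) < k := by
      have : 0 < k := by omega
      exact_mod_cast this
    have h1 := hcon k hkN
    rcases Nat.eq_zero_or_pos ({m : ℤ | T5^[k] m = a}.ncard) with h0 | h0
    · rw [h0]
      simp only [Nat.cast_zero, zero_mul]
      exact (Real.exp_pos _).le
    · have h0' : (0 : ℝ) < (({m : ℤ | T5^[k] m = a}.ncard : ℕ) : ℝ) := by exact_mod_cast h0
      rw [div_lt_iff₀ hkpos] at h1
      have h2 : (({m : ℤ | T5^[k] m = a}.ncard : ℕ) : ℝ) ≤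
          Real.exp ((Real.log (6 / 5) - ε) * k) := by
        rw [← Real.log_le_iff_le_exp h0']
        exact h1.le
      have h3 : (5 / 6 : ℝ) ^ k = Real.exp (-(Real.log (6 / 5) * k)) := by
        have h4 : (5 / 6 : ℝ) = Real.exp (-Real.log (6 / 5)) := by
          rw [Real.exp_neg, Real.exp_log (by norm_num)]
          norm_num
        rw [h4, ← Real.exp_nat_mul]
        congr 1
        ring
      calc (({m : ℤ | T5^[k] m = a}.ncard : ℕ) : ℝ) * (5 / 6 : ℝ) ^ k
          ≤ Real.exp ((Real.log (6 / 5) - ε) * k) * Real.exp (-(Real.log (6 / 5) * k)) := by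
            rw [h3]
            exact mul_le_mul_of_nonneg_right h2 (Real.exp_pos _).le
        _ = Real.exp (-ε * k) := by
            rw [← Real.exp_add]
            congr 1
            ring
        _ ≤ Real.exp (-ε * (n + 1)) := by
            apply Real.exp_le_exp.mpr
            have h5 : ((n : ℝ) + 1) ≤ k := by exact_mod_cast hk.1
            nlinarith
  have hsum : v K (n + 1) a ≤ (K * (n + 1) : ℕ) * Real.exp (-ε * (n + 1)) := by
    refine (cv2_v_le K (n + 1) a).trans ((Finset.sum_le_sum hterm).trans ?_)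
    rw [Finset.sum_const, nsmul_eq_mul]
    refine mul_le_mul_of_nonneg_right ?_ (Real.exp_pos _).le
    rw [Nat.card_Icc]
    exact_mod_cast (by omega : K * (n + 1) + 1 - (n + 1) ≤ K * (n + 1))
  have hfin : Real.exp (ε / 2 * (n + 1)) ≤ 3 * (K * (n + 1)) := by
    have h1 : 1 / 3 * Real.exp (-(ε / 2) * n) ≤ (K * (n + 1) : ℕ) * Real.exp (-ε * (n + 1)) :=
      hvn.trans hsum
    have h2 : Real.exp (ε / 2 * (n + 1)) ≤ Real.exp (-(ε / 2) * n) * Real.exp (ε * (n + 1)) := by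
      rw [← Real.exp_add]
      apply Real.exp_le_exp.mpr
      nlinarith
    have h3 : Real.exp (-ε * (n + 1)) * Real.exp (ε * (n + 1)) = 1 := by
      rw [← Real.exp_add]
      simp
    have h4 := mul_le_mul_of_nonneg_right h1 (Real.exp_pos (ε * (n + 1))).le
    rw [mul_assoc ((K * (n + 1) : ℕ) : ℝ), h3] at h4
    push_cast at h4
    linarith
  have hquad := Real.quadratic_le_exp_of_nonneg (x := ε / 2 * (n + 1)) (by positivity)
  have hbig : 48 * (K : ℝ) < ε ^ 2 * (n + 1) := by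
    rw [div_lt_iff₀ (by positivity)] at hn₁
    have h1 : (n₁ : ℝ) ≤ n := by exact_mod_cast hnn₁
    have h2 : (n₁ : ℝ) * ε ^ 2 ≤ n * ε ^ 2 := mul_le_mul_of_nonneg_right h1 (by positivity)
    nlinarith [sq_nonneg ε]
  have hn1 : (0 : ℝ) < (n : ℝ) + 1 := by positivity
  have h5 : 48 * (K : ℝ) * (n + 1) < ε ^ 2 * (n + 1) * (n + 1) :=
    mul_lt_mul_of_pos_right hbig hn1
  have h6 : (0 : ℝ) ≤ K := Nat.cast_nonneg K
  have h7 : 0 < ε / 2 * ((n : ℝ) + 1) := by positivity
  have h8 : (0 : ℝ) ≤ K * (n + 1) := by positivity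
  nlinarith

theorem lower_final (a : ℤ) (ha : ¬ (5 : ℤ) ∣ a) : Real.log (6 / 5) ≤ Filter.limsup
    (fun k : ℕ => Real.log (({n : ℤ | T5^[k] n = a}.ncard : ℕ) : ℝ) / (k : ℝ)) Filter.atTop := by
  have hbdd : Filter.IsBoundedUnder (· ≤ ·) Filter.atTop
      (fun k : ℕ => Real.log (({n : ℤ | T5^[k] n = a}.ncard : ℕ) : ℝ) / (k : ℝ)) := by
    refine ⟨Real.log 2, ?_⟩
    rw [Filter.eventually_map]
    filter_upwards with k
    have hlog2 : 0 ≤ Real.log 2 := Real.log_nonneg (by norm_num)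
    rcases Nat.eq_zero_or_pos k with rfl | hk
    · simpa using hlog2
    · have hk' : (0 : ℝ) < k := by exact_mod_cast hk
      rw [div_le_iff₀ hk']
      rcases Nat.eq_zero_or_pos ({m : ℤ | T5^[k] m = a}.ncard) with h0 | h0
      · rw [h0]
        simp only [Nat.cast_zero, Real.log_zero]
        positivity
      · have h0' : (0 : ℝ) < (({m : ℤ | T5^[k] m = a}.ncard : ℕ) : ℝ) := by exact_mod_cast h0
        calc Real.log (({n : ℤ | T5^[k] n = a}.ncard : ℕ) : ℝ) ≤ Real.log (2 ^ k) :=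
              Real.log_le_log h0' (T5_le k a)
          _ = Real.log 2 * k := by rw [Real.log_pow]; ring
  refine le_of_forall_sub_le (fun ε hε => ?_)
  exact Filter.le_limsup_of_frequently_le (lower_freq a ha ε hε) hbdd

end Pool.Agent.Lib_helper56.Low
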