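import Pool.Agent.LowAsm.SSb

set_option autoImplicit false

namespace Pool.Agent.Lib_helper56.Low

open Finset


theorem DM_sum_shift (f : ℕ → ℝ) (C : ℝ) (hC : ∀ i, |f i| ≤ C) (N v : ℕ) :
    ∑ s ∈ range N, f (s + v) ≤ ∑ s ∈ range N, f s + 2 * C * v := by
  induction v with
  | zero => simp
  | succ v ih =>
    have h1 : ∑ s ∈ range N, f (s + (v + 1)) = ∑ s ∈ range N, f (s + v) + f (N + v) - f v := by
      have h2 := Finset.sum_range_succ (fun s => f (s + v)) N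
      have h3 := Finset.sum_range_succ' (fun s => f (s + v)) N
      rw [h2] at h3
      have h4 : ∀ s, f (s + 1 + v) = f (s + (v + 1)) := fun s => by congr 1; ring
      simp only [h4, zero_add] at h3
      linarith
    rw [h1]
    have h5 := (abs_le.1 (hC (N + v))).2
    have h6 := (abs_le.1 (hC v)).1
    push_cast
    linarith

theorem DM_EE_neg (K l t : ℕ) (x : ℤ) (F : ℤ → ℝ) :
    EE K l t x (fun y => - F y) = - EE K l t x F := by
  unfold EE
  rw [← Finset.sum_neg_distrib]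
  exact Finset.sum_congr rfl fun w _ => by ring

theorem DM_EE_abs {K : ℕ} (hK : 8 ≤ K) (l t : ℕ) {x : ℤ} (h : ¬ (5 : ℤ) ∣ x) (F : ℤ → ℝ) (C : ℝ)
    (hF : ∀ y, ¬ (5 : ℤ) ∣ y → |F y| ≤ C) : |EE K l t x F| ≤ C := by
  rw [abs_le]
  constructor
  · exact EE_ge hK l t h F (-C) fun y hy => (abs_le.1 (hF y hy)).1
  · have := EE_ge hK l t h (fun y => - F y) (-C) fun y hy => by
      have := (abs_le.1 (hF y hy)).2
      linarith
    rw [DM_EE_neg] at this
    linarith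

theorem DM_argmin (K l M : ℕ) : ∃ x₀ : ℤ, ¬ (5 : ℤ) ∣ x₀ ∧
    ∀ y : ℤ, ¬ (5 : ℤ) ∣ y → SS K l M x₀ ≤ SS K l M y := by
  classical
  set P : ℤ := 5 ^ (l * M + 1) with hP
  have hPpos : 0 < P := by positivity
  have h5P : (5 : ℤ) ∣ P := by rw [hP, pow_succ]; exact Dvd.intro_left _ rfl
  let T : Finset ℤ := (Finset.Ico (0 : ℤ) P).filter (fun x => ¬ (5 : ℤ) ∣ x)
  have hT : T.Nonempty := by
    refine ⟨1, ?_⟩
    simp only [T, Finset.mem_filter, Finset.mem_Ico]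
    refine ⟨⟨by norm_num, ?_⟩, by norm_num⟩
    have : (5 : ℤ) ≤ P := Int.le_of_dvd hPpos h5P
    linarith
  obtain ⟨x₀, hx₀, hmin⟩ := Finset.exists_min_image T (SS K l M) hT
  refine ⟨x₀, (Finset.mem_filter.1 hx₀).2, fun y hy => ?_⟩
  have hy' : y = y % P + P * (y / P) := (Int.emod_add_mul_ediv y P).symm
  have h1 : SS K l M y = SS K l M (y % P) := by
    conv_lhs => rw [hy', hP]
    rw [SS_shift]
  rw [h1]
  apply hmin
  simp only [T, Finset.mem_filter, Finset.mem_Ico]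
  refine ⟨⟨Int.emod_nonneg _ hPpos.ne', Int.emod_lt_of_pos _ hPpos⟩, fun h => hy ?_⟩
  rw [hy']
  exact dvd_add h (h5P.mul_right _)

theorem DM_alg1 (N K lt h g : ℝ) (hK : 0 < K) (hg : 0 < g) :
    N * (K * lt) * (h / (16 * K * g)) * 2 = N * (h * lt / (8 * g)) := by
  field_simp; ring

theorem DM_alg2 (L e h g N lt : ℝ) (hL : 0 < L) (he : 0 < e) (hg : 0 < g) :
    (L / e) * ((e * h / (8 * L * g)) * lt * N) = N * (h * lt / (8 * g)) := by
  field_simp

theorem DM_alg3 (N h lt g : ℝ) (hg : 0 < g) :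
    N * (h * lt / (4 * g)) = 2 * (N * (h * lt / (8 * g))) := by
  field_simp; ring

/-- final combination, pure real numbers -/
theorem DM_alg4 (N m a M γ α C X Z σ ε DD NU : ℝ) (hN : 0 < N) (hm : 0 < m) (hM : 0 < M)
    (hγ : 0 < γ) (hα : 0 < α) (hε : ε = α * γ / 4)
    (hγD : γ = - DD - σ) (haσ : a ≤ M * σ) (hMa : M * (σ - ε) ≤ a)
    (hNU : N * m * α * 2 ≤ NU) (hfin : N * m * a + 1 / 2 * (-(M * DD) - a) * NU ≤
      m * (M * (X + 2 * C * Z))) (hX : X ≤ N * σ) (hZ : 2 * C * Z ≤ N * ε) : False := by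
  have h1 : M * γ * (N * m * α) ≤ 1 / 2 * (-(M * DD) - a) * NU := by
    have e1 : M * γ ≤ -(M * DD) - a := by
      rw [hγD]
      linarith
    have e3 : 0 ≤ N * m * α * 2 := by positivity
    have e4 : M * γ * (N * m * α * 2) ≤ (-(M * DD) - a) * NU := by
      apply mul_le_mul e1 hNU e3
      have : 0 < M * γ := by positivity
      linarith
    linarith
  have h2 : N * m * a + M * γ * (N * m * α) ≤ m * (M * (X + 2 * C * Z)) := by linarith
  have h3 : N * a + M * γ * (N * α) ≤ M * (X + 2 * C * Z) := by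
    have e : m * (N * a + M * γ * (N * α)) ≤ m * (M * (X + 2 * C * Z)) := by
      refine le_trans (le_of_eq ?_) h2; ring
    exact le_of_mul_le_mul_left e hm
  have h6 : N * (M * (σ - ε)) + M * γ * (N * α) ≤ M * (N * σ + N * ε) := by
    have e1 : N * (M * (σ - ε)) ≤ N * a := by gcongr
    have e2 : M * (X + 2 * C * Z) ≤ M * (N * σ + N * ε) := by
      gcongr
    linarith
  have h7 : M * N * (γ * α - 2 * ε) ≤ 0 := by
    have : M * N * (γ * α - 2 * ε) = N * (M * (σ - ε)) + M * γ * (N * α) - M * (N * σ + N * ε) := by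
      ring
    linarith
  have h8 : 0 < γ * α - 2 * ε := by
    rw [hε]
    have : 0 < α * γ := by positivity
    linarith
  have h9 : 0 < M * N * (γ * α - 2 * ε) := by positivity
  linarith

theorem DM_key {K : ℕ} (hK : 8 ≤ K) {l : ℕ} (hl : 1 ≤ l) {h : ℝ} (hh0 : 0 < h)
    (hk : ∀ x : ℤ, ¬ (5 : ℤ) ∣ x → h * l ≤ ∑ w ∈ words K l, Real.negMulLog (ker K l x w))
    (D : ℝ) (hD : ∀ c : ℤ, ¬ (5 : ℤ) ∣ c → DD K l c ≤ D) (σ : ℝ)
    (mm : ℕ → ℝ) (hmm : ∀ M, ∀ y : ℤ, ¬ (5 : ℤ) ∣ y → mm M ≤ SS K l M y)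
    (hmm' : ∀ M, ∃ y : ℤ, ¬ (5 : ℤ) ∣ y ∧ mm M = SS K l M y)
    (hσ : ∀ M : ℕ, mm M ≤ M * σ) (hσ' : ∀ ε > 0, ∃ M : ℕ, 1 ≤ M ∧ M * (σ - ε) ≤ mm M) :
    - D ≤ σ := by
  by_contra hcon
  push Not at hcon
  obtain ⟨γ, hγ⟩ : ∃ γ, γ = - D - σ := ⟨_, rfl⟩
  have hγ0 : 0 < γ := by rw [hγ]; linarith
  have hlog5 : 0 < Real.log 5 := Real.log_pos (by norm_num)
  have hK0 : (0 : ℝ) < K := by
    have : 0 < K := by omega
    exact_mod_cast this
  have hl0 : (0 : ℝ) < l := by exact_mod_cast hl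
  obtain ⟨α, hα⟩ : ∃ α, α = h / (16 * K * Real.log 5) := ⟨_, rfl⟩
  have hα0 : 0 < α := by rw [hα]; positivity
  obtain ⟨ε, hε⟩ : ∃ ε, ε = α * γ / 4 := ⟨_, rfl⟩
  have hε0 : 0 < ε := by rw [hε]; positivity
  obtain ⟨M, hM1, hM⟩ := hσ' ε hε0
  have hM0 : (0 : ℝ) < M := by exact_mod_cast hM1
  obtain ⟨L, hL⟩ : ∃ L, L = l + l * M := ⟨_, rfl⟩
  have hL1 : 1 ≤ L := by rw [hL]; omega
  have hL0 : (0 : ℝ) < L := by exact_mod_cast hL1
  obtain ⟨ε₂, hε₂, hLC⟩ := LC K L hK hL1 h hh0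
  obtain ⟨τ₁, hτ₁⟩ := hLC l hl hk
  obtain ⟨δ, hδ⟩ : ∃ δ, δ = ε₂ * h / (8 * L * Real.log 5) := ⟨_, rfl⟩
  have hδ0 : 0 < δ := by rw [hδ]; positivity
  obtain ⟨R₀, hR₀, hSL⟩ := SL K (by omega) δ hδ0
  obtain ⟨C, hC0, hC⟩ := log_hh_bdd hK l
  obtain ⟨τ₀, hτ₀⟩ : ∃ τ₀, τ₀ = max τ₁ 1 := ⟨_, rfl⟩
  have hτ₀1 : 1 ≤ τ₀ := by rw [hτ₀]; exact le_max_right _ _
  have hτ₀τ₁ : τ₁ ≤ τ₀ := by rw [hτ₀]; exact le_max_left _ _
  -- choose R
  obtain ⟨R', hR'⟩ := exists_nat_ge (2 * C * ((K + 1) * (l * (R₀ * τ₀)) + M) / ε)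
  obtain ⟨R, hR⟩ : ∃ R, R = max R' R₀ := ⟨_, rfl⟩
  have hRR₀ : R₀ ≤ R := by rw [hR]; exact le_max_right _ _
  have hRbig : 2 * C * ((K + 1) * (l * (R₀ * τ₀)) + M) ≤ R * ε := by
    have h1 : (R' : ℝ) ≤ R := by rw [hR]; exact_mod_cast le_max_left _ _
    have h2 := (div_le_iff₀ hε0).1 hR'
    calc _ ≤ R' * ε := h2
      _ ≤ R * ε := by gcongr
  obtain ⟨N, hN⟩ : ∃ N, N = R * τ₀ := ⟨_, rfl⟩
  have hR1 : 1 ≤ R := le_trans hR₀ hRR₀
  have hN1 : 1 ≤ N := by rw [hN]; exact Nat.mul_pos hR1 hτ₀1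
  have hN0 : (0 : ℝ) < N := by exact_mod_cast hN1
  have hRN : (R : ℝ) ≤ N := by
    have : R ≤ N := by rw [hN]; exact Nat.le_mul_of_pos_right R hτ₀1
    exact_mod_cast this
  obtain ⟨x, hx, hxN⟩ := hmm' N
  obtain ⟨τ, hτ0, hτR, hsum⟩ := hSL R hRR₀ l hl τ₀ hτ₀1 (fun j s => cs K l x j s)
    (fun j s => cs_nonneg hK l hx j s) (fun j s => cs_le hK l hx j s)
    (fun τ m s => cs_sub hK hl hx τ m s)
  have hτ1 : 1 ≤ τ := le_trans hτ₀1 hτ0
  have hτpos : (0 : ℝ) < τ := by exact_mod_cast hτ1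
  rw [← hN] at hsum
  -- lower bound for the total nu
  obtain ⟨NU, hNU⟩ : ∃ NU, NU = ∑ s ∈ range N, ∑ j ∈ Icc 1 (K * (l * τ)), nu K l x s (l * τ + j) L :=
    ⟨_, rfl⟩
  have hNUge : N * (h * (l * τ) / (8 * Real.log 5)) ≤ NU := by
    have h1 : ∀ s ∈ range N, h * (l * τ : ℕ) / (4 * Real.log 5)
        - (L / ε₂) * (cs K l x (K * (l * τ)) (s + τ) - cs K l x ((K + 1) * (l * τ)) s
            + cs K l x (l * τ) s) ≤ ∑ j ∈ Icc 1 (K * (l * τ)), nu K l x s (l * τ + j) L :=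
      fun s _ => hτ₁ τ (le_trans hτ₀τ₁ hτ0) x hx s
    have h2 := Finset.sum_le_sum h1
    rw [Finset.sum_sub_distrib, ← Finset.mul_sum, Finset.sum_const, Finset.card_range, nsmul_eq_mul,
      ← hNU] at h2
    have h3 : (L / ε₂) * ∑ s ∈ range N, (cs K l x (K * (l * τ)) (s + τ)
        - cs K l x ((K + 1) * (l * τ)) s + cs K l x (l * τ) s) ≤
        (L / ε₂) * (δ * (l * τ) * (R * τ₀)) := by
      apply mul_le_mul_of_nonneg_left hsum (by positivity)
    have h4 : (L / ε₂) * (δ * (l * τ) * (R * τ₀)) = N * (h * (l * τ) / (8 * Real.log 5)) := by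
      rw [hδ, hN]; push_cast
      exact DM_alg2 L ε₂ h (Real.log 5) (R * τ₀) (l * τ) hL0 hε₂ hlog5
    have h5 : (N : ℝ) * (h * (l * τ : ℕ) / (4 * Real.log 5)) =
        2 * (N * (h * (l * τ) / (8 * Real.log 5))) := by
      push_cast; exact DM_alg3 _ _ _ _ hlog5
    rw [h5] at h2
    linarith
  -- the gain for each pair
  have hu : ∀ p : ℕ, 1 ≤ p → ∃ u : ℕ, p ≤ l * u + 1 ∧ l * u + 1 ≤ p + l ∧ u ≤ p := by
    intro p hp
    refine ⟨(p + l - 2) / l, ?_, ?_, ?_⟩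
    · have h1 := Nat.div_add_mod (p + l - 2) l
      have h2 := Nat.mod_lt (p + l - 2) (show 0 < l by omega)
      omega
    · have h1 := Nat.mul_div_le (p + l - 2) l
      omega
    · rw [Nat.div_le_iff_le_mul_add_pred (by omega)]
      have : p ≤ l * p := Nat.le_mul_of_pos_left p (by omega)
      omega
  choose! u hu1 hu2 hu3 using hu
  have hMσ : mm M ≤ -(M * D) := by
    have := hσ M
    have h1 : (M : ℝ) * σ ≤ -(M * D) := by
      have : (M : ℝ) * (σ + D) ≤ 0 := mul_nonpos_of_nonneg_of_nonpos hM0.le (by linarith)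
      linarith
    linarith
  have hgain : ∀ s ∈ range N, ∀ j ∈ Icc 1 (K * (l * τ)),
      mm M + 1 / 2 * nu K l x s (l * τ + j) L * (-(M * D) - mm M) ≤
        EE K l (s + u (l * τ + j)) x (SS K l M) := by
    intro s _ j hj
    rw [Finset.mem_Icc] at hj
    have hp : 1 ≤ l * τ + j := by omega
    refine nu_gain hK hl (SS K l M) (l * M) (fun x y => SS_shift K l M x y) (mm M) (-(M * D)) hMσ
      (hmm M) (fun c hc => SS_class hK l M D hD c hc) hx s (u (l * τ + j)) (l * τ + j) L hp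
      (hu1 _ hp) ?_
    have := hu2 _ hp
    rw [hL]
    omega
  have hgsum := Finset.sum_le_sum fun s hs => Finset.sum_le_sum (hgain s hs)
  have hcard : ((Icc 1 (K * (l * τ))).card : ℝ) = K * (l * τ) := by
    rw [Nat.card_Icc]; push_cast [Nat.add_sub_cancel]; ring
  -- LHS
  have hLHS : ∑ s ∈ range N, ∑ j ∈ Icc 1 (K * (l * τ)),
      (mm M + 1 / 2 * nu K l x s (l * τ + j) L * (-(M * D) - mm M)) =
      N * (K * (l * τ)) * mm M + 1 / 2 * (-(M * D) - mm M) * NU := by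
    simp only [Finset.sum_add_distrib, Finset.sum_const, nsmul_eq_mul, hcard, Finset.card_range]
    rw [hNU, Finset.mul_sum]
    congr 1
    · ring
    · refine Finset.sum_congr rfl fun s _ => ?_
      rw [Finset.mul_sum]
      exact Finset.sum_congr rfl fun j _ => by ring
  -- RHS
  have hEabs : ∀ i, |EE K l i x (fun y => Real.log (hh K l y))| ≤ C :=
    fun i => DM_EE_abs hK l i hx _ C hC
  have hRHS : ∑ s ∈ range N, ∑ j ∈ Icc 1 (K * (l * τ)), EE K l (s + u (l * τ + j)) x (SS K l M) ≤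
      (K * (l * τ)) * (M * (SS K l N x + 2 * C * ((K + 1) * (l * τ) + M))) := by
    rw [Finset.sum_comm]
    have h1 : ∀ j ∈ Icc 1 (K * (l * τ)), ∑ s ∈ range N, EE K l (s + u (l * τ + j)) x (SS K l M) ≤
        M * (SS K l N x + 2 * C * ((K + 1) * (l * τ) + M)) := by
      intro j hj
      rw [Finset.mem_Icc] at hj
      have hp : 1 ≤ l * τ + j := by omega
      have h2 : ∑ s ∈ range N, EE K l (s + u (l * τ + j)) x (SS K l M) =
          ∑ i ∈ range M, ∑ s ∈ range N,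
            EE K l (s + (u (l * τ + j) + i)) x (fun y => Real.log (hh K l y)) := by
        rw [Finset.sum_comm]
        refine Finset.sum_congr rfl fun s _ => ?_
        rw [EE_SS]
        exact Finset.sum_congr rfl fun i _ => by rw [add_assoc]
      rw [h2]
      have h3 : ∀ i ∈ range M, ∑ s ∈ range N,
            EE K l (s + (u (l * τ + j) + i)) x (fun y => Real.log (hh K l y)) ≤
          SS K l N x + 2 * C * ((K + 1) * (l * τ) + M) := by
        intro i hi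
        rw [Finset.mem_range] at hi
        have h4 := DM_sum_shift (fun t => EE K l t x (fun y => Real.log (hh K l y))) C hEabs N
          (u (l * τ + j) + i)
        rw [← SS_eq] at h4
        refine le_trans h4 ?_
        have h5 : ((u (l * τ + j) + i : ℕ) : ℝ) ≤ (K + 1) * (l * τ) + M := by
          have h6 := hu3 _ hp
          have h7 : u (l * τ + j) + i ≤ (K + 1) * (l * τ) + M := by
            have : (K + 1) * (l * τ) = K * (l * τ) + l * τ := by ring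
            omega
          calc ((u (l * τ + j) + i : ℕ) : ℝ) ≤ (((K + 1) * (l * τ) + M : ℕ) : ℝ) := by
                exact_mod_cast h7
            _ = _ := by push_cast; ring
        have := mul_le_mul_of_nonneg_left h5 (show 0 ≤ 2 * C by positivity)
        linarith
      refine le_trans (Finset.sum_le_sum h3) ?_
      rw [Finset.sum_const, Finset.card_range, nsmul_eq_mul]
    refine le_trans (Finset.sum_le_sum h1) ?_
    rw [Finset.sum_const, nsmul_eq_mul, hcard]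
  rw [hLHS] at hgsum
  have hfin := le_trans hgsum hRHS
  -- combine
  obtain ⟨m, hm⟩ : ∃ m : ℝ, m = K * (l * τ) := ⟨_, rfl⟩
  have hm0 : 0 < m := by rw [hm]; positivity
  rw [← hm] at hfin
  have h4 : SS K l N x ≤ N * σ := by rw [← hxN]; exact hσ N
  have h5 : 2 * C * ((K + 1) * (l * τ) + M) ≤ N * ε := by
    have e1 : ((K : ℝ) + 1) * (l * τ) + M ≤ (K + 1) * (l * (R₀ * τ₀)) + M := by
      have : (τ : ℝ) ≤ R₀ * τ₀ := by exact_mod_cast hτR
      gcongr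
    have e2 := mul_le_mul_of_nonneg_left e1 (show 0 ≤ 2 * C by positivity)
    have e3 : (R : ℝ) * ε ≤ N * ε := by gcongr
    linarith
  refine DM_alg4 N m (mm M) M γ α C (SS K l N x) ((K + 1) * (l * τ) + M) σ ε D NU hN0 hm0 hM0 hγ0
    hα0 hε hγ (hσ M) hM ?_ hfin h4 h5
  refine le_trans (le_of_eq ?_) hNUge
  rw [hα, hm]
  exact DM_alg1 _ _ _ _ _ hK0 hlog5

theorem DM_low {K : ℕ} (hK : 8 ≤ K) {l : ℕ} (hl : 1 ≤ l) {D : ℝ}
    (mm : ℕ → ℝ) (hmm : ∀ M, ∀ y : ℤ, ¬ (5 : ℤ) ∣ y → mm M ≤ SS K l M y)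
    (hadd : ∀ M N, mm M + mm N ≤ mm (M + N))
    (hlow : ∀ ε > 0, ∃ M : ℕ, 1 ≤ M ∧ M * (-D - ε) ≤ mm M) : LowR K (D / l) := by
  intro ε hε
  have hl0 : (0 : ℝ) < l := by exact_mod_cast hl
  obtain ⟨M, hM1, hM⟩ := hlow (l * ε / 2) (by positivity)
  have hM0 : (0 : ℝ) < M := by exact_mod_cast hM1
  -- uniform lower bound on hh K r, r < l * M
  have hbd : ∃ C : ℝ, 0 ≤ C ∧ ∀ r, r < l * M → ∀ x : ℤ, ¬ (5 : ℤ) ∣ x → Real.exp (-C) ≤ hh K r x := by
    choose C hC0 hC using fun r => log_hh_bdd hK r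
    refine ⟨∑ r ∈ range (l * M), C r, Finset.sum_nonneg fun r _ => hC0 r, fun r hr x hx => ?_⟩
    have h1 : C r ≤ ∑ r ∈ range (l * M), C r :=
      Finset.single_le_sum (f := C) (fun r _ => hC0 r) (Finset.mem_range.2 hr)
    have h2 := (abs_le.1 (hC r x hx)).1
    rw [← Real.exp_log (hh_pos hK r hx), Real.exp_le_exp]
    linarith
  obtain ⟨C, hC0, hC⟩ := hbd
  -- multiples
  have hmul : ∀ k : ℕ, k * mm M ≤ mm (k * M) ∨ k = 0 := by
    intro k
    induction k with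
    | zero => right; rfl
    | succ k ih =>
      left
      rcases ih with ih | ih
      · have := hadd (k * M) M
        rw [show (k + 1) * M = k * M + M by ring]
        push_cast
        linarith
      · subst ih
        simp
  obtain ⟨n₀, hn₀⟩ := exists_nat_ge ((C + M * |D + l * ε / 2|) / (ε / 2))
  refine ⟨max n₀ (l * M), fun n hn x hx => ?_⟩
  have hn1 : n₀ ≤ n := le_trans (le_max_left _ _) hn
  have hn2 : l * M ≤ n := le_trans (le_max_right _ _) hn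
  obtain ⟨k, hk⟩ : ∃ k, k = n / (l * M) := ⟨_, rfl⟩
  obtain ⟨r, hr⟩ : ∃ r, r = n % (l * M) := ⟨_, rfl⟩
  have hlM : 0 < l * M := Nat.mul_pos hl hM1
  have hnkr : n = l * (k * M) + r := by
    rw [hk, hr]
    have := Nat.div_add_mod n (l * M)
    nlinarith
  have hrlt : r < l * M := by rw [hr]; exact Nat.mod_lt _ hlM
  have hk1 : 1 ≤ k := by rw [hk]; exact (Nat.one_le_div_iff hlM).2 hn2
  have h1 : k * mm M ≤ Real.log (hh K (l * (k * M)) x) := by
    have h2 := SS_le_log hK l (k * M) hx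
    have h3 := hmm (k * M) x hx
    rcases hmul k with h4 | h4
    · linarith
    · omega
  have h2 : hh K (l * (k * M)) x * Real.exp (-C) ≤ hh K n x := by
    rw [hnkr, hh_cocycle hK _ _ hx]
    apply mul_le_mul_of_nonneg_left _ (hh_pos hK _ hx).le
    calc Real.exp (-C) = ∑ w ∈ words K (l * (k * M)), ker K (l * (k * M)) x w * Real.exp (-C) := by
          rw [← Finset.sum_mul, ker_sum hK _ hx, one_mul]
      _ ≤ _ := by
          refine Finset.sum_le_sum fun w _ => ?_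
          by_cases h0 : ker K (l * (k * M)) x w = 0
          · rw [h0]; simp
          · exact mul_le_mul_of_nonneg_left (hC r hrlt _ (ker_adm h0).2) (ker_nonneg hK _ _ _)
  refine le_trans ?_ h2
  have hp := hh_pos hK (l * (k * M)) hx
  rw [← Real.exp_log hp, ← Real.exp_add, Real.exp_le_exp]
  have h3 : (k : ℝ) * (M * (-D - l * ε / 2)) ≤ k * mm M := by gcongr
  -- n = l k M + r, compare
  have hnR : (n : ℝ) = l * (k * M) + r := by rw [hnkr]; push_cast; ring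
  have hrR : (r : ℝ) ≤ l * M := by exact_mod_cast hrlt.le
  have h4 : (C + M * |D + l * ε / 2|) ≤ n * (ε / 2) := by
    have h5 : (n₀ : ℝ) ≤ n := by exact_mod_cast hn1
    have h6 := (div_le_iff₀ (show 0 < ε / 2 by positivity)).1 hn₀
    have : (n₀ : ℝ) * (ε / 2) ≤ n * (ε / 2) := by gcongr
    linarith
  -- -(D/l+ε) n ≤ k M (-D - lε/2) - C
  have h7 : -(D / l + ε) * n = (k * M) * (-D - l * ε / 2) - (r / l) * (D + l * ε / 2)
      - n * (ε / 2) := by
    rw [hnR]; field_simp; ring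
  rw [h7]
  have h8 : -((r / l) * (D + l * ε / 2)) ≤ M * |D + l * ε / 2| := by
    have e1 : (r : ℝ) / l ≤ M := by rw [div_le_iff₀ hl0]; linarith
    have e2 : 0 ≤ (r : ℝ) / l := by positivity
    calc -((r / l) * (D + l * ε / 2)) ≤ |(r / l) * (D + l * ε / 2)| := neg_le_abs _
      _ = (r / l) * |D + l * ε / 2| := by rw [abs_mul, abs_of_nonneg e2]
      _ ≤ M * |D + l * ε / 2| := by gcongr
  have h9 : (k : ℝ) * (M * (-D - l * ε / 2)) = (k * M) * (-D - l * ε / 2) := by ring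
  linarith

theorem DM {K : ℕ} (hK : 8 ≤ K) {l : ℕ} (hl : 1 ≤ l) {h : ℝ} (hh0 : 0 < h)
    (hk : ∀ x : ℤ, ¬ (5 : ℤ) ∣ x → h * l ≤ ∑ w ∈ words K l, Real.negMulLog (ker K l x w))
    (D : ℝ) (hD : ∀ c : ℤ, ¬ (5 : ℤ) ∣ c → DD K l c ≤ D) : LowR K (D / l) := by
  choose xm hxm1 hxm2 using DM_argmin K l
  obtain ⟨mm, hmmdef⟩ : ∃ mm : ℕ → ℝ, mm = fun M => SS K l M (xm M) := ⟨_, rfl⟩
  have hmm : ∀ M, ∀ y : ℤ, ¬ (5 : ℤ) ∣ y → mm M ≤ SS K l M y := by
    intro M y hy; rw [hmmdef]; exact hxm2 M y hy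
  have hadd : ∀ M N, mm M + mm N ≤ mm (M + N) := by
    intro M N
    have h1 : mm (M + N) = SS K l M (xm (M + N)) + EE K l M (xm (M + N)) (SS K l N) := by
      rw [hmmdef]; exact SS_add l M N _
    rw [h1]
    exact add_le_add (hmm M _ (hxm1 _)) (EE_ge hK l M (hxm1 _) _ _ (hmm N))
  obtain ⟨C, hC0, hC⟩ := log_hh_bdd hK l
  have hmmle : ∀ M : ℕ, mm M ≤ M * C := by
    intro M
    rw [hmmdef]
    show SS K l M (xm M) ≤ _
    rw [SS_eq]
    calc _ ≤ ∑ i ∈ range M, C :=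
          Finset.sum_le_sum fun i _ => (abs_le.1 (DM_EE_abs hK l i (hxm1 M) _ C hC)).2
      _ = _ := by rw [Finset.sum_const, Finset.card_range, nsmul_eq_mul]
  obtain ⟨T, hT⟩ : ∃ T : Set ℝ, T = {y | ∃ M : ℕ, 1 ≤ M ∧ y = mm M / M} := ⟨_, rfl⟩
  have hTne : T.Nonempty := by rw [hT]; exact ⟨_, 1, le_refl _, rfl⟩
  have hTbdd : BddAbove T := by
    refine ⟨C, ?_⟩
    rw [hT]
    rintro y ⟨M, hM, rfl⟩
    have hM0 : (0 : ℝ) < M := by exact_mod_cast hM
    rw [div_le_iff₀ hM0]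
    linarith [hmmle M]
  have hσ : ∀ M : ℕ, mm M ≤ M * sSup T := by
    intro M
    rcases Nat.eq_zero_or_pos M with rfl | hM
    · have := hmmle 0
      simpa using this
    · have hM0 : (0 : ℝ) < M := by exact_mod_cast hM
      have : mm M / M ≤ sSup T := le_csSup hTbdd (by rw [hT]; exact ⟨M, hM, rfl⟩)
      rw [div_le_iff₀ hM0] at this
      linarith
  have hσ' : ∀ ε > 0, ∃ M : ℕ, 1 ≤ M ∧ M * (sSup T - ε) ≤ mm M := by
    intro ε hε
    obtain ⟨y, hy, hlt⟩ := exists_lt_of_lt_csSup hTne (show sSup T - ε < sSup T by linarith)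
    rw [hT] at hy
    obtain ⟨M, hM, rfl⟩ := hy
    have hM0 : (0 : ℝ) < M := by exact_mod_cast hM
    refine ⟨M, hM, ?_⟩
    rw [lt_div_iff₀ hM0] at hlt
    linarith
  have hkey := DM_key hK hl hh0 hk D hD (sSup T) mm hmm
    (fun M => ⟨xm M, hxm1 M, by rw [hmmdef]⟩) hσ hσ'
  refine DM_low hK hl mm hmm hadd fun ε hε => ?_
  obtain ⟨M, hM, hM'⟩ := hσ' ε hε
  refine ⟨M, hM, le_trans ?_ hM'⟩
  have hM0 : (0 : ℝ) ≤ M := Nat.cast_nonneg M
  gcongr


end Pool.Agent.Lib_helper56.Low
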