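import Pool.Agent.LowAsm.TL

set_option autoImplicit false

namespace Pool.Agent.Lib_helper56.Low

open Finset


/-- log-sum inequality -/
theorem EL_jensen (R : Finset ℕ) (J s : ℕ → ℝ) (hJ : ∀ v ∈ R, 0 ≤ J v) (hs : ∀ v ∈ R, 0 ≤ s v)
    (hJs : ∀ v ∈ R, 0 < J v → 0 < s v) (h1 : ∑ v ∈ R, J v = 1) :
    ∑ v ∈ R, J v * Real.log (s v / J v) ≤ Real.log (∑ v ∈ R, s v) := by
  have hpos : 0 < ∑ v ∈ R, s v := by
    by_contra hcon
    have h0 : ∑ v ∈ R, s v = 0 := le_antisymm (not_lt.mp hcon) (Finset.sum_nonneg hs)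
    have h2 := (Finset.sum_eq_zero_iff_of_nonneg hs).mp h0
    have h3 : ∑ v ∈ R, J v = 0 := Finset.sum_eq_zero (fun v hv => by
      rcases (hJ v hv).lt_or_eq with h | h
      · exact absurd (h2 v hv) (hJs v hv h).ne'
      · exact h.symm)
    rw [h1] at h3
    exact one_ne_zero h3
  set W := ∑ v ∈ R, s v with hW
  have h2 : ∀ v ∈ R, J v * Real.log (s v / J v) - J v * Real.log W ≤ s v / W - J v := by
    intro v hv
    rcases (hJ v hv).lt_or_eq with h | h
    · have hsv := hJs v hv h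
      have e1 : J v * Real.log (s v / J v) - J v * Real.log W = J v * Real.log (s v / J v / W) := by
        rw [Real.log_div (by positivity) hpos.ne']
        ring
      rw [e1]
      have h3 := Real.log_le_sub_one_of_pos (show 0 < s v / J v / W by positivity)
      have h4 := mul_le_mul_of_nonneg_left h3 h.le
      refine h4.trans (le_of_eq ?_)
      field_simp
    · rw [← h]
      have := div_nonneg (hs v hv) hpos.le
      simpa using this
  have h5 := Finset.sum_le_sum h2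
  rw [Finset.sum_sub_distrib, Finset.sum_sub_distrib, ← Finset.sum_mul, ← Finset.sum_div, h1,
    ← hW, div_self hpos.ne', one_mul, sub_self] at h5
  linarith

/-- multiplication by a power of 2 permutes the classes modulo `5^r` -/
theorem EL_bij (r d : ℕ) (g : ℤ → ℝ) (hg : ∀ x y, g (x + 5 ^ r * y) = g x) :
    ∑ Y ∈ range (5 ^ r), g (2 ^ d * (Y : ℤ)) = ∑ Y ∈ range (5 ^ r), g (Y : ℤ) := by
  have hN : 0 < 5 ^ r := by positivity
  have hcop : Nat.Coprime (5 ^ r) (2 ^ d) := Nat.Coprime.pow _ _ (by norm_num)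
  have hinj : Set.InjOn (fun Y : ℕ => (2 ^ d * Y) % 5 ^ r) (range (5 ^ r) : Set ℕ) := by
    intro x hx y hy hxy
    rw [Finset.mem_coe, Finset.mem_range] at hx hy
    have h1 : 2 ^ d * x ≡ 2 ^ d * y [MOD 5 ^ r] := hxy
    have h2 := Nat.ModEq.cancel_left_of_coprime hcop h1
    exact Nat.ModEq.eq_of_lt_of_lt h2 hx hy
  have himg : (range (5 ^ r)).image (fun Y : ℕ => (2 ^ d * Y) % 5 ^ r) = range (5 ^ r) := by
    apply Finset.eq_of_subset_of_card_le
    · intro x hx
      rw [Finset.mem_image] at hx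
      obtain ⟨y, _, rfl⟩ := hx
      rw [Finset.mem_range]
      exact Nat.mod_lt _ hN
    · rw [Finset.card_image_of_injOn hinj]
  conv_rhs => rw [← himg, Finset.sum_image hinj]
  refine Finset.sum_congr rfl (fun Y _ => ?_)
  have h1 : (2 ^ d * (Y : ℤ)) = (((2 ^ d * Y) % 5 ^ r : ℕ) : ℤ) +
      5 ^ r * (((2 ^ d * Y) / 5 ^ r : ℕ) : ℤ) := by
    have := Nat.mod_add_div (2 ^ d * Y) (5 ^ r)
    have h2 : (((2 ^ d * Y) % 5 ^ r + 5 ^ r * ((2 ^ d * Y) / 5 ^ r) : ℕ) : ℤ) =
        ((2 ^ d * Y : ℕ) : ℤ) := by rw [this]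
    push_cast at h2 ⊢
    linarith
  rw [h1, hg]

theorem EL_mass {ι : Type} (W : Finset ι) (P : ι → ℝ) (D : ι → ℕ) (d : ℕ) (p : ℝ) (f : ι → ℤ)
    (a : ℤ) : mass (W.filter (fun w => D w = d)) (fun w => P w / p) f a =
      mass W P (fun w => (f w, D w)) (a, d) / p := by
  unfold mass
  rw [← Finset.sum_div, Finset.filter_filter]
  congr 1
  refine Finset.sum_congr ?_ (fun _ _ => rfl)
  ext w
  simp only [Finset.mem_filter, Prod.mk.injEq]
  tauto

theorem EL_NU {ι : Type} (W : Finset ι) (P : ι → ℝ) (X : ι → ℤ) (D : ι → ℕ) (d : ℕ) (p : ℝ)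
    (hp : 0 < p) (j L : ℕ) (x : ℤ) :
    NU (W.filter (fun w => D w = d)) (fun w => P w / p) X j L x ↔ NU2 W P X D j L x d := by
  unfold NU NU2
  refine forall_congr' (fun u => forall_congr' (fun _ => ?_))
  rw [EL_mass, EL_mass, ← mul_div_assoc, div_le_div_iff_of_pos_right hp]

open Classical in
theorem EL_NUp {ι : Type} (W : Finset ι) (P : ι → ℝ) (hP : ∀ w ∈ W, 0 ≤ P w) (X : ι → ℤ)
    (D : ι → ℕ) (j L : ℕ) :
    ∑ d ∈ W.image D, (∑ w ∈ W.filter (fun w => D w = d), P w) *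
      NUp (W.filter (fun w => D w = d))
        (fun w => P w / (∑ w ∈ W.filter (fun w => D w = d), P w)) X j L = NUp2 W P X D j L := by
  unfold NUp2
  rw [← Finset.sum_fiberwise_of_maps_to (g := D) (t := W.image D)
    (fun w hw => Finset.mem_image_of_mem _ (Finset.mem_filter.mp hw).1)]
  refine Finset.sum_congr rfl (fun d _ => ?_)
  set p := ∑ w ∈ W.filter (fun w => D w = d), P w with hpdef
  have hp0 : 0 ≤ p := Finset.sum_nonneg (fun w hw => hP w (Finset.mem_filter.mp hw).1)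
  rcases hp0.lt_or_eq with hp | hp
  · unfold NUp
    rw [← Finset.sum_div, mul_div_cancel₀ _ hp.ne']
    refine Finset.sum_congr ?_ (fun _ _ => rfl)
    ext w
    simp only [Finset.mem_filter]
    constructor
    · rintro ⟨⟨h1, h2⟩, h3⟩
      rw [EL_NU W P X D d p hp] at h3
      rw [h2]
      exact ⟨⟨h1, h3⟩, rfl⟩
    · rintro ⟨⟨h1, h3⟩, h2⟩
      rw [h2] at h3
      rw [EL_NU W P X D d p hp]
      exact ⟨⟨h1, h2⟩, h3⟩
  · rw [← hp, zero_mul]
    symm
    refine Finset.sum_eq_zero (fun w hw => ?_)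
    rw [Finset.mem_filter, Finset.mem_filter] at hw
    exact (Finset.sum_eq_zero_iff_of_nonneg
      (fun w hw => hP w (Finset.mem_filter.mp hw).1)).mp hp.symm w
      (Finset.mem_filter.mpr ⟨hw.1.1, hw.2⟩)

theorem E_lower {K : ℕ} (hK : 8 ≤ K) {l : ℕ} (hl : 1 ≤ l) (s t₁ L B : ℕ) (hL : 1 ≤ L)
    (c c₁ : ℝ) (hc0 : 0 < c) (hc₁ : 0 < c₁)
    (hc : ∀ y, ¬ (5 : ℤ) ∣ y → c ≤ hh K L y) (hc1 : ∀ y, ¬ (5 : ℤ) ∣ y → c₁ ≤ hh K t₁ y)
    (b : ℤ) (hb : ¬ (5 : ℤ) ∣ b) :
    5 ^ (t₁ + L * B) * (Real.log c₁ + ∑ k ∈ range B,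
        (nu K l b s (t₁ + L * k + 1) L *
            (1 / 2 * (L * Real.log (1 - (5 / 6 : ℝ) ^ K)) + 1 / 2 * Real.log c)
          + (1 - nu K l b s (t₁ + L * k + 1) L) * Real.log c)) ≤
      ∑ Y ∈ range (5 ^ (t₁ + L * B)),
        Real.log (EE K l s (b + 5 ^ (l * s + 1) * (Y : ℤ)) (hh K (t₁ + L * B))) := by
  classical
  set r := t₁ + L * B with hr
  set W := words K (l * s) with hW
  set P : List ℕ → ℝ := q K l s b with hPdef
  have hP0 : ∀ w ∈ W, 0 ≤ P w := fun w _ => q_nonneg hK l s b w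
  have hlen : ∀ w ∈ W, w.length = l * s := fun w hw => length_of_mem_words hw
  let D : List ℕ → ℕ := fun w => w.sum
  let X : List ℕ → ℤ := fun w => A w b
  let R : Finset ℕ := W.image D
  let Wd : ℕ → Finset (List ℕ) := fun d => W.filter (fun w => D w = d)
  let p : ℕ → ℝ := fun d => ∑ w ∈ Wd d, P w
  have hWd : ∀ d, ∀ w ∈ Wd d, w ∈ W ∧ D w = d := fun d w hw => Finset.mem_filter.mp hw
  have hp0 : ∀ d, 0 ≤ p d := fun d => Finset.sum_nonneg (fun w hw => hP0 w (hWd d w hw).1)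
  have hfib : ∀ g : List ℕ → ℝ, ∑ w ∈ W, g w = ∑ d ∈ R, ∑ w ∈ Wd d, g w := fun g =>
    (Finset.sum_fiberwise_of_maps_to (g := D) (t := R)
      (fun w hw => Finset.mem_image_of_mem _ hw) g).symm
  have hp1 : ∑ d ∈ R, p d = 1 := by
    rw [← hfib P]
    exact q_sum hK l s hb
  have hunit : ∀ w ∈ W, P w ≠ 0 → ¬ (5 : ℤ) ∣ X w := fun w hw h => (q_adm hb (hlen w hw) h).2
  have hunit' : ∀ w ∈ W, P w ≠ 0 → ∀ y : ℤ, ¬ (5 : ℤ) ∣ X w + 5 * y := fun w hw h y hd =>
    hunit w hw h ((dvd_add_left (Dvd.intro _ rfl)).mp hd)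
  let Sd : ℤ → ℕ → ℝ := fun y d => ∑ w ∈ Wd d, P w * hh K r (X w + 5 * y)
  have hterm : ∀ (y : ℤ), ∀ w ∈ W, 0 ≤ P w * hh K r (X w + 5 * y) := by
    intro y w hw
    by_cases h : P w = 0
    · rw [h, zero_mul]
    · exact mul_nonneg (hP0 w hw) (hh_pos hK r (hunit' w hw h y)).le
  have hSd0 : ∀ y d, 0 ≤ Sd y d := fun y d =>
    Finset.sum_nonneg (fun w hw => hterm y w (hWd d w hw).1)
  have hSdpos : ∀ y d, 0 < p d → 0 < Sd y d := by
    intro y d hd
    obtain ⟨w, hw, hPw⟩ := Finset.exists_lt_of_sum_lt (f := fun _ => (0 : ℝ)) (g := P)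
      (s := Wd d) (by simpa using hd)
    exact Finset.sum_pos' (fun w hw => hterm y w (hWd d w hw).1)
      ⟨w, hw, mul_pos hPw (hh_pos hK r (hunit' w (hWd d w hw).1 hPw.ne' y))⟩
  -- the expectation
  have hEE : ∀ Y : ℕ, EE K l s (b + 5 ^ (l * s + 1) * (Y : ℤ)) (hh K r) =
      ∑ d ∈ R, Sd (2 ^ d * (Y : ℤ)) d := by
    intro Y
    unfold EE
    have h1 : ∀ w ∈ W, q K l s (b + 5 ^ (l * s + 1) * (Y : ℤ)) w *
        hh K r (A w (b + 5 ^ (l * s + 1) * (Y : ℤ))) =
        P w * hh K r (X w + 5 * (2 ^ (D w) * (Y : ℤ))) := by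
      intro w hw
      rw [q_shift K l s b Y (hlen w hw)]
      by_cases h : P w = 0
      · rw [show q K l s b w = 0 from h, h, zero_mul, zero_mul]
      · have hadm := (q_adm hb (hlen w hw) h).1
        have h2 := A_shift' w b Y hadm
        rw [hlen w hw] at h2
        rw [h2, mul_assoc]
    rw [Finset.sum_congr rfl h1, hfib]
    refine Finset.sum_congr rfl (fun d _ => Finset.sum_congr rfl (fun w hw => ?_))
    rw [(hWd d w hw).2]
  -- Jensen
  have hjen : ∀ Y ∈ range (5 ^ r), ∑ d ∈ R, p d * Real.log (Sd (2 ^ d * (Y : ℤ)) d / p d) ≤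
      Real.log (EE K l s (b + 5 ^ (l * s + 1) * (Y : ℤ)) (hh K r)) := by
    intro Y _
    rw [hEE]
    exact EL_jensen R p (fun d => Sd (2 ^ d * (Y : ℤ)) d) (fun d _ => hp0 d)
      (fun d _ => hSd0 _ d) (fun d _ hd => hSdpos _ d hd) hp1
  refine le_trans ?_ (Finset.sum_le_sum hjen)
  rw [Finset.sum_comm]
  have hQpos : 0 < 1 - (5 / 6 : ℝ) ^ K := by
    have : (5 / 6 : ℝ) ^ K < 1 := pow_lt_one₀ (by norm_num) (by norm_num) (by omega)
    linarith
  have hlogQ : Real.log ((1 - (5 / 6 : ℝ) ^ K) ^ L) = L * Real.log (1 - (5 / 6 : ℝ) ^ K) :=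
    Real.log_pow _ _
  -- every class
  have hclass : ∀ d ∈ R, p d * (5 ^ r * (Real.log c₁ + ∑ k ∈ range B,
      (NUp (Wd d) (fun w => P w / p d) X (t₁ + L * k + 1) L *
          (1 / 2 * (L * Real.log (1 - (5 / 6 : ℝ) ^ K)) + 1 / 2 * Real.log c)
        + (1 - NUp (Wd d) (fun w => P w / p d) X (t₁ + L * k + 1) L) * Real.log c))) ≤
      ∑ Y ∈ range (5 ^ r), p d * Real.log (Sd (2 ^ d * (Y : ℤ)) d / p d) := by
    intro d _
    rcases (hp0 d).lt_or_eq with hd | hd
    · rw [← Finset.mul_sum]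
      refine mul_le_mul_of_nonneg_left ?_ hd.le
      have hg : ∀ x y : ℤ, Real.log (Sd (x + 5 ^ r * y) d / p d) = Real.log (Sd x d / p d) := by
        intro x y
        have : Sd (x + 5 ^ r * y) d = Sd x d := by
          refine Finset.sum_congr rfl (fun w _ => ?_)
          have e1 : X w + 5 * (x + 5 ^ r * y) = X w + 5 * x + 5 ^ (r + 1) * y := by
            rw [pow_succ]; ring
          rw [e1, hh_shift]
        rw [this]
      rw [EL_bij r d (fun x => Real.log (Sd x d / p d)) hg]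
      have hprob : IsProb (Wd d) (fun w => P w / p d) :=
        ⟨fun w hw => div_nonneg (hP0 w (hWd d w hw).1) hd.le, by
          rw [← Finset.sum_div]
          exact div_self hd.ne'⟩
      have htree := tree_lemma (hh K) L ((1 - (5 / 6 : ℝ) ^ K) ^ L) c (pow_pos hQpos L) hc0
        (fun t y hy => hh_pos hK t hy) (fun t y z => hh_shift K t y z)
        (fun t y hy => by
          rw [hh_cocycle hK t L hy, mul_comm c]
          refine mul_le_mul_of_nonneg_left ?_ (hh_pos hK t hy).le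
          calc c = ∑ w ∈ words K t, ker K t y w * c := by
                rw [← Finset.sum_mul, ker_sum hK t hy, one_mul]
            _ ≤ ∑ w ∈ words K t, ker K t y w * hh K L (A w y) := by
                refine Finset.sum_le_sum (fun w _ => ?_)
                by_cases h : ker K t y w = 0
                · rw [h, zero_mul, zero_mul]
                · exact mul_le_mul_of_nonneg_left (hc _ (ker_adm h).2) (ker_nonneg hK t y w))
        (fun t y => hh_avg t L y) (Wd d) (fun w => P w / p d) X hprob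
        (fun w hw h => hunit w (hWd d w hw).1 (fun h0 => h (by rw [h0, zero_div]))) t₁ B c₁ hc₁ hc1
      rw [hlogQ] at htree
      refine htree.trans (le_of_eq ?_)
      refine Finset.sum_congr rfl (fun Y _ => ?_)
      congr 1
      rw [Finset.sum_div]
      exact Finset.sum_congr rfl (fun w _ => by rw [div_mul_eq_mul_div])
    · rw [← hd]; simp
  refine le_trans (le_of_eq ?_) (Finset.sum_le_sum hclass)
  have hnu : ∀ k, ∑ d ∈ R, p d * NUp (Wd d) (fun w => P w / p d) X (t₁ + L * k + 1) L =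
      nu K l b s (t₁ + L * k + 1) L := fun k => EL_NUp W P hP0 X D _ L
  set α := 1 / 2 * (L * Real.log (1 - (5 / 6 : ℝ) ^ K)) + 1 / 2 * Real.log c with hα
  set N : ℕ → ℕ → ℝ := fun d k => NUp (Wd d) (fun w => P w / p d) X (t₁ + L * k + 1) L with hN
  have e1 : ∀ d ∈ R, p d * (5 ^ r * (Real.log c₁ + ∑ k ∈ range B,
      (N d k * α + (1 - N d k) * Real.log c))) =
      5 ^ r * (p d * Real.log c₁ + ∑ k ∈ range B,
        ((p d * N d k) * (α - Real.log c) + p d * Real.log c)) := by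
    intro d _
    have e2 : ∑ k ∈ range B, ((p d * N d k) * (α - Real.log c) + p d * Real.log c) =
        p d * ∑ k ∈ range B, (N d k * α + (1 - N d k) * Real.log c) := by
      rw [Finset.mul_sum]
      exact Finset.sum_congr rfl (fun k _ => by ring)
    rw [e2]
    ring
  have e3 : ∑ d ∈ R, (p d * Real.log c₁ + ∑ k ∈ range B,
      ((p d * N d k) * (α - Real.log c) + p d * Real.log c)) =
      Real.log c₁ + ∑ k ∈ range B, (nu K l b s (t₁ + L * k + 1) L * α +
        (1 - nu K l b s (t₁ + L * k + 1) L) * Real.log c) := by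
    rw [Finset.sum_add_distrib, ← Finset.sum_mul, hp1, Finset.sum_comm, one_mul]
    congr 1
    refine Finset.sum_congr rfl (fun k _ => ?_)
    rw [Finset.sum_add_distrib, ← Finset.sum_mul, ← Finset.sum_mul, hnu k, hp1]
    ring
  rw [Finset.sum_congr rfl e1, ← Finset.mul_sum, e3]

theorem hh_chain {K : ℕ} (hK : 8 ≤ K) (l s r : ℕ) (cl : ℝ) (hcl : 0 < cl)
    (hc : ∀ y, ¬ (5 : ℤ) ∣ y → cl ≤ hh K l y) {x : ℤ} (hx : ¬ (5 : ℤ) ∣ x) :
    cl ^ s * EE K l s x (hh K r) ≤ hh K (l * s + r) x := by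
  induction s generalizing x with
  | zero =>
    unfold EE
    rw [Nat.mul_zero]
    simp [words, q, A]
  | succ s ih =>
    have h1 : EE K l (s + 1) x (hh K r) =
        ∑ w ∈ words K l, ker K l x w * EE K l s (A w x) (hh K r) := by
      rw [add_comm s 1, EE_add, Nat.mul_one]
      refine Finset.sum_congr rfl (fun w hw => ?_)
      have hlw := length_of_mem_words hw
      congr 1
      unfold q
      rw [List.take_of_length_le (by omega)]
      simp [q]
    rw [h1, show l * (s + 1) + r = l + (l * s + r) by ring, hh_cocycle hK l (l * s + r) hx,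
      pow_succ, mul_comm (cl ^ s) cl, mul_assoc, Finset.mul_sum]
    refine mul_le_mul (hc x hx) (Finset.sum_le_sum (fun w _ => ?_)) ?_ (hcl.le.trans (hc x hx))
    · by_cases h : ker K l x w = 0
      · rw [h, zero_mul, zero_mul, mul_zero]
      · have h2 := ih (x := A w x) (ker_adm h).2
        calc cl ^ s * (ker K l x w * EE K l s (A w x) (hh K r))
            = ker K l x w * (cl ^ s * EE K l s (A w x) (hh K r)) := by ring
          _ ≤ ker K l x w * hh K (l * s + r) (A w x) :=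
            mul_le_mul_of_nonneg_left h2 (ker_nonneg hK l x w)
    · refine Finset.sum_nonneg (fun w _ => ?_)
      by_cases h : ker K l x w = 0
      · rw [h, zero_mul, mul_zero]
      · refine mul_nonneg (by positivity) (mul_nonneg (ker_nonneg hK l x w) ?_)
        unfold EE
        refine Finset.sum_nonneg (fun w' hw' => ?_)
        by_cases h' : q K l s (A w x) w' = 0
        · rw [h', zero_mul]
        · exact mul_nonneg (q_nonneg hK l s _ _)
            (hh_pos hK r (q_adm (ker_adm h).2 (length_of_mem_words hw') h').2).le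


end Pool.Agent.Lib_helper56.Low
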