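import Pool.Agent.LowAsm.EL

set_option autoImplicit false

namespace Pool.Agent.Lib_helper56.Low

open Finset

/-! ### Block EM: quenched = annealed -/

theorem EM_per_shift (N : ℕ) (f : ℤ → ℝ) (hf : ∀ x : ℤ, f (x + (N : ℤ)) = f x) (a : ℤ) :
    ∑ i ∈ range N, f ((i : ℤ) + a) = ∑ i ∈ range N, f (i : ℤ) := by
  rcases Nat.eq_zero_or_pos N with h0 | hN
  · subst h0; simp
  have key1 : ∀ (b : ℤ), ∑ i ∈ range N, f ((i : ℤ) + (b + 1)) = ∑ i ∈ range N, f ((i : ℤ) + b) := by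
    intro b
    have h1 : ∑ i ∈ range N, f ((i : ℤ) + (b + 1)) = ∑ i ∈ range N, f (((i + 1 : ℕ) : ℤ) + b) := by
      refine Finset.sum_congr rfl fun i _ => ?_
      congr 1
      push_cast; ring
    have h2 := Finset.sum_range_succ (fun i : ℕ => f ((i : ℤ) + b)) N
    have h3 := Finset.sum_range_succ' (fun i : ℕ => f ((i : ℤ) + b)) N
    have h4 : f ((N : ℤ) + b) = f (((0 : ℕ) : ℤ) + b) := by
      have := hf b
      rw [add_comm] at this
      simpa using this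
    rw [h1]
    linarith
  have key : ∀ (m : ℕ) (b : ℤ), ∑ i ∈ range N, f ((i : ℤ) + (b + m)) = ∑ i ∈ range N, f ((i : ℤ) + b) := by
    intro m
    induction m with
    | zero => intro b; simp
    | succ m ih =>
      intro b
      have := key1 (b + m)
      rw [ih] at this
      rw [← this]
      refine Finset.sum_congr rfl fun i _ => ?_
      congr 1
      push_cast; ring
  rcases le_total 0 a with ha | ha
  · obtain ⟨m, rfl⟩ := Int.eq_ofNat_of_zero_le ha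
    have := key m 0
    simpa using this
  · obtain ⟨m, hm⟩ := Int.eq_ofNat_of_zero_le (neg_nonneg.mpr ha)
    have := key m a
    rw [← this, ← hm]
    simp

theorem EM_per_mul (N M : ℕ) (f : ℤ → ℝ) (hf : ∀ x : ℤ, f (x + (N : ℤ)) = f x) :
    ∑ i ∈ range (N * M), f (i : ℤ) = M * ∑ i ∈ range N, f (i : ℤ) := by
  induction M with
  | zero => simp
  | succ M ih =>
    rw [Nat.mul_succ, Finset.sum_range_add, ih]
    have h1 : ∑ x ∈ range N, f ((N * M + x : ℕ) : ℤ) = ∑ i ∈ range N, f (i : ℤ) := by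
      rw [← EM_per_shift N f hf ((N * M : ℕ) : ℤ)]
      refine Finset.sum_congr rfl fun i _ => ?_
      congr 1
      push_cast; ring
    rw [h1]; push_cast; ring

theorem EM_unit {c : ℤ} (hc : ¬ (5 : ℤ) ∣ c) (y : ℤ) : ¬ (5 : ℤ) ∣ c + 5 * y := by
  intro h
  apply hc
  have : (5 : ℤ) ∣ (c + 5 * y) - 5 * y := dvd_sub h (Dvd.intro _ rfl)
  simpa using this

theorem EM_unit' {c : ℤ} (hc : ¬ (5 : ℤ) ∣ c) (n : ℕ) (y : ℤ) : ¬ (5 : ℤ) ∣ c + 5 ^ (n + 1) * y := by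
  have := EM_unit hc (5 ^ n * y)
  have e : c + 5 ^ (n + 1) * y = c + 5 * (5 ^ n * y) := by rw [pow_succ]; ring
  rw [e]; exact this

/-- sums of `log hh` over a larger period -/
theorem EM_DD {K : ℕ} (n Q : ℕ) (hQ : n ≤ Q) (c a : ℤ) :
    ∑ y ∈ range (5 ^ Q), Real.log (hh K n (c + 5 * ((y : ℤ) + a))) = - (5 ^ Q * DD K n c) := by
  set f : ℤ → ℝ := fun y => Real.log (hh K n (c + 5 * y)) with hf
  have hper : ∀ (i : ℕ), n ≤ i → ∀ x : ℤ, f (x + ((5 ^ i : ℕ) : ℤ)) = f x := by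
    intro i hi x
    simp only [hf]
    have e : c + 5 * (x + ((5 ^ i : ℕ) : ℤ)) = (c + 5 * x) + 5 ^ (n + 1) * 5 ^ (i - n) := by
      rw [← pow_add]
      have : n + 1 + (i - n) = i + 1 := by omega
      rw [this, pow_succ]; push_cast; ring
    rw [e, hh_shift]
  have h1 : ∑ y ∈ range (5 ^ Q), Real.log (hh K n (c + 5 * ((y : ℤ) + a))) =
      ∑ y ∈ range (5 ^ Q), f ((y : ℤ) + a) := rfl
  rw [h1, EM_per_shift (5 ^ Q) f (hper Q hQ) a]
  have h2 : (5 : ℕ) ^ Q = 5 ^ n * 5 ^ (Q - n) := by rw [← pow_add]; congr 1; omega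
  have h3 := EM_per_mul (5 ^ n) (5 ^ (Q - n)) f (hper n le_rfl)
  rw [← h2] at h3
  rw [h3]
  unfold DD
  have h4 : (5 : ℝ) ^ Q = 5 ^ n * 5 ^ (Q - n) := by rw [← pow_add]; congr 1; omega
  have h5 : ∑ y ∈ range (5 ^ n), - Real.log (hh K n (c + 5 * (y : ℤ))) =
      - ∑ i ∈ range (5 ^ n), f (i : ℤ) := by rw [← Finset.sum_neg_distrib]
  rw [h5, h4]
  have h6 : (5 : ℝ) ^ n ≠ 0 := by positivity
  field_simp
  push_cast
  ring

theorem EM_hh_ge {K : ℕ} (hK : 8 ≤ K) (m i : ℕ) (cm : ℝ)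
    (hcm : ∀ y, ¬ (5 : ℤ) ∣ y → cm ≤ hh K i y) {y : ℤ} (hy : ¬ (5 : ℤ) ∣ y) :
    cm * hh K m y ≤ hh K (m + i) y := by
  rw [hh_cocycle hK m i hy, mul_comm]
  apply mul_le_mul_of_nonneg_left _ (hh_pos hK m hy).le
  calc cm = ∑ w ∈ words K m, ker K m y w * cm := by
        rw [← Finset.sum_mul, ker_sum hK m hy, one_mul]
    _ ≤ ∑ w ∈ words K m, ker K m y w * hh K i (A w y) := by
        refine Finset.sum_le_sum fun w _ => ?_
        by_cases h0 : ker K m y w = 0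
        · rw [h0, zero_mul, zero_mul]
        · exact mul_le_mul_of_nonneg_left (hcm _ (ker_adm h0).2) (ker_nonneg hK m y w)

theorem EM_EE_ge {K : ℕ} (hK : 8 ≤ K) (l s : ℕ) {x : ℤ} (hx : ¬ (5 : ℤ) ∣ x) (F G : ℤ → ℝ)
    (hFG : ∀ y, ¬ (5 : ℤ) ∣ y → F y ≤ G y) : EE K l s x F ≤ EE K l s x G := by
  unfold EE
  refine Finset.sum_le_sum fun w hw => ?_
  by_cases h0 : q K l s x w = 0
  · rw [h0, zero_mul, zero_mul]
  · exact mul_le_mul_of_nonneg_left
      (hFG _ (q_adm hx (length_of_mem_words hw) h0).2) (q_nonneg hK l s x w)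

/-- the main estimate for one class and one offset -/
theorem EM_class {K : ℕ} (hK : 8 ≤ K) {l : ℕ} (hl : 1 ≤ l) (s t₁ L B i Q : ℕ) (hL : 1 ≤ L)
    (hQ : l * s + (t₁ + L * B + i) ≤ Q) (c₀ c₁ cm cl : ℝ) (hc₀ : 0 < c₀) (hc₁ : 0 < c₁)
    (hcm : 0 < cm) (hcl : 0 < cl) (h₀ : ∀ y, ¬ (5 : ℤ) ∣ y → c₀ ≤ hh K L y)
    (h₁ : ∀ y, ¬ (5 : ℤ) ∣ y → c₁ ≤ hh K t₁ y) (hm : ∀ y, ¬ (5 : ℤ) ∣ y → cm ≤ hh K i y)
    (hcl' : ∀ y, ¬ (5 : ℤ) ∣ y → cl ≤ hh K l y) (c : ℤ) (hc : ¬ (5 : ℤ) ∣ c) :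
    ∑ y ∈ range (5 ^ Q), (Real.log c₁ + ∑ k ∈ range B,
        (nu K l (c + 5 * (y : ℤ)) s (t₁ + L * k + 1) L *
            (1 / 2 * (L * Real.log (1 - (5 / 6 : ℝ) ^ K)) + 1 / 2 * Real.log c₀)
          + (1 - nu K l (c + 5 * (y : ℤ)) s (t₁ + L * k + 1) L) * Real.log c₀)) ≤
      5 ^ Q * (- DD K (l * s + (t₁ + L * B + i)) c - s * Real.log cl - Real.log cm) := by
  set r₀ := t₁ + L * B with hr₀
  set r := r₀ + i with hr
  set n' := l * s + r with hn'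
  set G : ℕ → ℝ := fun y => Real.log c₁ + ∑ k ∈ range B,
        (nu K l (c + 5 * (y : ℤ)) s (t₁ + L * k + 1) L *
            (1 / 2 * (L * Real.log (1 - (5 / 6 : ℝ) ^ K)) + 1 / 2 * Real.log c₀)
          + (1 - nu K l (c + 5 * (y : ℤ)) s (t₁ + L * k + 1) L) * Real.log c₀) with hG
  have hpt : ∀ x : ℤ, ¬ (5 : ℤ) ∣ x →
      Real.log (EE K l s x (hh K r₀)) ≤
        Real.log (hh K n' x) - s * Real.log cl - Real.log cm := by
    intro x hx
    obtain ⟨C, hC0, hC⟩ := log_hh_bdd hK r₀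
    have hE0 : 0 < EE K l s x (hh K r₀) := by
      have h2 : Real.exp (-C) ≤ EE K l s x (hh K r₀) := by
        apply EE_ge hK l s hx
        intro y hy
        have h3 := (abs_le.mp (hC y hy)).1
        rw [← Real.exp_log (hh_pos hK r₀ hy)]
        exact Real.exp_le_exp.mpr h3
      exact lt_of_lt_of_le (Real.exp_pos _) h2
    have h4 : cm * EE K l s x (hh K r₀) ≤ EE K l s x (hh K r) := by
      have h5 : cm * EE K l s x (hh K r₀) = EE K l s x (fun y => cm * hh K r₀ y) := by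
        unfold EE
        rw [Finset.mul_sum]
        refine Finset.sum_congr rfl fun w _ => ?_
        ring
      rw [h5]
      exact EM_EE_ge hK l s hx _ _ (fun y hy => EM_hh_ge hK r₀ i cm hm hy)
    have h6 := hh_chain hK l s r cl hcl hcl' hx
    have h7 : cl ^ s * (cm * EE K l s x (hh K r₀)) ≤ hh K n' x :=
      (mul_le_mul_of_nonneg_left h4 (by positivity)).trans h6
    have h8 := Real.log_le_log (by positivity) h7
    rw [Real.log_mul (by positivity) (by positivity), Real.log_mul hcm.ne' hE0.ne',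
      Real.log_pow] at h8
    linarith
  have hy : ∀ y ∈ range (5 ^ Q), 5 ^ r₀ * G y ≤ ∑ Y ∈ range (5 ^ r₀),
      (Real.log (hh K n' (c + 5 * ((y : ℤ) + 5 ^ (l * s) * (Y : ℤ)))) - s * Real.log cl
        - Real.log cm) := by
    intro y _
    have hb : ¬ (5 : ℤ) ∣ c + 5 * (y : ℤ) := EM_unit hc _
    have h1 := E_lower hK hl s t₁ L B hL c₀ c₁ hc₀ hc₁ h₀ h₁ (c + 5 * (y : ℤ)) hb
    rw [← hr₀] at h1
    refine h1.trans (Finset.sum_le_sum fun Y _ => ?_)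
    have e : c + 5 * (y : ℤ) + 5 ^ (l * s + 1) * (Y : ℤ) =
        c + 5 * ((y : ℤ) + 5 ^ (l * s) * (Y : ℤ)) := by rw [pow_succ]; ring
    rw [← e]
    exact hpt _ (EM_unit' hb _ _)
  have hsum := Finset.sum_le_sum hy
  rw [← Finset.mul_sum, Finset.sum_comm] at hsum
  have h9 : ∑ Y ∈ range (5 ^ r₀), ∑ y ∈ range (5 ^ Q),
      (Real.log (hh K n' (c + 5 * ((y : ℤ) + 5 ^ (l * s) * (Y : ℤ)))) - s * Real.log cl
        - Real.log cm) = 5 ^ r₀ * (5 ^ Q * (- DD K n' c - s * Real.log cl - Real.log cm)) := by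
    have h10 : ∀ Y ∈ range (5 ^ r₀), ∑ y ∈ range (5 ^ Q),
        (Real.log (hh K n' (c + 5 * ((y : ℤ) + 5 ^ (l * s) * (Y : ℤ)))) - s * Real.log cl
          - Real.log cm) = 5 ^ Q * (- DD K n' c - s * Real.log cl - Real.log cm) := by
      intro Y _
      rw [Finset.sum_sub_distrib, Finset.sum_sub_distrib, EM_DD n' Q hQ c (5 ^ (l * s) * (Y : ℤ)),
        Finset.sum_const, Finset.sum_const, Finset.card_range, nsmul_eq_mul, nsmul_eq_mul]
      push_cast; ring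
    rw [Finset.sum_congr rfl h10, Finset.sum_const, Finset.card_range, nsmul_eq_mul]
    push_cast; ring
  rw [h9] at hsum
  exact le_of_mul_le_mul_left hsum (by positivity)

theorem EM_Icc (N : ℕ) (f : ℕ → ℝ) : ∑ j ∈ Icc 1 N, f j = ∑ i ∈ range N, f (i + 1) := by
  induction N with
  | zero => simp
  | succ N ih => rw [Finset.sum_Icc_succ_top (by omega), ih, Finset.sum_range_succ]

/-- splitting of the indices `1..L*B` into offsets and windows -/
theorem EM_offsets (L B : ℕ) (f : ℕ → ℝ) :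
    ∑ j ∈ Icc 1 (L * B), f j = ∑ o ∈ range L, ∑ k ∈ range B, f (o + L * k + 1) := by
  rw [EM_Icc, Finset.sum_comm]
  induction B with
  | zero => simp
  | succ B ih =>
    rw [Nat.mul_succ, Finset.sum_range_add, ih, Finset.sum_range_succ]
    congr 1
    refine Finset.sum_congr rfl fun o _ => ?_
    congr 1
    ring

theorem EM_min_le {K : ℕ} (hK : 8 ≤ K) (L : ℕ) : ∃ C : ℝ, 0 ≤ C ∧ ∀ i, i ≤ L → ∀ x : ℤ,
    ¬ (5 : ℤ) ∣ x → Real.exp (-C) ≤ hh K i x := by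
  choose C hC0 hC using fun i => log_hh_bdd hK i
  refine ⟨∑ i ∈ range (L + 1), C i, Finset.sum_nonneg fun i _ => hC0 i, fun i hi x hx => ?_⟩
  have h1 : C i ≤ ∑ i ∈ range (L + 1), C i :=
    Finset.single_le_sum (fun i _ => hC0 i) (Finset.mem_range.mpr (by omega))
  have h2 := (abs_le.mp (hC i x hx)).1
  rw [← Real.exp_log (hh_pos hK i hx)]
  exact Real.exp_le_exp.mpr (by linarith)

/-- class average of the offsets version of `EM_class` -/
theorem EM_class_all {K : ℕ} (hK : 8 ≤ K) {l : ℕ} (hl : 1 ≤ l) (s n L B Q : ℕ) (hL : 1 ≤ L)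
    (κ ε εl g Cb : ℝ) (hε : 0 ≤ ε) (hκ0 : 0 ≤ κ)
    (hQ : l * s + (n + L * (B + 1)) ≤ Q)
    (hg : g = κ + Real.log (1 - (5 / 6 : ℝ) ^ K))
    (h₀ : ∀ y, ¬ (5 : ℤ) ∣ y → Real.exp (-(κ + ε) * L) ≤ hh K L y)
    (h₁ : ∀ m, n ≤ m → ∀ y, ¬ (5 : ℤ) ∣ y → Real.exp (-(κ + ε) * m) ≤ hh K m y)
    (hm : ∀ i, i ≤ L → ∀ y, ¬ (5 : ℤ) ∣ y → Real.exp (-Cb) ≤ hh K i y)
    (hcl' : ∀ y, ¬ (5 : ℤ) ∣ y → Real.exp (-(κ + εl) * l) ≤ hh K l y) (c : ℤ)
    (hc : ¬ (5 : ℤ) ∣ c)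
    (hDD : κ * ((l * s + (n + L * (B + 1)) : ℕ) : ℝ) ≤ DD K (l * s + (n + L * (B + 1))) c) :
    g / 2 * ∑ y ∈ range (5 ^ Q), ∑ j ∈ Icc 1 (L * B), nu K l (c + 5 * (y : ℤ)) s (n + j) L ≤
      5 ^ Q * (εl * (l * s : ℕ) + ε * ((n + L * (B + 1) : ℕ) : ℝ) + Cb) := by
  have hLpos : (0 : ℝ) < L := by exact_mod_cast hL
  -- one offset
  have hone : ∀ o ∈ range L, L * (g / 2) * ∑ y ∈ range (5 ^ Q), ∑ k ∈ range B,
      nu K l (c + 5 * (y : ℤ)) s (n + (o + L * k + 1)) L ≤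
      5 ^ Q * (εl * (l * s : ℕ) + ε * ((n + L * (B + 1) : ℕ) : ℝ) + Cb) := by
    intro o ho
    have hoL : o < L := Finset.mem_range.mp ho
    have e1 : n + o + L * B + (L - o) = n + L * (B + 1) := by
      rw [Nat.mul_succ]; omega
    have hcls := EM_class hK hl s (n + o) L B (L - o) Q hL (by rw [e1]; exact hQ)
      (Real.exp (-(κ + ε) * L)) (Real.exp (-(κ + ε) * ((n + o : ℕ) : ℝ))) (Real.exp (-Cb))
      (Real.exp (-(κ + εl) * l)) (Real.exp_pos _) (Real.exp_pos _) (Real.exp_pos _)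
      (Real.exp_pos _) h₀ (h₁ (n + o) (by omega)) (hm (L - o) (by omega)) hcl' c hc
    rw [e1] at hcls
    simp only [Real.log_exp] at hcls
    have h1 : ∀ y : ℕ, (-(κ + ε) * ((n + o : ℕ) : ℝ) + ∑ k ∈ range B,
        (nu K l (c + 5 * (y : ℤ)) s (n + o + L * k + 1) L *
            (1 / 2 * (L * Real.log (1 - (5 / 6 : ℝ) ^ K)) + 1 / 2 * (-(κ + ε) * L))
          + (1 - nu K l (c + 5 * (y : ℤ)) s (n + o + L * k + 1) L) * (-(κ + ε) * L))) =
        -(κ + ε) * ((n + o + L * B : ℕ) : ℝ) + (L * ((g + ε) / 2)) * ∑ k ∈ range B,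
          nu K l (c + 5 * (y : ℤ)) s (n + o + L * k + 1) L := by
      intro y
      rw [Finset.mul_sum]
      have h2 : ∀ k ∈ range B, (nu K l (c + 5 * (y : ℤ)) s (n + o + L * k + 1) L *
            (1 / 2 * (L * Real.log (1 - (5 / 6 : ℝ) ^ K)) + 1 / 2 * (-(κ + ε) * L))
          + (1 - nu K l (c + 5 * (y : ℤ)) s (n + o + L * k + 1) L) * (-(κ + ε) * L)) =
          (-(κ + ε) * L) + (L * ((g + ε) / 2)) * nu K l (c + 5 * (y : ℤ)) s (n + o + L * k + 1) L := by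
        intro k _
        rw [hg]; ring
      rw [Finset.sum_congr rfl h2, Finset.sum_add_distrib, Finset.sum_const, Finset.card_range,
        nsmul_eq_mul]
      push_cast; ring
    have h3 : ∑ y ∈ range (5 ^ Q), (-(κ + ε) * ((n + o + L * B : ℕ) : ℝ) +
        (L * ((g + ε) / 2)) * ∑ k ∈ range B,
          nu K l (c + 5 * (y : ℤ)) s (n + o + L * k + 1) L) ≤
        5 ^ Q * (- DD K (l * s + (n + L * (B + 1))) c - s * (-(κ + εl) * l) - -Cb) := by
      rw [← Finset.sum_congr rfl (fun y _ => h1 y)]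
      exact hcls
    rw [Finset.sum_add_distrib, Finset.sum_const, Finset.card_range,
      nsmul_eq_mul, ← Finset.mul_sum] at h3
    set Sg := ∑ y ∈ range (5 ^ Q), ∑ k ∈ range B,
      nu K l (c + 5 * (y : ℤ)) s (n + o + L * k + 1) L with hSg
    have hSg0 : 0 ≤ Sg := Finset.sum_nonneg fun y _ => Finset.sum_nonneg fun k _ =>
      (nu_bounds hK l (EM_unit hc _) s _ L).1
    have h4 : ∑ y ∈ range (5 ^ Q), ∑ k ∈ range B,
      nu K l (c + 5 * (y : ℤ)) s (n + (o + L * k + 1)) L = Sg := by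
      rw [hSg]
      refine Finset.sum_congr rfl fun y _ => Finset.sum_congr rfl fun k _ => ?_
      congr 1
      ring
    rw [h4]
    have h5 : L * (g / 2) * Sg ≤ L * ((g + ε) / 2) * Sg := by
      apply mul_le_mul_of_nonneg_right _ hSg0
      apply mul_le_mul_of_nonneg_left _ hLpos.le
      linarith
    have hP : (0 : ℝ) < 5 ^ Q := by positivity
    have h6 : ((n + o + L * B : ℕ) : ℝ) ≤ ((n + L * (B + 1) : ℕ) : ℝ) := by
      exact_mod_cast (by rw [Nat.mul_succ]; omega)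
    have h7 : (κ + ε) * ((n + o + L * B : ℕ) : ℝ) ≤ (κ + ε) * ((n + L * (B + 1) : ℕ) : ℝ) :=
      mul_le_mul_of_nonneg_left h6 (by linarith)
    have h8 : ((l * s + (n + L * (B + 1)) : ℕ) : ℝ) = ((l * s : ℕ) : ℝ) + ((n + L * (B + 1) : ℕ) : ℝ) := by
      push_cast; ring
    have h9 : L * ((g + ε) / 2) * Sg ≤ 5 ^ Q * ((κ + ε) * ((n + o + L * B : ℕ) : ℝ)
        - DD K (l * s + (n + L * (B + 1))) c + s * ((κ + εl) * l) + Cb) := by
      have h10 : ((5 ^ Q : ℕ) : ℝ) = 5 ^ Q := by push_cast; ring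
      rw [h10] at h3
      linarith
    refine h5.trans (h9.trans ?_)
    apply mul_le_mul_of_nonneg_left _ hP.le
    rw [h8] at hDD
    have h11 : (s : ℝ) * ((κ + εl) * l) = (κ + εl) * ((l * s : ℕ) : ℝ) := by push_cast; ring
    rw [h11]
    linarith
  have hsum := Finset.sum_le_sum hone
  rw [Finset.sum_const, Finset.card_range, nsmul_eq_mul, ← Finset.mul_sum, Finset.sum_comm] at hsum
  have h12 : ∀ y ∈ range (5 ^ Q), ∑ o ∈ range L, ∑ k ∈ range B,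
      nu K l (c + 5 * (y : ℤ)) s (n + (o + L * k + 1)) L =
      ∑ j ∈ Icc 1 (L * B), nu K l (c + 5 * (y : ℤ)) s (n + j) L := by
    intro y _
    rw [EM_offsets L B (fun j => nu K l (c + 5 * (y : ℤ)) s (n + j) L)]
  rw [Finset.sum_congr rfl h12] at hsum
  have h13 : (L : ℝ) * (g / 2 * ∑ y ∈ range (5 ^ Q), ∑ j ∈ Icc 1 (L * B),
      nu K l (c + 5 * (y : ℤ)) s (n + j) L) ≤
      L * (5 ^ Q * (εl * (l * s : ℕ) + ε * ((n + L * (B + 1) : ℕ) : ℝ) + Cb)) := by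
    linarith
  exact le_of_mul_le_mul_left h13 hLpos
/-- average over the units modulo `5^(Q+1)` -/
noncomputable def EM_av (Q : ℕ) (F : ℤ → ℝ) : ℝ :=
  (∑ c ∈ Icc 1 4, ∑ y ∈ range (5 ^ Q), F ((c : ℕ) + 5 * (y : ℤ))) / (4 * 5 ^ Q)

theorem EM_unit4 {c : ℕ} (hc : c ∈ Icc 1 4) (y : ℤ) : ¬ (5 : ℤ) ∣ (c : ℤ) + 5 * y := by
  apply EM_unit
  rw [Finset.mem_Icc] at hc
  omega

theorem EM_av_mono (Q : ℕ) (F G : ℤ → ℝ) (h : ∀ x : ℤ, ¬ (5 : ℤ) ∣ x → F x ≤ G x) :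
    EM_av Q F ≤ EM_av Q G := by
  unfold EM_av
  apply div_le_div_of_nonneg_right _ (by positivity)
  exact Finset.sum_le_sum fun c hc => Finset.sum_le_sum fun y _ => h _ (EM_unit4 hc _)

theorem EM_av_const (Q : ℕ) (a : ℝ) : EM_av Q (fun _ => a) = a := by
  unfold EM_av
  simp only [Finset.sum_const, Finset.card_range, nsmul_eq_mul, Nat.card_Icc]
  push_cast
  have : (5 : ℝ) ^ Q ≠ 0 := by positivity
  field_simp

theorem EM_av_lin (Q : ℕ) (F G H : ℤ → ℝ) :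
    EM_av Q (fun x => F x - G x + H x) = EM_av Q F - EM_av Q G + EM_av Q H := by
  unfold EM_av
  simp only [Finset.sum_add_distrib, Finset.sum_sub_distrib]
  ring

theorem EM_av_sub (Q : ℕ) (F G : ℤ → ℝ) :
    EM_av Q (fun x => F x - G x) = EM_av Q F - EM_av Q G := by
  unfold EM_av
  simp only [Finset.sum_sub_distrib]
  ring

theorem EM_av_class (Q : ℕ) (F : ℤ → ℝ) (hF : ∀ x : ℤ, ¬ (5 : ℤ) ∣ x → 0 ≤ F x) {c : ℕ}
    (hc : c ∈ Icc 1 4) :
    ∑ y ∈ range (5 ^ Q), F ((c : ℤ) + 5 * (y : ℤ)) ≤ 4 * 5 ^ Q * EM_av Q F := by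
  unfold EM_av
  rw [mul_div_cancel₀ _ (by positivity)]
  exact Finset.single_le_sum (f := fun c : ℕ => ∑ y ∈ range (5 ^ Q), F ((c : ℤ) + 5 * (y : ℤ)))
    (fun c hc => Finset.sum_nonneg fun y _ => hF _ (EM_unit4 hc _)) hc

theorem EM {K : ℕ} (hK : 20 ≤ K) (κ : ℝ) (hLow : LowR K κ) (hκ : κ < Real.log (6 / 5))
    (hD : ∃ n₁ : ℕ, ∀ n, n₁ ≤ n → ∃ c : ℤ, ¬ (5 : ℤ) ∣ c ∧ κ * n ≤ DD K n c) :
    κ ≤ - Real.log (1 - (5 / 6 : ℝ) ^ K) := by
  by_contra hcon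
  push Not at hcon
  have hK8 : 8 ≤ K := by omega
  have hp1 : (0 : ℝ) < (5 / 6) ^ K := by positivity
  have hp2 : ((5 : ℝ) / 6) ^ K < 1 := pow_lt_one₀ (by norm_num) (by norm_num) (by omega)
  have hlogq : Real.log (1 - (5 / 6 : ℝ) ^ K) < 0 := Real.log_neg (by linarith) (by linarith)
  set g : ℝ := κ + Real.log (1 - (5 / 6 : ℝ) ^ K) with hg
  have hg0 : 0 < g := by linarith
  have hκ0 : 0 ≤ κ := by linarith
  obtain ⟨h, hh0, l₀, hl₀⟩ := ker_ent hK8 κ hLow hκ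
  have hlog5 : 0 < Real.log 5 := Real.log_pos (by norm_num)
  set γ : ℝ := g * h / Real.log 5 with hγ
  have hγ0 : 0 < γ := by positivity
  set ε : ℝ := γ / (64 * (K + 1)) with hε
  have hε0 : 0 < ε := by positivity
  obtain ⟨nL, hnL⟩ := hLow ε hε0
  set L : ℕ := max nL 1 with hL
  have hL1 : 1 ≤ L := le_max_right _ _
  have hLpos : (0 : ℝ) < L := by exact_mod_cast hL1
  obtain ⟨ε₂, hε₂, hLC⟩ := LC K L hK8 hL1 h hh0
  set δ : ℝ := ε₂ * h / (32 * Real.log 5 * L) with hδ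
  have hδ0 : 0 < δ := by positivity
  obtain ⟨R₀, hR₀1, hSL⟩ := SL K (by omega) δ hδ0
  have hR₀pos : (0 : ℝ) < R₀ := by exact_mod_cast hR₀1
  set εl : ℝ := γ / (64 * R₀) with hεl
  have hεl0 : 0 < εl := by positivity
  obtain ⟨nl, hnl⟩ := hLow εl hεl0
  set l : ℕ := L * (l₀ + nl + 1) with hl
  have hlge : l₀ + nl + 1 ≤ l := Nat.le_mul_of_pos_left _ (by omega)
  have hl1 : 1 ≤ l := by omega
  have hk : ∀ x : ℤ, ¬ (5 : ℤ) ∣ x → h * l ≤ ∑ w ∈ words K l, Real.negMulLog (ker K l x w) :=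
    hl₀ l (by omega)
  obtain ⟨τ₁, hτ₁⟩ := hLC l hl1 hk
  obtain ⟨Cb, hCb0, hCb⟩ := EM_min_le hK8 L
  obtain ⟨n₁, hn₁⟩ := hD
  obtain ⟨N0, hN0⟩ := exists_nat_gt (64 * (Cb + g / 2 * L) / γ)
  set τ₀ : ℕ := τ₁ + nL + n₁ + N0 + 1 with hτ₀
  set Q : ℕ := l * (R₀ * τ₀) + (K + 1) * (l * (R₀ * τ₀)) with hQ
  -- choice of the scale
  set cf : ℕ → ℕ → ℝ := fun j s => EM_av Q (fun x => cs K l x j s) with hcf
  obtain ⟨τ, hττ₀, hτR, hsumτ⟩ := hSL R₀ le_rfl l hl1 τ₀ (by omega) cf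
    (by
      intro j s
      have := EM_av_mono Q (fun _ => (0 : ℝ)) (fun x => cs K l x j s)
        (fun x hx => cs_nonneg hK8 l hx j s)
      rw [EM_av_const] at this
      exact this)
    (by
      intro j s
      have := EM_av_mono Q (fun x => cs K l x j s) (fun _ => (j + 1) * Real.log 5)
        (fun x hx => cs_le hK8 l hx j s)
      rw [EM_av_const] at this
      exact this)
    (by
      intro τ m s
      have := EM_av_mono Q (fun x => cs K l x (l * τ + m) s - cs K l x (l * τ) s)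
        (fun x => cs K l x m (s + τ)) (fun x hx => cs_sub hK8 hl1 hx τ m s)
      rw [EM_av_sub] at this
      exact this)
  have hRτpos : 0 < R₀ * τ₀ := Nat.mul_pos (by omega) (by omega)
  obtain ⟨s, hs, hcomb⟩ : ∃ s ∈ range (R₀ * τ₀),
      cf (K * (l * τ)) (s + τ) - cf ((K + 1) * (l * τ)) s + cf (l * τ) s ≤ δ * (l * τ) := by
    apply Finset.exists_le_of_sum_le ⟨0, Finset.mem_range.mpr hRτpos⟩
    rw [Finset.sum_const, Finset.card_range, nsmul_eq_mul]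
    refine hsumτ.trans (le_of_eq ?_)
    push_cast; ring
  have hsR : s < R₀ * τ₀ := Finset.mem_range.mp hs
  set n : ℕ := l * τ with hn
  have hτ1 : 1 ≤ τ := by omega
  have hnτ : τ ≤ n := Nat.le_mul_of_pos_left _ (by omega)
  have hnpos : (0 : ℝ) < n := by
    have : 0 < n := by omega
    exact_mod_cast this
  -- the combination for each start
  set cx : ℤ → ℝ := fun x => cs K l x (K * n) (s + τ) - cs K l x ((K + 1) * n) s + cs K l x n s
    with hcx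
  have hcx0 : ∀ x : ℤ, ¬ (5 : ℤ) ∣ x → 0 ≤ cx x := by
    intro x hx
    have h1 := cs_sub hK8 hl1 hx τ (K * n) s
    have e : l * τ + K * n = (K + 1) * n := by rw [← hn]; ring
    rw [e, ← hn] at h1
    simp only [hcx]
    linarith
  have havcx : EM_av Q cx ≤ δ * n := by
    have h1 := EM_av_lin Q (fun x => cs K l x (K * n) (s + τ)) (fun x => cs K l x ((K + 1) * n) s)
      (fun x => cs K l x n s)
    have h2 : EM_av Q cx = cf (K * n) (s + τ) - cf ((K + 1) * n) s + cf n s := h1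
    rw [h2]
    refine hcomb.trans (le_of_eq ?_)
    rw [hn]; push_cast; ring
  -- the windows
  set B : ℕ := K * (l₀ + nl + 1) * τ - 1 with hB
  have hB1 : L * (B + 1) = K * n := by
    have h1 : 1 ≤ K * (l₀ + nl + 1) * τ :=
      Nat.mul_pos (Nat.mul_pos (by omega) (by omega)) (by omega)
    have h2 : B + 1 = K * (l₀ + nl + 1) * τ := by omega
    rw [h2, hn, hl]; ring
  have hLB : L * B + L = K * n := by rw [← hB1]; ring
  -- the class
  set n' : ℕ := l * s + (n + L * (B + 1)) with hn'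
  have hn'n₁ : n₁ ≤ n' := by omega
  have hn'Q : n' ≤ Q := by
    have h1 : l * s ≤ l * (R₀ * τ₀) := Nat.mul_le_mul_left _ hsR.le
    have h2 : n + L * (B + 1) = (K + 1) * (l * τ) := by rw [hB1, ← hn]; ring
    have h3 : (K + 1) * (l * τ) ≤ (K + 1) * (l * (R₀ * τ₀)) :=
      Nat.mul_le_mul_left _ (Nat.mul_le_mul_left _ hτR)
    rw [hn', h2, hQ]
    exact Nat.add_le_add h1 h3
  obtain ⟨c', hc', hDDc'⟩ := hn₁ n' hn'n₁
  obtain ⟨c, hc4, a, hca⟩ : ∃ c : ℕ, c ∈ Icc 1 4 ∧ ∃ a : ℤ, c' = (c : ℤ) + 5 * a := by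
    refine ⟨(c' % 5).toNat, ?_, c' / 5, ?_⟩
    · rw [Finset.mem_Icc]; omega
    · omega
  have hc : ¬ (5 : ℤ) ∣ (c : ℤ) := by
    have := EM_unit4 hc4 0
    simpa using this
  have hDDeq : DD K n' c' = DD K n' (c : ℤ) := by
    have h1 := EM_DD (K := K) n' Q hn'Q c' 0
    have h2 := EM_DD (K := K) n' Q hn'Q (c : ℤ) a
    have h3 : ∑ y ∈ range (5 ^ Q), Real.log (hh K n' (c' + 5 * ((y : ℤ) + 0))) =
        ∑ y ∈ range (5 ^ Q), Real.log (hh K n' ((c : ℤ) + 5 * ((y : ℤ) + a))) := by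
      refine Finset.sum_congr rfl fun y _ => ?_
      congr 2
      rw [hca]; ring
    rw [h3, h2] at h1
    have h4 : (0 : ℝ) < 5 ^ Q := by positivity
    have h5 : (5 : ℝ) ^ Q * DD K n' c' = 5 ^ Q * DD K n' (c : ℤ) := by linarith
    exact mul_left_cancel₀ h4.ne' h5
  rw [hDDeq] at hDDc'
  have hmain := EM_class_all hK8 hl1 s n L B Q hL1 κ ε εl g Cb hε0.le hκ0 hn'Q hg
    (fun y hy => hnL L (le_max_left _ _) y hy)
    (fun m hm y hy => hnL m (by omega) y hy) hCb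
    (fun y hy => hnl l (by omega) y hy) (c : ℤ) hc hDDc'
  -- lower bound from LC
  have hlow : ∀ y ∈ range (5 ^ Q), h * (n : ℝ) / (4 * Real.log 5) - (L / ε₂) * cx ((c : ℤ) + 5 * (y : ℤ)) - L ≤
      ∑ j ∈ Icc 1 (L * B), nu K l ((c : ℤ) + 5 * (y : ℤ)) s (n + j) L := by
    intro y _
    have hx : ¬ (5 : ℤ) ∣ (c : ℤ) + 5 * (y : ℤ) := EM_unit hc _
    have h1 := hτ₁ τ (by omega) _ hx s
    rw [← hn] at h1
    have h2 : ∑ j ∈ Icc 1 (K * n), nu K l ((c : ℤ) + 5 * (y : ℤ)) s (n + j) L ≤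
        ∑ j ∈ Icc 1 (L * B), nu K l ((c : ℤ) + 5 * (y : ℤ)) s (n + j) L + L := by
      rw [EM_Icc, EM_Icc, ← hLB, Finset.sum_range_add]
      have h3 : ∑ i ∈ range L, nu K l ((c : ℤ) + 5 * (y : ℤ)) s (n + (L * B + i + 1)) L ≤
          ∑ _i ∈ range L, (1 : ℝ) :=
        Finset.sum_le_sum fun i _ => (nu_bounds hK8 l hx s _ L).2
      simp only [Finset.sum_const, Finset.card_range, nsmul_eq_mul, mul_one] at h3
      linarith
    have h4 : h * (n : ℝ) / (4 * Real.log 5) - (L / ε₂) * cx ((c : ℤ) + 5 * (y : ℤ)) ≤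
        ∑ j ∈ Icc 1 (K * n), nu K l ((c : ℤ) + 5 * (y : ℤ)) s (n + j) L := h1
    linarith
  have hlow2 := Finset.sum_le_sum hlow
  rw [Finset.sum_sub_distrib, Finset.sum_sub_distrib, ← Finset.mul_sum, Finset.sum_const,
    Finset.sum_const, Finset.card_range, nsmul_eq_mul, nsmul_eq_mul] at hlow2
  have hcls := EM_av_class Q cx hcx0 hc4
  have hP : (0 : ℝ) < 5 ^ Q := by positivity
  have h5 : (L / ε₂) * ∑ y ∈ range (5 ^ Q), cx ((c : ℤ) + 5 * (y : ℤ)) ≤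
      5 ^ Q * (h * n / (8 * Real.log 5)) := by
    calc (L / ε₂) * ∑ y ∈ range (5 ^ Q), cx ((c : ℤ) + 5 * (y : ℤ))
        ≤ (L / ε₂) * (4 * 5 ^ Q * (δ * n)) := by
          apply mul_le_mul_of_nonneg_left _ (by positivity)
          exact hcls.trans (mul_le_mul_of_nonneg_left havcx (by positivity))
      _ = 5 ^ Q * (h * n / (8 * Real.log 5)) := by
          rw [hδ]; field_simp; ring
  set Sg := ∑ y ∈ range (5 ^ Q), ∑ j ∈ Icc 1 (L * B), nu K l ((c : ℤ) + 5 * (y : ℤ)) s (n + j) L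
    with hSg
  have h6 : 5 ^ Q * (h * n / (8 * Real.log 5) - L) ≤ Sg := by
    have e1 : h * (n : ℝ) / (4 * Real.log 5) = 2 * (h * n / (8 * Real.log 5)) := by
      field_simp; ring
    rw [e1] at hlow2
    push_cast at hlow2
    linarith
  have h7 : g / 2 * (5 ^ Q * (h * n / (8 * Real.log 5) - L)) ≤
      5 ^ Q * (εl * (l * s : ℕ) + ε * ((n + L * (B + 1) : ℕ) : ℝ) + Cb) :=
    (mul_le_mul_of_nonneg_left h6 (by positivity)).trans hmain
  have h8 : g / 2 * (h * n / (8 * Real.log 5) - L) ≤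
      εl * (l * s : ℕ) + ε * ((n + L * (B + 1) : ℕ) : ℝ) + Cb := by
    have e : g / 2 * (5 ^ Q * (h * n / (8 * Real.log 5) - L)) =
        5 ^ Q * (g / 2 * (h * n / (8 * Real.log 5) - L)) := by ring
    rw [e] at h7
    exact le_of_mul_le_mul_left h7 hP
  have h9 : g / 2 * (h * n / (8 * Real.log 5) - L) = γ * n / 16 - g / 2 * L := by
    rw [hγ]; field_simp; ring
  have h10 : εl * ((l * s : ℕ) : ℝ) ≤ γ * n / 64 := by
    have h11 : l * s ≤ R₀ * n := by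
      calc l * s ≤ l * (R₀ * τ₀) := Nat.mul_le_mul_left _ hsR.le
        _ ≤ l * (R₀ * τ) := Nat.mul_le_mul_left _ (Nat.mul_le_mul_left _ hττ₀)
        _ = R₀ * n := by rw [hn]; ring
    have h12 : ((l * s : ℕ) : ℝ) ≤ R₀ * n := by exact_mod_cast h11
    calc εl * ((l * s : ℕ) : ℝ) ≤ εl * (R₀ * n) := mul_le_mul_of_nonneg_left h12 hεl0.le
      _ = γ * n / 64 := by rw [hεl]; field_simp
  have h13 : ε * ((n + L * (B + 1) : ℕ) : ℝ) = γ * n / 64 := by
    rw [hB1, hε]; push_cast; field_simp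
    ring
  have h14 : Cb + g / 2 * L < γ * n / 64 := by
    rw [div_lt_iff₀ hγ0] at hN0
    have h15 : (N0 : ℝ) ≤ n := by
      have : N0 ≤ n := by omega
      exact_mod_cast this
    nlinarith
  rw [h9, h13] at h8
  have h16 : 0 < γ * n := by positivity
  linarith

end Pool.Agent.Lib_helper56.Low
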