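import Pool.Agent.Lib_helper56.Low.Defs

set_option autoImplicit false

namespace Pool.Agent.Lib_helper56.Low

open Finset


section EN

variable {ι κ α β γ : Type} [DecidableEq α] [DecidableEq β] [DecidableEq γ]

theorem mass_nonneg {S : Finset ι} {P : ι → ℝ} (hP : ∀ i ∈ S, 0 ≤ P i) (f : ι → α) (a : α) :
    0 ≤ mass S P f a :=
  Finset.sum_nonneg fun i hi => hP i (Finset.mem_filter.1 hi).1

theorem mass_eq_ite (S : Finset ι) (P : ι → ℝ) (f : ι → α) (a : α) :
    mass S P f a = ∑ i ∈ S, if f i = a then P i else 0 := by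
  unfold mass
  rw [Finset.sum_filter]

theorem sum_mass (S : Finset ι) (P : ι → ℝ) (f : ι → α) (R : Finset α) (hR : ∀ i ∈ S, f i ∈ R) :
    ∑ a ∈ R, mass S P f a = ∑ i ∈ S, P i := by
  unfold mass
  exact Finset.sum_fiberwise_of_maps_to hR P

theorem mass_zero_of_not_mem (S : Finset ι) (P : ι → ℝ) (f : ι → α) (a : α)
    (ha : a ∉ S.image f) : mass S P f a = 0 := by
  unfold mass
  rw [Finset.sum_eq_zero]
  intro i hi
  rw [Finset.mem_filter] at hi
  exact absurd (Finset.mem_image.2 ⟨i, hi.1, hi.2⟩) ha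

/-- the entropy may be computed over any finite set containing the image -/
theorem ent_eq_sum (S : Finset ι) (P : ι → ℝ) (f : ι → α) (R : Finset α) (hR : ∀ i ∈ S, f i ∈ R) :
    ent S P f = ∑ a ∈ R, Real.negMulLog (mass S P f a) := by
  unfold ent
  apply Finset.sum_subset
  · intro a ha
    obtain ⟨i, hi, rfl⟩ := Finset.mem_image.1 ha
    exact hR i hi
  · intro a _ ha
    rw [mass_zero_of_not_mem S P f a ha, Real.negMulLog_zero]

/-- general summation of masses over the values of a second function -/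
theorem mass_sum_gen {α' : Type} [DecidableEq α'] (S : Finset ι) (P : ι → ℝ) (F : ι → α')
    (F' : ι → α) (g : ι → β) (φ : β → α') (a : α) (R : Finset β) (hR : ∀ i ∈ S, g i ∈ R)
    (hφ : ∀ i ∈ S, ∀ b ∈ R, (F i = φ b ↔ (F' i = a ∧ g i = b))) :
    ∑ b ∈ R, mass S P F (φ b) = mass S P F' a := by
  unfold mass
  have h1 : ∀ b ∈ R, ∑ i ∈ S.filter (fun i => F i = φ b), P i =
      ∑ i ∈ (S.filter (fun i => F' i = a)).filter (fun i => g i = b), P i := by
    intro b hb
    apply Finset.sum_congr _ (fun _ _ => rfl)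
    ext i
    simp only [Finset.mem_filter]
    constructor
    · rintro ⟨h, h2⟩
      have := (hφ i h b hb).1 h2
      exact ⟨⟨h, this.1⟩, this.2⟩
    · rintro ⟨⟨h, h2⟩, h3⟩
      exact ⟨h, (hφ i h b hb).2 ⟨h2, h3⟩⟩
  rw [Finset.sum_congr rfl h1]
  exact Finset.sum_fiberwise_of_maps_to (fun i hi => hR i (Finset.mem_filter.1 hi).1) P

/-- splitting a mass along a second function -/
theorem mass_pair_sum (S : Finset ι) (P : ι → ℝ) (f : ι → α) (g : ι → β) (a : α) (R : Finset β)
    (hR : ∀ i ∈ S, g i ∈ R) :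
    ∑ b ∈ R, mass S P (fun i => (f i, g i)) (a, b) = mass S P f a :=
  mass_sum_gen S P (fun i => (f i, g i)) f g (fun b => (a, b)) a R hR
    (fun i _ b _ => by simp only [Prod.mk.injEq])

theorem mass_pair_sum' (S : Finset ι) (P : ι → ℝ) (f : ι → α) (g : ι → β) (b : β) (R : Finset α)
    (hR : ∀ i ∈ S, f i ∈ R) :
    ∑ a ∈ R, mass S P (fun i => (f i, g i)) (a, b) = mass S P g b :=
  mass_sum_gen S P (fun i => (f i, g i)) g f (fun a => (a, b)) b R hR
    (fun i _ a _ => by simp only [Prod.mk.injEq]; tauto)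

/-- entropy of a pair as a double sum -/
theorem ent_pair_eq (S : Finset ι) (P : ι → ℝ) (f : ι → α) (g : ι → β) (R : Finset α)
    (R' : Finset β) (hR : ∀ i ∈ S, f i ∈ R) (hR' : ∀ i ∈ S, g i ∈ R') :
    ent S P (fun i => (f i, g i)) =
      ∑ a ∈ R, ∑ b ∈ R', Real.negMulLog (mass S P (fun i => (f i, g i)) (a, b)) := by
  rw [ent_eq_sum S P (fun i => (f i, g i)) (R ×ˢ R')
    (fun i hi => Finset.mk_mem_product (hR i hi) (hR' i hi)), Finset.sum_product]

theorem mass_le_one {S : Finset ι} {P : ι → ℝ} (hP : IsProb S P) (f : ι → α) (a : α) :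
    mass S P f a ≤ 1 := by
  rw [← hP.sum_eq]
  unfold mass
  exact Finset.sum_le_sum_of_subset_of_nonneg (Finset.filter_subset _ _)
    (fun i hi _ => hP.nonneg i hi)

theorem ent_nonneg {S : Finset ι} {P : ι → ℝ} (hP : IsProb S P) (f : ι → α) : 0 ≤ ent S P f :=
  Finset.sum_nonneg fun a _ =>
    Real.negMulLog_nonneg (mass_nonneg hP.nonneg f a) (mass_le_one hP f a)

theorem negMulLog_le_lin {m N : ℝ} (hm : 0 ≤ m) (hN : 0 < N) :
    Real.negMulLog m ≤ m * Real.log N + (1 / N - m) := by
  rcases hm.eq_or_lt with rfl | hm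
  · simp only [Real.negMulLog_zero, zero_mul, zero_add, sub_zero]
    positivity
  · have h1 := Real.log_le_sub_one_of_pos (show 0 < 1 / (N * m) by positivity)
    rw [Real.log_div one_ne_zero (by positivity), Real.log_one, Real.log_mul hN.ne' hm.ne'] at h1
    have h2 := mul_le_mul_of_nonneg_left h1 hm.le
    have h3 : m * (1 / (N * m) - 1) = 1 / N - m := by
      field_simp
    rw [h3] at h2
    unfold Real.negMulLog
    linarith

theorem ent_le_log_card {S : Finset ι} {P : ι → ℝ} (hP : IsProb S P) (f : ι → α) (R : Finset α)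
    (hR : ∀ i ∈ S, P i ≠ 0 → f i ∈ R) : ent S P f ≤ Real.log (R.card : ℝ) := by
  have hz : ∀ a, a ∉ R → mass S P f a = 0 := by
    intro a ha
    unfold mass
    apply Finset.sum_eq_zero
    intro i hi
    rw [Finset.mem_filter] at hi
    by_contra hne
    exact ha (hi.2 ▸ hR i hi.1 hne)
  have hent : ent S P f = ∑ a ∈ R, Real.negMulLog (mass S P f a) := by
    rw [ent_eq_sum S P f (R ∪ S.image f)
      (fun i hi => Finset.mem_union_right _ (Finset.mem_image_of_mem f hi))]
    symm
    apply Finset.sum_subset Finset.subset_union_left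
    intro a _ ha
    rw [hz a ha, Real.negMulLog_zero]
  have hsum : ∑ a ∈ R, mass S P f a = 1 := by
    rw [← hP.sum_eq, ← sum_mass S P f (R ∪ S.image f)
      (fun i hi => Finset.mem_union_right _ (Finset.mem_image_of_mem f hi))]
    apply Finset.sum_subset Finset.subset_union_left
    intro a _ ha
    exact hz a ha
  have hne : R.Nonempty := by
    by_contra h
    rw [Finset.not_nonempty_iff_eq_empty] at h
    rw [h, Finset.sum_empty] at hsum
    exact zero_ne_one hsum
  have hN : (0 : ℝ) < (R.card : ℝ) := by exact_mod_cast Finset.card_pos.2 hne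
  rw [hent]
  calc ∑ a ∈ R, Real.negMulLog (mass S P f a)
      ≤ ∑ a ∈ R, (mass S P f a * Real.log (R.card : ℝ) + (1 / (R.card : ℝ) - mass S P f a)) :=
        Finset.sum_le_sum fun a _ => negMulLog_le_lin (mass_nonneg hP.nonneg f a) hN
    _ = Real.log (R.card : ℝ) := by
        rw [Finset.sum_add_distrib, Finset.sum_sub_distrib, ← Finset.sum_mul, hsum,
          Finset.sum_const, nsmul_eq_mul]
        field_simp
        ring

/-- entropy is invariant under a bijective change of the index set -/
theorem ent_map {S : Finset ι} {S' : Finset κ} (P : ι → ℝ) (P' : κ → ℝ) (f : ι → α) (f' : κ → α)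
    (φ : κ → ι) (hφ : Set.BijOn φ (S' : Set κ) (S : Set ι)) (hP : ∀ i ∈ S', P' i = P (φ i))
    (hf : ∀ i ∈ S', P' i ≠ 0 → f' i = f (φ i)) : ent S' P' f' = ent S P f := by
  have hm : ∀ a, mass S' P' f' a = mass S P f a := by
    intro a
    rw [mass_eq_ite, mass_eq_ite]
    refine Finset.sum_bij (fun i _ => φ i) (fun i hi => hφ.mapsTo hi)
      (fun i hi j hj h => hφ.injOn hi hj h) ?_ ?_
    · intro j hj
      obtain ⟨i, hi, h⟩ := hφ.surjOn hj
      exact ⟨i, hi, h⟩
    · intro i hi
      by_cases h0 : P' i = 0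
      · rw [← hP i hi, h0]
        simp
      · rw [hf i hi h0, hP i hi]
  rw [ent_eq_sum S' P' f' (S'.image f' ∪ S.image f)
      (fun i hi => Finset.mem_union_left _ (Finset.mem_image_of_mem f' hi)),
    ent_eq_sum S P f (S'.image f' ∪ S.image f)
      (fun i hi => Finset.mem_union_right _ (Finset.mem_image_of_mem f hi))]
  exact Finset.sum_congr rfl fun a _ => by rw [hm a]

/-- disintegration of the conditional entropy -/
theorem ent_disint {S : Finset ι} {P : ι → ℝ} (hP : ∀ i ∈ S, 0 ≤ P i) (f : ι → α) (g : ι → β) :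
    ent S P (fun i => (f i, g i)) - ent S P g =
      ∑ b ∈ S.image g, mass S P g b *
        ent (S.filter (fun i => g i = b)) (fun i => P i / mass S P g b) f := by
  have h1 : ent S P (fun i => (f i, g i)) = ∑ b ∈ S.image g, ∑ a ∈ S.image f,
      Real.negMulLog (mass S P (fun i => (f i, g i)) (a, b)) := by
    rw [ent_pair_eq S P f g (S.image f) (S.image g) (fun i hi => Finset.mem_image_of_mem f hi)
      (fun i hi => Finset.mem_image_of_mem g hi), Finset.sum_comm]
  have h2 : ent S P g = ∑ b ∈ S.image g, Real.negMulLog (mass S P g b) := rfl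
  rw [h1, h2, ← Finset.sum_sub_distrib]
  apply Finset.sum_congr rfl
  intro b _
  have h3 : ent (S.filter (fun i => g i = b)) (fun i => P i / mass S P g b) f =
      ∑ a ∈ S.image f, Real.negMulLog (mass (S.filter (fun i => g i = b))
        (fun i => P i / mass S P g b) f a) :=
    ent_eq_sum _ _ _ _ (fun i hi => Finset.mem_image_of_mem f (Finset.mem_filter.1 hi).1)
  have h4 : ∀ a, mass (S.filter (fun i => g i = b)) (fun i => P i / mass S P g b) f a =
      mass S P (fun i => (f i, g i)) (a, b) / mass S P g b := by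
    intro a
    unfold mass
    rw [Finset.sum_div, Finset.filter_filter]
    apply Finset.sum_congr _ (fun _ _ => rfl)
    ext i
    simp only [Finset.mem_filter, Prod.mk.injEq]
    tauto
  have h5 := mass_pair_sum' S P f g b (S.image f) (fun i hi => Finset.mem_image_of_mem f hi)
  have hm0 : ∀ a, 0 ≤ mass S P (fun i => (f i, g i)) (a, b) := fun a => mass_nonneg hP _ _
  rw [h3, Finset.mul_sum]
  rcases (mass_nonneg hP g b).eq_or_lt with hM | hM
  · -- zero mass
    have h6 : ∀ a ∈ S.image f, mass S P (fun i => (f i, g i)) (a, b) = 0 := by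
      have : ∑ a ∈ S.image f, mass S P (fun i => (f i, g i)) (a, b) = 0 := by rw [h5, ← hM]
      exact (Finset.sum_eq_zero_iff_of_nonneg fun a _ => hm0 a).1 this
    rw [← hM, Real.negMulLog_zero, sub_zero]
    apply Finset.sum_congr rfl
    intro a ha
    rw [h6 a ha, Real.negMulLog_zero, zero_mul]
  · have h7 : ∀ a ∈ S.image f, mass S P g b * Real.negMulLog (mass (S.filter (fun i => g i = b))
        (fun i => P i / mass S P g b) f a) =
        Real.negMulLog (mass S P (fun i => (f i, g i)) (a, b)) +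
          mass S P (fun i => (f i, g i)) (a, b) * Real.log (mass S P g b) := by
      intro a _
      rw [h4 a]
      rcases (hm0 a).eq_or_lt with h0 | h0
      · rw [← h0]; simp
      · unfold Real.negMulLog
        rw [Real.log_div h0.ne' hM.ne']
        field_simp
        ring
    rw [Finset.sum_congr rfl h7, Finset.sum_add_distrib, ← Finset.sum_mul, h5]
    unfold Real.negMulLog
    ring

theorem mass_prod (S : Finset ι) (P : ι → ℝ) (S' : Finset κ) (P' : κ → ℝ)
    (f : ι → α) (g : κ → β) (a : α) (b : β) :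
    mass (S ×ˢ S') (fun p => P p.1 * P' p.2) (fun p => (f p.1, g p.2)) (a, b) =
      mass S P f a * mass S' P' g b := by
  unfold mass
  rw [Finset.sum_mul_sum, ← Finset.sum_product']
  apply Finset.sum_congr _ (fun _ _ => rfl)
  ext p
  simp only [Finset.mem_filter, Finset.mem_product, Prod.mk.injEq]
  tauto

/-- entropy of independent pairs -/
theorem ent_prod {S : Finset ι} {P : ι → ℝ} {S' : Finset κ} {P' : κ → ℝ} (hP : IsProb S P)
    (hP' : IsProb S' P') (f : ι → α) (g : κ → β) :
    ent (S ×ˢ S') (fun p => P p.1 * P' p.2) (fun p => (f p.1, g p.2)) = ent S P f + ent S' P' g := by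
  rw [ent_pair_eq (S ×ˢ S') (fun p => P p.1 * P' p.2) (fun p => f p.1) (fun p => g p.2)
    (S.image f) (S'.image g)
    (fun p hp => Finset.mem_image_of_mem f (Finset.mem_product.1 hp).1)
    (fun p hp => Finset.mem_image_of_mem g (Finset.mem_product.1 hp).2)]
  have h1 : ∀ a b, Real.negMulLog (mass (S ×ˢ S') (fun p => P p.1 * P' p.2)
      (fun p => (f p.1, g p.2)) (a, b)) =
      mass S' P' g b * Real.negMulLog (mass S P f a) +
        mass S P f a * Real.negMulLog (mass S' P' g b) := by
    intro a b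
    rw [mass_prod, Real.negMulLog_mul]
  simp only [h1, Finset.sum_add_distrib, ← Finset.mul_sum, ← Finset.sum_mul]
  rw [sum_mass S' P' g (S'.image g) (fun i hi => Finset.mem_image_of_mem g hi), hP'.sum_eq,
    sum_mass S P f (S.image f) (fun i hi => Finset.mem_image_of_mem f hi), hP.sum_eq]
  unfold ent
  ring


theorem negMulLog_add_le {x y : ℝ} (hx : 0 ≤ x) (hy : 0 ≤ y) :
    Real.negMulLog (x + y) ≤ Real.negMulLog x + Real.negMulLog y := by
  rcases hx.eq_or_lt with rfl | hx
  · simp
  rcases hy.eq_or_lt with rfl | hy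
  · simp
  unfold Real.negMulLog
  have h1 : Real.log x ≤ Real.log (x + y) := Real.log_le_log hx (by linarith)
  have h2 : Real.log y ≤ Real.log (x + y) := Real.log_le_log hy (by linarith)
  nlinarith [mul_le_mul_of_nonneg_left h1 hx.le, mul_le_mul_of_nonneg_left h2 hy.le]

theorem negMulLog_sum_le (R : Finset α) (m : α → ℝ) (hm : ∀ a ∈ R, 0 ≤ m a) :
    Real.negMulLog (∑ a ∈ R, m a) ≤ ∑ a ∈ R, Real.negMulLog (m a) := by
  induction R using Finset.induction_on with
  | empty => simp
  | insert a R ha ih =>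
      rw [Finset.sum_insert ha, Finset.sum_insert ha]
      have h1 := ih (fun b hb => hm b (Finset.mem_insert_of_mem hb))
      have h2 : 0 ≤ ∑ b ∈ R, m b :=
        Finset.sum_nonneg fun b hb => hm b (Finset.mem_insert_of_mem hb)
      have h3 := negMulLog_add_le (hm a (Finset.mem_insert_self a R)) h2
      linarith

theorem ent_snd_le {S : Finset ι} {P : ι → ℝ} (hP : ∀ i ∈ S, 0 ≤ P i) (f : ι → α) (g : ι → β) :
    ent S P g ≤ ent S P (fun i => (f i, g i)) := by
  rw [ent_pair_eq S P f g (S.image f) (S.image g) (fun i hi => Finset.mem_image_of_mem f hi)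
      (fun i hi => Finset.mem_image_of_mem g hi), Finset.sum_comm]
  unfold ent
  apply Finset.sum_le_sum
  intro b _
  rw [← mass_pair_sum' S P f g b (S.image f) (fun i hi => Finset.mem_image_of_mem f hi)]
  exact negMulLog_sum_le _ _ (fun a _ => mass_nonneg hP _ _)

theorem ent_fst_le {S : Finset ι} {P : ι → ℝ} (hP : ∀ i ∈ S, 0 ≤ P i) (f : ι → α) (g : ι → β) :
    ent S P f ≤ ent S P (fun i => (f i, g i)) := by
  rw [ent_pair_eq S P f g (S.image f) (S.image g) (fun i hi => Finset.mem_image_of_mem f hi)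
      (fun i hi => Finset.mem_image_of_mem g hi)]
  unfold ent
  apply Finset.sum_le_sum
  intro a _
  rw [← mass_pair_sum S P f g a (S.image g) (fun i hi => Finset.mem_image_of_mem g hi)]
  exact negMulLog_sum_le _ _ (fun b _ => mass_nonneg hP _ _)

/-- if `g` is (almost surely) a function of `f` then `H(f,g) = H(f)` -/
theorem ent_pair_det {S : Finset ι} {P : ι → ℝ} (f : ι → α) (g : ι → β)
    (h : ∀ i ∈ S, ∀ j ∈ S, P i ≠ 0 → P j ≠ 0 → f i = f j → g i = g j) :
    ent S P (fun i => (f i, g i)) = ent S P f := by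
  rw [ent_pair_eq S P f g (S.image f) (S.image g) (fun i hi => Finset.mem_image_of_mem f hi)
      (fun i hi => Finset.mem_image_of_mem g hi)]
  unfold ent
  apply Finset.sum_congr rfl
  intro a _
  rw [← mass_pair_sum S P f g a (S.image g) (fun i hi => Finset.mem_image_of_mem g hi)]
  by_cases hex : ∃ i ∈ S, P i ≠ 0 ∧ f i = a
  · obtain ⟨i, hi, hPi, hfi⟩ := hex
    have hz : ∀ b ∈ S.image g, b ≠ g i → mass S P (fun i => (f i, g i)) (a, b) = 0 := by
      intro b _ hb
      unfold mass
      apply Finset.sum_eq_zero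
      intro j hj
      rw [Finset.mem_filter, Prod.mk.injEq] at hj
      by_contra hne
      exact hb (by rw [← hj.2.2, h j hj.1 i hi hne hPi (by rw [hj.2.1, hfi])])
    rw [Finset.sum_eq_single_of_mem (g i) (Finset.mem_image_of_mem g hi)
        (fun b hb hne => by rw [hz b hb hne, Real.negMulLog_zero]),
      Finset.sum_eq_single_of_mem (g i) (Finset.mem_image_of_mem g hi) hz]
  · push Not at hex
    have hz : ∀ b, mass S P (fun i => (f i, g i)) (a, b) = 0 := by
      intro b
      unfold mass
      apply Finset.sum_eq_zero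
      intro j hj
      rw [Finset.mem_filter, Prod.mk.injEq] at hj
      by_contra hne
      exact hex j hj.1 hne hj.2.1
    simp [hz]

/-- if `g` is (almost surely) a function of `f` then `H(g) ≤ H(f)` -/
theorem ent_le_of_det {S : Finset ι} {P : ι → ℝ} (hP : IsProb S P) (f : ι → α) (g : ι → β)
    (h : ∀ i ∈ S, ∀ j ∈ S, P i ≠ 0 → P j ≠ 0 → f i = f j → g i = g j) : ent S P g ≤ ent S P f := by
  rw [← ent_pair_det f g h]
  exact ent_snd_le hP.nonneg f g

theorem ssa_term {x y z w : ℝ} (hx : 0 ≤ x) (hxy : x ≤ y) (hxz : x ≤ z) (hxw : x ≤ w) :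
    x * Real.log y + x * Real.log z - x * Real.log w - x * Real.log x ≤ y * z / w - x := by
  rcases hx.eq_or_lt with rfl | hx
  · simp only [zero_mul, sub_zero, add_zero]
    exact div_nonneg (mul_nonneg hxy hxz) hxw
  · have hy : 0 < y := lt_of_lt_of_le hx hxy
    have hz : 0 < z := lt_of_lt_of_le hx hxz
    have hw : 0 < w := lt_of_lt_of_le hx hxw
    have h1 := Real.log_le_sub_one_of_pos (show 0 < y * z / (w * x) by positivity)
    rw [Real.log_div (by positivity) (by positivity), Real.log_mul hy.ne' hz.ne',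
      Real.log_mul hw.ne' hx.ne'] at h1
    have h2 := mul_le_mul_of_nonneg_left h1 hx.le
    have h3 : x * (y * z / (w * x) - 1) = y * z / w - x := by
      field_simp
    rw [h3] at h2
    linarith

/-- strong subadditivity: `H(f,g|h) ≤ H(f|h) + H(g|h)` -/
theorem ssa {S : Finset ι} {P : ι → ℝ} (hP : IsProb S P) (f : ι → α) (g : ι → β) (h : ι → γ) :
    ent S P (fun i => (f i, g i, h i)) + ent S P h ≤
      ent S P (fun i => (f i, h i)) + ent S P (fun i => (g i, h i)) := by
  set A := S.image f with hA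
  set B := S.image g with hB
  set C := S.image h with hC
  have hfA : ∀ i ∈ S, f i ∈ A := fun i hi => Finset.mem_image_of_mem f hi
  have hgB : ∀ i ∈ S, g i ∈ B := fun i hi => Finset.mem_image_of_mem g hi
  have hhC : ∀ i ∈ S, h i ∈ C := fun i hi => Finset.mem_image_of_mem h hi
  let x : α → β → γ → ℝ := fun a b c => mass S P (fun i => (f i, g i, h i)) (a, b, c)
  let y : α → γ → ℝ := fun a c => mass S P (fun i => (f i, h i)) (a, c)
  let z : β → γ → ℝ := fun b c => mass S P (fun i => (g i, h i)) (b, c)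
  let w : γ → ℝ := fun c => mass S P h c
  have hx0 : ∀ a b c, 0 ≤ x a b c := fun a b c => mass_nonneg hP.nonneg _ _
  have hy0 : ∀ a c, 0 ≤ y a c := fun a c => mass_nonneg hP.nonneg _ _
  have hz0 : ∀ b c, 0 ≤ z b c := fun b c => mass_nonneg hP.nonneg _ _
  have hxb : ∀ a c, ∑ b ∈ B, x a b c = y a c := by
    intro a c
    exact mass_sum_gen S P (fun i => (f i, g i, h i)) (fun i => (f i, h i)) g
      (fun b => (a, b, c)) (a, c) B hgB (fun i _ b _ => by simp only [Prod.mk.injEq]; tauto)
  have hxa : ∀ b c, ∑ a ∈ A, x a b c = z b c := by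
    intro b c
    exact mass_sum_gen S P (fun i => (f i, g i, h i)) (fun i => (g i, h i)) f
      (fun a => (a, b, c)) (b, c) A hfA (fun i _ a _ => by simp only [Prod.mk.injEq]; tauto)
  have hya : ∀ c, ∑ a ∈ A, y a c = w c := by
    intro c
    exact mass_pair_sum' S P f h c A hfA
  have hzb : ∀ c, ∑ b ∈ B, z b c = w c := by
    intro c
    exact mass_pair_sum' S P g h c B hgB
  have hxy : ∀ a ∈ A, ∀ b ∈ B, ∀ c, x a b c ≤ y a c := by
    intro a _ b hb c
    rw [← hxb a c]
    exact Finset.single_le_sum (f := fun b => x a b c) (fun b _ => hx0 a b c) hb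
  have hxz : ∀ a ∈ A, ∀ b ∈ B, ∀ c, x a b c ≤ z b c := by
    intro a ha b _ c
    rw [← hxa b c]
    exact Finset.single_le_sum (f := fun a => x a b c) (fun a _ => hx0 a b c) ha
  have hyw : ∀ a ∈ A, ∀ c, y a c ≤ w c := by
    intro a ha c
    rw [← hya c]
    exact Finset.single_le_sum (f := fun a => y a c) (fun a _ => hy0 a c) ha
  have key : ∑ a ∈ A, ∑ b ∈ B, ∑ c ∈ C,
      (x a b c * Real.log (y a c) + x a b c * Real.log (z b c) - x a b c * Real.log (w c)
        - x a b c * Real.log (x a b c)) ≤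
      ∑ a ∈ A, ∑ b ∈ B, ∑ c ∈ C, (y a c * z b c / w c - x a b c) := by
    apply Finset.sum_le_sum
    intro a ha
    apply Finset.sum_le_sum
    intro b hb
    apply Finset.sum_le_sum
    intro c _
    exact ssa_term (hx0 a b c) (hxy a ha b hb c) (hxz a ha b hb c)
      ((hxy a ha b hb c).trans (hyw a ha c))
  -- right hand side is zero
  have hR : ∑ a ∈ A, ∑ b ∈ B, ∑ c ∈ C, (y a c * z b c / w c - x a b c) = 0 := by
    have e1 : ∑ a ∈ A, ∑ b ∈ B, ∑ c ∈ C, (y a c * z b c / w c - x a b c) =
        ∑ c ∈ C, (∑ a ∈ A, ∑ b ∈ B, y a c * z b c / w c - ∑ a ∈ A, ∑ b ∈ B, x a b c) := by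
      simp only [Finset.sum_sub_distrib]
      congr 1
      · rw [Finset.sum_comm' (s := C) (t := fun _ => A) (s' := fun _ => C) (t' := A)
          (by intros; tauto)]
        apply Finset.sum_congr rfl
        intro a _
        rw [Finset.sum_comm]
      · rw [Finset.sum_comm' (s := C) (t := fun _ => A) (s' := fun _ => C) (t' := A)
          (by intros; tauto)]
        apply Finset.sum_congr rfl
        intro a _
        rw [Finset.sum_comm]
    rw [e1]
    apply Finset.sum_eq_zero
    intro c _
    have e2 : ∑ a ∈ A, ∑ b ∈ B, y a c * z b c / w c = w c * w c / w c := by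
      simp only [← Finset.sum_div, ← Finset.mul_sum, ← Finset.sum_mul]
      rw [hya, hzb]
    have e3 : ∑ a ∈ A, ∑ b ∈ B, x a b c = w c := by
      simp only [hxb]
      exact hya c
    rw [e2, e3]
    by_cases hw : w c = 0
    · rw [hw]; simp
    · field_simp
      simp
  -- identification of the left hand side
  have t1 : ∑ a ∈ A, ∑ b ∈ B, ∑ c ∈ C, x a b c * Real.log (y a c) =
      -ent S P (fun i => (f i, h i)) := by
    rw [ent_pair_eq S P f h A C hfA hhC, ← Finset.sum_neg_distrib]
    apply Finset.sum_congr rfl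
    intro a _
    rw [Finset.sum_comm, ← Finset.sum_neg_distrib]
    apply Finset.sum_congr rfl
    intro c _
    rw [← Finset.sum_mul, hxb]
    unfold Real.negMulLog
    ring
  have t2 : ∑ a ∈ A, ∑ b ∈ B, ∑ c ∈ C, x a b c * Real.log (z b c) =
      -ent S P (fun i => (g i, h i)) := by
    rw [ent_pair_eq S P g h B C hgB hhC, ← Finset.sum_neg_distrib, Finset.sum_comm]
    apply Finset.sum_congr rfl
    intro b _
    rw [Finset.sum_comm, ← Finset.sum_neg_distrib]
    apply Finset.sum_congr rfl
    intro c _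
    rw [← Finset.sum_mul, hxa]
    unfold Real.negMulLog
    ring
  have t3 : ∑ a ∈ A, ∑ b ∈ B, ∑ c ∈ C, x a b c * Real.log (w c) = -ent S P h := by
    rw [ent_eq_sum S P h C hhC, ← Finset.sum_neg_distrib]
    have : ∑ a ∈ A, ∑ b ∈ B, ∑ c ∈ C, x a b c * Real.log (w c) =
        ∑ a ∈ A, ∑ c ∈ C, y a c * Real.log (w c) := by
      apply Finset.sum_congr rfl
      intro a _
      rw [Finset.sum_comm]
      apply Finset.sum_congr rfl
      intro c _
      rw [← Finset.sum_mul, hxb]
    rw [this, Finset.sum_comm]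
    apply Finset.sum_congr rfl
    intro c _
    rw [← Finset.sum_mul, hya]
    unfold Real.negMulLog
    simp only [w]
    ring
  have t4 : ∑ a ∈ A, ∑ b ∈ B, ∑ c ∈ C, x a b c * Real.log (x a b c) =
      -ent S P (fun i => (f i, g i, h i)) := by
    rw [ent_pair_eq S P f (fun i => (g i, h i)) A (B ×ˢ C) hfA
      (fun i hi => Finset.mk_mem_product (hgB i hi) (hhC i hi)), ← Finset.sum_neg_distrib]
    apply Finset.sum_congr rfl
    intro a _
    rw [Finset.sum_product, ← Finset.sum_neg_distrib]
    apply Finset.sum_congr rfl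
    intro b _
    rw [← Finset.sum_neg_distrib]
    apply Finset.sum_congr rfl
    intro c _
    unfold Real.negMulLog
    simp only [x]
    ring
  rw [hR] at key
  simp only [Finset.sum_add_distrib, Finset.sum_sub_distrib] at key
  rw [t1, t2, t3, t4] at key
  linarith

end EN


end Pool.Agent.Lib_helper56.Low
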