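import Pool.Agent.LowAsm.WL

set_option autoImplicit false

namespace Pool.Agent.Lib_helper56.Low

open Finset


section FIblk

/-- sums over a shifted period -/
theorem fi_sum_shift (l : ℕ) (f : ℤ → ℝ) (hf : ∀ x, f (x + 5 ^ l) = f x) (c : ℤ) :
    ∑ y ∈ range (5 ^ l), f ((y : ℤ) - c) = ∑ y ∈ range (5 ^ l), f (y : ℤ) := by
  have : NeZero ((5 : ℕ) ^ l) := ⟨by positivity⟩
  have hf' : ∀ x, f (x + ((5 ^ l : ℕ) : ℤ)) = f x := by
    intro x
    push_cast
    exact hf x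
  rw [wl_sum_range (5 ^ l) (fun y => f ((y : ℤ) - c)), wl_sum_range (5 ^ l) (fun y => f (y : ℤ))]
  refine Fintype.sum_equiv (Equiv.subRight (c : ZMod (5 ^ l))) _ _ fun z => ?_
  refine wl_per (5 ^ l) hf' ?_
  push_cast
  simp

/-- entropy increase under convolution -/
theorem fi_conv_ge (l : ℕ) (a b : ℤ → ℝ) (ha : ∀ x, 0 ≤ a x) (hb : ∀ x, 0 ≤ b x)
    (hap : ∀ x, a (x + 5 ^ l) = a x) (hb1 : ∑ i ∈ range (5 ^ l), b (i : ℤ) = 1) :
    ∑ y ∈ range (5 ^ l), Real.negMulLog (a (y : ℤ)) ≤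
      ∑ y ∈ range (5 ^ l), Real.negMulLog
        (∑ u ∈ range (5 ^ l), b (u : ℤ) * a ((y : ℤ) - (u : ℤ))) := by
  have h1 : ∀ y ∈ range (5 ^ l), ∑ u ∈ range (5 ^ l), b (u : ℤ) * Real.negMulLog (a ((y : ℤ) - (u : ℤ)))
      ≤ Real.negMulLog (∑ u ∈ range (5 ^ l), b (u : ℤ) * a ((y : ℤ) - (u : ℤ))) := by
    intro y _
    have h := Real.concaveOn_negMulLog.le_map_sum (t := range (5 ^ l)) (w := fun u : ℕ => b (u : ℤ))
      (p := fun u : ℕ => a ((y : ℤ) - (u : ℤ))) (fun i _ => hb _) hb1 (fun i _ => ha _)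
    simpa [smul_eq_mul] using h
  refine le_trans (le_of_eq ?_) (Finset.sum_le_sum h1)
  rw [Finset.sum_comm]
  have h2 : ∀ u ∈ range (5 ^ l), ∑ y ∈ range (5 ^ l),
      b (u : ℤ) * Real.negMulLog (a ((y : ℤ) - (u : ℤ))) =
      b (u : ℤ) * ∑ y ∈ range (5 ^ l), Real.negMulLog (a (y : ℤ)) := by
    intro u _
    rw [← Finset.mul_sum]
    congr 1
    exact fi_sum_shift l (fun x => Real.negMulLog (a x)) (fun x => by simp only [hap]) (u : ℤ)
  rw [Finset.sum_congr rfl h2, ← Finset.sum_mul, hb1, one_mul]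

variable {ι κ α : Type} [DecidableEq α]

theorem fi_expect (S : Finset ι) (P : ι → ℝ) (f : ι → α) (F : α → ℝ) (R : Finset α)
    (hR : ∀ i ∈ S, f i ∈ R) :
    ∑ i ∈ S, P i * F (f i) = ∑ a ∈ R, mass S P f a * F a := by
  rw [← Finset.sum_fiberwise_of_maps_to hR]
  refine Finset.sum_congr rfl fun a _ => ?_
  unfold mass
  rw [Finset.sum_mul]
  refine Finset.sum_congr rfl fun i hi => ?_
  rw [(Finset.mem_filter.1 hi).2]

theorem fi_isProb {S : Finset ι} {P : ι → ℝ} {S' : Finset κ} {P' : κ → ℝ} (hP : IsProb S P)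
    (hP' : IsProb S' P') : IsProb (S ×ˢ S') (fun p => P p.1 * P' p.2) := by
  constructor
  · intro p hp
    rw [Finset.mem_product] at hp
    exact mul_nonneg (hP.nonneg _ hp.1) (hP'.nonneg _ hp.2)
  · rw [Finset.sum_product]
    simp only
    rw [← Finset.sum_mul_sum, hP.sum_eq, hP'.sum_eq, one_mul]

/-- residues as a finset of integers -/
def fiR (n : ℕ) : Finset ℤ := (range (5 ^ n)).map Nat.castEmbedding

theorem mem_fiR {n : ℕ} {z : ℤ} : z ∈ fiR n ↔ 0 ≤ z ∧ z < 5 ^ n := by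
  unfold fiR
  rw [Finset.mem_map]
  constructor
  · rintro ⟨a, ha, rfl⟩
    rw [Finset.mem_range] at ha
    refine ⟨Int.natCast_nonneg a, ?_⟩
    have : ((a : ℕ) : ℤ) < ((5 ^ n : ℕ) : ℤ) := by exact_mod_cast ha
    push_cast at this
    exact this
  · rintro ⟨h0, h1⟩
    refine ⟨z.toNat, ?_, ?_⟩
    · rw [Finset.mem_range]
      have : (z.toNat : ℤ) < ((5 ^ n : ℕ) : ℤ) := by
        rw [Int.toNat_of_nonneg h0]
        push_cast
        exact h1
      exact_mod_cast this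
    · exact Int.toNat_of_nonneg h0

theorem mod_mem_fiR (n : ℕ) (z : ℤ) : z % 5 ^ n ∈ fiR n :=
  mem_fiR.2 ⟨Int.emod_nonneg _ (by positivity), Int.emod_lt_of_pos _ (by positivity)⟩

theorem sum_fiR (n : ℕ) (f : ℤ → ℝ) : ∑ z ∈ fiR n, f z = ∑ u ∈ range (5 ^ n), f (u : ℤ) := by
  unfold fiR
  rw [Finset.sum_map]
  rfl

/-- unnormalised window masses -/
noncomputable def fam (S : Finset ι) (P : ι → ℝ) (T : ι → ℤ) (i l : ℕ) (t u : ℤ) : ℝ :=
  mass S P (fun x => ((T x / 5 ^ i) % 5 ^ l, T x % 5 ^ i)) (u % 5 ^ l, t)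

theorem fam_nonneg {S : Finset ι} {P : ι → ℝ} (hP : ∀ i ∈ S, 0 ≤ P i) (T : ι → ℤ) (i l : ℕ)
    (t u : ℤ) : 0 ≤ fam S P T i l t u := mass_nonneg hP _ _

theorem fam_per (S : Finset ι) (P : ι → ℝ) (T : ι → ℤ) (i l : ℕ) (t u : ℤ) :
    fam S P T i l t (u + 5 ^ l) = fam S P T i l t u := by
  unfold fam
  rw [Int.add_emod_right]

theorem fam_sum (S : Finset ι) (P : ι → ℝ) (T : ι → ℤ) (i l : ℕ) (t : ℤ) :
    ∑ u ∈ range (5 ^ l), fam S P T i l t (u : ℤ) = mass S P (fun x => T x % 5 ^ i) t := by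
  have h : ∑ u ∈ fiR l, mass S P (fun x => (T x % 5 ^ i, (T x / 5 ^ i) % 5 ^ l)) (t, u) =
      mass S P (fun x => T x % 5 ^ i) t :=
    mass_pair_sum S P _ _ t (fiR l) (fun x _ => mod_mem_fiR l _)
  rw [← h, sum_fiR]
  refine Finset.sum_congr rfl fun u hu => ?_
  unfold fam mass
  have hu' : (u : ℤ) % 5 ^ l = u := by
    refine Int.emod_eq_of_lt (by positivity) ?_
    rw [Finset.mem_range] at hu
    exact_mod_cast hu
  refine Finset.sum_congr ?_ fun _ _ => rfl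
  ext x
  simp only [Finset.mem_filter, Prod.mk.injEq, hu']
  tauto

/-- convolution formula for the window of a sum -/
theorem fi_mass_conv (S : Finset ι) (P : ι → ℝ) (T : ι → ℤ) (S' : Finset κ) (P' : κ → ℝ)
    (e : κ → ℤ) (i l : ℕ) (y : ℤ) (hy : 0 ≤ y ∧ y < 5 ^ l) (t s : ℤ) :
    mass (S ×ˢ S') (fun p => P p.1 * P' p.2)
      (fun p => ((T p.1 / 5 ^ i + e p.2 / 5 ^ i) % 5 ^ l, T p.1 % 5 ^ i, e p.2 % 5 ^ i)) (y, t, s) =
    ∑ u ∈ range (5 ^ l), fam S' P' e i l s (u : ℤ) * fam S P T i l t (y - (u : ℤ)) := by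
  have h1 : mass (S ×ˢ S') (fun p => P p.1 * P' p.2)
      (fun p => ((T p.1 / 5 ^ i + e p.2 / 5 ^ i) % 5 ^ l, T p.1 % 5 ^ i, e p.2 % 5 ^ i)) (y, t, s) =
      ∑ x' ∈ S', P' x' * (fun z : ℤ × ℤ => if z.2 = s then fam S P T i l t (y - z.1) else 0)
        ((e x' / 5 ^ i) % 5 ^ l, e x' % 5 ^ i) := by
    unfold mass
    rw [Finset.sum_filter, Finset.sum_product, Finset.sum_comm]
    refine Finset.sum_congr rfl fun x' _ => ?_
    by_cases hs : e x' % 5 ^ i = s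
    · simp only [hs, if_true]
      unfold fam mass
      rw [Finset.sum_filter, Finset.mul_sum]
      refine Finset.sum_congr rfl fun x _ => ?_
      have hiff : (T x / 5 ^ i + e x' / 5 ^ i) % 5 ^ l = y ↔
          (T x / 5 ^ i) % 5 ^ l = (y - (e x' / 5 ^ i) % 5 ^ l) % 5 ^ l := by
        have h1 : (T x / 5 ^ i + e x' / 5 ^ i) % 5 ^ l = y ↔
            (T x / 5 ^ i + e x' / 5 ^ i) ≡ y [ZMOD 5 ^ l] := by
          unfold Int.ModEq
          rw [Int.emod_eq_of_lt hy.1 hy.2]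
        have h2 : (T x / 5 ^ i) % 5 ^ l = (y - (e x' / 5 ^ i) % 5 ^ l) % 5 ^ l ↔
            (T x / 5 ^ i) ≡ (y - (e x' / 5 ^ i) % 5 ^ l) [ZMOD 5 ^ l] := Iff.rfl
        rw [h1, h2]
        have h3 : (e x' / 5 ^ i) % 5 ^ l ≡ (e x' / 5 ^ i) [ZMOD 5 ^ l] := Int.mod_modEq _ _
        constructor
        · intro h
          have := h.sub h3.symm
          rwa [add_sub_cancel_right] at this
        · intro h
          have := h.add h3.symm
          rwa [sub_add_cancel] at this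
      simp only [Prod.mk.injEq, hiff, and_true]
      split_ifs
      · ring
      · simp
    · simp only [hs, if_false, Prod.mk.injEq, and_false, mul_zero, Finset.sum_const_zero]
  rw [h1, fi_expect S' P' (fun x' => ((e x' / 5 ^ i) % 5 ^ l, e x' % 5 ^ i))
    (fun z : ℤ × ℤ => if z.2 = s then fam S P T i l t (y - z.1) else 0) (fiR l ×ˢ fiR i)
    (fun x' _ => Finset.mem_product.2 ⟨mod_mem_fiR l _, mod_mem_fiR i _⟩), Finset.sum_product,
    sum_fiR]
  refine Finset.sum_congr rfl fun u hu => ?_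
  have hu' : (u : ℤ) % 5 ^ l = u := by
    refine Int.emod_eq_of_lt (by positivity) ?_
    rw [Finset.mem_range] at hu
    exact_mod_cast hu
  rw [Finset.sum_eq_single s]
  · simp only [if_true]
    unfold fam
    rw [hu']
  · intro b _ hb
    simp only [hb, if_false, mul_zero]
  · intro hs
    simp only [if_true]
    have : mass S' P' (fun x' => ((e x' / 5 ^ i) % 5 ^ l, e x' % 5 ^ i)) ((u : ℤ), s) = 0 := by
      unfold mass
      refine Finset.sum_eq_zero fun x hx => ?_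
      exfalso
      apply hs
      have := (Finset.mem_filter.1 hx).2
      rw [Prod.mk.injEq] at this
      rw [← this.2]
      exact mod_mem_fiR i _
    rw [this, zero_mul]

/-- normalised window laws -/
noncomputable def fan (S : Finset ι) (P : ι → ℝ) (T : ι → ℤ) (i l : ℕ) (t u : ℤ) : ℝ :=
  fam S P T i l t u / mass S P (fun x => T x % 5 ^ i) t

theorem fan_nonneg {S : Finset ι} {P : ι → ℝ} (hP : ∀ i ∈ S, 0 ≤ P i) (T : ι → ℤ) (i l : ℕ)
    (t u : ℤ) : 0 ≤ fan S P T i l t u :=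
  div_nonneg (fam_nonneg hP _ _ _ _ _) (mass_nonneg hP _ _)

theorem fan_per (S : Finset ι) (P : ι → ℝ) (T : ι → ℤ) (i l : ℕ) (t u : ℤ) :
    fan S P T i l t (u + 5 ^ l) = fan S P T i l t u := by
  unfold fan
  rw [fam_per]

theorem fan_sum (S : Finset ι) (P : ι → ℝ) (T : ι → ℤ) (i l : ℕ) (t : ℤ)
    (h : mass S P (fun x => T x % 5 ^ i) t ≠ 0) :
    ∑ u ∈ range (5 ^ l), fan S P T i l t (u : ℤ) = 1 := by
  unfold fan
  rw [← Finset.sum_div, fam_sum, div_self h]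

theorem fam_le {S : Finset ι} {P : ι → ℝ} (hP : ∀ i ∈ S, 0 ≤ P i) (T : ι → ℤ) (i l : ℕ)
    (t u : ℤ) : fam S P T i l t u ≤ mass S P (fun x => T x % 5 ^ i) t := by
  unfold fam mass
  refine Finset.sum_le_sum_of_subset_of_nonneg ?_ ?_
  · intro x hx
    rw [Finset.mem_filter, Prod.mk.injEq] at hx
    exact Finset.mem_filter.2 ⟨hx.1, hx.2.2⟩
  · intro x hx _
    exact hP x (Finset.mem_filter.1 hx).1

theorem fam_eq {S : Finset ι} {P : ι → ℝ} (hP : ∀ i ∈ S, 0 ≤ P i) (T : ι → ℤ) (i l : ℕ)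
    (t u : ℤ) : fam S P T i l t u = mass S P (fun x => T x % 5 ^ i) t * fan S P T i l t u := by
  unfold fan
  by_cases h : mass S P (fun x => T x % 5 ^ i) t = 0
  · rw [h, zero_mul]
    have h1 := fam_le hP T i l t u
    rw [h] at h1
    exact le_antisymm h1 (fam_nonneg hP _ _ _ _ _)
  · field_simp

/-- entropy increase in a window, for a pair of classes -/
noncomputable def fiD (S : Finset ι) (P : ι → ℝ) (T : ι → ℤ) (S' : Finset κ) (P' : κ → ℝ)
    (e : κ → ℤ) (i l : ℕ) (t s : ℤ) : ℝ :=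
  ∑ y ∈ range (5 ^ l), Real.negMulLog
      (∑ u ∈ range (5 ^ l), fan S' P' e i l s (u : ℤ) * fan S P T i l t ((y : ℤ) - (u : ℤ)))
    - ∑ y ∈ range (5 ^ l), Real.negMulLog (fan S P T i l t (y : ℤ))

theorem fi_sum_conv (l : ℕ) (a b : ℤ → ℝ) (hap : ∀ x, a (x + 5 ^ l) = a x)
    (ha1 : ∑ i ∈ range (5 ^ l), a (i : ℤ) = 1) (hb1 : ∑ i ∈ range (5 ^ l), b (i : ℤ) = 1) :
    ∑ y ∈ range (5 ^ l), ∑ u ∈ range (5 ^ l), b (u : ℤ) * a ((y : ℤ) - (u : ℤ)) = 1 := by
  rw [Finset.sum_comm]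
  have : ∀ u ∈ range (5 ^ l), ∑ y ∈ range (5 ^ l), b (u : ℤ) * a ((y : ℤ) - (u : ℤ)) =
      b (u : ℤ) := by
    intro u _
    rw [← Finset.mul_sum, fi_sum_shift l a hap, ha1, mul_one]
  rw [Finset.sum_congr rfl this, hb1]

theorem fi_negMulLog_scale (s : Finset ℕ) (c : ℝ) (x x' : ℕ → ℝ) (h : ∑ y ∈ s, x y = ∑ y ∈ s, x' y) :
    ∑ y ∈ s, Real.negMulLog (c * x y) - ∑ y ∈ s, Real.negMulLog (c * x' y) =
      c * (∑ y ∈ s, Real.negMulLog (x y) - ∑ y ∈ s, Real.negMulLog (x' y)) := by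
  have h1 : ∀ z : ℕ → ℝ, ∑ y ∈ s, Real.negMulLog (c * z y) =
      (∑ y ∈ s, z y) * Real.negMulLog c + c * ∑ y ∈ s, Real.negMulLog (z y) := by
    intro z
    rw [Finset.sum_mul, Finset.mul_sum, ← Finset.sum_add_distrib]
    exact Finset.sum_congr rfl fun y _ => Real.negMulLog_mul c (z y)
  rw [h1, h1, h]
  ring

theorem fi_term {S : Finset ι} {P : ι → ℝ} {S' : Finset κ} {P' : κ → ℝ} (hP : IsProb S P)
    (hP' : IsProb S' P') (T : ι → ℤ) (e : κ → ℤ) (i l : ℕ) (t s : ℤ) :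
    ∑ y ∈ range (5 ^ l), Real.negMulLog
        (∑ u ∈ range (5 ^ l), fam S' P' e i l s (u : ℤ) * fam S P T i l t ((y : ℤ) - (u : ℤ)))
      - ∑ y ∈ range (5 ^ l), Real.negMulLog
        (fam S P T i l t (y : ℤ) * mass S' P' (fun x => e x % 5 ^ i) s) =
    (mass S P (fun x => T x % 5 ^ i) t * mass S' P' (fun x => e x % 5 ^ i) s) *
      fiD S P T S' P' e i l t s := by
  set α := mass S P (fun x => T x % 5 ^ i) t with hα
  set β := mass S' P' (fun x => e x % 5 ^ i) s with hβ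
  have h1 : ∀ y : ℕ, ∑ u ∈ range (5 ^ l), fam S' P' e i l s (u : ℤ) *
      fam S P T i l t ((y : ℤ) - (u : ℤ)) = (α * β) *
      ∑ u ∈ range (5 ^ l), fan S' P' e i l s (u : ℤ) * fan S P T i l t ((y : ℤ) - (u : ℤ)) := by
    intro y
    rw [Finset.mul_sum]
    refine Finset.sum_congr rfl fun u _ => ?_
    rw [fam_eq hP.nonneg, fam_eq hP'.nonneg, ← hα, ← hβ]
    ring
  have h2 : ∀ y : ℕ, fam S P T i l t (y : ℤ) * β = (α * β) * fan S P T i l t (y : ℤ) := by
    intro y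
    rw [fam_eq hP.nonneg, ← hα]
    ring
  simp only [h1, h2]
  by_cases h0 : α * β = 0
  · rw [h0]
    simp
  · have hα0 : α ≠ 0 := left_ne_zero_of_mul h0
    have hβ0 : β ≠ 0 := right_ne_zero_of_mul h0
    rw [fi_negMulLog_scale]
    · rfl
    · rw [fi_sum_conv l _ _ (fan_per S P T i l t) (fan_sum S P T i l t hα0)
        (fan_sum S' P' e i l s hβ0), fan_sum S P T i l t hα0]

/-- nonnegativity of the entropy increase -/
theorem fiD_nonneg {S : Finset ι} {P : ι → ℝ} {S' : Finset κ} {P' : κ → ℝ} (hP : IsProb S P)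
    (hP' : IsProb S' P') (T : ι → ℤ) (e : κ → ℤ) (i l : ℕ) (t s : ℤ)
    (hs : mass S' P' (fun x => e x % 5 ^ i) s ≠ 0) : 0 ≤ fiD S P T S' P' e i l t s := by
  unfold fiD
  rw [sub_nonneg]
  exact fi_conv_ge l _ _ (fan_nonneg hP.nonneg _ _ _ _) (fan_nonneg hP'.nonneg _ _ _ _)
    (fan_per _ _ _ _ _ _) (fan_sum S' P' e i l s hs)

/-- the entropy increase along a window -/
noncomputable def fiJ (S : Finset ι) (P : ι → ℝ) (T : ι → ℤ) (S' : Finset κ) (P' : κ → ℝ)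
    (e : κ → ℤ) (i l : ℕ) : ℝ :=
  ∑ t ∈ fiR i, ∑ s ∈ fiR i, (mass S P (fun x => T x % 5 ^ i) t *
    mass S' P' (fun x => e x % 5 ^ i) s) * fiD S P T S' P' e i l t s

theorem fiJ_nonneg {S : Finset ι} {P : ι → ℝ} {S' : Finset κ} {P' : κ → ℝ} (hP : IsProb S P)
    (hP' : IsProb S' P') (T : ι → ℤ) (e : κ → ℤ) (i l : ℕ) : 0 ≤ fiJ S P T S' P' e i l := by
  refine Finset.sum_nonneg fun t _ => Finset.sum_nonneg fun s _ => ?_
  by_cases hs : mass S' P' (fun x => e x % 5 ^ i) s = 0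
  · rw [hs]
    simp
  · exact mul_nonneg (mul_nonneg (mass_nonneg hP.nonneg _ _) (mass_nonneg hP'.nonneg _ _))
      (fiD_nonneg hP hP' T e i l t s hs)

/-- `Γ(i)` -/
noncomputable def fiG (S : Finset ι) (P : ι → ℝ) (T : ι → ℤ) (S' : Finset κ) (P' : κ → ℝ)
    (e : κ → ℤ) (i : ℕ) : ℝ :=
  ent (S ×ˢ S') (fun p => P p.1 * P' p.2) (fun p => (T p.1 + e p.2) % 5 ^ i) -
    ent S P (fun x => T x % 5 ^ i)

/-- arithmetic of windows -/
theorem fi_window (i l : ℕ) (a b : ℤ) :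
    (a + b) % 5 ^ (i + l) = ((a % 5 ^ i + b % 5 ^ i) + 5 ^ i * (((a / 5 ^ i) + (b / 5 ^ i)) % 5 ^ l))
      % 5 ^ (i + l) := by
  have h1 : a + b = (a % 5 ^ i + b % 5 ^ i) + 5 ^ i * ((a / 5 ^ i) + (b / 5 ^ i)) := by
    have ha := Int.emod_add_mul_ediv a (5 ^ i)
    have hb := Int.emod_add_mul_ediv b (5 ^ i)
    linear_combination -ha - hb
  have h2 : (a + b) ≡ ((a % 5 ^ i + b % 5 ^ i) + 5 ^ i * (((a / 5 ^ i) + (b / 5 ^ i)) % 5 ^ l))
      [ZMOD 5 ^ (i + l)] := by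
    conv_lhs => rw [h1]
    refine Int.ModEq.add_left _ ?_
    rw [pow_add]
    exact (Int.mod_modEq _ _).symm.mul_left'
  exact h2

theorem fi_window_one (i l : ℕ) (a : ℤ) :
    a % 5 ^ (i + l) = (a % 5 ^ i + 5 ^ i * ((a / 5 ^ i) % 5 ^ l)) % 5 ^ (i + l) := by
  have := fi_window i l a 0
  simpa using this

theorem fi_emod_of (i l : ℕ) (a b : ℤ) (h : a % 5 ^ (i + l) = b % 5 ^ (i + l)) :
    a % 5 ^ i = b % 5 ^ i := by
  have hd : ((5 : ℤ) ^ i) ∣ 5 ^ (i + l) := pow_dvd_pow _ (by omega)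
  rw [← Int.emod_emod_of_dvd a hd, h, Int.emod_emod_of_dvd b hd]

/-- the window is determined by the residues -/
theorem fi_window_det (i l : ℕ) (a b : ℤ) (h : a % 5 ^ (i + l) = b % 5 ^ (i + l)) :
    (a / 5 ^ i) % 5 ^ l = (b / 5 ^ i) % 5 ^ l := by
  have h1 : (5 : ℤ) ^ (i + l) ∣ a - b := Int.ModEq.dvd (Eq.symm h)
  obtain ⟨c, hc⟩ := h1
  have : a = b + 5 ^ i * (5 ^ l * c) := by
    rw [pow_add] at hc
    linarith
  rw [this, Int.add_mul_ediv_left _ _ (by positivity), Int.add_mul_emod_self_left]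

theorem fi_J_le {S : Finset ι} {P : ι → ℝ} {S' : Finset κ} {P' : κ → ℝ} (hP : IsProb S P)
    (hP' : IsProb S' P') (T : ι → ℤ) (e : κ → ℤ) (i l : ℕ) :
    fiJ S P T S' P' e i l ≤ fiG S P T S' P' e (i + l) - fiG S P T S' P' e i := by
  have hQ := fi_isProb hP hP'
  set Q : ι × κ → ℝ := fun p => P p.1 * P' p.2 with hQdef
  -- conditioning
  have c1 := ssa hQ (fun p => (T p.1 + e p.2) % 5 ^ (i + l))
    (fun p => (T p.1 % 5 ^ i, e p.2 % 5 ^ i)) (fun p => (T p.1 + e p.2) % 5 ^ i)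
  have c2 : ent (S ×ˢ S') Q (fun p => ((T p.1 + e p.2) % 5 ^ (i + l),
      (T p.1 + e p.2) % 5 ^ i)) ≤ ent (S ×ˢ S') Q (fun p => (T p.1 + e p.2) % 5 ^ (i + l)) := by
    refine ent_le_of_det hQ _ _ fun p _ p' _ _ _ h => ?_
    rw [Prod.mk.injEq]
    exact ⟨h, fi_emod_of i l _ _ h⟩
  have c3 : ent (S ×ˢ S') Q (fun p => ((T p.1 % 5 ^ i, e p.2 % 5 ^ i),
      (T p.1 + e p.2) % 5 ^ i)) ≤ ent (S ×ˢ S') Q (fun p => (T p.1 % 5 ^ i, e p.2 % 5 ^ i)) := by
    refine ent_le_of_det hQ _ _ fun p _ p' _ _ _ h => ?_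
    rw [Prod.mk.injEq] at h ⊢
    refine ⟨by rw [Prod.mk.injEq]; exact h, ?_⟩
    rw [Int.add_emod, h.1, h.2, ← Int.add_emod]
  have c4 : ent (S ×ˢ S') Q (fun p => ((T p.1 / 5 ^ i + e p.2 / 5 ^ i) % 5 ^ l,
      T p.1 % 5 ^ i, e p.2 % 5 ^ i)) ≤ ent (S ×ˢ S') Q (fun p => ((T p.1 + e p.2) % 5 ^ (i + l),
        (T p.1 % 5 ^ i, e p.2 % 5 ^ i), (T p.1 + e p.2) % 5 ^ i)) := by
    refine ent_le_of_det hQ _ _ fun p _ p' _ _ _ h => ?_
    simp only [Prod.mk.injEq] at h ⊢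
    refine ⟨?_, h.2.1⟩
    have hT := Int.emod_add_mul_ediv (T p.1) (5 ^ i)
    have he := Int.emod_add_mul_ediv (e p.2) (5 ^ i)
    have hT' := Int.emod_add_mul_ediv (T p'.1) (5 ^ i)
    have he' := Int.emod_add_mul_ediv (e p'.2) (5 ^ i)
    obtain ⟨c, hc⟩ : (5 : ℤ) ^ (i + l) ∣ (T p.1 + e p.2) - (T p'.1 + e p'.2) :=
      Int.ModEq.dvd (Eq.symm h.1)
    have h5 : (5 : ℤ) ^ i ≠ 0 := by positivity
    have : (T p.1 / 5 ^ i + e p.2 / 5 ^ i) = (T p'.1 / 5 ^ i + e p'.2 / 5 ^ i) + 5 ^ l * c := by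
      apply mul_left_cancel₀ h5
      rw [pow_add] at hc
      rw [h.2.1.1] at hT
      rw [h.2.1.2] at he
      linear_combination hT + he - hT' - he' + hc
    rw [this, Int.add_mul_emod_self_left]
  -- independence
  have d1 := ent_prod hP hP' (fun x => T x % 5 ^ i) (fun x => e x % 5 ^ i)
  have d2 := ent_prod hP hP' (fun x => T x % 5 ^ (i + l)) (fun x => e x % 5 ^ i)
  have d3 : ent (S ×ˢ S') Q (fun p => ((T p.1 / 5 ^ i) % 5 ^ l, T p.1 % 5 ^ i, e p.2 % 5 ^ i)) ≤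
      ent (S ×ˢ S') Q (fun p => (T p.1 % 5 ^ (i + l), e p.2 % 5 ^ i)) := by
    refine ent_le_of_det hQ _ _ fun p _ p' _ _ _ h => ?_
    simp only [Prod.mk.injEq] at h ⊢
    exact ⟨fi_window_det i l _ _ h.1, fi_emod_of i l _ _ h.1, h.2⟩
  have d3' : ent (S ×ˢ S') Q (fun p => (T p.1 % 5 ^ (i + l), e p.2 % 5 ^ i)) ≤
      ent (S ×ˢ S') Q (fun p => ((T p.1 / 5 ^ i) % 5 ^ l, T p.1 % 5 ^ i, e p.2 % 5 ^ i)) := by
    refine ent_le_of_det hQ _ _ fun p _ p' _ _ _ h => ?_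
    simp only [Prod.mk.injEq] at h ⊢
    refine ⟨?_, h.2.2⟩
    rw [fi_window_one, h.1, h.2.1, ← fi_window_one]
  -- the two sums
  have hR3 : ∀ (F : ι × κ → ℤ), (∀ p, F p ∈ fiR l) → ∀ p ∈ S ×ˢ S',
      (F p, T p.1 % 5 ^ i, e p.2 % 5 ^ i) ∈ fiR l ×ˢ (fiR i ×ˢ fiR i) := by
    intro F hF p _
    exact Finset.mem_product.2 ⟨hF p, Finset.mem_product.2 ⟨mod_mem_fiR i _, mod_mem_fiR i _⟩⟩
  have e1 := ent_eq_sum (S ×ˢ S') Q (fun p => ((T p.1 / 5 ^ i + e p.2 / 5 ^ i) % 5 ^ l,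
      T p.1 % 5 ^ i, e p.2 % 5 ^ i)) (fiR l ×ˢ (fiR i ×ˢ fiR i))
      (hR3 (fun p => (T p.1 / 5 ^ i + e p.2 / 5 ^ i) % 5 ^ l) fun p => mod_mem_fiR l _)
  have e2 := ent_eq_sum (S ×ˢ S') Q (fun p => ((T p.1 / 5 ^ i) % 5 ^ l,
      T p.1 % 5 ^ i, e p.2 % 5 ^ i)) (fiR l ×ˢ (fiR i ×ˢ fiR i))
      (hR3 (fun p => (T p.1 / 5 ^ i) % 5 ^ l) fun p => mod_mem_fiR l _)
  have hswap : ∀ F : ℤ × ℤ × ℤ → ℝ, ∑ z ∈ fiR l ×ˢ (fiR i ×ˢ fiR i), F z =
      ∑ t ∈ fiR i, ∑ s ∈ fiR i, ∑ y ∈ fiR l, F (y, t, s) := by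
    intro F
    rw [Finset.sum_product_right, Finset.sum_product]
  have f1 : ∀ t s : ℤ, ∑ y ∈ fiR l, Real.negMulLog (mass (S ×ˢ S') Q
      (fun p => ((T p.1 / 5 ^ i + e p.2 / 5 ^ i) % 5 ^ l, T p.1 % 5 ^ i, e p.2 % 5 ^ i)) (y, t, s)) =
      ∑ y ∈ range (5 ^ l), Real.negMulLog (∑ u ∈ range (5 ^ l),
        fam S' P' e i l s (u : ℤ) * fam S P T i l t ((y : ℤ) - (u : ℤ))) := by
    intro t s
    rw [← sum_fiR l (fun y => Real.negMulLog (∑ u ∈ range (5 ^ l),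
        fam S' P' e i l s (u : ℤ) * fam S P T i l t (y - (u : ℤ))))]
    refine Finset.sum_congr rfl fun y hy => ?_
    rw [fi_mass_conv S P T S' P' e i l y (mem_fiR.1 hy) t s]
  have f2 : ∀ t s : ℤ, ∑ y ∈ fiR l, Real.negMulLog (mass (S ×ˢ S') Q
      (fun p => ((T p.1 / 5 ^ i) % 5 ^ l, T p.1 % 5 ^ i, e p.2 % 5 ^ i)) (y, t, s)) =
      ∑ y ∈ range (5 ^ l), Real.negMulLog
        (fam S P T i l t (y : ℤ) * mass S' P' (fun x => e x % 5 ^ i) s) := by
    intro t s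
    rw [← sum_fiR l (fun y => Real.negMulLog
        (fam S P T i l t y * mass S' P' (fun x => e x % 5 ^ i) s))]
    refine Finset.sum_congr rfl fun y hy => ?_
    congr 1
    unfold fam mass
    have hy' : y % 5 ^ l = y := Int.emod_eq_of_lt (mem_fiR.1 hy).1 (mem_fiR.1 hy).2
    rw [hy', Finset.sum_filter, Finset.sum_filter, Finset.sum_filter, Finset.sum_product,
      Finset.sum_mul_sum]
    refine Finset.sum_congr rfl fun x _ => Finset.sum_congr rfl fun x' _ => ?_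
    simp only [Prod.mk.injEq, hQdef]
    by_cases ha : (T x / 5 ^ i) % 5 ^ l = y ∧ T x % 5 ^ i = t
    · by_cases hb : e x' % 5 ^ i = s
      · simp [ha, hb]
      · simp [hb]
    · by_cases hb : e x' % 5 ^ i = s
      · have : ¬ ((T x / 5 ^ i) % 5 ^ l = y ∧ T x % 5 ^ i = t ∧ e x' % 5 ^ i = s) := by tauto
        simp [ha, this]
      · simp [hb]
  have g1 : fiJ S P T S' P' e i l = ent (S ×ˢ S') Q
      (fun p => ((T p.1 / 5 ^ i + e p.2 / 5 ^ i) % 5 ^ l, T p.1 % 5 ^ i, e p.2 % 5 ^ i)) -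
      ent (S ×ˢ S') Q (fun p => ((T p.1 / 5 ^ i) % 5 ^ l, T p.1 % 5 ^ i, e p.2 % 5 ^ i)) := by
    rw [e1, e2, hswap, hswap, ← Finset.sum_sub_distrib]
    unfold fiJ
    refine Finset.sum_congr rfl fun t _ => ?_
    rw [← Finset.sum_sub_distrib]
    refine Finset.sum_congr rfl fun s _ => ?_
    rw [f1, f2, fi_term hP hP']
  rw [g1]
  unfold fiG
  linarith

/-- `Γ` is monotone -/
theorem fiG_mono {S : Finset ι} {P : ι → ℝ} {S' : Finset κ} {P' : κ → ℝ} (hP : IsProb S P)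
    (hP' : IsProb S' P') (T : ι → ℤ) (e : κ → ℤ) {i j : ℕ} (hij : i ≤ j) :
    fiG S P T S' P' e i ≤ fiG S P T S' P' e j := by
  obtain ⟨l, rfl⟩ := Nat.exists_eq_add_of_le hij
  have h1 := fi_J_le hP hP' T e i l
  have h2 := fiJ_nonneg hP hP' T e i l
  linarith

theorem fiG_zero {S : Finset ι} {P : ι → ℝ} {S' : Finset κ} {P' : κ → ℝ} (hP : IsProb S P)
    (hP' : IsProb S' P') (T : ι → ℤ) (e : κ → ℤ) : fiG S P T S' P' e 0 = 0 := by
  have hQ := fi_isProb hP hP'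
  have h1 : ent (S ×ˢ S') (fun p => P p.1 * P' p.2) (fun p => (T p.1 + e p.2) % 5 ^ 0) = 0 := by
    refine le_antisymm ?_ (ent_nonneg hQ _)
    have := ent_le_log_card hQ (fun p => (T p.1 + e p.2) % 5 ^ 0) {0} (fun p _ _ => by simp)
    simpa using this
  have h2 : ent S P (fun x => T x % 5 ^ 0) = 0 := by
    refine le_antisymm ?_ (ent_nonneg hP _)
    have := ent_le_log_card hP (fun x => T x % 5 ^ 0) {0} (fun p _ _ => by simp)
    simpa using this
  unfold fiG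
  rw [h1, h2, sub_zero]

theorem fiG_nonneg {S : Finset ι} {P : ι → ℝ} {S' : Finset κ} {P' : κ → ℝ} (hP : IsProb S P)
    (hP' : IsProb S' P') (T : ι → ℤ) (e : κ → ℤ) (i : ℕ) : 0 ≤ fiG S P T S' P' e i := by
  rw [← fiG_zero hP hP' T e]
  exact fiG_mono hP hP' T e (Nat.zero_le i)

/-- entropy of the lowest digit of the window given the class -/
noncomputable def fiAct (S' : Finset κ) (P' : κ → ℝ) (e : κ → ℤ) (i : ℕ) (s : ℤ) : ℝ :=
  ∑ δ ∈ range 5, Real.negMulLog (fan S' P' e i 1 s (δ : ℤ))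

theorem fan_marg (S' : Finset κ) (P' : κ → ℝ) (e : κ → ℤ) (i L : ℕ) (hL : 1 ≤ L) (s : ℤ)
    (δ : ℕ) (hδ : δ < 5) :
    ∑ u ∈ (range (5 ^ L)).filter (fun u => u % 5 = δ), fan S' P' e i L s (u : ℤ) =
      fan S' P' e i 1 s (δ : ℤ) := by
  unfold fan
  rw [← Finset.sum_div]
  congr 1
  have h5 : (5 : ℤ) ∣ 5 ^ L := dvd_pow_self 5 (by omega)
  have h1 : ∑ x ∈ S', P' x * (fun z : ℤ × ℤ => if z.1 % 5 = (δ : ℤ) ∧ z.2 = s then (1 : ℝ) else 0)
      ((e x / 5 ^ i) % 5 ^ L, e x % 5 ^ i) = fam S' P' e i 1 s (δ : ℤ) := by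
    unfold fam mass
    rw [Finset.sum_filter]
    refine Finset.sum_congr rfl fun x _ => ?_
    have hd : (δ : ℤ) % 5 = δ := by omega
    have : (e x / 5 ^ i) % 5 ^ L % 5 = (e x / 5 ^ i) % 5 := Int.emod_emod_of_dvd _ h5
    simp only [Prod.mk.injEq, pow_one, hd, this]
    split_ifs
    · ring
    · ring
  rw [← h1, fi_expect S' P' (fun x => ((e x / 5 ^ i) % 5 ^ L, e x % 5 ^ i))
    (fun z : ℤ × ℤ => if z.1 % 5 = (δ : ℤ) ∧ z.2 = s then (1 : ℝ) else 0) (fiR L ×ˢ fiR i)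
    (fun x _ => Finset.mem_product.2 ⟨mod_mem_fiR L _, mod_mem_fiR i _⟩), Finset.sum_product,
    sum_fiR, Finset.sum_filter]
  refine Finset.sum_congr rfl fun u hu => ?_
  have hu' : (u : ℤ) % 5 ^ L = u := by
    refine Int.emod_eq_of_lt (by positivity) ?_
    rw [Finset.mem_range] at hu
    exact_mod_cast hu
  by_cases hud : u % 5 = δ
  · have hud' : (u : ℤ) % 5 = (δ : ℤ) := by omega
    simp only [hud, hud', if_true, true_and]
    rw [Finset.sum_eq_single s]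
    · simp only [if_true, mul_one]
      unfold fam
      rw [hu']
    · intro b _ hb
      simp only [hb, if_false, mul_zero]
    · intro hs
      simp only [if_true, mul_one]
      unfold mass
      refine Finset.sum_eq_zero fun x hx => ?_
      exfalso
      apply hs
      have := (Finset.mem_filter.1 hx).2
      rw [Prod.mk.injEq] at this
      rw [← this.2]
      exact mod_mem_fiR i _
  · have hud' : ¬ (u : ℤ) % 5 = (δ : ℤ) := by omega
    simp only [hud, hud', if_false, false_and, mul_zero, Finset.sum_const_zero]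

theorem fiAct_le {S' : Finset κ} {P' : κ → ℝ} (hP' : IsProb S' P') (e : κ → ℤ) (i : ℕ) (s : ℤ)
    (hs : mass S' P' (fun x => e x % 5 ^ i) s ≠ 0) : fiAct S' P' e i s ≤ Real.log 5 := by
  have h1 : ∑ δ ∈ range 5, fan S' P' e i 1 s (δ : ℤ) = 1 := by
    have := fan_sum S' P' e i 1 s hs
    simpa using this
  have h := Real.concaveOn_negMulLog.le_map_sum (t := range 5) (w := fun _ : ℕ => (1 / 5 : ℝ))
    (p := fun δ : ℕ => fan S' P' e i 1 s (δ : ℤ)) (fun _ _ => by norm_num) (by simp)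
    (fun δ _ => fan_nonneg hP'.nonneg _ _ _ _ _)
  simp only [smul_eq_mul, ← Finset.mul_sum, h1, mul_one] at h
  have h2 : Real.negMulLog (1 / 5) = 1 / 5 * Real.log 5 := by
    unfold Real.negMulLog
    rw [one_div, Real.log_inv]
    ring
  rw [h2] at h
  unfold fiAct
  linarith

theorem fi_act_sum {S' : Finset κ} {P' : κ → ℝ} (hP' : IsProb S' P') (e : κ → ℤ) (i : ℕ) :
    ent S' P' (fun x => e x % 5 ^ (i + 1)) - ent S' P' (fun x => e x % 5 ^ i) ≤
      ∑ s ∈ fiR i, mass S' P' (fun x => e x % 5 ^ i) s * fiAct S' P' e i s := by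
  have h1 : ent S' P' (fun x => e x % 5 ^ (i + 1)) ≤
      ent S' P' (fun x => ((e x / 5 ^ i) % 5 ^ 1, e x % 5 ^ i)) := by
    refine ent_le_of_det hP' _ _ fun p _ p' _ _ _ h => ?_
    simp only [Prod.mk.injEq] at h
    rw [fi_window_one, h.1, h.2, ← fi_window_one]
  have h2 := ent_eq_sum S' P' (fun x => ((e x / 5 ^ i) % 5 ^ 1, e x % 5 ^ i)) (fiR 1 ×ˢ fiR i)
    (fun x _ => Finset.mem_product.2 ⟨mod_mem_fiR 1 _, mod_mem_fiR i _⟩)
  have h3 := ent_eq_sum S' P' (fun x => e x % 5 ^ i) (fiR i) (fun x _ => mod_mem_fiR i _)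
  rw [Finset.sum_product_right] at h2
  have h4 : ∀ s ∈ fiR i, ∑ y ∈ fiR 1, Real.negMulLog
      (mass S' P' (fun x => ((e x / 5 ^ i) % 5 ^ 1, e x % 5 ^ i)) (y, s)) =
      mass S' P' (fun x => e x % 5 ^ i) s * fiAct S' P' e i s +
        Real.negMulLog (mass S' P' (fun x => e x % 5 ^ i) s) := by
    intro s _
    have h5 : ∑ y ∈ fiR 1, Real.negMulLog
        (mass S' P' (fun x => ((e x / 5 ^ i) % 5 ^ 1, e x % 5 ^ i)) (y, s)) =
        ∑ δ ∈ range (5 ^ 1), Real.negMulLog (fam S' P' e i 1 s (δ : ℤ)) := by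
      rw [← sum_fiR 1 (fun y => Real.negMulLog (fam S' P' e i 1 s y))]
      refine Finset.sum_congr rfl fun y hy => ?_
      unfold fam
      rw [Int.emod_eq_of_lt (mem_fiR.1 hy).1 (mem_fiR.1 hy).2]
    rw [h5, pow_one]
    by_cases hs : mass S' P' (fun x => e x % 5 ^ i) s = 0
    · rw [hs, zero_mul, Real.negMulLog_zero, zero_add]
      refine Finset.sum_eq_zero fun δ _ => ?_
      rw [fam_eq hP'.nonneg, hs, zero_mul, Real.negMulLog_zero]
    · have h6 : ∑ δ ∈ range 5, fan S' P' e i 1 s (δ : ℤ) = 1 := by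
        have := fan_sum S' P' e i 1 s hs
        simpa using this
      unfold fiAct
      rw [Finset.mul_sum]
      have h7 : Real.negMulLog (mass S' P' (fun x => e x % 5 ^ i) s) =
          ∑ δ ∈ range 5, fan S' P' e i 1 s (δ : ℤ) *
            Real.negMulLog (mass S' P' (fun x => e x % 5 ^ i) s) := by
        rw [← Finset.sum_mul, h6, one_mul]
      rw [h7, ← Finset.sum_add_distrib]
      refine Finset.sum_congr rfl fun δ _ => ?_
      rw [fam_eq hP'.nonneg, Real.negMulLog_mul]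
      ring
  rw [Finset.sum_congr rfl h4, Finset.sum_add_distrib, ← h3] at h2
  linarith

theorem fi_NU_congr (S : Finset ι) (P : ι → ℝ) (T : ι → ℤ) (i L : ℕ) (x : ℤ) :
    NU S P T i L x ↔ NU S P T i L (x % 5 ^ i) := by
  unfold NU
  rw [Int.emod_emod_of_dvd x (dvd_refl _)]

open Classical in
theorem fi_NUp_eq (S : Finset ι) (P : ι → ℝ) (T : ι → ℤ) (i L : ℕ) :
    NUp S P T i L = ∑ t ∈ fiR i, mass S P (fun x => T x % 5 ^ i) t *
      (if NU S P T i L t then 1 else 0) := by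
  rw [← fi_expect S P (fun x => T x % 5 ^ i) (fun t => if NU S P T i L t then (1 : ℝ) else 0)
    (fiR i) (fun x _ => mod_mem_fiR i _)]
  unfold NUp
  rw [Finset.sum_filter]
  refine Finset.sum_congr rfl fun x _ => ?_
  simp only [← fi_NU_congr S P T i L (T x)]
  split_ifs
  · ring
  · ring

theorem fi_NU_of_flat (S : Finset ι) (P : ι → ℝ) (T : ι → ℤ) (i L : ℕ) (t : ℤ) (ht : t ∈ fiR i)
    (h0 : mass S P (fun x => T x % 5 ^ i) t ≠ 0) (hpos : 0 ≤ mass S P (fun x => T x % 5 ^ i) t)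
    (h : ∀ u : ℤ, 1 ≤ 2 * 5 ^ L * fan S P T i L t u) : NU S P T i L t := by
  intro u hu
  have ht' : t % 5 ^ i = t := Int.emod_eq_of_lt (mem_fiR.1 ht).1 (mem_fiR.1 ht).2
  rw [ht'] at hu ⊢
  have h1 : mass S P (fun x => T x % 5 ^ (i + L)) (u % 5 ^ (i + L)) = fam S P T i L t (u / 5 ^ i) := by
    unfold fam mass
    refine Finset.sum_congr ?_ fun _ _ => rfl
    ext x
    simp only [Finset.mem_filter, Prod.mk.injEq]
    constructor
    · rintro ⟨hx, hx2⟩
      exact ⟨hx, fi_window_det i L _ _ hx2, by rw [fi_emod_of i L _ _ hx2, hu]⟩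
    · rintro ⟨hx, hx2, hx3⟩
      refine ⟨hx, ?_⟩
      rw [fi_window_one, hx2, hx3, ← hu, ← fi_window_one]
  rw [h1]
  have h2 := h (u / 5 ^ i)
  unfold fan at h2
  have h3 : 0 < mass S P (fun x => T x % 5 ^ i) t := lt_of_le_of_ne hpos (Ne.symm h0)
  rw [← mul_div_assoc, le_div_iff₀ h3, one_mul] at h2
  exact h2

/-- the bound for a single window -/
theorem fi_single (L : ℕ) (hL : 1 ≤ L) (η : ℝ) (hη : 0 < η) : ∃ ε₂ : ℝ, 0 < ε₂ ∧
    ∀ (ι κ : Type) (S : Finset ι) (P : ι → ℝ) (T : ι → ℤ) (S' : Finset κ) (P' : κ → ℝ) (e : κ → ℤ),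
      IsProb S P → IsProb S' P' → ∀ i : ℕ,
      (ent S' P' (fun x => e x % 5 ^ (i + 1)) - ent S' P' (fun x => e x % 5 ^ i) - η) / Real.log 5
        - (fiG S P T S' P' e (i + L) - fiG S P T S' P' e i) / ε₂ ≤ NUp S P T i L := by
  classical
  obtain ⟨ε, hε, hWL⟩ := WL L hL η hη
  refine ⟨ε, hε, fun ι κ S P T S' P' e hP hP' i => ?_⟩
  have hlog : 0 < Real.log 5 := Real.log_pos (by norm_num)
  have hJ := fi_J_le hP hP' T e i L
  have hA := fi_act_sum hP' e i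
  have hα1 : ∑ t ∈ fiR i, mass S P (fun x => T x % 5 ^ i) t = 1 := by
    rw [sum_mass S P _ (fiR i) (fun x _ => mod_mem_fiR i _), hP.sum_eq]
  have hβ1 : ∑ s ∈ fiR i, mass S' P' (fun x => e x % 5 ^ i) s = 1 := by
    rw [sum_mass S' P' _ (fiR i) (fun x _ => mod_mem_fiR i _), hP'.sum_eq]
  have hpt : ∀ t ∈ fiR i, ∀ s ∈ fiR i,
      (mass S P (fun x => T x % 5 ^ i) t * mass S' P' (fun x => e x % 5 ^ i) s) *
        ((fiAct S' P' e i s - η) / Real.log 5 - fiD S P T S' P' e i L t s / ε) ≤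
      (mass S P (fun x => T x % 5 ^ i) t * mass S' P' (fun x => e x % 5 ^ i) s) *
        (if NU S P T i L t then 1 else 0) := by
    intro t ht s hs
    by_cases h0 : mass S P (fun x => T x % 5 ^ i) t * mass S' P' (fun x => e x % 5 ^ i) s = 0
    · rw [h0, zero_mul, zero_mul]
    have hα0 := left_ne_zero_of_mul h0
    have hβ0 := right_ne_zero_of_mul h0
    refine mul_le_mul_of_nonneg_left ?_
      (mul_nonneg (mass_nonneg hP.nonneg _ _) (mass_nonneg hP'.nonneg _ _))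
    have hD := fiD_nonneg hP hP' T e i L t s hβ0
    have hact := fiAct_le hP' e i s hβ0
    have h1 : (fiAct S' P' e i s - η) / Real.log 5 ≤ 1 := by
      rw [div_le_one hlog]
      linarith
    have h2 : 0 ≤ fiD S P T S' P' e i L t s / ε := div_nonneg hD hε.le
    by_cases hNU : NU S P T i L t
    · rw [if_pos hNU]
      linarith
    · rw [if_neg hNU]
      by_cases hflat : fiD S P T S' P' e i L t s ≤ ε
      · by_cases hactive : η ≤ fiAct S' P' e i s
        · exfalso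
          apply hNU
          refine fi_NU_of_flat S P T i L t ht hα0 (mass_nonneg hP.nonneg _ _) ?_
          refine hWL (fan S P T i L t) (fan S' P' e i L s) (fan_nonneg hP.nonneg _ _ _ _)
            (fan_nonneg hP'.nonneg _ _ _ _) (fan_per _ _ _ _ _ _) (fan_per _ _ _ _ _ _)
            (fan_sum _ _ _ _ _ _ hα0) (fan_sum _ _ _ _ _ _ hβ0) hflat ?_
          refine hactive.trans (le_of_eq ?_)
          unfold fiAct
          refine Finset.sum_congr rfl fun δ hδ => ?_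
          rw [fan_marg S' P' e i L hL s δ (Finset.mem_range.1 hδ)]
        · push Not at hactive
          have : (fiAct S' P' e i s - η) / Real.log 5 ≤ 0 :=
            div_nonpos_of_nonpos_of_nonneg (by linarith) hlog.le
          linarith
      · push Not at hflat
        have : 1 ≤ fiD S P T S' P' e i L t s / ε := by
          rw [le_div_iff₀ hε]
          linarith
        linarith
  have hsum := Finset.sum_le_sum fun t ht => Finset.sum_le_sum fun s hs => hpt t ht s hs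
  have hright : ∑ t ∈ fiR i, ∑ s ∈ fiR i,
      (mass S P (fun x => T x % 5 ^ i) t * mass S' P' (fun x => e x % 5 ^ i) s) *
        (if NU S P T i L t then (1 : ℝ) else 0) = NUp S P T i L := by
    rw [fi_NUp_eq]
    refine Finset.sum_congr rfl fun t _ => ?_
    rw [← Finset.sum_mul, ← Finset.mul_sum, hβ1, mul_one]
  have hleft : ∑ t ∈ fiR i, ∑ s ∈ fiR i,
      (mass S P (fun x => T x % 5 ^ i) t * mass S' P' (fun x => e x % 5 ^ i) s) *
        ((fiAct S' P' e i s - η) / Real.log 5 - fiD S P T S' P' e i L t s / ε) =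
      (∑ s ∈ fiR i, mass S' P' (fun x => e x % 5 ^ i) s * fiAct S' P' e i s - η) / Real.log 5
        - fiJ S P T S' P' e i L / ε := by
    have h1 : ∀ t ∈ fiR i, ∑ s ∈ fiR i,
      (mass S P (fun x => T x % 5 ^ i) t * mass S' P' (fun x => e x % 5 ^ i) s) *
        ((fiAct S' P' e i s - η) / Real.log 5 - fiD S P T S' P' e i L t s / ε) =
      mass S P (fun x => T x % 5 ^ i) t *
        ((∑ s ∈ fiR i, mass S' P' (fun x => e x % 5 ^ i) s * fiAct S' P' e i s - η) / Real.log 5)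
        - (∑ s ∈ fiR i, (mass S P (fun x => T x % 5 ^ i) t *
            mass S' P' (fun x => e x % 5 ^ i) s) * fiD S P T S' P' e i L t s) / ε := by
      intro t _
      have h2 : (∑ s ∈ fiR i, mass S' P' (fun x => e x % 5 ^ i) s * fiAct S' P' e i s - η) =
          ∑ s ∈ fiR i, mass S' P' (fun x => e x % 5 ^ i) s * (fiAct S' P' e i s - η) := by
        simp only [mul_sub]
        rw [Finset.sum_sub_distrib, ← Finset.sum_mul, hβ1, one_mul]
      rw [h2, Finset.sum_div, Finset.mul_sum, Finset.sum_div, ← Finset.sum_sub_distrib]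
      refine Finset.sum_congr rfl fun s _ => ?_
      ring
    rw [Finset.sum_congr rfl h1, Finset.sum_sub_distrib, ← Finset.sum_mul, hα1, one_mul,
      ← Finset.sum_div]
    rfl
  rw [hright, hleft] at hsum
  refine le_trans ?_ hsum
  have h3 : fiJ S P T S' P' e i L / ε ≤ (fiG S P T S' P' e (i + L) - fiG S P T S' P' e i) / ε :=
    div_le_div_of_nonneg_right hJ hε.le
  have h4 : (ent S' P' (fun x => e x % 5 ^ (i + 1)) - ent S' P' (fun x => e x % 5 ^ i) - η) /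
      Real.log 5 ≤ (∑ s ∈ fiR i, mass S' P' (fun x => e x % 5 ^ i) s * fiAct S' P' e i s - η) /
      Real.log 5 := div_le_div_of_nonneg_right (by linarith) hlog.le
  linarith

theorem fi_act_le_log {S' : Finset κ} {P' : κ → ℝ} (hP' : IsProb S' P') (e : κ → ℤ) (i : ℕ) :
    ent S' P' (fun x => e x % 5 ^ (i + 1)) - ent S' P' (fun x => e x % 5 ^ i) ≤ Real.log 5 := by
  refine (fi_act_sum hP' e i).trans ?_
  have hβ1 : ∑ s ∈ fiR i, mass S' P' (fun x => e x % 5 ^ i) s = 1 := by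
    rw [sum_mass S' P' _ (fiR i) (fun x _ => mod_mem_fiR i _), hP'.sum_eq]
  calc ∑ s ∈ fiR i, mass S' P' (fun x => e x % 5 ^ i) s * fiAct S' P' e i s
      ≤ ∑ s ∈ fiR i, mass S' P' (fun x => e x % 5 ^ i) s * Real.log 5 := by
        refine Finset.sum_le_sum fun s _ => ?_
        by_cases hs : mass S' P' (fun x => e x % 5 ^ i) s = 0
        · rw [hs, zero_mul, zero_mul]
        · exact mul_le_mul_of_nonneg_left (fiAct_le hP' e i s hs) (mass_nonneg hP'.nonneg _ _)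
    _ = Real.log 5 := by rw [← Finset.sum_mul, hβ1, one_mul]

theorem fi_telescope (G : ℕ → ℝ) (hG : Monotone G) (h0 : ∀ i, 0 ≤ G i) (L m : ℕ) (hL : 1 ≤ L) :
    ∑ j ∈ (Icc 1 m).filter (fun j => j + L ≤ m + 1), (G (j + L) - G j) ≤ L * G (m + 1) := by
  by_cases hm : m + 1 < L
  · have : (Icc 1 m).filter (fun j => j + L ≤ m + 1) = ∅ := by
      rw [Finset.filter_eq_empty_iff]
      intro j _
      omega
    rw [this, Finset.sum_empty]
    exact mul_nonneg (Nat.cast_nonneg _) (h0 _)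
  · obtain ⟨M, hM⟩ : ∃ M, m + 1 = M + L := ⟨m + 1 - L, by omega⟩
    have h1 : (Icc 1 m).filter (fun j => j + L ≤ m + 1) = (range M).image (fun j => j + 1) := by
      ext j
      simp only [Finset.mem_filter, Finset.mem_Icc, Finset.mem_image, Finset.mem_range]
      constructor
      · rintro ⟨⟨h1, h2⟩, h3⟩
        exact ⟨j - 1, by omega, by omega⟩
      · rintro ⟨a, ha, rfl⟩
        omega
    rw [h1, Finset.sum_image (fun a _ b _ h => by omega), Finset.sum_sub_distrib]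
    have h2 : ∑ j ∈ range (M + L), G (j + 1) =
        ∑ j ∈ range M, G (j + 1) + ∑ j ∈ range L, G (M + j + 1) :=
      Finset.sum_range_add (fun j => G (j + 1)) M L
    have h3 : ∑ j ∈ range (L + M), G (j + 1) =
        ∑ j ∈ range L, G (j + 1) + ∑ j ∈ range M, G (L + j + 1) :=
      Finset.sum_range_add (fun j => G (j + 1)) L M
    have h4 : ∑ j ∈ range M, G (j + 1 + L) = ∑ j ∈ range M, G (L + j + 1) :=
      Finset.sum_congr rfl fun j _ => by congr 1; omega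
    rw [Nat.add_comm L M] at h3
    have h5 : ∑ j ∈ range L, G (M + j + 1) ≤ ∑ j ∈ range L, G (m + 1) := by
      refine Finset.sum_le_sum fun j hj => hG ?_
      rw [Finset.mem_range] at hj
      omega
    have h6 : 0 ≤ ∑ j ∈ range L, G (j + 1) := Finset.sum_nonneg fun j _ => h0 _
    rw [Finset.sum_const, Finset.card_range, nsmul_eq_mul] at h5
    linarith

open Classical in
theorem fi_NUp_nonneg {S : Finset ι} {P : ι → ℝ} (hP : IsProb S P) (T : ι → ℤ) (j L : ℕ) :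
    0 ≤ NUp S P T j L :=
  Finset.sum_nonneg fun x hx => hP.nonneg x (Finset.mem_filter.1 hx).1

end FIblk

theorem FI (L : ℕ) (hL : 1 ≤ L) (η : ℝ) (hη : 0 < η) : ∃ ε₂ : ℝ, 0 < ε₂ ∧
    ∀ (ι κ : Type) (S : Finset ι) (P : ι → ℝ) (T : ι → ℤ) (S' : Finset κ) (P' : κ → ℝ) (e : κ → ℤ),
      IsProb S P → IsProb S' P' → ∀ m : ℕ,
      (ent S' P' (fun i => e i % 5 ^ (m + 1)) - Real.log 5 - η * m) / Real.log 5 - L
        - (L / ε₂) * (ent (S ×ˢ S') (fun p => P p.1 * P' p.2)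
            (fun p => (T p.1 + e p.2) % 5 ^ (m + 1)) - ent S P (fun i => T i % 5 ^ (m + 1)))
      ≤ ∑ j ∈ Icc 1 m, NUp S P T j L := by
  obtain ⟨ε, hε, H⟩ := fi_single L hL η hη
  refine ⟨ε, hε, fun ι κ S P T S' P' e hP hP' m => ?_⟩
  have hlog : 0 < Real.log 5 := Real.log_pos (by norm_num)
  set G : ℕ → ℝ := fun i => fiG S P T S' P' e i with hG
  set g : ℕ → ℝ := fun i => ent S' P' (fun x => e x % 5 ^ i) with hg
  have hGm : Monotone G := fun i j hij => fiG_mono hP hP' T e hij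
  have hG0 : ∀ i, 0 ≤ G i := fun i => fiG_nonneg hP hP' T e i
  have hpt : ∀ j ∈ Icc 1 m, (g (j + 1) - g j - η) / Real.log 5 -
      (if j + L ≤ m + 1 then (G (j + L) - G j) / ε else 1) ≤ NUp S P T j L := by
    intro j _
    split_ifs with hj
    · exact H ι κ S P T S' P' e hP hP' j
    · have h1 : g (j + 1) - g j ≤ Real.log 5 := fi_act_le_log hP' e j
      have h2 : (g (j + 1) - g j - η) / Real.log 5 ≤ 1 := by
        rw [div_le_one hlog]
        linarith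
      have h3 := fi_NUp_nonneg hP T j L
      linarith
  have hsum := Finset.sum_le_sum hpt
  rw [Finset.sum_sub_distrib] at hsum
  have h1 : ∑ j ∈ Icc 1 m, (g (j + 1) - g j - η) / Real.log 5 =
      (g (m + 1) - g 1 - η * m) / Real.log 5 := by
    rw [← Finset.sum_div]
    congr 1
    rw [Finset.sum_sub_distrib, Finset.sum_const, Nat.card_Icc, nsmul_eq_mul]
    have : ∀ m : ℕ, ∑ j ∈ Icc 1 m, (g (j + 1) - g j) = g (m + 1) - g 1 := by
      intro m
      induction m with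
      | zero => simp
      | succ m ih =>
        rw [Finset.sum_Icc_succ_top (by omega), ih]
        ring
    rw [this]
    simp only [Nat.add_sub_cancel]
    ring
  have h2 : ∑ j ∈ Icc 1 m, (if j + L ≤ m + 1 then (G (j + L) - G j) / ε else 1) ≤
      L * G (m + 1) / ε + L := by
    rw [Finset.sum_ite, ← Finset.sum_div]
    have h3 := fi_telescope G hGm hG0 L m hL
    have h4 : ∑ x ∈ (Icc 1 m).filter (fun j => ¬ j + L ≤ m + 1), (1 : ℝ) ≤ L := by
      rw [Finset.sum_const, nsmul_eq_mul, mul_one]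
      have h5 : (Icc 1 m).filter (fun j => ¬ j + L ≤ m + 1) ⊆ Ioc (m + 1 - L) m := by
        intro j hj
        simp only [Finset.mem_filter, Finset.mem_Icc, Finset.mem_Ioc] at hj ⊢
        omega
      have h6 := Finset.card_le_card h5
      rw [Nat.card_Ioc] at h6
      have h7 : ((Icc 1 m).filter (fun j => ¬ j + L ≤ m + 1)).card ≤ L := by omega
      exact_mod_cast h7
    have h8 := div_le_div_of_nonneg_right h3 hε.le
    linarith
  have h3 : g 1 ≤ Real.log 5 := by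
    have := fi_act_le_log hP' e 0
    have h0 : 0 ≤ ent S' P' (fun x => e x % 5 ^ 0) := ent_nonneg hP' _
    have h0' : ent S' P' (fun x => e x % 5 ^ 0) ≤ 0 := by
      have := ent_le_log_card hP' (fun x => e x % 5 ^ 0) {0} (fun p _ _ => by simp)
      simpa using this
    have : g 1 = ent S' P' (fun x => e x % 5 ^ (0 + 1)) := rfl
    linarith
  have h4 : (g (m + 1) - Real.log 5 - η * m) / Real.log 5 ≤
      (g (m + 1) - g 1 - η * m) / Real.log 5 := div_le_div_of_nonneg_right (by linarith) hlog.le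
  have h5 : (L / ε) * G (m + 1) = L * G (m + 1) / ε := by ring
  have h6 : (ent S' P' (fun i => e i % 5 ^ (m + 1)) - Real.log 5 - η * m) / Real.log 5 - L
        - (L / ε) * (ent (S ×ˢ S') (fun p => P p.1 * P' p.2)
            (fun p => (T p.1 + e p.2) % 5 ^ (m + 1)) - ent S P (fun i => T i % 5 ^ (m + 1))) =
      (g (m + 1) - Real.log 5 - η * m) / Real.log 5 - L - (L / ε) * G (m + 1) := rfl
  rw [h6, h5]
  linarith

/-- adding an independent variable does not decrease entropy -/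
theorem ent_add_ge {ι κ : Type} {S : Finset ι} {P : ι → ℝ} (T : ι → ℤ) {S' : Finset κ}
    {P' : κ → ℝ} (e : κ → ℤ) (hP : IsProb S P) (hP' : IsProb S' P') (m : ℕ) :
    ent S P (fun i => T i % 5 ^ m) ≤
      ent (S ×ˢ S') (fun p => P p.1 * P' p.2) (fun p => (T p.1 + e p.2) % 5 ^ m) := by
  have h := fiG_nonneg hP hP' T e m
  unfold fiG at h
  linarith


end Pool.Agent.Lib_helper56.Low
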