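import Pool.Agent.LowAsm.V

set_option autoImplicit false

namespace Pool.Agent.Lib_helper56.Low

open Finset

/-! ### Block H: normalised weights and the kernel -/

theorem hh_pos {K : ℕ} (hK : 8 ≤ K) (n : ℕ) {x : ℤ} (h : ¬ (5 : ℤ) ∣ x) : 0 < hh K n x :=
  div_pos (v_pos hK _ h) (v_pos hK _ h)

theorem hh_zero {K : ℕ} (hK : 8 ≤ K) {x : ℤ} (h : ¬ (5 : ℤ) ∣ x) : hh K 0 x = 1 :=
  div_self (v_pos hK 1 h).ne'

theorem blkH_v_one_shift (K : ℕ) (x y : ℤ) : v K 1 (x + 5 * y) = v K 1 x := by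
  have := v_shift K 1 x y
  rwa [pow_one] at this

theorem hh_shift (K n : ℕ) (x y : ℤ) : hh K n (x + 5 ^ (n + 1) * y) = hh K n x := by
  unfold hh
  rw [v_shift, show (5 : ℤ) ^ (n + 1) * y = 5 * (5 ^ n * y) by ring, blkH_v_one_shift]

/-- `v_add` with a division by `v K 1` inserted -/
theorem blkH_term {K : ℕ} (hK : 8 ≤ K) (m n : ℕ) (x : ℤ) (w : List ℕ) :
    v K (m + 1) x * (ker K m x w * hh K n (A w x)) =
      if adm w x then (if v K (m + 1) x = 0 then 0 else (5 / 6 : ℝ) ^ w.sum * v K (n + 1) (A w x))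
        else 0 := by
  unfold ker hh
  by_cases ha : adm w x
  · rw [if_pos ha, if_pos ha]
    by_cases h0 : v K (m + 1) x = 0
    · rw [if_pos h0, h0, zero_mul]
    · rw [if_neg h0]
      by_cases h1 : (5 : ℤ) ∣ A w x
      · rw [v_zero_of_dvd K n _ h1]
        simp
      · have h2 := (v_pos hK 1 h1).ne'
        field_simp
  · rw [if_neg ha, if_neg ha, zero_mul, mul_zero]

theorem hh_cocycle {K : ℕ} (hK : 8 ≤ K) (m n : ℕ) {x : ℤ} (h : ¬ (5 : ℤ) ∣ x) :
    hh K (m + n) x = hh K m x * ∑ w ∈ words K m, ker K m x w * hh K n (A w x) := by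
  have h0 : v K (m + 1) x ≠ 0 := (v_pos hK (m + 1) h).ne'
  have e1 : hh K m x * ∑ w ∈ words K m, ker K m x w * hh K n (A w x) =
      (∑ w ∈ words K m, v K (m + 1) x * (ker K m x w * hh K n (A w x))) / v K 1 x := by
    rw [← Finset.mul_sum]
    unfold hh
    ring
  rw [e1]
  unfold hh
  congr 1
  rw [show m + n + 1 = m + (n + 1) by ring, v_add]
  refine Finset.sum_congr rfl fun w _ => ?_
  have := blkH_term hK m n x w
  rw [if_neg h0] at this
  unfold hh at this
  exact this.symm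

theorem hh_avg {K : ℕ} (n L : ℕ) (x : ℤ) :
    ∑ y ∈ range (5 ^ L), hh K (n + L) (x + 5 ^ (n + 1) * (y : ℤ)) =
      5 ^ L * (1 - (5 / 6 : ℝ) ^ K) ^ L * hh K n x := by
  have h1 : ∀ y ∈ range (5 ^ L), hh K (n + L) (x + 5 ^ (n + 1) * (y : ℤ)) =
      v K (n + 1 + L) (x + 5 ^ (n + 1) * (y : ℤ)) / v K 1 x := by
    intro y _
    unfold hh
    rw [show n + L + 1 = n + 1 + L by ring]
    congr 1
    rw [show (5 : ℤ) ^ (n + 1) * (y : ℤ) = 5 * (5 ^ n * y) by ring, blkH_v_one_shift]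
  rw [Finset.sum_congr rfl h1, ← Finset.sum_div, v_avg]
  unfold hh
  rw [mul_div_assoc]

theorem ker_nonneg {K : ℕ} (hK : 8 ≤ K) (n : ℕ) (x : ℤ) (w : List ℕ) : 0 ≤ ker K n x w := by
  unfold ker
  split_ifs
  · exact div_nonneg (mul_nonneg (by positivity) (v_nonneg _ _ _)) (v_nonneg _ _ _)
  · exact le_refl _

theorem blkH_le {K : ℕ} (n : ℕ) (x : ℤ) {w : List ℕ} (hw : w ∈ words K n) (ha : adm w x) :
    (5 / 6 : ℝ) ^ w.sum * v K 1 (A w x) ≤ v K (n + 1) x := by
  rw [v_add]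
  have h3 := Finset.single_le_sum (f := fun w => if adm w x then
    (5 / 6 : ℝ) ^ w.sum * v K 1 (A w x) else 0) (s := words K n)
    (fun e _ => by
      split_ifs
      · exact mul_nonneg (by positivity) (v_nonneg _ _ _)
      · exact le_refl _) hw
  rw [if_pos ha] at h3
  exact h3

theorem ker_le_one {K : ℕ} (hK : 8 ≤ K) (n : ℕ) (x : ℤ) {w : List ℕ} (hw : w ∈ words K n) :
    ker K n x w ≤ 1 := by
  unfold ker
  split_ifs with ha
  · exact div_le_one_of_le₀ (blkH_le n x hw ha) (v_nonneg _ _ _)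
  · exact zero_le_one

theorem ker_sum {K : ℕ} (hK : 8 ≤ K) (n : ℕ) {x : ℤ} (h : ¬ (5 : ℤ) ∣ x) :
    ∑ w ∈ words K n, ker K n x w = 1 := by
  have h0 : v K (n + 1) x ≠ 0 := (v_pos hK (n + 1) h).ne'
  have e1 : ∀ w ∈ words K n, ker K n x w =
      (if adm w x then (5 / 6 : ℝ) ^ w.sum * v K 1 (A w x) else 0) / v K (n + 1) x := by
    intro w _
    unfold ker
    split_ifs
    · rfl
    · rw [zero_div]
  rw [Finset.sum_congr rfl e1, ← Finset.sum_div, ← v_add, div_self h0]

theorem ker_adm {K n : ℕ} {x : ℤ} {w : List ℕ} (h : ker K n x w ≠ 0) :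
    adm w x ∧ ¬ (5 : ℤ) ∣ A w x := by
  unfold ker at h
  by_cases ha : adm w x
  · rw [if_pos ha] at h
    refine ⟨ha, fun hd => h ?_⟩
    rw [v_zero_of_dvd K 0 _ hd]
    simp
  · rw [if_neg ha] at h
    exact absurd rfl h

theorem ker_shift (K n : ℕ) (x y : ℤ) {w : List ℕ} (hw : w.length = n) :
    ker K n (x + 5 ^ (n + 1) * y) w = ker K n x w := by
  subst hw
  unfold ker
  have e1 : adm w (x + 5 ^ (w.length + 1) * y) ↔ adm w x := by
    rw [show (5 : ℤ) ^ (w.length + 1) * y = 5 ^ w.length * (5 * y) by ring]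
    exact adm_shift w x (5 * y)
  by_cases ha : adm w x
  · rw [if_pos (e1.mpr ha), if_pos ha, A_shift' w x y ha, v_shift,
      show (5 : ℤ) * 2 ^ w.sum * y = 5 * (2 ^ w.sum * y) by ring, blkH_v_one_shift]
  · rw [if_neg (fun h => ha (e1.mp h)), if_neg ha]

/-- lower bounds with exponential rate `κ` -/
def LowR (K : ℕ) (κ : ℝ) : Prop :=
  ∀ ε : ℝ, 0 < ε → ∃ n₀ : ℕ, ∀ n, n₀ ≤ n → ∀ x : ℤ, ¬ (5 : ℤ) ∣ x →
    Real.exp (-(κ + ε) * n) ≤ hh K n x

/-- entropy of the natural kernel -/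
theorem ker_ent {K : ℕ} (hK : 8 ≤ K) (κ : ℝ) (hLow : LowR K κ) (hκ : κ < Real.log (6 / 5)) :
    ∃ h : ℝ, 0 < h ∧ ∃ l₀ : ℕ, ∀ l, l₀ ≤ l → ∀ x : ℤ, ¬ (5 : ℤ) ∣ x →
      h * l ≤ ∑ w ∈ words K l, Real.negMulLog (ker K l x w) := by
  set g : ℝ := Real.log (6 / 5) - κ with hg
  have hg0 : 0 < g := by rw [hg]; linarith
  obtain ⟨n₀, hn₀⟩ := hLow (g / 2) (by linarith)
  obtain ⟨n₁, hn₁⟩ := exists_nat_ge (4 * Real.log 15 / g)
  refine ⟨g / 4, by linarith, max n₀ n₁, fun l hl x hx => ?_⟩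
  have hl0 : n₀ ≤ l := (le_max_left _ _).trans hl
  have hl1 : (n₁ : ℝ) ≤ l := by exact_mod_cast (le_max_right _ _).trans hl
  have hlow := hn₀ l hl0 x hx
  have hv1 := v_one_bounds hK hx
  have hlog : Real.log (5 / 6 : ℝ) = - Real.log (6 / 5) := by
    rw [← Real.log_inv]; norm_num
  -- the kernel is small
  have hker : ∀ w ∈ words K l, ker K l x w ≤ 15 * Real.exp (-(g / 2) * l) := by
    intro w hw
    unfold ker
    split_ifs with ha
    · have h1 : (5 / 6 : ℝ) ^ w.sum ≤ Real.exp (-Real.log (6 / 5) * l) := by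
        calc (5 / 6 : ℝ) ^ w.sum ≤ (5 / 6 : ℝ) ^ l :=
              pow_le_pow_of_le_one (by norm_num) (by norm_num) (sum_le_of_mem_words hw).1
          _ = Real.exp (-Real.log (6 / 5) * l) := by
              rw [← hlog, Real.exp_mul, Real.exp_log (by norm_num), Real.rpow_natCast]
      have h2 : v K 1 (A w x) ≤ 5 := by
        by_cases h5 : (5 : ℤ) ∣ A w x
        · rw [v_zero_of_dvd K 0 _ h5]; norm_num
        · exact (v_one_bounds hK h5).2
      have h3 : v K (l + 1) x = hh K l x * v K 1 x := by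
        unfold hh
        rw [div_mul_cancel₀ _ (v_pos hK 1 hx).ne']
      have h4 : Real.exp (-(κ + g / 2) * l) * (1 / 3) ≤ v K (l + 1) x := by
        rw [h3]
        exact mul_le_mul hlow hv1.1 (by norm_num) (hh_pos hK l hx).le
      rw [div_le_iff₀ (v_pos hK _ hx)]
      calc (5 / 6 : ℝ) ^ w.sum * v K 1 (A w x)
          ≤ Real.exp (-Real.log (6 / 5) * l) * 5 :=
            mul_le_mul h1 h2 (v_nonneg _ _ _) (Real.exp_pos _).le
        _ = 15 * Real.exp (-(g / 2) * l) * (Real.exp (-(κ + g / 2) * l) * (1 / 3)) := by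
            have : Real.exp (-Real.log (6 / 5) * l) =
                Real.exp (-(g / 2) * l) * Real.exp (-(κ + g / 2) * l) := by
              rw [← Real.exp_add]
              congr 1
              rw [hg]
              ring
            rw [this]
            ring
        _ ≤ 15 * Real.exp (-(g / 2) * l) * v K (l + 1) x :=
            mul_le_mul_of_nonneg_left h4 (by positivity)
    · positivity
  have hb : ∀ w ∈ words K l, (g / 4 * l) * ker K l x w ≤ Real.negMulLog (ker K l x w) := by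
    intro w hw
    have hk0 := ker_nonneg hK l x w
    rcases hk0.eq_or_lt with h0 | h0
    · rw [← h0]; simp
    · have h1 : Real.log (ker K l x w) ≤ Real.log 15 - (g / 2) * l := by
        calc Real.log (ker K l x w) ≤ Real.log (15 * Real.exp (-(g / 2) * l)) :=
              Real.log_le_log h0 (hker w hw)
          _ = Real.log 15 - (g / 2) * l := by
              rw [Real.log_mul (by norm_num) (Real.exp_pos _).ne', Real.log_exp]
              ring
      have h2 : Real.log 15 ≤ (g / 4) * l := by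
        have := hn₁.trans hl1
        rw [div_le_iff₀ hg0] at this
        linarith
      unfold Real.negMulLog
      have h3 : g / 4 * l ≤ - Real.log (ker K l x w) := by linarith
      nlinarith
  calc g / 4 * l = ∑ w ∈ words K l, (g / 4 * l) * ker K l x w := by
        rw [← Finset.mul_sum, ker_sum hK l hx, mul_one]
    _ ≤ ∑ w ∈ words K l, Real.negMulLog (ker K l x w) := Finset.sum_le_sum hb

end Pool.Agent.Lib_helper56.Low
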