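import Pool.Agent.LowAsm.Q

set_option autoImplicit false

namespace Pool.Agent.Lib_helper56.Low

open Finset


/-- concatenation turns the product of the two laws into the law at time `s+τ` -/
private theorem LC_cc {K : ℕ} (hK : 8 ≤ K) (l s τ m : ℕ) {x : ℤ} (hx : ¬ (5 : ℤ) ∣ x) :
    cc (words K (l * s) ×ˢ words K (l * τ))
      (fun p => q K l s x p.1 * (if (5 : ℤ) ∣ A p.1 x then 0 else q K l τ (A p.1 x) p.2))
      (fun p => A p.2 (A p.1 x)) (fun p => p.1.sum + p.2.sum) m = cs K l x m (s + τ) := by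
  have hbij : Set.BijOn (fun p : List ℕ × List ℕ => p.1 ++ p.2)
      ((words K (l * s) ×ˢ words K (l * τ) : Finset (List ℕ × List ℕ)) : Set (List ℕ × List ℕ))
      ((words K (l * (s + τ)) : Finset (List ℕ)) : Set (List ℕ)) := by
    refine ⟨?_, ?_, ?_⟩
    · rintro ⟨u, w⟩ h
      simp only [coe_product, Set.mem_prod, mem_coe, mem_words] at h ⊢
      refine ⟨by simp [h.1.1, h.2.1, Nat.mul_add], ?_⟩
      intro d hd
      rcases List.mem_append.1 hd with h1 | h1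
      · exact h.1.2 d h1
      · exact h.2.2 d h1
    · rintro ⟨u, w⟩ h ⟨u', w'⟩ h' he
      simp only [coe_product, Set.mem_prod, mem_coe, mem_words] at h h'
      have := List.append_inj (he : u ++ w = u' ++ w') (by rw [h.1.1, h'.1.1])
      exact Prod.ext this.1 this.2
    · intro w h
      simp only [mem_coe, mem_words] at h
      refine ⟨(w.take (l * s), w.drop (l * s)), ?_, List.take_append_drop _ _⟩
      simp only [coe_product, Set.mem_prod, mem_coe, mem_words]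
      have hlen : w.length = l * s + l * τ := by rw [h.1, Nat.mul_add]
      refine ⟨⟨by simp [hlen], fun d hd => h.2 d (List.mem_of_mem_take hd)⟩,
        ⟨by simp [hlen], fun d hd => h.2 d (List.mem_of_mem_drop hd)⟩⟩
  have hP : ∀ p ∈ words K (l * s) ×ˢ words K (l * τ),
      q K l s x p.1 * (if (5 : ℤ) ∣ A p.1 x then 0 else q K l τ (A p.1 x) p.2) =
        q K l (s + τ) x (p.1 ++ p.2) := by
    rintro ⟨u, w⟩ h
    simp only [mem_product, mem_words] at h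
    rw [q_append K l s τ x u w h.1.1]
    by_cases h0 : q K l s x u = 0
    · simp [h0]
    · have := (q_adm hx h.1.1 h0).2
      simp [this]
  unfold cs cc
  congr 1
  · apply ent_map _ _ _ _ (fun p : List ℕ × List ℕ => p.1 ++ p.2) hbij hP
    rintro ⟨u, w⟩ _ _
    simp [A_append]
  · apply ent_map _ _ _ _ (fun p : List ℕ × List ℕ => p.1 ++ p.2) hbij hP
    rintro ⟨u, w⟩ _ _
    simp

private theorem LC_unit {K : ℕ} (l s : ℕ) {x : ℤ} (hx : ¬ (5 : ℤ) ∣ x) :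
    ∀ w ∈ words K (l * s), q K l s x w ≠ 0 → ¬ (5 : ℤ) ∣ A w x :=
  fun _ hw h => (q_adm hx (mem_words.1 hw).1 h).2

theorem cs_nonneg {K : ℕ} (hK : 8 ≤ K) (l : ℕ) {x : ℤ} (h : ¬ (5 : ℤ) ∣ x) (j s : ℕ) :
    0 ≤ cs K l x j s :=
  cc_nonneg _ _ (q_isProb hK l s h) j

theorem cs_le {K : ℕ} (hK : 8 ≤ K) (l : ℕ) {x : ℤ} (h : ¬ (5 : ℤ) ∣ x) (j s : ℕ) :
    cs K l x j s ≤ (j + 1) * Real.log 5 :=
  cc_le _ _ (q_isProb hK l s h) j

theorem cs_sub {K : ℕ} (hK : 8 ≤ K) {l : ℕ} (hl : 1 ≤ l) {x : ℤ} (h : ¬ (5 : ℤ) ∣ x)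
    (τ m s : ℕ) : cs K l x (l * τ + m) s - cs K l x (l * τ) s ≤ cs K l x m (s + τ) := by
  have hk0 : ∀ x : ℤ, ¬ (5 : ℤ) ∣ x →
      (0 : ℝ) * l ≤ ∑ w ∈ words K l, Real.negMulLog (ker K l x w) := by
    intro x _
    rw [zero_mul]
    exact Finset.sum_nonneg fun w hw =>
      Real.negMulLog_nonneg (ker_nonneg hK l x w) (ker_le_one hK l x hw)
  have h1 := cc_sub (q_kerHyp hK l 0 hk0 τ) (S := words K (l * s)) (P := q K l s x)
    (fun w => A w x) (fun w => w.sum) (q_isProb hK l s h) (LC_unit l s h) m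
  have h2 := LC_cc hK l s τ m h
  rw [h2] at h1
  exact h1

theorem LC (K L : ℕ) (hK : 8 ≤ K) (hL : 1 ≤ L) (h : ℝ) (hh : 0 < h) : ∃ ε₂ : ℝ, 0 < ε₂ ∧
    ∀ l : ℕ, 1 ≤ l →
    (∀ x : ℤ, ¬ (5 : ℤ) ∣ x → h * l ≤ ∑ w ∈ words K l, Real.negMulLog (ker K l x w)) →
    ∃ τ₁ : ℕ, ∀ τ, τ₁ ≤ τ → ∀ x : ℤ, ¬ (5 : ℤ) ∣ x → ∀ s : ℕ,
      h * (l * τ : ℕ) / (4 * Real.log 5)
        - (L / ε₂) * (cs K l x (K * (l * τ)) (s + τ) - cs K l x ((K + 1) * (l * τ)) s
            + cs K l x (l * τ) s)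
      ≤ ∑ j ∈ Icc 1 (K * (l * τ)), nu K l x s (l * τ + j) L := by
  obtain ⟨ε₂, hε, H⟩ := LI K L (by omega) hL h hh
  refine ⟨ε₂, hε, ?_⟩
  intro l hl hk
  have hKpos : (0 : ℝ) < K := by exact_mod_cast (by omega : 0 < K)
  set δ : ℝ := h / (8 * K) with hδ
  have hδ0 : 0 < δ := by positivity
  have hlog : ∀ y : ℝ, 0 < y → Real.log y ≤ δ * y - Real.log δ := by
    intro y hy
    have h1 : Real.log (δ * y) ≤ δ * y - 1 := Real.log_le_sub_one_of_pos (by positivity)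
    rw [Real.log_mul hδ0.ne' hy.ne'] at h1
    linarith
  set C : ℝ := δ - Real.log δ + (L + 1) * Real.log 5 with hC
  have hlog5 : 0 < Real.log 5 := Real.log_pos (by norm_num)
  obtain ⟨τ₁, hτ₁⟩ := exists_nat_ge (8 * C / h)
  refine ⟨τ₁ + 1, ?_⟩
  intro τ hτ x hx s
  have hn : 1 ≤ l * τ := Nat.mul_pos hl (by omega)
  have h1 := H (l * τ) hn (words K (l * τ)) _ A List.sum (q_kerHyp hK l h hk τ)
    (List ℕ) (words K (l * s)) (q K l s x) (fun w => A w x) (fun w => w.sum)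
    (q_isProb hK l s hx) (LC_unit l s hx)
  have h2 := LC_cc hK l s τ (K * (l * τ)) hx
  rw [h2] at h1
  change _ - (L / ε₂) * (cs K l x (K * (l * τ)) (s + τ) - cs K l x ((K + 1) * (l * τ)) s
            + cs K l x (l * τ) s) ≤ ∑ j ∈ Icc 1 (K * (l * τ)), nu K l x s (l * τ + j) L at h1
  refine le_trans ?_ h1
  refine sub_le_sub_right ?_ _
  have hnr : (τ : ℝ) ≤ ((l * τ : ℕ) : ℝ) := by
    exact_mod_cast Nat.le_mul_of_pos_left τ hl
  have hτr : (τ₁ : ℝ) ≤ τ := by exact_mod_cast (by omega : τ₁ ≤ τ)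
  set n : ℝ := ((l * τ : ℕ) : ℝ) with hndef
  have hbig : 8 * C ≤ h * n := by
    have : 8 * C / h ≤ n := by linarith
    rw [div_le_iff₀ hh] at this
    linarith
  have hn0 : 0 ≤ n := by positivity
  have h3 := hlog (K * n + 1) (by positivity)
  have h4 : δ * (K * n + 1) = h * n / 8 + δ := by
    rw [hδ]; field_simp
  rw [h4] at h3
  rw [div_sub' (by positivity), div_le_div_iff₀ (by positivity) (by positivity)]
  have h5 : h * n + 4 * (Real.log (K * n + 1) + Real.log 5 + L * Real.log 5) ≤ 4 * (h * n / 2) := by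
    have : Real.log (K * n + 1) + Real.log 5 + L * Real.log 5 ≤ h * n / 4 := by
      have : C ≤ h * n / 8 := by linarith
      rw [hC] at this
      linarith
    linarith
  nlinarith [hlog5]

theorem nu_bounds {K : ℕ} (hK : 8 ≤ K) (l : ℕ) {x : ℤ} (h : ¬ (5 : ℤ) ∣ x) (s j L : ℕ) :
    0 ≤ nu K l x s j L ∧ nu K l x s j L ≤ 1 := by
  have hP := q_isProb hK l s h
  classical
  unfold nu NUp2
  constructor
  · refine Finset.sum_nonneg fun i hi => hP.nonneg i ?_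
    exact (Finset.mem_filter.1 hi).1
  · rw [← hP.sum_eq]
    exact Finset.sum_le_sum_of_subset_of_nonneg (Finset.filter_subset _ _)
      fun i hi _ => hP.nonneg i hi


end Pool.Agent.Lib_helper56.Low
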