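import Pool.Agent.LowAsm.FI

set_option autoImplicit false

namespace Pool.Agent.Lib_helper56.Low

open Finset

/-! ### Block LI: local inequality for an abstract kernel -/

/-- the hypotheses on the `n`-step kernel -/
structure KerHyp (K n : ℕ) (h : ℝ) (W : Finset (List ℕ)) (k : ℤ → List ℕ → ℝ)
    (Aw : List ℕ → ℤ → ℤ) (Dw : List ℕ → ℕ) : Prop where
  nonneg : ∀ x w, 0 ≤ k x w
  sum_eq : ∀ x : ℤ, ¬ (5 : ℤ) ∣ x → ∑ w ∈ W, k x w = 1
  shiftA : ∀ (x y : ℤ), ∀ w ∈ W, k x w ≠ 0 → Aw w (x + 5 ^ (n + 1) * y) = Aw w x + 5 * 2 ^ Dw w * y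
  shiftk : ∀ (x y : ℤ), ∀ w ∈ W, k (x + 5 ^ (n + 1) * y) w = k x w
  inj : ∀ (b : ℤ), ∀ w ∈ W, ∀ w' ∈ W, k b w ≠ 0 → k b w' ≠ 0 → Dw w = Dw w' →
    Aw w b = Aw w' b → w = w'
  size : ∀ (b : ℤ), 0 ≤ b → b < 5 ^ (n + 1) → ∀ w ∈ W, k b w ≠ 0 → |Aw w b| < 5 * 2 ^ Dw w
  len : ∀ w ∈ W, Dw w ≤ K * n
  ent : ∀ x : ℤ, ¬ (5 : ℤ) ∣ x → h * n ≤ ∑ w ∈ W, Real.negMulLog (k x w)

theorem cc_nonneg {ι : Type} {S : Finset ι} {P : ι → ℝ} (X : ι → ℤ) (D : ι → ℕ)
    (hP : IsProb S P) (j : ℕ) : 0 ≤ cc S P X D j := by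
  unfold cc
  have := ent_le_of_det hP (fun i => (X i % 5 ^ (j + 1), D i)) D (by
    intro i _ j' _ _ _ hij
    simpa using (congrArg Prod.snd hij))
  linarith

theorem li_isProb_fibre {ι α : Type} [DecidableEq α] {S : Finset ι} {P : ι → ℝ} (hP : IsProb S P)
    (g : ι → α) (a : α) (h : mass S P g a ≠ 0) :
    IsProb (S.filter (fun i => g i = a)) (fun i => P i / mass S P g a) := by
  refine ⟨fun i hi => div_nonneg (hP.nonneg i (mem_filter.1 hi).1) (mass_nonneg hP.nonneg g a), ?_⟩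
  rw [← sum_div]
  exact div_self h

theorem li_sum_mass_image {ι α : Type} [DecidableEq α] {S : Finset ι} {P : ι → ℝ} (hP : IsProb S P)
    (g : ι → α) : ∑ a ∈ S.image g, mass S P g a = 1 := by
  rw [sum_mass S P g _ (fun i hi => mem_image_of_mem g hi)]
  exact hP.sum_eq

theorem li_ent_fibre_le {ι α β : Type} [DecidableEq α] [DecidableEq β] {S : Finset ι} {P : ι → ℝ}
    (hP : IsProb S P) (f : ι → α) (g : ι → β) (C : ℝ)
    (hC : ∀ b ∈ S.image g, mass S P g b ≠ 0 →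
      ent (S.filter (fun i => g i = b)) (fun i => P i / mass S P g b) f ≤ C) :
    ent S P (fun i => (f i, g i)) - ent S P g ≤ C := by
  rw [ent_disint hP.nonneg]
  calc _ ≤ ∑ b ∈ S.image g, mass S P g b * C := by
        apply sum_le_sum
        intro b hb
        by_cases h : mass S P g b = 0
        · simp [h]
        · exact mul_le_mul_of_nonneg_left (hC b hb h) (mass_nonneg hP.nonneg g b)
    _ = C := by rw [← sum_mul, li_sum_mass_image hP, one_mul]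

theorem cc_le {ι : Type} {S : Finset ι} {P : ι → ℝ} (X : ι → ℤ) (D : ι → ℕ)
    (hP : IsProb S P) (j : ℕ) : cc S P X D j ≤ (j + 1) * Real.log 5 := by
  unfold cc
  apply li_ent_fibre_le hP
  intro b hb hm
  have h1 := ent_le_log_card (li_isProb_fibre hP D b hm) (fun i => X i % 5 ^ (j + 1))
    ((range (5 ^ (j + 1))).image (fun n : ℕ => (n : ℤ))) (by
      intro i _ _
      have h0 : (0 : ℤ) ≤ X i % 5 ^ (j + 1) := Int.emod_nonneg _ (by positivity)
      have h1 : X i % 5 ^ (j + 1) < 5 ^ (j + 1) := Int.emod_lt_of_pos _ (by positivity)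
      refine mem_image.2 ⟨(X i % 5 ^ (j + 1)).toNat, ?_, Int.toNat_of_nonneg h0⟩
      rw [mem_range]
      zify
      rw [Int.toNat_of_nonneg h0]
      exact h1)
  refine h1.trans ?_
  rw [card_image_of_injective _ Nat.cast_injective, card_range]
  push_cast
  rw [Real.log_pow]
  push_cast
  exact le_rfl

theorem ent_congr {ι α : Type} [DecidableEq α] {S S' : Finset ι} {P P' : ι → ℝ} {f f' : ι → α}
    (hS : S' = S) (hP : ∀ i ∈ S, P' i = P i) (hf : ∀ i ∈ S, P i ≠ 0 → f' i = f i) :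
    ent S' P' f' = ent S P f := by
  subst hS
  exact ent_map P P' f f' id (Set.bijOn_id _) hP (fun i hi h => hf i hi (by rw [← hP i hi]; exact h))

section Fib

variable {K n : ℕ} {h : ℝ} {W : Finset (List ℕ)} {k : ℤ → List ℕ → ℝ}
    {Aw : List ℕ → ℤ → ℤ} {Dw : List ℕ → ℕ}
    {ι : Type} {S : Finset ι} {P : ι → ℝ} {X : ι → ℤ} {D : ι → ℕ}

/-- fibre variable on `ι` -/
def g1 (n : ℕ) (X : ι → ℤ) (D : ι → ℕ) : ι → ℤ × ℕ := fun i => (X i % 5 ^ (n + 1), D i)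

/-- fibre weight of the kernel -/
noncomputable def kap (W : Finset (List ℕ)) (k : ℤ → List ℕ → ℝ) (Dw : List ℕ → ℕ) (b : ℤ) (Δ : ℕ) : ℝ :=
  ∑ w ∈ W.filter (fun w => Dw w = Δ), k b w

theorem li_k (hk : KerHyp K n h W k Aw Dw) (x : ℤ) {w : List ℕ} (hw : w ∈ W) :
    k x w = k (x % 5 ^ (n + 1)) w := by
  have := hk.shiftk (x % 5 ^ (n + 1)) (x / 5 ^ (n + 1)) w hw
  rw [Int.emod_add_mul_ediv] at this
  exact this

theorem li_A (hk : KerHyp K n h W k Aw Dw) (x : ℤ) {w : List ℕ} (hw : w ∈ W) (h0 : k x w ≠ 0) :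
    Aw w x = 5 * 2 ^ Dw w * (x / 5 ^ (n + 1)) + Aw w (x % 5 ^ (n + 1)) := by
  have := hk.shiftA (x % 5 ^ (n + 1)) (x / 5 ^ (n + 1)) w hw (by rw [← li_k hk x hw]; exact h0)
  rw [Int.emod_add_mul_ediv] at this
  rw [this]; ring

theorem li_prob' (hk : KerHyp K n h W k Aw Dw) (hP : IsProb S P)
    (hX : ∀ i ∈ S, P i ≠ 0 → ¬ (5 : ℤ) ∣ X i) :
    IsProb (S ×ˢ W) (fun p => P p.1 * k (X p.1) p.2) := by
  refine ⟨fun p hp => mul_nonneg (hP.nonneg _ (mem_product.1 hp).1) (hk.nonneg _ _), ?_⟩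
  rw [sum_product]
  rw [← hP.sum_eq]
  apply sum_congr rfl
  intro i hi
  show ∑ w ∈ W, P i * k (X i) w = P i
  rw [← mul_sum]
  by_cases h0 : P i = 0
  · simp [h0]
  · rw [hk.sum_eq _ (hX i hi h0), mul_one]

theorem li_filter (Δ : ℕ) (β : ℤ × ℕ) :
    (S ×ˢ W).filter (fun p => (g1 n X D p.1, Dw p.2) = (β, Δ)) =
      (S.filter (fun i => g1 n X D i = β)) ×ˢ (W.filter (fun w => Dw w = Δ)) := by
  ext p
  simp only [mem_filter, mem_product, Prod.mk.injEq]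
  tauto

theorem li_mass' (hk : KerHyp K n h W k Aw Dw) (Δ : ℕ) (β : ℤ × ℕ) :
    mass (S ×ˢ W) (fun p => P p.1 * k (X p.1) p.2) (fun p => (g1 n X D p.1, Dw p.2)) (β, Δ) =
      mass S P (g1 n X D) β * kap W k Dw β.1 Δ := by
  unfold mass kap
  rw [li_filter, sum_product, sum_mul_sum]
  apply sum_congr rfl
  intro i hi
  apply sum_congr rfl
  intro w hw
  have h1 := (mem_filter.1 hi).2
  have h2 := (mem_filter.1 hw).1
  simp only
  rw [li_k hk (X i) h2]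
  have : X i % 5 ^ (n + 1) = β.1 := by rw [← h1]; rfl
  rw [this]

/-- `T` variable -/
def Tv (n : ℕ) (X : ι → ℤ) (Δ : ℕ) : ι → ℤ := fun i => 5 * 2 ^ Δ * (X i / 5 ^ (n + 1))

/-- fibre entropy -/
noncomputable def fibE (n m : ℕ) (W : Finset (List ℕ)) (k : ℤ → List ℕ → ℝ)
    (Aw : List ℕ → ℤ → ℤ) (Dw : List ℕ → ℕ) (S : Finset ι) (P : ι → ℝ) (X : ι → ℤ) (D : ι → ℕ)
    (β : ℤ × ℕ) (Δ : ℕ) : ℝ :=
  ent ((S.filter (fun i => g1 n X D i = β)) ×ˢ (W.filter (fun w => Dw w = Δ)))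
    (fun p => (P p.1 / mass S P (g1 n X D) β) * (k β.1 p.2 / kap W k Dw β.1 Δ))
    (fun p => (Tv n X Δ p.1 + Aw p.2 β.1) % 5 ^ (m + 1))

theorem li_formula (hk : KerHyp K n h W k Aw Dw) (hP : IsProb S P)
    (hX : ∀ i ∈ S, P i ≠ 0 → ¬ (5 : ℤ) ∣ X i) (m : ℕ) :
    ent (S ×ˢ W) (fun p => P p.1 * k (X p.1) p.2)
        (fun p => (Aw p.2 (X p.1) % 5 ^ (m + 1), (g1 n X D p.1, Dw p.2)))
      - ent (S ×ˢ W) (fun p => P p.1 * k (X p.1) p.2) (fun p => (g1 n X D p.1, Dw p.2)) =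
    ∑ β ∈ S.image (g1 n X D), ∑ Δ ∈ W.image Dw,
      mass S P (g1 n X D) β * kap W k Dw β.1 Δ * fibE n m W k Aw Dw S P X D β Δ := by
  have hP' := li_prob' (X := X) hk hP hX
  rw [ent_disint hP'.nonneg]
  rw [← sum_product']
  have hsub : (S ×ˢ W).image (fun p => (g1 n X D p.1, Dw p.2)) ⊆
      S.image (g1 n X D) ×ˢ W.image Dw := by
    intro γ hγ
    obtain ⟨p, hp, rfl⟩ := mem_image.1 hγ
    exact mem_product.2 ⟨mem_image_of_mem _ (mem_product.1 hp).1, mem_image_of_mem _ (mem_product.1 hp).2⟩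
  rw [sum_subset hsub (by
    intro γ _ hγ
    have : mass (S ×ˢ W) (fun p => P p.1 * k (X p.1) p.2) (fun p => (g1 n X D p.1, Dw p.2)) γ = 0 := by
      unfold mass
      apply sum_eq_zero
      intro p hp
      exact absurd (mem_image.2 ⟨p, (mem_filter.1 hp).1, (mem_filter.1 hp).2⟩) hγ
    rw [this, zero_mul])]
  apply sum_congr rfl
  rintro ⟨β, Δ⟩ _
  rw [li_mass' hk]
  by_cases h0 : mass S P (g1 n X D) β * kap W k Dw β.1 Δ = 0
  · rw [h0]; simp
  congr 1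
  apply ent_congr (li_filter Δ β)
  · intro p hp
    obtain ⟨h1, h2⟩ := mem_product.1 hp
    have h1' := (mem_filter.1 h1).2
    have h2' := (mem_filter.1 h2).1
    rw [li_k hk (X p.1) h2']
    have : X p.1 % 5 ^ (n + 1) = β.1 := by rw [← h1']; rfl
    rw [this]
    rw [div_mul_div_comm]
  · intro p hp hne
    obtain ⟨h1, h2⟩ := mem_product.1 hp
    have h1' := (mem_filter.1 h1).2
    have h2' := (mem_filter.1 h2).1
    have h3' := (mem_filter.1 h2).2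
    have hb : X p.1 % 5 ^ (n + 1) = β.1 := by rw [← h1']; rfl
    have hkne : k (X p.1) p.2 ≠ 0 := by
      rw [li_k hk (X p.1) h2', hb]
      intro hz
      apply hne
      rw [hz]; simp
    rw [li_A hk (X p.1) h2' hkne, hb, h3']
    rfl

theorem li_lower (hk : KerHyp K n h W k Aw Dw) (hP : IsProb S P)
    (hX : ∀ i ∈ S, P i ≠ 0 → ¬ (5 : ℤ) ∣ X i) (m : ℕ) :
    ent (S ×ˢ W) (fun p => P p.1 * k (X p.1) p.2)
        (fun p => (Aw p.2 (X p.1) % 5 ^ (m + 1), (g1 n X D p.1, Dw p.2)))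
      - ent (S ×ˢ W) (fun p => P p.1 * k (X p.1) p.2) (fun p => (g1 n X D p.1, Dw p.2)) ≤
    cc (S ×ˢ W) (fun p => P p.1 * k (X p.1) p.2) (fun p => Aw p.2 (X p.1))
        (fun p => D p.1 + Dw p.2) m := by
  have hP' := li_prob' (X := X) hk hP hX
  have h1 := ssa hP' (fun p => Aw p.2 (X p.1) % 5 ^ (m + 1)) (fun p => (g1 n X D p.1, Dw p.2))
    (fun p => D p.1 + Dw p.2)
  have h2 := ent_le_of_det hP'
    (fun p => (Aw p.2 (X p.1) % 5 ^ (m + 1), (g1 n X D p.1, Dw p.2), D p.1 + Dw p.2))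
    (fun p => (Aw p.2 (X p.1) % 5 ^ (m + 1), (g1 n X D p.1, Dw p.2))) (by
      intro p _ p' _ _ _ h
      simp only [Prod.mk.injEq] at h ⊢
      exact ⟨h.1, h.2.1⟩)
  have h3 := ent_le_of_det hP' (fun p => (g1 n X D p.1, Dw p.2))
    (fun p => ((g1 n X D p.1, Dw p.2), D p.1 + Dw p.2)) (by
      intro p _ p' _ _ _ h
      simp only [Prod.mk.injEq, g1] at h ⊢
      refine ⟨h, ?_⟩
      rw [h.1.2, h.2])
  unfold cc
  linarith

theorem li_cong (n j : ℕ) (hj : 1 ≤ j) (Δ : ℕ) (x y : ℤ) (hxy : x % 5 ^ (n + 1) = y % 5 ^ (n + 1)) :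
    (5 * 2 ^ Δ * (x / 5 ^ (n + 1))) % 5 ^ j = (5 * 2 ^ Δ * (y / 5 ^ (n + 1))) % 5 ^ j ↔
      x % 5 ^ (n + j) = y % 5 ^ (n + j) := by
  obtain ⟨i, rfl⟩ := Nat.exists_eq_add_of_le' hj
  have hx := Int.emod_add_mul_ediv x (5 ^ (n + 1))
  have hy := Int.emod_add_mul_ediv y (5 ^ (n + 1))
  have hd : x - y = 5 ^ (n + 1) * (x / 5 ^ (n + 1) - y / 5 ^ (n + 1)) := by
    linear_combination (-1 : ℤ) * hx + hy + hxy
  constructor
  · intro h
    have h' : 5 * 2 ^ Δ * (y / 5 ^ (n + 1)) ≡ 5 * 2 ^ Δ * (x / 5 ^ (n + 1)) [ZMOD 5 ^ (i + 1)] :=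
      h.symm
    have h2 : ((5 : ℤ) ^ (i + 1)) ∣ 5 * 2 ^ Δ * (x / 5 ^ (n + 1)) - 5 * 2 ^ Δ * (y / 5 ^ (n + 1)) :=
      h'.dvd
    have h3 : ((5 : ℤ) ^ i) ∣ (x / 5 ^ (n + 1) - y / 5 ^ (n + 1)) * 2 ^ Δ := by
      have : (5 : ℤ) * 2 ^ Δ * (x / 5 ^ (n + 1)) - 5 * 2 ^ Δ * (y / 5 ^ (n + 1)) =
        5 * ((x / 5 ^ (n + 1) - y / 5 ^ (n + 1)) * 2 ^ Δ) := by ring
      rw [this, pow_succ, mul_comm] at h2
      exact (mul_dvd_mul_iff_left (by norm_num : (5 : ℤ) ≠ 0)).1 h2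
    have h4 : ((5 : ℤ) ^ i) ∣ x / 5 ^ (n + 1) - y / 5 ^ (n + 1) := by
      apply IsCoprime.dvd_of_dvd_mul_right _ h3
      apply IsCoprime.pow
      norm_num
    have h5 : ((5 : ℤ) ^ (n + (i + 1))) ∣ x - y := by
      rw [hd]
      have : (5 : ℤ) ^ (n + (i + 1)) = 5 ^ (n + 1) * 5 ^ i := by ring
      rw [this]
      exact mul_dvd_mul_left _ h4
    exact (Int.modEq_iff_dvd.2 h5).symm
  · intro h
    have h' : y ≡ x [ZMOD 5 ^ (n + (i + 1))] := h.symm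
    have h5 : ((5 : ℤ) ^ (n + (i + 1))) ∣ x - y := h'.dvd
    rw [hd] at h5
    have : (5 : ℤ) ^ (n + (i + 1)) = 5 ^ (n + 1) * 5 ^ i := by ring
    rw [this] at h5
    have h4 := (mul_dvd_mul_iff_left (by positivity : (5 : ℤ) ^ (n + 1) ≠ 0)).1 h5
    have h2 : ((5 : ℤ) ^ (i + 1)) ∣ 5 * 2 ^ Δ * (x / 5 ^ (n + 1)) - 5 * 2 ^ Δ * (y / 5 ^ (n + 1)) := by
      have : (5 : ℤ) * 2 ^ Δ * (x / 5 ^ (n + 1)) - 5 * 2 ^ Δ * (y / 5 ^ (n + 1)) =
        5 * ((x / 5 ^ (n + 1) - y / 5 ^ (n + 1)) * 2 ^ Δ) := by ring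
      rw [this, pow_succ, mul_comm]
      exact mul_dvd_mul_left _ (Dvd.dvd.mul_right h4 _)
    exact (Int.modEq_iff_dvd.2 h2).symm

theorem li_T (hP : IsProb S P) (β : ℤ × ℕ) (h0 : mass S P (g1 n X D) β ≠ 0) (Δ m : ℕ) :
    ent (S.filter (fun i => g1 n X D i = β)) (fun i => P i / mass S P (g1 n X D) β)
      (fun i => Tv n X Δ i % 5 ^ (m + 1)) =
    ent (S.filter (fun i => g1 n X D i = β)) (fun i => P i / mass S P (g1 n X D) β)
      (fun i => X i % 5 ^ (n + m + 1)) := by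
  have hF := li_isProb_fibre hP (g1 n X D) β h0
  have key : ∀ i ∈ S.filter (fun i => g1 n X D i = β), ∀ j ∈ S.filter (fun i => g1 n X D i = β),
      (Tv n X Δ i % 5 ^ (m + 1) = Tv n X Δ j % 5 ^ (m + 1) ↔
        X i % 5 ^ (n + m + 1) = X j % 5 ^ (n + m + 1)) := by
    intro i hi j hj
    have hi' := (mem_filter.1 hi).2
    have hj' := (mem_filter.1 hj).2
    apply li_cong n (m + 1) (by omega) Δ
    have : g1 n X D i = g1 n X D j := by rw [hi', hj']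
    exact congrArg Prod.fst this
  apply le_antisymm
  · exact ent_le_of_det hF _ _ (fun i hi j hj _ _ h => (key i hi j hj).2 h)
  · exact ent_le_of_det hF _ _ (fun i hi j hj _ _ h => (key i hi j hj).1 h)

theorem li_mod_of_mod {x y : ℤ} {a b : ℕ} (hab : a ≤ b) (h : x % 5 ^ b = y % 5 ^ b) :
    x % 5 ^ a = y % 5 ^ a := by
  have hd : (5 : ℤ) ^ a ∣ 5 ^ b := pow_dvd_pow _ hab
  have h' : x ≡ y [ZMOD 5 ^ b] := h
  exact h'.of_dvd hd

theorem li_sum_T (hP : IsProb S P) (m : ℕ) :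
    ∑ β ∈ S.image (g1 n X D), mass S P (g1 n X D) β *
      ent (S.filter (fun i => g1 n X D i = β)) (fun i => P i / mass S P (g1 n X D) β)
        (fun i => X i % 5 ^ (n + m + 1)) = cc S P X D (n + m) - cc S P X D n := by
  rw [← ent_disint hP.nonneg]
  unfold cc
  have h1 : ent S P (fun i => (X i % 5 ^ (n + m + 1), g1 n X D i)) =
      ent S P (fun i => (X i % 5 ^ (n + m + 1), D i)) := by
    apply le_antisymm
    · apply ent_le_of_det hP
      intro i _ j _ _ _ h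
      simp only [Prod.mk.injEq, g1] at h ⊢
      exact ⟨h.1, li_mod_of_mod (by omega) h.1, h.2⟩
    · apply ent_le_of_det hP
      intro i _ j _ _ _ h
      simp only [Prod.mk.injEq, g1] at h ⊢
      exact ⟨h.1, h.2.2⟩
  rw [h1]
  have h2 : ent S P (g1 n X D) = ent S P (fun i => (X i % 5 ^ (n + 1), D i)) := rfl
  rw [h2]
  ring

theorem li_unit_of_mass (hX : ∀ i ∈ S, P i ≠ 0 → ¬ (5 : ℤ) ∣ X i) (β : ℤ × ℕ)
    (h0 : mass S P (g1 n X D) β ≠ 0) : ¬ (5 : ℤ) ∣ β.1 ∧ 0 ≤ β.1 ∧ β.1 < 5 ^ (n + 1) := by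
  unfold mass at h0
  obtain ⟨i, hi, hne⟩ := exists_ne_zero_of_sum_ne_zero h0
  have hi' := (mem_filter.1 hi).2
  have hb : β.1 = X i % 5 ^ (n + 1) := by rw [← hi']; rfl
  refine ⟨?_, ?_, ?_⟩
  · intro hdvd
    apply hX i (mem_filter.1 hi).1 hne
    rw [hb] at hdvd
    have : (5 : ℤ) ∣ 5 ^ (n + 1) := dvd_pow_self _ (by omega)
    have h2 := dvd_add hdvd (Dvd.dvd.mul_right this (X i / 5 ^ (n + 1)))
    rwa [Int.emod_add_mul_ediv] at h2
  · rw [hb]; exact Int.emod_nonneg _ (by positivity)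
  · rw [hb]; exact Int.emod_lt_of_pos _ (by positivity)

theorem li_kap_sum (hk : KerHyp K n h W k Aw Dw) (b : ℤ) (hb : ¬ (5 : ℤ) ∣ b) :
    ∑ Δ ∈ W.image Dw, kap W k Dw b Δ = 1 := by
  unfold kap
  rw [← hk.sum_eq b hb]
  exact sum_fiberwise_of_maps_to (fun _ hw => mem_image_of_mem _ hw) _

theorem li_kap_nonneg (hk : KerHyp K n h W k Aw Dw) (b : ℤ) (Δ : ℕ) : 0 ≤ kap W k Dw b Δ :=
  sum_nonneg (fun _ _ => hk.nonneg _ _)

theorem li_kap_prob (hk : KerHyp K n h W k Aw Dw) (b : ℤ) (Δ : ℕ) (h0 : kap W k Dw b Δ ≠ 0) :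
    IsProb (W.filter (fun w => Dw w = Δ)) (fun w => k b w / kap W k Dw b Δ) := by
  refine ⟨fun w _ => div_nonneg (hk.nonneg _ _) (li_kap_nonneg hk _ _), ?_⟩
  rw [← sum_div]
  exact div_self h0

theorem cc_sub (hk : KerHyp K n h W k Aw Dw)
    {ι : Type} {S : Finset ι} {P : ι → ℝ} (X : ι → ℤ) (D : ι → ℕ) (hP : IsProb S P)
    (hX : ∀ i ∈ S, P i ≠ 0 → ¬ (5 : ℤ) ∣ X i) (m : ℕ) :
    cc S P X D (n + m) - cc S P X D n ≤
      cc (S ×ˢ W) (fun p => P p.1 * k (X p.1) p.2) (fun p => Aw p.2 (X p.1))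
        (fun p => D p.1 + Dw p.2) m := by
  refine le_trans ?_ (li_lower hk hP hX m)
  rw [li_formula hk hP hX m, ← li_sum_T hP m]
  apply sum_le_sum
  intro β hβ
  by_cases h0 : mass S P (g1 n X D) β = 0
  · simp [h0]
  have hu := li_unit_of_mass hX β h0
  have hF := li_isProb_fibre hP (g1 n X D) β h0
  calc mass S P (g1 n X D) β *
      ent (S.filter (fun i => g1 n X D i = β)) (fun i => P i / mass S P (g1 n X D) β)
        (fun i => X i % 5 ^ (n + m + 1))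
      = ∑ Δ ∈ W.image Dw, mass S P (g1 n X D) β * kap W k Dw β.1 Δ *
          ent (S.filter (fun i => g1 n X D i = β)) (fun i => P i / mass S P (g1 n X D) β)
        (fun i => X i % 5 ^ (n + m + 1)) := by
        rw [← sum_mul, ← mul_sum, li_kap_sum hk _ hu.1, mul_one]
    _ ≤ _ := by
        apply sum_le_sum
        intro Δ _
        by_cases h1 : kap W k Dw β.1 Δ = 0
        · simp [h1]
        apply mul_le_mul_of_nonneg_left _
          (mul_nonneg (mass_nonneg hP.nonneg _ _) (li_kap_nonneg hk _ _))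
        rw [← li_T hP β h0 Δ m]
        exact ent_add_ge (Tv n X Δ) (fun w => Aw w β.1) hF (li_kap_prob hk β.1 Δ h1) (m + 1)

/-- entropy of the end point in the fibres -/
theorem li_e (hk : KerHyp K n h W k Aw Dw) (b : ℤ) (hb : ¬ (5 : ℤ) ∣ b) (hb0 : 0 ≤ b)
    (hb1 : b < 5 ^ (n + 1)) (hn : 1 ≤ K * n) :
    h * n - Real.log (K * n + 1) ≤ ∑ Δ ∈ W.image Dw, kap W k Dw b Δ *
      ent (W.filter (fun w => Dw w = Δ)) (fun w => k b w / kap W k Dw b Δ)
        (fun w => Aw w b % 5 ^ (K * n + 1)) := by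
  have hW : IsProb W (k b) := ⟨fun w _ => hk.nonneg _ _, hk.sum_eq b hb⟩
  have e0 : ∀ Δ, kap W k Dw b Δ = mass W (k b) Dw Δ := fun Δ => rfl
  simp only [e0]
  rw [← ent_disint hW.nonneg (fun w => Aw w b % 5 ^ (K * n + 1)) Dw]
  -- H(e, D) >= H(w)
  have h1 : ∑ w ∈ W, Real.negMulLog (k b w) ≤ ent W (k b) (fun w => (Aw w b % 5 ^ (K * n + 1), Dw w)) := by
    have h2 : ent W (k b) (fun w => w) = ∑ w ∈ W, Real.negMulLog (k b w) := by
      rw [ent_eq_sum W (k b) (fun w => w) W (fun w hw => hw)]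
      apply sum_congr rfl
      intro w hw
      congr 1
      unfold mass
      rw [sum_filter, sum_ite_eq' W w, if_pos hw]
    rw [← h2]
    apply ent_le_of_det hW
    intro w hw w' hw' h0 h0' heq
    simp only [Prod.mk.injEq] at heq
    obtain ⟨h3, h4⟩ := heq
    apply hk.inj b w hw w' hw' h0 h0' h4
    have hs := hk.size b hb0 hb1 w hw h0
    have hs' := hk.size b hb0 hb1 w' hw' h0'
    have hl := hk.len w hw
    have hbig : (10 : ℤ) * 2 ^ Dw w ≤ 5 ^ (K * n + 1) := by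
      calc (10 : ℤ) * 2 ^ Dw w ≤ 10 * 2 ^ (K * n) := by gcongr; norm_num
        _ ≤ 5 ^ (K * n + 1) := by
          obtain ⟨r, hr⟩ := Nat.exists_eq_add_of_le' hn
          rw [hr]
          have h5 : (2 : ℤ) ^ r ≤ 5 ^ r := by gcongr; norm_num
          have h6 : (0 : ℤ) < 5 ^ r := by positivity
          rw [pow_succ, pow_succ, pow_succ]
          linarith
    have hd : (5 : ℤ) ^ (K * n + 1) ∣ Aw w b - Aw w' b := by
      have h' : Aw w' b ≡ Aw w b [ZMOD 5 ^ (K * n + 1)] := h3.symm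
      exact h'.dvd
    rw [← h4] at hs'
    have habs : |Aw w b - Aw w' b| < 5 ^ (K * n + 1) := by
      rw [abs_lt] at hs hs' ⊢
      constructor <;> linarith [hs.1, hs.2, hs'.1, hs'.2]
    have := Int.eq_zero_of_abs_lt_dvd hd habs
    linarith
  have h3 : ent W (k b) Dw ≤ Real.log (K * n + 1) := by
    have := ent_le_log_card hW Dw (range (K * n + 1)) (fun w hw _ => by
      rw [mem_range]; have := hk.len w hw; omega)
    rw [card_range] at this
    push_cast at this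
    exact this
  have h4 := hk.ent b hb
  linarith

theorem li_mass_filter {α : Type} [DecidableEq α] (β : ℤ × ℕ) (f : ι → α) (a : α) :
    mass (S.filter (fun i => g1 n X D i = β)) (fun i => P i / mass S P (g1 n X D) β) f a =
      mass S P (fun i => (f i, g1 n X D i)) (a, β) / mass S P (g1 n X D) β := by
  unfold mass
  rw [filter_filter, ← sum_div]
  congr 1
  apply sum_congr _ (fun _ _ => rfl)
  ext i
  simp only [mem_filter, Prod.mk.injEq]
  tauto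

theorem li_mass_T (β : ℤ × ℕ) (Δ j' : ℕ) (hj : 1 ≤ j') (x : ℤ)
    (hx : x % 5 ^ (n + 1) = β.1) :
    mass (S.filter (fun i => g1 n X D i = β)) (fun i => P i / mass S P (g1 n X D) β)
      (fun i => Tv n X Δ i % 5 ^ j') ((5 * 2 ^ Δ * (x / 5 ^ (n + 1))) % 5 ^ j') =
    mass S P (fun i => (X i % 5 ^ (n + j'), D i)) (x % 5 ^ (n + j'), β.2) /
      mass S P (g1 n X D) β := by
  unfold mass
  rw [filter_filter, ← sum_div]
  congr 1
  apply sum_congr _ (fun _ _ => rfl)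
  ext i
  simp only [mem_filter, Prod.mk.injEq, and_congr_right_iff]
  intro _
  constructor
  · rintro ⟨h1, h2⟩
    have h3 : X i % 5 ^ (n + 1) = β.1 := by rw [← h1]; rfl
    have h4 : D i = β.2 := by rw [← h1]; rfl
    exact ⟨(li_cong n j' hj Δ (X i) x (by rw [h3, hx])).1 h2, h4⟩
  · rintro ⟨h1, h2⟩
    have h3 : X i % 5 ^ (n + 1) = x % 5 ^ (n + 1) := li_mod_of_mod (by omega) h1
    refine ⟨?_, (li_cong n j' hj Δ (X i) x h3).2 h1⟩
    unfold g1
    rw [h3, hx, h2]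

/-- uniform windows of `T` in the fibre give uniform windows of `X` -/
theorem li_NU_imp (hP : IsProb S P) (β : ℤ × ℕ) (h0 : mass S P (g1 n X D) β ≠ 0) (Δ j L : ℕ)
    (hj : 1 ≤ j) (i : ι) (hi : i ∈ S.filter (fun i => g1 n X D i = β))
    (hNU : NU (S.filter (fun i => g1 n X D i = β)) (fun i => P i / mass S P (g1 n X D) β)
      (Tv n X Δ) j L (Tv n X Δ i)) : NU2 S P X D (n + j) L (X i) (D i) := by
  intro u hu
  have hi' := (mem_filter.1 hi).2
  have hb : X i % 5 ^ (n + 1) = β.1 := by rw [← hi']; rfl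
  have hd : D i = β.2 := by rw [← hi']; rfl
  have hu1 : u % 5 ^ (n + 1) = β.1 := by
    rw [← hb]; exact li_mod_of_mod (by omega) hu
  have h1 := hNU (5 * 2 ^ Δ * (u / 5 ^ (n + 1)))
    ((li_cong n j hj Δ u (X i) (by rw [hu1, hb])).2 hu)
  have e1 : Tv n X Δ i % 5 ^ j = (5 * 2 ^ Δ * (X i / 5 ^ (n + 1))) % 5 ^ j := rfl
  rw [e1, li_mass_T β Δ j hj (X i) hb, li_mass_T β Δ (j + L) (by omega) u hu1] at h1
  have hpos : 0 < mass S P (g1 n X D) β :=
    lt_of_le_of_ne (mass_nonneg hP.nonneg _ _) (Ne.symm h0)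
  rw [← mul_div_assoc, div_le_div_iff_of_pos_right hpos] at h1
  rw [hd]
  rw [show n + j + L = n + (j + L) by ring]
  exact h1

open Classical in
theorem li_NUp_le (hP : IsProb S P) (β : ℤ × ℕ) (h0 : mass S P (g1 n X D) β ≠ 0) (Δ j L : ℕ)
    (hj : 1 ≤ j) :
    mass S P (g1 n X D) β *
      NUp (S.filter (fun i => g1 n X D i = β)) (fun i => P i / mass S P (g1 n X D) β)
        (Tv n X Δ) j L ≤
    ∑ i ∈ (S.filter (fun i => g1 n X D i = β)).filter
      (fun i => NU2 S P X D (n + j) L (X i) (D i)), P i := by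
  unfold NUp
  rw [← sum_div, mul_div_cancel₀ _ h0]
  apply sum_le_sum_of_subset_of_nonneg
  · intro i hi
    obtain ⟨h1, h2⟩ := mem_filter.1 hi
    exact mem_filter.2 ⟨h1, li_NU_imp hP β h0 Δ j L hj i h1 h2⟩
  · intro i hi _
    exact hP.nonneg i (mem_filter.1 (mem_filter.1 hi).1).1

end Fib

open Classical in
theorem LI (K L : ℕ) (hK : 1 ≤ K) (hL : 1 ≤ L) (h : ℝ) (hh : 0 < h) : ∃ ε₂ : ℝ, 0 < ε₂ ∧
    ∀ n : ℕ, 1 ≤ n → ∀ (W : Finset (List ℕ)) (k : ℤ → List ℕ → ℝ)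
    (Aw : List ℕ → ℤ → ℤ) (Dw : List ℕ → ℕ), KerHyp K n h W k Aw Dw →
    ∀ (ι : Type) (S : Finset ι) (P : ι → ℝ) (X : ι → ℤ) (D : ι → ℕ), IsProb S P →
    (∀ i ∈ S, P i ≠ 0 → ¬ (5 : ℤ) ∣ X i) →
    (h * n / 2 - Real.log (K * n + 1) - Real.log 5) / Real.log 5 - L
      - (L / ε₂) * (cc (S ×ˢ W) (fun p => P p.1 * k (X p.1) p.2) (fun p => Aw p.2 (X p.1))
        (fun p => D p.1 + Dw p.2) (K * n) - cc S P X D ((K + 1) * n) + cc S P X D n)
      ≤ ∑ j ∈ Icc 1 (K * n), NUp2 S P X D (n + j) L := by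
  have hKpos : (0 : ℝ) < K := by exact_mod_cast hK
  obtain ⟨ε₂, hε, hFI⟩ := FI L hL (h / (2 * K)) (by positivity)
  refine ⟨ε₂, hε, ?_⟩
  intro n hn W k Aw Dw hk ι S P X D hP hX
  have hlog5 : 0 < Real.log 5 := Real.log_pos (by norm_num)
  have hKn : 1 ≤ K * n := Nat.mul_pos hK hn
  -- weights
  set ω : ℤ × ℕ → ℕ → ℝ := fun β Δ => mass S P (g1 n X D) β * kap W k Dw β.1 Δ with hω
  set I := S.image (g1 n X D) with hI
  set J := W.image Dw with hJ
  set eE : ℤ × ℕ → ℕ → ℝ := fun β Δ =>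
    ent (W.filter (fun w => Dw w = Δ)) (fun w => k β.1 w / kap W k Dw β.1 Δ)
        (fun w => Aw w β.1 % 5 ^ (K * n + 1)) with heE
  set eT : ℤ × ℕ → ℝ := fun β =>
    ent (S.filter (fun i => g1 n X D i = β)) (fun i => P i / mass S P (g1 n X D) β)
        (fun i => X i % 5 ^ (n + K * n + 1)) with heT
  set fE : ℤ × ℕ → ℕ → ℝ := fun β Δ => fibE n (K * n) W k Aw Dw S P X D β Δ with hfE
  set Nu : ℤ × ℕ → ℕ → ℕ → ℝ := fun β Δ j =>
    NUp (S.filter (fun i => g1 n X D i = β)) (fun i => P i / mass S P (g1 n X D) β)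
        (Tv n X Δ) j L with hNu
  have hω0 : ∀ β Δ, 0 ≤ ω β Δ := fun β Δ =>
    mul_nonneg (mass_nonneg hP.nonneg _ _) (li_kap_nonneg hk _ _)
  have hsumω : ∑ β ∈ I, ∑ Δ ∈ J, ω β Δ = 1 := by
    rw [← li_sum_mass_image hP (g1 n X D)]
    apply sum_congr rfl
    intro β _
    by_cases h0 : mass S P (g1 n X D) β = 0
    · simp [hω, h0]
    · simp only [hω]
      rw [← mul_sum, li_kap_sum hk _ (li_unit_of_mass hX β h0).1, mul_one]
  -- fibre inequality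
  have hfib : ∀ β ∈ I, ∀ Δ ∈ J, ω β Δ * ((eE β Δ - Real.log 5 - h / (2 * K) * (K * n : ℕ)) / Real.log 5 - L
      - (L / ε₂) * (fE β Δ - eT β)) ≤ ω β Δ * ∑ j ∈ Icc 1 (K * n), Nu β Δ j := by
    intro β _ Δ _
    by_cases h0 : mass S P (g1 n X D) β = 0
    · simp [hω, h0]
    by_cases h1 : kap W k Dw β.1 Δ = 0
    · simp [hω, h1]
    apply mul_le_mul_of_nonneg_left _ (hω0 β Δ)
    have := hFI ι (List ℕ) (S.filter (fun i => g1 n X D i = β))
      (fun i => P i / mass S P (g1 n X D) β) (Tv n X Δ)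
      (W.filter (fun w => Dw w = Δ)) (fun w => k β.1 w / kap W k Dw β.1 Δ) (fun w => Aw w β.1)
      (li_isProb_fibre hP _ β h0) (li_kap_prob hk β.1 Δ h1) (K * n)
    rw [li_T hP β h0 Δ (K * n)] at this
    exact this
  have hsum := sum_le_sum (fun β hβ => sum_le_sum (hfib β hβ))
  -- upper bound of the right hand side
  have hR : ∑ β ∈ I, ∑ Δ ∈ J, ω β Δ * ∑ j ∈ Icc 1 (K * n), Nu β Δ j ≤
      ∑ j ∈ Icc 1 (K * n), NUp2 S P X D (n + j) L := by
    have e1 : ∑ β ∈ I, ∑ Δ ∈ J, ω β Δ * ∑ j ∈ Icc 1 (K * n), Nu β Δ j =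
        ∑ j ∈ Icc 1 (K * n), ∑ β ∈ I, ∑ Δ ∈ J, ω β Δ * Nu β Δ j := by
      simp only [mul_sum]
      rw [sum_congr rfl (fun β _ => sum_comm)]
      exact sum_comm
    rw [e1]
    apply sum_le_sum
    intro j hj
    have hj1 : 1 ≤ j := (mem_Icc.1 hj).1
    have e2 : NUp2 S P X D (n + j) L = ∑ β ∈ I,
        ∑ i ∈ (S.filter (fun i => g1 n X D i = β)).filter
          (fun i => NU2 S P X D (n + j) L (X i) (D i)), P i := by
      unfold NUp2
      rw [← sum_fiberwise_of_maps_to (s := S.filter (fun i => NU2 S P X D (n + j) L (X i) (D i)))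
        (t := I) (g := g1 n X D) (fun i hi => mem_image_of_mem _ (mem_filter.1 hi).1)]
      apply sum_congr rfl
      intro β _
      apply sum_congr _ (fun _ _ => rfl)
      ext i
      simp only [mem_filter]
      tauto
    rw [e2]
    apply sum_le_sum
    intro β _
    by_cases h0 : mass S P (g1 n X D) β = 0
    · simp only [hω, h0, zero_mul, sum_const_zero]
      exact sum_nonneg (fun i hi => hP.nonneg i (mem_filter.1 (mem_filter.1 hi).1).1)
    have hu := (li_unit_of_mass hX β h0).1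
    calc ∑ Δ ∈ J, ω β Δ * Nu β Δ j
        ≤ ∑ Δ ∈ J, kap W k Dw β.1 Δ * ∑ i ∈ (S.filter (fun i => g1 n X D i = β)).filter
          (fun i => NU2 S P X D (n + j) L (X i) (D i)), P i := by
          apply sum_le_sum
          intro Δ _
          have := li_NUp_le hP β h0 Δ j L hj1
          calc ω β Δ * Nu β Δ j = kap W k Dw β.1 Δ * (mass S P (g1 n X D) β * Nu β Δ j) := by
                simp only [hω]; ring
            _ ≤ _ := mul_le_mul_of_nonneg_left this (li_kap_nonneg hk _ _)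
      _ = _ := by rw [← sum_mul, li_kap_sum hk _ hu, one_mul]
  -- lower bound of the left hand side
  have hE : h * n - Real.log (K * n + 1) ≤ ∑ β ∈ I, ∑ Δ ∈ J, ω β Δ * eE β Δ := by
    calc h * n - Real.log (K * n + 1)
        = ∑ β ∈ I, mass S P (g1 n X D) β * (h * n - Real.log (K * n + 1)) := by
          rw [← sum_mul, li_sum_mass_image hP, one_mul]
      _ ≤ _ := by
        apply sum_le_sum
        intro β _
        by_cases h0 : mass S P (g1 n X D) β = 0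
        · simp [hω, h0]
        have hu := li_unit_of_mass hX β h0
        have := li_e hk β.1 hu.1 hu.2.1 hu.2.2 hKn
        calc mass S P (g1 n X D) β * (h * n - Real.log (K * n + 1))
            ≤ mass S P (g1 n X D) β * ∑ Δ ∈ J, kap W k Dw β.1 Δ * eE β Δ :=
              mul_le_mul_of_nonneg_left this (mass_nonneg hP.nonneg _ _)
          _ = _ := by rw [mul_sum]; apply sum_congr rfl; intro Δ _; simp only [hω]; ring
  have hF : ∑ β ∈ I, ∑ Δ ∈ J, ω β Δ * fE β Δ ≤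
      cc (S ×ˢ W) (fun p => P p.1 * k (X p.1) p.2) (fun p => Aw p.2 (X p.1))
        (fun p => D p.1 + Dw p.2) (K * n) := by
    have h1 := li_lower (X := X) (D := D) hk hP hX (K * n)
    rw [li_formula hk hP hX (K * n)] at h1
    exact h1
  have hT : ∑ β ∈ I, ∑ Δ ∈ J, ω β Δ * eT β = cc S P X D ((K + 1) * n) - cc S P X D n := by
    have h1 := li_sum_T (X := X) (D := D) (n := n) hP (K * n)
    rw [show (K + 1) * n = n + K * n by ring, ← h1]
    apply sum_congr rfl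
    intro β _
    by_cases h0 : mass S P (g1 n X D) β = 0
    · simp [hω, h0]
    rw [← sum_mul]
    simp only [hω]
    rw [← mul_sum, li_kap_sum hk _ (li_unit_of_mass hX β h0).1, mul_one]
  have hL' : ∑ β ∈ I, ∑ Δ ∈ J, ω β Δ * ((eE β Δ - Real.log 5 - h / (2 * K) * (K * n : ℕ)) / Real.log 5 - L
      - (L / ε₂) * (fE β Δ - eT β)) =
      (∑ β ∈ I, ∑ Δ ∈ J, ω β Δ * eE β Δ - Real.log 5 - h / (2 * K) * (K * n : ℕ)) / Real.log 5 - L
        - (L / ε₂) * (∑ β ∈ I, ∑ Δ ∈ J, ω β Δ * fE β Δ - ∑ β ∈ I, ∑ Δ ∈ J, ω β Δ * eT β) := by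
    have e : ∀ β Δ, ω β Δ * ((eE β Δ - Real.log 5 - h / (2 * K) * (K * n : ℕ)) / Real.log 5 - L
      - (L / ε₂) * (fE β Δ - eT β)) = (1 / Real.log 5) * (ω β Δ * eE β Δ)
        - ((Real.log 5 + h / (2 * K) * (K * n : ℕ)) / Real.log 5 + L) * ω β Δ
        - (L / ε₂) * (ω β Δ * fE β Δ) + (L / ε₂) * (ω β Δ * eT β) := by
      intro β Δ; ring
    simp only [e]
    simp only [sum_add_distrib, sum_sub_distrib, ← mul_sum]
    rw [hsumω]
    ring
  have hετ : 0 ≤ (L : ℝ) / ε₂ := by positivity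
  have hfin : (∑ β ∈ I, ∑ Δ ∈ J, ω β Δ * eE β Δ - Real.log 5 - h / (2 * K) * (K * n : ℕ)) / Real.log 5 - L
        - (L / ε₂) * (∑ β ∈ I, ∑ Δ ∈ J, ω β Δ * fE β Δ - ∑ β ∈ I, ∑ Δ ∈ J, ω β Δ * eT β) ≥
      (h * n / 2 - Real.log (K * n + 1) - Real.log 5) / Real.log 5 - L
      - (L / ε₂) * (cc (S ×ˢ W) (fun p => P p.1 * k (X p.1) p.2) (fun p => Aw p.2 (X p.1))
        (fun p => D p.1 + Dw p.2) (K * n) - cc S P X D ((K + 1) * n) + cc S P X D n) := by
    rw [hT]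
    have e3 : h / (2 * K) * (K * n : ℕ) = h * n / 2 := by
      push_cast; field_simp
    rw [e3]
    have h1 : (h * n / 2 - Real.log (K * n + 1) - Real.log 5) / Real.log 5 ≤
      (∑ β ∈ I, ∑ Δ ∈ J, ω β Δ * eE β Δ - Real.log 5 - h * n / 2) / Real.log 5 := by
      apply div_le_div_of_nonneg_right _ hlog5.le
      linarith
    have h2 := mul_le_mul_of_nonneg_left hF hετ
    nlinarith [h1, h2]
  linarith [hL', hsum, hR, hfin]



end Pool.Agent.Lib_helper56.Low
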