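import Pool.Agent.LowAsm.EM

set_option autoImplicit false

namespace Pool.Agent.Lib_helper56.Low

open Finset


private theorem LS_mono {K : ℕ} {κ κ' : ℝ} (h : κ ≤ κ') (hL : LowR K κ) : LowR K κ' := by
  intro ε hε
  obtain ⟨n₀, hn⟩ := hL ε hε
  refine ⟨n₀, fun n hn' x hx => le_trans (Real.exp_le_exp.2 ?_) (hn n hn' x hx)⟩
  have : (0 : ℝ) ≤ n := Nat.cast_nonneg n
  nlinarith

private theorem LS_closed {K : ℕ} {κ : ℝ} (h : ∀ κ', κ < κ' → LowR K κ') : LowR K κ := by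
  intro ε hε
  obtain ⟨n₀, hn⟩ := h (κ + ε / 2) (by linarith) (ε / 2) (by linarith)
  refine ⟨n₀, fun n hn' x hx => ?_⟩
  have := hn n hn' x hx
  have e : κ + ε / 2 + ε / 2 = κ + ε := by ring
  rwa [e] at this

private theorem LS_q {K : ℕ} (hK : 8 ≤ K) : 0 < 1 - (5 / 6 : ℝ) ^ K := by
  have : (5 / 6 : ℝ) ^ K < 1 := pow_lt_one₀ (by norm_num) (by norm_num) (by omega)
  linarith

private theorem LS_bdd {K : ℕ} (hK : 8 ≤ K) {κ' : ℝ} (hL : LowR K κ') :
    - Real.log (1 - (5 / 6 : ℝ) ^ K) ≤ κ' := by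
  by_contra hcon
  push Not at hcon
  set Q : ℝ := 1 - (5 / 6 : ℝ) ^ K with hQ
  have hQ0 : 0 < Q := LS_q hK
  obtain ⟨n₀, hn⟩ := hL ((- Real.log Q - κ') / 2) (by linarith)
  set n : ℕ := n₀ + 1 with hndef
  have h1 := hh_avg (K := K) 0 n 1
  rw [hh_zero hK (by norm_num : ¬ (5 : ℤ) ∣ 1), mul_one] at h1
  have h2 : ∑ _y ∈ range (5 ^ n), Real.exp (-(κ' + (- Real.log Q - κ') / 2) * n) ≤
      ∑ y ∈ range (5 ^ n), hh K (0 + n) (1 + 5 ^ (0 + 1) * (y : ℤ)) := by
    refine Finset.sum_le_sum fun y _ => ?_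
    rw [zero_add]
    exact hn n (by omega) _ (by omega)
  rw [h1, Finset.sum_const, card_range, nsmul_eq_mul] at h2
  push_cast at h2
  have h3 : Real.exp (-(κ' + (- Real.log Q - κ') / 2) * n) ≤ Q ^ n :=
    le_of_mul_le_mul_left h2 (by positivity)
  have h4 : Q ^ n = Real.exp (n * Real.log Q) := by
    rw [mul_comm, Real.exp_mul, Real.exp_log hQ0, Real.rpow_natCast]
  rw [h4, Real.exp_le_exp] at h3
  have hnpos : (0 : ℝ) < n := by positivity
  have h5 : 0 < n * (- Real.log Q - κ') := mul_pos hnpos (by linarith)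
  nlinarith

private theorem LS_DD_per (K n : ℕ) : Function.Periodic (DD K n) 5 := by
  intro c
  unfold DD
  congr 1
  have h1 : ∀ y ∈ range (5 ^ n), - Real.log (hh K n (c + 5 + 5 * (y : ℤ))) =
      (fun y : ℕ => - Real.log (hh K n (c + 5 * (y : ℤ)))) (y + 1) := by
    intro y _
    simp only
    congr 3
    push_cast
    ring
  rw [Finset.sum_congr rfl h1]
  have h2 := Finset.sum_range_succ' (fun y : ℕ => - Real.log (hh K n (c + 5 * (y : ℤ)))) (5 ^ n)
  have h3 := Finset.sum_range_succ (fun y : ℕ => - Real.log (hh K n (c + 5 * (y : ℤ)))) (5 ^ n)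
  have h4 : (fun y : ℕ => - Real.log (hh K n (c + 5 * (y : ℤ)))) (5 ^ n) =
      (fun y : ℕ => - Real.log (hh K n (c + 5 * (y : ℤ)))) 0 := by
    simp only
    have := hh_shift K n c 1
    have e : c + 5 * ((5 ^ n : ℕ) : ℤ) = c + 5 ^ (n + 1) * 1 := by push_cast; ring
    rw [e, this]
    simp
  simp only at h4 h2 h3 ⊢
  rw [h4] at h3
  rw [h3] at h2
  push_cast at h2 ⊢
  linarith

/-- sharp lower bound for finite alphabets -/
theorem low_sharp {K : ℕ} (hK : 20 ≤ K) : LowR K (- Real.log (1 - (5 / 6 : ℝ) ^ K)) := by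
  have hK8 : 8 ≤ K := by omega
  set T : Set ℝ := {k' | LowR K k'} with hT
  have hne : T.Nonempty := ⟨_, low20 hK⟩
  have hbdd : BddBelow T := ⟨_, fun k hk => LS_bdd hK8 hk⟩
  set κ : ℝ := sInf T with hκdef
  have hlog65 : 0 < Real.log (6 / 5) := Real.log_pos (by norm_num)
  have hκle : κ ≤ Real.log (6 / 5) / 2 := csInf_le hbdd (low20 hK)
  have hκlt : κ < Real.log (6 / 5) := by linarith
  have hLow : LowR K κ := by
    apply LS_closed
    intro κ' hκ'
    obtain ⟨k, hk, hk'⟩ := exists_lt_of_csInf_lt hne hκ'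
    exact LS_mono hk'.le hk
  by_cases hcase : κ ≤ - Real.log (1 - (5 / 6 : ℝ) ^ K)
  · exact LS_mono hcase hLow
  exfalso
  obtain ⟨h, hh0, l₀, hl₀⟩ := ker_ent hK8 κ hLow hκlt
  have hno : ¬ ∃ n₁ : ℕ, ∀ n, n₁ ≤ n → ∃ c : ℤ, ¬ (5 : ℤ) ∣ c ∧ κ * n ≤ DD K n c :=
    fun hD => hcase (EM hK κ hLow hκlt hD)
  push Not at hno
  obtain ⟨n, hn, hnc⟩ := hno (l₀ + 1)
  have hn1 : 1 ≤ n := by omega
  set D : ℝ := max (max (DD K n 1) (DD K n 2)) (max (DD K n 3) (DD K n 4)) with hDdef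
  have hDlt : D < κ * n := by
    rw [hDdef]
    exact max_lt (max_lt (hnc 1 (by norm_num)) (hnc 2 (by norm_num)))
      (max_lt (hnc 3 (by norm_num)) (hnc 4 (by norm_num)))
  have hDD : ∀ c : ℤ, ¬ (5 : ℤ) ∣ c → DD K n c ≤ D := by
    intro c hc
    have h1 : DD K n (c % 5) = DD K n c := by
      have h0 := (LS_DD_per K n).int_mul (c / 5) (c % 5)
      have e : c % 5 + (c / 5) * 5 = c := by omega
      simp only [Int.cast_id] at h0
      rw [e] at h0
      exact h0.symm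
    rw [← h1]
    have h2 : c % 5 = 1 ∨ c % 5 = 2 ∨ c % 5 = 3 ∨ c % 5 = 4 := by omega
    rcases h2 with h2 | h2 | h2 | h2 <;> rw [h2, hDdef]
    · exact le_max_of_le_left (le_max_left _ _)
    · exact le_max_of_le_left (le_max_right _ _)
    · exact le_max_of_le_right (le_max_left _ _)
    · exact le_max_of_le_right (le_max_right _ _)
  have hfin := DM hK8 hn1 hh0 (fun x hx => hl₀ n (by omega) x hx) D hDD
  have h3 : κ ≤ D / n := csInf_le hbdd hfin
  have hnpos : (0 : ℝ) < n := by exact_mod_cast hn1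
  rw [le_div_iff₀ hnpos] at h3
  linarith


end Pool.Agent.Lib_helper56.Low
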