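import Pool.Agent.LowAsm.LC

set_option autoImplicit false

namespace Pool.Agent.Lib_helper56.Low

open Finset


private theorem NG_sum_split (p m : ℕ) (f : ℕ → ℝ) :
    ∑ z ∈ range (p * m), f z = ∑ z₂ ∈ range m, ∑ z₁ ∈ range p, f (z₁ + p * z₂) := by
  induction m with
  | zero => simp
  | succ m ih =>
    rw [Nat.mul_succ, Finset.sum_range_add, ih, Finset.sum_range_succ]
    congr 1
    exact Finset.sum_congr rfl fun z _ => by rw [add_comm]

private theorem NG_per_mod {M : ℤ} (f : ℤ → ℝ) (hf : ∀ x y, f (x + M * y) = f x) (x : ℤ) :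
    f (x % M) = f x := by
  have := hf (x % M) (x / M)
  rw [Int.emod_add_mul_ediv] at this
  exact this.symm

private theorem NG_per_dvd {M : ℤ} (f : ℤ → ℝ) (hf : ∀ x y, f (x + M * y) = f x) {x y : ℤ}
    (h : M ∣ y - x) : f y = f x := by
  obtain ⟨k, hk⟩ := h
  have : y = x + M * k := by linarith
  rw [this, hf]

private theorem NG_sum_mul (M k : ℕ) (hk : Nat.Coprime k M) (f : ℤ → ℝ)
    (hf : ∀ x y, f (x + (M : ℤ) * y) = f x) :
    ∑ z ∈ range M, f ((k : ℤ) * (z : ℤ)) = ∑ z ∈ range M, f (z : ℤ) := by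
  rcases Nat.eq_zero_or_pos M with rfl | hM
  · simp
  have hinj : Set.InjOn (fun z => (k * z) % M) (range M : Finset ℕ) := by
    intro a ha b hb hab
    simp only [coe_range, Set.mem_Iio] at ha hb
    have h1 : k * a ≡ k * b [MOD M] := hab
    have h2 : a ≡ b [MOD M] := Nat.ModEq.cancel_left_of_coprime (by
      rw [Nat.gcd_comm]; exact hk) h1
    have := h2
    unfold Nat.ModEq at this
    rwa [Nat.mod_eq_of_lt ha, Nat.mod_eq_of_lt hb] at this
  have himg : (range M).image (fun z => (k * z) % M) = range M := by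
    apply Finset.eq_of_subset_of_card_le
    · intro z hz
      obtain ⟨a, _, rfl⟩ := Finset.mem_image.1 hz
      exact Finset.mem_range.2 (Nat.mod_lt _ hM)
    · rw [Finset.card_image_of_injOn hinj]
  conv_rhs => rw [← himg]
  rw [Finset.sum_image hinj]
  refine Finset.sum_congr rfl fun z _ => ?_
  have := NG_per_mod f hf ((k : ℤ) * (z : ℤ))
  rw [← this]
  congr 1

/-- the continuation function depends only on `y` mod `5^(lu+g+1)` -/
private theorem NG_per (K l u g : ℕ) (F : ℤ → ℝ)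
    (hF : ∀ x y, F (x + 5 ^ (g + 1) * y) = F x) (y z : ℤ) (hy : ¬ (5 : ℤ) ∣ y) :
    EE K l u (y + 5 ^ (l * u + g + 1) * z) F = EE K l u y F := by
  unfold EE
  refine Finset.sum_congr rfl fun w hw => ?_
  have hlen := (mem_words.1 hw).1
  have e1 : y + 5 ^ (l * u + g + 1) * z = y + 5 ^ (l * u + 1) * (5 ^ g * z) := by ring
  rw [e1, q_shift K l u y _ hlen]
  by_cases h0 : q K l u y w = 0
  · rw [h0, zero_mul, zero_mul]
  · have hadm := (q_adm hy hlen h0).1
    have h2 := A_shift' w y (5 ^ g * z) hadm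
    rw [hlen] at h2
    rw [h2]
    have h3 : A w y + 5 * 2 ^ w.sum * (5 ^ g * z) = A w y + 5 ^ (g + 1) * (2 ^ w.sum * z) := by ring
    rw [h3, hF]

private theorem NG_avg1 {K : ℕ} (hK : 8 ≤ K) (l u g : ℕ) (F : ℤ → ℝ)
    (hF : ∀ x y, F (x + 5 ^ (g + 1) * y) = F x) (ρ : ℝ)
    (hρ : ∀ c : ℤ, ¬ (5 : ℤ) ∣ c → ρ * 5 ^ g ≤ ∑ y ∈ range (5 ^ g), F (c + 5 * (y : ℤ)))
    (y : ℤ) (hy : ¬ (5 : ℤ) ∣ y) :
    ρ * 5 ^ g ≤ ∑ z ∈ range (5 ^ g), EE K l u (y + 5 ^ (l * u + 1) * (z : ℤ)) F := by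
  unfold EE
  rw [Finset.sum_comm]
  have h1 : ∀ w ∈ words K (l * u), q K l u y w * (ρ * 5 ^ g) ≤
      ∑ z ∈ range (5 ^ g), q K l u (y + 5 ^ (l * u + 1) * (z : ℤ)) w *
        F (A w (y + 5 ^ (l * u + 1) * (z : ℤ))) := by
    intro w hw
    have hlen := (mem_words.1 hw).1
    by_cases h0 : q K l u y w = 0
    · rw [h0, zero_mul]
      apply le_of_eq
      symm
      apply Finset.sum_eq_zero
      intro z _
      rw [q_shift K l u y _ hlen, h0, zero_mul]
    · have hadm := q_adm hy hlen h0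
      have h2 : ∀ z ∈ range (5 ^ g), q K l u (y + 5 ^ (l * u + 1) * (z : ℤ)) w *
          F (A w (y + 5 ^ (l * u + 1) * (z : ℤ))) =
          q K l u y w * F (A w y + 5 * (((2 ^ w.sum : ℕ) : ℤ) * (z : ℤ))) := by
        intro z _
        have h2 := A_shift' w y (z : ℤ) hadm.1
        rw [hlen] at h2
        rw [q_shift K l u y _ hlen, h2]
        congr 2
        push_cast
        ring
      rw [Finset.sum_congr rfl h2, ← Finset.mul_sum]
      refine mul_le_mul_of_nonneg_left ?_ (q_nonneg hK l u y w)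
      have h3 := NG_sum_mul (5 ^ g) (2 ^ w.sum) (Nat.Coprime.pow _ _ (by norm_num))
        (fun t => F (A w y + 5 * t)) (by
          intro a b
          have : A w y + 5 * (a + ((5 ^ g : ℕ) : ℤ) * b) = (A w y + 5 * a) + 5 ^ (g + 1) * b := by
            push_cast; ring
          rw [this, hF])
      rw [h3]
      exact hρ _ hadm.2
  refine le_trans ?_ (Finset.sum_le_sum h1)
  rw [← Finset.sum_mul, q_sum hK l u hy, one_mul]

private theorem NG_unit {j : ℕ} (hj : 1 ≤ j) {y : ℤ} (hy : ¬ (5 : ℤ) ∣ y) (z : ℤ) :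
    ¬ (5 : ℤ) ∣ y + 5 ^ j * z := by
  intro h
  apply hy
  have h5 : (5 : ℤ) ∣ 5 ^ j * z := Dvd.dvd.mul_right (dvd_pow_self 5 (by omega)) z
  exact (Int.dvd_add_left h5).1 h

private theorem NG_avg {K : ℕ} (hK : 8 ≤ K) (l u g : ℕ) (F : ℤ → ℝ)
    (hF : ∀ x y, F (x + 5 ^ (g + 1) * y) = F x) (ρ : ℝ)
    (hρ : ∀ c : ℤ, ¬ (5 : ℤ) ∣ c → ρ * 5 ^ g ≤ ∑ y ∈ range (5 ^ g), F (c + 5 * (y : ℤ)))
    (j L : ℕ) (hj : 1 ≤ j) (hj1 : j ≤ l * u + 1) (hj2 : l * u + g + 1 ≤ j + L)
    (y : ℤ) (hy : ¬ (5 : ℤ) ∣ y) :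
    ρ * 5 ^ L ≤ ∑ z ∈ range (5 ^ L), EE K l u (y + 5 ^ j * (z : ℤ)) F := by
  obtain ⟨a, ha⟩ : ∃ a, l * u + 1 = j + a := ⟨l * u + 1 - j, by omega⟩
  obtain ⟨b, hb⟩ : ∃ b, j + L = l * u + g + 1 + b := ⟨j + L - (l * u + g + 1), by omega⟩
  have hL : L = a + (g + b) := by omega
  have e : 5 ^ L = 5 ^ a * (5 ^ g * 5 ^ b) := by rw [hL, pow_add, pow_add]
  rw [e, NG_sum_split, NG_sum_split]
  have h1 : ∀ z₃ ∈ range (5 ^ b), ρ * 5 ^ g * 5 ^ a ≤ ∑ z₂ ∈ range (5 ^ g), ∑ z₁ ∈ range (5 ^ a),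
      EE K l u (y + 5 ^ j * ((z₁ + 5 ^ a * (z₂ + 5 ^ g * z₃) : ℕ) : ℤ)) F := by
    intro z₃ _
    rw [Finset.sum_comm]
    have h2 : ∀ z₁ ∈ range (5 ^ a), ρ * 5 ^ g ≤ ∑ z₂ ∈ range (5 ^ g),
        EE K l u (y + 5 ^ j * ((z₁ + 5 ^ a * (z₂ + 5 ^ g * z₃) : ℕ) : ℤ)) F := by
      intro z₁ _
      have hu1 : ¬ (5 : ℤ) ∣ y + 5 ^ j * (z₁ : ℤ) := NG_unit hj hy _
      refine le_trans (NG_avg1 hK l u g F hF ρ hρ (y + 5 ^ j * (z₁ : ℤ)) hu1) ?_
      apply le_of_eq
      refine Finset.sum_congr rfl fun z₂ _ => ?_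
      have hu2 : ¬ (5 : ℤ) ∣ (y + 5 ^ j * (z₁ : ℤ)) + 5 ^ (l * u + 1) * (z₂ : ℤ) :=
        NG_unit (by omega) hu1 _
      rw [← NG_per K l u g F hF _ (z₃ : ℤ) hu2]
      congr 1
      have e1 : (5 : ℤ) ^ (l * u + 1) = 5 ^ j * 5 ^ a := by rw [ha, pow_add]
      have e2 : (5 : ℤ) ^ (l * u + g + 1) = 5 ^ j * 5 ^ a * 5 ^ g := by
        rw [← e1, ← pow_add]; congr 1; ring
      rw [e1, e2]
      push_cast
      ring
    calc ρ * 5 ^ g * 5 ^ a = ∑ _z₁ ∈ range (5 ^ a), ρ * 5 ^ g := by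
          rw [Finset.sum_const, card_range, nsmul_eq_mul]; push_cast; ring
      _ ≤ _ := Finset.sum_le_sum h2
  have h4 : ρ * ((5 ^ a * (5 ^ g * 5 ^ b) : ℝ)) = ∑ _z₃ ∈ range (5 ^ b), ρ * 5 ^ g * 5 ^ a := by
    rw [Finset.sum_const, card_range, nsmul_eq_mul]; push_cast; ring
  have h5 : (5 : ℝ) ^ L = 5 ^ a * (5 ^ g * 5 ^ b) := by rw [hL, pow_add, pow_add]
  rw [h5, h4]
  exact Finset.sum_le_sum h1

/-- gain from uniform windows -/
theorem nu_gain {K : ℕ} (hK : 8 ≤ K) {l : ℕ} (hl : 1 ≤ l) (F : ℤ → ℝ) (g : ℕ)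
    (hF : ∀ x y, F (x + 5 ^ (g + 1) * y) = F x) (σ ρ : ℝ) (hσρ : σ ≤ ρ)
    (hσ : ∀ y, ¬ (5 : ℤ) ∣ y → σ ≤ F y)
    (hρ : ∀ c : ℤ, ¬ (5 : ℤ) ∣ c → ρ * 5 ^ g ≤ ∑ y ∈ range (5 ^ g), F (c + 5 * (y : ℤ)))
    {x : ℤ} (hx : ¬ (5 : ℤ) ∣ x) (s u j L : ℕ) (hj : 1 ≤ j) (hj1 : j ≤ l * u + 1)
    (hj2 : l * u + g + 1 ≤ j + L) :
    σ + 1 / 2 * nu K l x s j L * (ρ - σ) ≤ EE K l (s + u) x F := by
  classical
  set W := words K (l * s) with hW
  set P := q K l s x with hPdef
  set X : List ℕ → ℤ := fun w => A w x with hX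
  set D : List ℕ → ℕ := fun w => w.sum with hD
  set G : ℤ → ℝ := fun y => EE K l u y F with hG
  have hP := q_isProb hK l s hx
  have hPn : ∀ w, 0 ≤ P w := q_nonneg hK l s x
  have hunit : ∀ w ∈ W, P w ≠ 0 → ¬ (5 : ℤ) ∣ X w := fun w hw h =>
    (q_adm hx (mem_words.1 hw).1 h).2
  have hGσ : ∀ y, ¬ (5 : ℤ) ∣ y → σ ≤ G y := fun y hy => EE_ge hK l u hy F σ hσ
  -- termwise nonnegativity
  have hterm : ∀ w ∈ W, 0 ≤ P w * (G (X w) - σ) := by
    intro w hw
    by_cases h0 : P w = 0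
    · rw [h0, zero_mul]
    · exact mul_nonneg (hPn w) (sub_nonneg.2 (hGσ _ (hunit w hw h0)))
  have hmain : ∑ w ∈ W.filter (fun w => NU2 W P X D j L (X w) (D w)), P w * (1 / 2 * (ρ - σ)) ≤
      ∑ w ∈ W, P w * (G (X w) - σ) := by
    have hmaps : ∀ w ∈ W, (X w % 5 ^ j, D w) ∈ W.image (fun w => (X w % 5 ^ j, D w)) :=
      fun w hw => Finset.mem_image_of_mem _ hw
    rw [Finset.sum_filter, ← Finset.sum_fiberwise_of_maps_to hmaps,
      ← Finset.sum_fiberwise_of_maps_to hmaps]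
    refine Finset.sum_le_sum fun t ht => ?_
    obtain ⟨w₀, hw₀, rfl⟩ := Finset.mem_image.1 ht
    -- `NU2` is constant on the fibre
    have hconst : ∀ w ∈ W.filter (fun w => (X w % 5 ^ j, D w) = (X w₀ % 5 ^ j, D w₀)),
        (NU2 W P X D j L (X w) (D w) ↔ NU2 W P X D j L (X w₀) (D w₀)) := by
      intro w hw
      have h1 := (Finset.mem_filter.1 hw).2
      have h2 : X w % 5 ^ j = X w₀ % 5 ^ j := congrArg Prod.fst h1
      have h3 : D w = D w₀ := congrArg Prod.snd h1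
      unfold NU2
      rw [h2, h3]
    by_cases hNU : NU2 W P X D j L (X w₀) (D w₀)
    · have hL1 : ∑ w ∈ W.filter (fun w => (X w % 5 ^ j, D w) = (X w₀ % 5 ^ j, D w₀)),
          (if NU2 W P X D j L (X w) (D w) then P w * (1 / 2 * (ρ - σ)) else 0) =
          mass W P (fun w => (X w % 5 ^ j, D w)) (X w₀ % 5 ^ j, D w₀) * (1 / 2 * (ρ - σ)) := by
        unfold mass
        rw [Finset.sum_mul]
        refine Finset.sum_congr rfl fun w hw => ?_
        rw [if_pos ((hconst w hw).2 hNU)]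
      rw [hL1]
      by_cases hex : ∃ w ∈ W.filter (fun w => (X w % 5 ^ j, D w) = (X w₀ % 5 ^ j, D w₀)), P w ≠ 0
      · obtain ⟨w₁, hw₁, hP1⟩ := hex
        have hw₁' := Finset.mem_filter.1 hw₁
        have hr : X w₁ % 5 ^ j = X w₀ % 5 ^ j := congrArg Prod.fst hw₁'.2
        have hu1 := hunit w₁ hw₁'.1 hP1
        have hu0 : ¬ (5 : ℤ) ∣ X w₀ := by
          intro h
          apply hu1
          have h5 : (5 : ℤ) ∣ X w₁ - X w₀ :=
            (dvd_pow_self (5 : ℤ) (by omega : j ≠ 0)).trans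
              (Int.ModEq.dvd (show X w₀ ≡ X w₁ [ZMOD 5 ^ j] from hr.symm))
          have := dvd_add h5 h
          simpa using this
        -- the subclasses
        have hsub : ∑ z ∈ range (5 ^ L), ∑ w ∈ W.filter (fun w =>
            (X w % 5 ^ (j + L), D w) = ((X w₀ + 5 ^ j * (z : ℤ)) % 5 ^ (j + L), D w₀)),
              P w * (G (X w) - σ) ≤
            ∑ w ∈ W.filter (fun w => (X w % 5 ^ j, D w) = (X w₀ % 5 ^ j, D w₀)),
              P w * (G (X w) - σ) := by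
          rw [← Finset.sum_biUnion]
          · apply Finset.sum_le_sum_of_subset_of_nonneg
            · intro w hw
              simp only [Finset.mem_biUnion, Finset.mem_filter, Finset.mem_range,
                Prod.mk.injEq] at hw ⊢
              obtain ⟨z, _, hwW, h1, h2⟩ := hw
              refine ⟨hwW, ?_, h2⟩
              have h3 : X w ≡ X w₀ + 5 ^ j * (z : ℤ) [ZMOD 5 ^ (j + L)] := h1
              have h4 : X w ≡ X w₀ + 5 ^ j * (z : ℤ) [ZMOD 5 ^ j] :=
                h3.of_dvd (pow_dvd_pow 5 (by omega))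
              have h5 : X w₀ + 5 ^ j * (z : ℤ) ≡ X w₀ [ZMOD 5 ^ j] := by
                have := Int.modEq_add_fac_self (a := X w₀) (t := (z : ℤ)) (n := 5 ^ j)
                exact this
              exact h4.trans h5
            · intro w hw _
              exact hterm w (Finset.mem_filter.1 hw).1
          · intro z hz z' hz' hne
            simp only [coe_range, Set.mem_Iio] at hz hz'
            refine Finset.disjoint_left.2 fun w hw hw' => hne ?_
            have h1 := (Finset.mem_filter.1 hw).2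
            have h2 := (Finset.mem_filter.1 hw').2
            have h3 : (X w₀ + 5 ^ j * (z : ℤ)) ≡ (X w₀ + 5 ^ j * (z' : ℤ)) [ZMOD 5 ^ (j + L)] :=
              (congrArg Prod.fst h1).symm.trans (congrArg Prod.fst h2)
            have h4 : (5 : ℤ) ^ j * (z : ℤ) ≡ 5 ^ j * (z' : ℤ) [ZMOD 5 ^ j * 5 ^ L] := by
              rw [← pow_add]; exact Int.ModEq.add_left_cancel' _ h3
            have h5 : (z : ℤ) ≡ (z' : ℤ) [ZMOD 5 ^ L] :=
              Int.ModEq.mul_left_cancel' (by positivity) h4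
            have h6 : z ≡ z' [MOD 5 ^ L] := by
              apply (Int.natCast_modEq_iff).1
              push_cast
              exact h5
            have := h6
            unfold Nat.ModEq at this
            rwa [Nat.mod_eq_of_lt hz, Nat.mod_eq_of_lt hz'] at this
        refine le_trans ?_ hsub
        have hcl : ∀ z ∈ range (5 ^ L),
            mass W P (fun w => (X w % 5 ^ j, D w)) (X w₀ % 5 ^ j, D w₀) / (2 * 5 ^ L) *
              (G (X w₀ + 5 ^ j * (z : ℤ)) - σ) ≤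
            ∑ w ∈ W.filter (fun w =>
              (X w % 5 ^ (j + L), D w) = ((X w₀ + 5 ^ j * (z : ℤ)) % 5 ^ (j + L), D w₀)),
              P w * (G (X w) - σ) := by
          intro z _
          have hun : ¬ (5 : ℤ) ∣ X w₀ + 5 ^ j * (z : ℤ) := NG_unit hj hu0 _
          have h1 : ∑ w ∈ W.filter (fun w =>
              (X w % 5 ^ (j + L), D w) = ((X w₀ + 5 ^ j * (z : ℤ)) % 5 ^ (j + L), D w₀)),
              P w * (G (X w) - σ) =
              mass W P (fun w => (X w % 5 ^ (j + L), D w))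
                ((X w₀ + 5 ^ j * (z : ℤ)) % 5 ^ (j + L), D w₀) *
                  (G (X w₀ + 5 ^ j * (z : ℤ)) - σ) := by
            unfold mass
            rw [Finset.sum_mul]
            refine Finset.sum_congr rfl fun w hw => ?_
            have h2 := (Finset.mem_filter.1 hw).2
            have h3 : X w ≡ X w₀ + 5 ^ j * (z : ℤ) [ZMOD 5 ^ (j + L)] := congrArg Prod.fst h2
            have h4 : X w ≡ X w₀ + 5 ^ j * (z : ℤ) [ZMOD 5 ^ (l * u + g + 1)] :=
              h3.of_dvd (pow_dvd_pow 5 hj2)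
            obtain ⟨k, hk⟩ := h4.symm.dvd
            have h5 : X w = (X w₀ + 5 ^ j * (z : ℤ)) + 5 ^ (l * u + g + 1) * k := by linarith
            have h6 : G (X w) = G (X w₀ + 5 ^ j * (z : ℤ)) := by
              rw [h5]; exact NG_per K l u g F hF _ _ hun
            rw [h6]
          rw [h1]
          refine mul_le_mul_of_nonneg_right ?_ (sub_nonneg.2 (hGσ _ hun))
          have h2 := hNU (X w₀ + 5 ^ j * (z : ℤ)) (by
            exact Int.modEq_add_fac_self (a := X w₀) (t := (z : ℤ)) (n := 5 ^ j))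
          rw [div_le_iff₀ (by positivity)]
          linarith
        refine le_trans ?_ (Finset.sum_le_sum hcl)
        rw [← Finset.mul_sum, Finset.sum_sub_distrib, Finset.sum_const, card_range, nsmul_eq_mul]
        have h7 := NG_avg hK l u g F hF ρ hρ j L hj hj1 hj2 (X w₀) hu0
        have h8 : 0 ≤ mass W P (fun w => (X w % 5 ^ j, D w)) (X w₀ % 5 ^ j, D w₀) := by
          unfold mass
          exact Finset.sum_nonneg fun w _ => hPn w
        have h9 : ρ * 5 ^ L - 5 ^ L * σ ≤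
            ∑ z ∈ range (5 ^ L), G (X w₀ + 5 ^ j * (z : ℤ)) - ((5 ^ L : ℕ) : ℝ) * σ := by
          push_cast
          linarith
        calc mass W P (fun w => (X w % 5 ^ j, D w)) (X w₀ % 5 ^ j, D w₀) * (1 / 2 * (ρ - σ))
            = mass W P (fun w => (X w % 5 ^ j, D w)) (X w₀ % 5 ^ j, D w₀) / (2 * 5 ^ L) *
                (ρ * 5 ^ L - 5 ^ L * σ) := by
              field_simp
          _ ≤ _ := mul_le_mul_of_nonneg_left h9 (by positivity)
      · push Not at hex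
        have h0 : mass W P (fun w => (X w % 5 ^ j, D w)) (X w₀ % 5 ^ j, D w₀) = 0 := by
          unfold mass
          exact Finset.sum_eq_zero fun w hw => hex w hw
        rw [h0, zero_mul]
        exact Finset.sum_nonneg fun w hw => hterm w (Finset.mem_filter.1 hw).1
    · have h0 : ∑ w ∈ W.filter (fun w => (X w % 5 ^ j, D w) = (X w₀ % 5 ^ j, D w₀)),
          (if NU2 W P X D j L (X w) (D w) then P w * (1 / 2 * (ρ - σ)) else 0) = 0 := by
        refine Finset.sum_eq_zero fun w hw => ?_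
        rw [if_neg (fun h => hNU ((hconst w hw).1 h))]
      rw [h0]
      exact Finset.sum_nonneg fun w hw => hterm w (Finset.mem_filter.1 hw).1
  have e1 : EE K l (s + u) x F = ∑ w ∈ W, P w * G (X w) := EE_add l s u x F
  have e2 : ∑ w ∈ W, P w * (G (X w) - σ) = ∑ w ∈ W, P w * G (X w) - σ := by
    have : ∀ w ∈ W, P w * (G (X w) - σ) = P w * G (X w) - P w * σ := fun w _ => by ring
    rw [Finset.sum_congr rfl this, Finset.sum_sub_distrib, ← Finset.sum_mul, hP.sum_eq, one_mul]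
  have e3 : nu K l x s j L = ∑ w ∈ W.filter (fun w => NU2 W P X D j L (X w) (D w)), P w := by
    unfold nu NUp2
    congr
  rw [e1, e3]
  rw [e2, ← Finset.sum_mul] at hmain
  linarith


end Pool.Agent.Lib_helper56.Low
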