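import Pool.Agent.LowAsm.DM

set_option autoImplicit false

namespace Pool.Agent.Lib_helper56.Low

open Finset


/-- integer version of `v 20 n` on natural numbers -/
def NU20_V : ℕ → ℕ → ℕ
  | 0, _ => 1
  | n + 1, x => ∑ d ∈ Icc 1 20, if (2 ^ d * x) % 5 = 1 then
      5 ^ d * 6 ^ (20 - d) * NU20_V n ((2 ^ d * x - 1) / 5) else 0

theorem NU20_dvd_iff (d x : ℕ) : (5 : ℤ) ∣ 2 ^ d * (x : ℤ) - 1 ↔ (2 ^ d * x) % 5 = 1 := by
  have h : ((2 ^ d * x : ℕ) : ℤ) = 2 ^ d * (x : ℤ) := by push_cast; ring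
  rw [← h]
  omega

theorem NU20_st (d x : ℕ) (h : (2 ^ d * x) % 5 = 1) :
    st d (x : ℤ) = (((2 ^ d * x - 1) / 5 : ℕ) : ℤ) := by
  unfold st
  have h' : ((2 ^ d * x : ℕ) : ℤ) = 2 ^ d * (x : ℤ) := by push_cast; ring
  rw [← h']
  have : 1 ≤ 2 ^ d * x := by omega
  omega

theorem NU20_v_eq (n x : ℕ) : v 20 n (x : ℤ) = (NU20_V n x : ℝ) / 6 ^ (20 * n) := by
  induction n generalizing x with
  | zero => simp [v, NU20_V]
  | succ n ih =>
    rw [v, NU20_V]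
    push_cast
    rw [Finset.sum_div]
    refine Finset.sum_congr rfl fun d hd => ?_
    rw [Finset.mem_Icc] at hd
    by_cases h : (2 ^ d * x) % 5 = 1
    · rw [if_pos ((NU20_dvd_iff d x).2 h), if_pos h, NU20_st d x h, ih]
      have e1 : (6 : ℝ) ^ (20 * (n + 1)) = 6 ^ (20 * n) * (6 ^ d * 6 ^ (20 - d)) := by
        rw [← pow_add, ← pow_add]; congr 1; omega
      rw [e1, div_pow]
      field_simp
    · rw [if_neg (fun h' => h ((NU20_dvd_iff d x).1 h')), if_neg h]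
      simp

/-- residue representative -/
theorem NU20_res (c : ℤ) (hc : ¬ (5 : ℤ) ∣ c) : ∃ r : ℕ, r < 25 ∧ r % 5 ≠ 0 ∧
    ∃ q : ℤ, c = (r : ℤ) + 5 ^ 2 * q := by
  refine ⟨(c % 25).toNat, by omega, by omega, c / 25, by omega⟩

theorem NU20_check1 : ∀ r < 25, r % 5 ≠ 0 →
    5 ^ 5 * (∏ y ∈ range 5, (NU20_V 1 (r + 5 * y) * 6 ^ 20)) ^ 2 ≤
      6 ^ 5 * (∏ y ∈ range 5, NU20_V 2 (r + 5 * y)) ^ 2 := by
  decide +kernel

theorem NU20_check2 : ∀ r < 25, r % 5 ≠ 0 → ∀ d < 21, 1 ≤ d → (2 ^ d * r) % 5 = 1 →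
    4 * (5 ^ d * 6 ^ (20 - d) * NU20_V 1 ((2 ^ d * r - 1) / 5)) ≤ 3 * NU20_V 2 r := by
  decide +kernel

attribute [local irreducible] NU20_V

theorem NU20_hh (r : ℕ) : hh 20 1 (r : ℤ) = (NU20_V 2 r : ℝ) / (NU20_V 1 r * 6 ^ 20) := by
  unfold hh
  rw [NU20_v_eq, NU20_v_eq]
  generalize NU20_V (1 + 1) r = a
  generalize NU20_V 1 r = b
  have e : (6 : ℝ) ^ (20 * (1 + 1)) = 6 ^ 20 * 6 ^ (20 * 1) := by rw [← pow_add]
  rw [e]
  generalize (6 : ℝ) ^ (20 * 1) = u at *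
  by_cases hu : u = 0
  · subst hu; simp
  by_cases h : (b : ℝ) = 0
  · rw [h]; simp
  · field_simp

theorem DD20 (c : ℤ) (hc : ¬ (5 : ℤ) ∣ c) : DD 20 1 c ≤ Real.log (6 / 5) / 2 := by
  obtain ⟨r, hr, hr5, q, hq⟩ := NU20_res c hc
  have h1 : ∀ y : ℕ, hh 20 1 (c + 5 * (y : ℤ)) = hh 20 1 ((r + 5 * y : ℕ) : ℤ) := by
    intro y
    rw [hq]
    have : (r : ℤ) + 5 ^ 2 * q + 5 * (y : ℤ) = ((r + 5 * y : ℕ) : ℤ) + 5 ^ (1 + 1) * q := by
      push_cast; ring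
    rw [this, hh_shift]
  have hunit : ∀ y : ℕ, ¬ (5 : ℤ) ∣ ((r + 5 * y : ℕ) : ℤ) := by
    intro y; omega
  have hpos : ∀ y : ℕ, 0 < hh 20 1 ((r + 5 * y : ℕ) : ℤ) := fun y => hh_pos (by norm_num) 1 (hunit y)
  unfold DD
  simp only [h1, pow_one]
  rw [Finset.sum_neg_distrib, ← Real.log_prod (fun y _ => (hpos y).ne')]
  have hP : 0 < ∏ y ∈ range 5, hh 20 1 ((r + 5 * y : ℕ) : ℤ) := Finset.prod_pos fun y _ => hpos y
  -- the key inequality
  have hkey : (5 / 6 : ℝ) ^ 5 ≤ (∏ y ∈ range 5, hh 20 1 ((r + 5 * y : ℕ) : ℤ)) ^ 2 := by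
    have hV1 : ∀ y : ℕ, (0 : ℝ) < NU20_V 1 (r + 5 * y) * 6 ^ 20 := by
      intro y
      have h2 := v_pos (K := 20) (by norm_num) 1 (hunit y)
      rw [NU20_v_eq] at h2
      have h3 : (0 : ℝ) < NU20_V 1 (r + 5 * y) := by
        by_contra h
        push Not at h
        have : (NU20_V 1 (r + 5 * y) : ℝ) / 6 ^ (20 * 1) ≤ 0 :=
          div_nonpos_of_nonpos_of_nonneg h (by positivity)
        linarith
      positivity
    simp only [NU20_hh]
    rw [Finset.prod_div_distrib, div_pow, div_pow]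
    rw [div_le_div_iff₀ (by norm_num)
      (pow_pos (Finset.prod_pos fun y _ => hV1 y) 2)]
    have h2 := NU20_check1 r hr hr5
    have h3 : ((5 ^ 5 * (∏ y ∈ range 5, (NU20_V 1 (r + 5 * y) * 6 ^ 20)) ^ 2 : ℕ) : ℝ) ≤
      ((6 ^ 5 * (∏ y ∈ range 5, NU20_V 2 (r + 5 * y)) ^ 2 : ℕ) : ℝ) := by exact_mod_cast h2
    simp only [Nat.cast_mul, Nat.cast_pow, Nat.cast_prod, Nat.cast_ofNat] at h3
    rw [mul_comm ((∏ y ∈ range 5, (NU20_V 2 (r + 5 * y) : ℝ)) ^ 2)]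
    exact h3
  have hlog := Real.log_le_log (by positivity) hkey
  rw [Real.log_pow, Real.log_pow] at hlog
  have h56 : Real.log (5 / 6) = - Real.log (6 / 5) := by
    rw [← Real.log_inv]; norm_num
  rw [h56] at hlog
  rw [show ((5 : ℕ) : ℝ) = 5 by norm_num, show ((2 : ℕ) : ℝ) = 2 by norm_num] at hlog
  linarith

theorem NU20_ker_le (x : ℤ) (hx : ¬ (5 : ℤ) ∣ x) (w : List ℕ) (hw : w ∈ words 20 1) :
    ker 20 1 x w ≤ 3 / 4 := by
  obtain ⟨r, hr, hr5, q, hq⟩ := NU20_res x hx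
  have hwd : ∃ d, 1 ≤ d ∧ d ≤ 20 ∧ w = [d] := by
    simp only [words, Finset.mem_image, Finset.mem_product, Finset.mem_Icc,
      Finset.mem_singleton] at hw
    obtain ⟨⟨d, l⟩, ⟨⟨h1, h2⟩, h3⟩, h4⟩ := hw
    subst h3
    exact ⟨d, h1, h2, h4.symm⟩
  obtain ⟨d, hd1, hd2, rfl⟩ := hwd
  have h1 : ker 20 1 x [d] = ker 20 1 (r : ℤ) [d] := by
    rw [hq]; exact ker_shift 20 1 r q rfl
  rw [h1]
  have hru : ¬ (5 : ℤ) ∣ (r : ℤ) := by omega
  unfold ker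
  split_ifs with h
  · have hdv : (2 ^ d * r) % 5 = 1 := by
      have : (5 : ℤ) ∣ 2 ^ d * (r : ℤ) - 1 := by
        simp only [adm] at h; exact h.1
      exact (NU20_dvd_iff d r).1 this
    have hv := v_pos (K := 20) (by norm_num) (1 + 1) hru
    rw [div_le_iff₀ hv]
    have hA : A [d] (r : ℤ) = (((2 ^ d * r - 1) / 5 : ℕ) : ℤ) := by
      simp only [A]; exact NU20_st d r hdv
    rw [hA, NU20_v_eq, NU20_v_eq]
    have h2 := NU20_check2 r hr hr5 d (by omega) hd1 hdv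
    have h3 : (4 : ℝ) * (5 ^ d * 6 ^ (20 - d) * NU20_V 1 ((2 ^ d * r - 1) / 5)) ≤
        3 * NU20_V 2 r := by exact_mod_cast h2
    have e1 : ([d] : List ℕ).sum = d := by simp
    rw [e1, div_pow]
    have e2 : (6 : ℝ) ^ (20 * (1 + 1)) = 6 ^ d * 6 ^ (20 - d) * 6 ^ (20 * 1) := by
      rw [← pow_add, ← pow_add]; congr 1; omega
    rw [e2]
    have e3 : (5 : ℝ) ^ d / 6 ^ d * (NU20_V 1 ((2 ^ d * r - 1) / 5) / 6 ^ (20 * 1)) =
        (5 ^ d * 6 ^ (20 - d) * NU20_V 1 ((2 ^ d * r - 1) / 5)) /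
          (6 ^ d * 6 ^ (20 - d) * 6 ^ (20 * 1)) := by
      field_simp
    rw [e3, ← mul_div_assoc]
    apply div_le_div_of_nonneg_right _ (by positivity)
    linarith
  · norm_num

theorem ent20 : ∃ h : ℝ, 0 < h ∧ ∀ x : ℤ, ¬ (5 : ℤ) ∣ x →
    h ≤ ∑ w ∈ words 20 1, Real.negMulLog (ker 20 1 x w) := by
  refine ⟨- Real.log (3 / 4), ?_, fun x hx => ?_⟩
  · have := Real.log_neg (show (0 : ℝ) < 3 / 4 by norm_num) (by norm_num)
    linarith
  · calc - Real.log (3 / 4) = ∑ w ∈ words 20 1, ker 20 1 x w * (- Real.log (3 / 4)) := by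
          rw [← Finset.sum_mul, ker_sum (by norm_num) 1 hx, one_mul]
      _ ≤ _ := by
          refine Finset.sum_le_sum fun w hw => ?_
          rw [Real.negMulLog]
          have h0 := ker_nonneg (K := 20) (by norm_num) 1 x w
          rcases h0.eq_or_lt with h1 | h1
          · rw [← h1]; simp
          · have h2 := Real.log_le_log h1 (NU20_ker_le x hx w hw)
            nlinarith

theorem low20 {K : ℕ} (hK : 20 ≤ K) : LowR K (Real.log (6 / 5) / 2) := by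
  obtain ⟨h, hh0, hent⟩ := ent20
  have h20 : LowR 20 (Real.log (6 / 5) / 2) := by
    have := DM (K := 20) (by norm_num) (le_refl 1) hh0
      (fun x hx => by simpa using hent x hx) (Real.log (6 / 5) / 2) DD20
    simpa using this
  intro ε hε
  obtain ⟨n₀, hn₀⟩ := h20 (ε / 2) (by positivity)
  obtain ⟨n₁, hn₁⟩ := exists_nat_ge (Real.log 15 / (ε / 2))
  refine ⟨max n₀ n₁, fun n hn x hx => ?_⟩
  have h1 := hn₀ n (le_trans (le_max_left _ _) hn) x hx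
  have h2 : Real.log 15 ≤ n * (ε / 2) := by
    have e1 : (n₁ : ℝ) ≤ n := by exact_mod_cast le_trans (le_max_right _ _) hn
    have e2 := (div_le_iff₀ (show 0 < ε / 2 by positivity)).1 hn₁
    have : (n₁ : ℝ) * (ε / 2) ≤ n * (ε / 2) := by gcongr
    linarith
  have h3 : Real.exp (-(Real.log (6 / 5) / 2 + ε) * n) ≤
      Real.exp (-(Real.log (6 / 5) / 2 + ε / 2) * n) / 15 := by
    rw [← Real.exp_log (show (0 : ℝ) < 15 by norm_num), ← Real.exp_sub, Real.exp_le_exp]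
    linarith
  have hv1 := v_one_bounds (K := K) (by omega) hx
  have hv20 := v_one_bounds (K := 20) (by norm_num) hx
  have h4 : hh 20 n x / 15 ≤ hh K n x := by
    unfold hh
    have hm := v_mono hK (n + 1) x
    have hn0 := v_nonneg 20 (n + 1) x
    have e1 : (0 : ℝ) < v K 1 x := by linarith
    have e2 : (0 : ℝ) < v 20 1 x := by linarith
    rw [div_div, div_le_div_iff₀ (by positivity) e1]
    have e3 : v K 1 x ≤ v 20 1 x * 15 := by linarith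
    exact mul_le_mul hm e3 e1.le (le_trans hn0 hm)
  calc _ ≤ _ := h3
    _ ≤ hh 20 n x / 15 := by gcongr
    _ ≤ _ := h4


end Pool.Agent.Lib_helper56.Low
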