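import Pool.Agent.LowAsm.NU20

set_option autoImplicit false

namespace Pool.Agent.Lib_helper56.Low

open Finset


theorem OS_per (N : ℕ) (g : ℤ → ℝ) (hg : ∀ x, g (x + N) = g x) (k : ℕ) (x : ℤ) :
    g (x + N * k) = g x := by
  induction k with
  | zero => simp
  | succ k ih =>
    have : x + (N : ℤ) * ((k + 1 : ℕ) : ℤ) = (x + N * k) + N := by push_cast; ring
    rw [this, hg, ih]

/-- sums over a full period are translation invariant -/
theorem OS_shift (N : ℕ) (g : ℤ → ℝ) (hg : ∀ x, g (x + N) = g x) (T : ℕ) :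
    ∑ e ∈ range N, g ((T : ℤ) + (e : ℤ)) = ∑ e ∈ range N, g (e : ℤ) := by
  induction T with
  | zero => simp
  | succ T ih =>
    rw [← ih]
    have h1 := Finset.sum_range_succ (fun e : ℕ => g ((T : ℤ) + (e : ℤ))) N
    have h2 := Finset.sum_range_succ' (fun e : ℕ => g ((T : ℤ) + (e : ℤ))) N
    have h3 : ∑ e ∈ range N, g (((T + 1 : ℕ) : ℤ) + (e : ℤ)) =
        ∑ e ∈ range N, g ((T : ℤ) + ((e + 1 : ℕ) : ℤ)) :=
      Finset.sum_congr rfl (fun e _ => by congr 1; push_cast; ring)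
    rw [h3]
    have h4 : g ((T : ℤ) + (N : ℤ)) = g ((T : ℤ) + ((0 : ℕ) : ℤ)) := by
      rw [hg]; simp
    linarith

/-- one step lemma on `Z/5^L` -/
theorem one_step (L : ℕ) (θ ρ : ℤ → ℝ) (hθ : ∀ x, 0 ≤ θ x) (hρ : ∀ x, 0 < ρ x)
    (hθp : ∀ x, θ (x + 5 ^ L) = θ x) (hρp : ∀ x, ρ (x + 5 ^ L) = ρ x)
    (hθ1 : ∑ i ∈ range (5 ^ L), θ (i : ℤ) = 1) (hflat : ∀ x, 1 ≤ 2 * 5 ^ L * θ x)
    (Q c : ℝ) (hQ0 : 0 < Q) (hc0 : 0 < c) (hQ : ∑ i ∈ range (5 ^ L), ρ (i : ℤ) = 5 ^ L * Q)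
    (hc : ∀ x, c ≤ ρ x) :
    ∃ J : ℕ → ℕ → ℝ, (∀ T e, 0 ≤ J T e) ∧
      (∀ T ∈ range (5 ^ L), ∑ e ∈ range (5 ^ L), J T e = 1) ∧
      (∀ e ∈ range (5 ^ L), ∑ T ∈ range (5 ^ L), J T e = 5 ^ L * θ (e : ℤ)) ∧
      5 ^ L * (1 / 2 * Real.log Q + 1 / 2 * Real.log c) ≤
        ∑ T ∈ range (5 ^ L), ∑ e ∈ range (5 ^ L),
          J T e * Real.log (θ (e : ℤ) * ρ ((T : ℤ) + (e : ℤ)) / J T e) := by
  have hρp' : ∀ x, ρ (x + ((5 ^ L : ℕ) : ℤ)) = ρ x := fun x => by
    push_cast; exact hρp x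
  have hM : (0 : ℝ) < 5 ^ L := by positivity
  set M : ℝ := 5 ^ L with hMdef
  let a : ℕ → ℕ → ℝ := fun T e => 1 / 2 * (ρ ((T : ℤ) + (e : ℤ)) / (M * Q))
  let b : ℕ → ℝ := fun e => 1 / 2 * (2 * θ (e : ℤ) - 1 / M)
  have ha : ∀ T e, 0 < a T e := fun T e => by
    have := hρ ((T : ℤ) + (e : ℤ))
    simp only [a]
    positivity
  have hb : ∀ e, 0 ≤ b e := fun e => by
    have h1 := hflat (e : ℤ)
    have h2 : 1 / M ≤ 2 * θ (e : ℤ) := by
      rw [div_le_iff₀ hM]; linarith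
    simp only [b]
    linarith
  have hsa : ∀ T, ∑ e ∈ range (5 ^ L), a T e = 1 / 2 := fun T => by
    simp only [a]
    rw [← Finset.mul_sum, ← Finset.sum_div, OS_shift (5 ^ L) ρ hρp' T, hQ, div_self (by positivity),
      mul_one]
  have hsb : ∑ e ∈ range (5 ^ L), b e = 1 / 2 := by
    simp only [b]
    rw [← Finset.mul_sum, Finset.sum_sub_distrib, ← Finset.mul_sum, hθ1, Finset.sum_const,
      Finset.card_range, nsmul_eq_mul]
    push_cast
    rw [← hMdef]
    field_simp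
    norm_num
  refine ⟨fun T e => a T e + b e, fun T e => add_nonneg (ha T e).le (hb e), ?_, ?_, ?_⟩
  · intro T _
    rw [Finset.sum_add_distrib, hsa, hsb]
    norm_num
  · intro e _
    rw [Finset.sum_add_distrib, Finset.sum_const, Finset.card_range, nsmul_eq_mul]
    have h1 : ∑ T ∈ range (5 ^ L), a T e = 1 / 2 := by
      have h2 : ∀ T, a T e = a e T := fun T => by
        simp only [a]
        rw [add_comm]
      rw [Finset.sum_congr rfl (fun T _ => h2 T)]
      exact hsa e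
    rw [h1]
    simp only [b]
    push_cast
    rw [← hMdef]
    field_simp
    ring
  · have key : ∀ T e, a T e * Real.log Q + b e * Real.log c ≤
        (a T e + b e) * Real.log (θ (e : ℤ) * ρ ((T : ℤ) + (e : ℤ)) / (a T e + b e)) := by
      intro T e
      have hJ : 0 < a T e + b e := add_pos_of_pos_of_nonneg (ha T e) (hb e)
      have hr := hρ ((T : ℤ) + (e : ℤ))
      have e1 : θ (e : ℤ) * ρ ((T : ℤ) + (e : ℤ)) / (a T e + b e) =
          (a T e / (a T e + b e)) • Q + (b e / (a T e + b e)) • ρ ((T : ℤ) + (e : ℤ)) := by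
        rw [smul_eq_mul, smul_eq_mul, div_mul_eq_mul_div, div_mul_eq_mul_div, ← add_div]
        congr 1
        simp only [a, b]
        field_simp
        ring
      have h2 := (strictConcaveOn_log_Ioi.concaveOn).2
        (Set.mem_Ioi.mpr hQ0) (Set.mem_Ioi.mpr hr) (div_nonneg (ha T e).le hJ.le)
        (div_nonneg (hb e) hJ.le) (by rw [← add_div, div_self hJ.ne'])
      rw [← e1, smul_eq_mul, smul_eq_mul] at h2
      have h3 : Real.log c ≤ Real.log (ρ ((T : ℤ) + (e : ℤ))) := Real.log_le_log hc0 (hc _)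
      have h4 := mul_le_mul_of_nonneg_left h2 hJ.le
      have h5 : (a T e + b e) * (a T e / (a T e + b e) * Real.log Q +
          b e / (a T e + b e) * Real.log (ρ ((T : ℤ) + (e : ℤ)))) =
          a T e * Real.log Q + b e * Real.log (ρ ((T : ℤ) + (e : ℤ))) := by
        field_simp
      rw [h5] at h4
      have h6 := mul_le_mul_of_nonneg_left h3 (hb e)
      linarith
    calc M * (1 / 2 * Real.log Q + 1 / 2 * Real.log c)
        = ∑ T ∈ range (5 ^ L), ∑ e ∈ range (5 ^ L), (a T e * Real.log Q + b e * Real.log c) := by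
          have h7 : ∀ T ∈ range (5 ^ L), ∑ e ∈ range (5 ^ L), (a T e * Real.log Q + b e * Real.log c)
              = 1 / 2 * Real.log Q + 1 / 2 * Real.log c := by
            intro T _
            rw [Finset.sum_add_distrib, ← Finset.sum_mul, ← Finset.sum_mul, hsa, hsb]
          rw [Finset.sum_congr rfl h7, Finset.sum_const, Finset.card_range, nsmul_eq_mul]
          push_cast
          rfl
      _ ≤ _ := Finset.sum_le_sum (fun T _ => Finset.sum_le_sum (fun e _ => key T e))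


end Pool.Agent.Lib_helper56.Low
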