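import Pool.Agent.LowAsm.H

set_option autoImplicit false

namespace Pool.Agent.Lib_helper56.Low

open Finset

/-! ### Block Q: the block chain -/

theorem blkQ_step (K l t : ℕ) (x : ℤ) (u w : List ℕ) (hu : u.length = l) :
    q K l (t + 1) x (u ++ w) = ker K l x u * q K l t (A u x) w := by
  simp only [q]
  rw [List.take_left' hu, List.drop_left' hu]

theorem blkQ_sum_succ (K l t : ℕ) (F : List ℕ → ℝ) :
    ∑ w ∈ words K (l * (t + 1)), F w = ∑ u ∈ words K l, ∑ w ∈ words K (l * t), F (u ++ w) := by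
  rw [← sum_words_add, show l * (t + 1) = l + l * t by ring]

theorem q_nonneg {K : ℕ} (hK : 8 ≤ K) (l t : ℕ) (x : ℤ) (w : List ℕ) : 0 ≤ q K l t x w := by
  induction t generalizing x w with
  | zero => simp [q]
  | succ t ih =>
    simp only [q]
    exact mul_nonneg (ker_nonneg hK _ _ _) (ih _ _)

theorem q_sum {K : ℕ} (hK : 8 ≤ K) (l t : ℕ) {x : ℤ} (h : ¬ (5 : ℤ) ∣ x) :
    ∑ w ∈ words K (l * t), q K l t x w = 1 := by
  induction t generalizing x with
  | zero => simp [q, words]
  | succ t ih =>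
    rw [blkQ_sum_succ]
    have h1 : ∀ u ∈ words K l, ∑ w ∈ words K (l * t), q K l (t + 1) x (u ++ w) = ker K l x u := by
      intro u hu
      have hul := length_of_mem_words hu
      simp only [blkQ_step K l t x u _ hul]
      rw [← Finset.mul_sum]
      by_cases hk : ker K l x u = 0
      · rw [hk, zero_mul]
      · rw [ih (ker_adm hk).2, mul_one]
    rw [Finset.sum_congr rfl h1, ker_sum hK l h]

theorem q_adm {K l t : ℕ} {x : ℤ} {w : List ℕ} (hx : ¬ (5 : ℤ) ∣ x) (hw : w.length = l * t)
    (h : q K l t x w ≠ 0) : adm w x ∧ ¬ (5 : ℤ) ∣ A w x := by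
  induction t generalizing x w with
  | zero =>
    have : w = [] := by
      apply List.length_eq_zero_iff.mp
      simpa using hw
    subst this
    simp [adm, A, hx]
  | succ t ih =>
    simp only [q] at h
    have h1 := left_ne_zero_of_mul h
    have h2 := right_ne_zero_of_mul h
    obtain ⟨ha, hu⟩ := ker_adm h1
    have hd : (w.drop l).length = l * t := by
      rw [List.length_drop, hw, Nat.mul_succ, Nat.add_sub_cancel]
    obtain ⟨hb, hv⟩ := ih hu hd h2
    have e : w.take l ++ w.drop l = w := List.take_append_drop l w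
    refine ⟨?_, ?_⟩
    · rw [← e, adm_append]
      exact ⟨ha, hb⟩
    · rw [← e, A_append]
      exact hv

theorem q_shift (K l t : ℕ) (x y : ℤ) {w : List ℕ} (hw : w.length = l * t) :
    q K l t (x + 5 ^ (l * t + 1) * y) w = q K l t x w := by
  induction t generalizing x y w with
  | zero => simp [q]
  | succ t ih =>
    have hd : (w.drop l).length = l * t := by
      rw [List.length_drop, hw, Nat.mul_succ, Nat.add_sub_cancel]
    have ht : (w.take l).length = l := by
      rw [List.length_take, hw, Nat.mul_succ]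
      exact Nat.min_eq_left (Nat.le_add_left _ _)
    have e1 : x + (5 : ℤ) ^ (l * (t + 1) + 1) * y = x + 5 ^ (l + 1) * (5 ^ (l * t) * y) := by
      ring
    simp only [q]
    rw [e1, ker_shift K l x _ ht]
    by_cases hk : ker K l x (w.take l) = 0
    · rw [hk, zero_mul, zero_mul]
    · have ha := (ker_adm hk).1
      have h2 := A_shift' (w.take l) x (5 ^ (l * t) * y) ha
      rw [ht] at h2
      rw [h2]
      have e2 : A (w.take l) x + 5 * 2 ^ (w.take l).sum * (5 ^ (l * t) * y) =
          A (w.take l) x + 5 ^ (l * t + 1) * (2 ^ (w.take l).sum * y) := by ring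
      rw [e2, ih _ _ hd]

theorem q_append (K l s t : ℕ) (x : ℤ) (u w : List ℕ) (hu : u.length = l * s) :
    q K l (s + t) x (u ++ w) = q K l s x u * q K l t (A u x) w := by
  induction s generalizing x u with
  | zero =>
    have : u = [] := by
      apply List.length_eq_zero_iff.mp
      simpa using hu
    subst this
    simp [q, A]
  | succ s ih =>
    have hd : (u.drop l).length = l * s := by
      rw [List.length_drop, hu, Nat.mul_succ, Nat.add_sub_cancel]
    have hl : l ≤ u.length := by
      rw [hu, Nat.mul_succ]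
      exact Nat.le_add_left _ _
    rw [show s + 1 + t = (s + t) + 1 by ring]
    simp only [q]
    rw [List.take_append_of_le_length hl, List.drop_append_of_le_length hl, ih _ _ hd]
    rw [← A_append, List.take_append_drop]
    ring

theorem q_ent {K : ℕ} (hK : 8 ≤ K) (l : ℕ) (h : ℝ)
    (hk : ∀ x : ℤ, ¬ (5 : ℤ) ∣ x → h * l ≤ ∑ w ∈ words K l, Real.negMulLog (ker K l x w))
    (t : ℕ) {x : ℤ} (hx : ¬ (5 : ℤ) ∣ x) :
    h * (l * t : ℕ) ≤ ∑ w ∈ words K (l * t), Real.negMulLog (q K l t x w) := by
  induction t generalizing x with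
  | zero => simp [q, words]
  | succ t ih =>
    rw [blkQ_sum_succ]
    have h1 : ∀ u ∈ words K l,
        Real.negMulLog (ker K l x u) + ker K l x u * (h * (l * t : ℕ)) ≤
        ∑ w ∈ words K (l * t), Real.negMulLog (q K l (t + 1) x (u ++ w)) := by
      intro u hu
      have hul := length_of_mem_words hu
      simp only [blkQ_step K l t x u _ hul, Real.negMulLog_mul]
      rw [Finset.sum_add_distrib, ← Finset.sum_mul, ← Finset.mul_sum]
      by_cases h0 : ker K l x u = 0
      · rw [h0]
        simp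
      · have hu2 := (ker_adm h0).2
        rw [q_sum hK l t hu2, one_mul]
        have := mul_le_mul_of_nonneg_left (ih hu2) (ker_nonneg hK l x u)
        linarith
    have h2 := Finset.sum_le_sum h1
    rw [Finset.sum_add_distrib, ← Finset.sum_mul, ker_sum hK l hx, one_mul] at h2
    have h3 := hk x hx
    have e : h * ((l * (t + 1) : ℕ) : ℝ) = h * l + h * (l * t : ℕ) := by
      push_cast
      ring
    rw [e]
    linarith

/-- the `t`-block kernel satisfies all hypotheses of block LI -/
theorem q_kerHyp {K : ℕ} (hK : 8 ≤ K) (l : ℕ) (h : ℝ)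
    (hk : ∀ x : ℤ, ¬ (5 : ℤ) ∣ x → h * l ≤ ∑ w ∈ words K l, Real.negMulLog (ker K l x w))
    (t : ℕ) :
    KerHyp K (l * t) h (words K (l * t)) (fun x w => if (5 : ℤ) ∣ x then 0 else q K l t x w) A List.sum := by
  have hval : ∀ (x : ℤ) (w : List ℕ), (if (5 : ℤ) ∣ x then (0 : ℝ) else q K l t x w) ≠ 0 →
      ¬ (5 : ℤ) ∣ x ∧ q K l t x w ≠ 0 := by
    intro x w hne
    by_cases hx : (5 : ℤ) ∣ x
    · simp [hx] at hne
    · simp only [hx, if_false] at hne
      exact ⟨hx, hne⟩
  refine ⟨?_, ?_, ?_, ?_, ?_, ?_, ?_, ?_⟩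
  · intro x w
    show (0 : ℝ) ≤ if (5 : ℤ) ∣ x then 0 else q K l t x w
    split_ifs
    · exact le_refl _
    · exact q_nonneg hK _ _ _ _
  · intro x hx
    simp only [hx, if_false]
    exact q_sum hK l t hx
  · intro x y w hw hne
    obtain ⟨hx, hq⟩ := hval x w hne
    have hlen := length_of_mem_words hw
    have := A_shift' w x y (q_adm hx hlen hq).1
    rw [hlen] at this
    exact this
  · intro x y w hw
    have hlen := length_of_mem_words hw
    have hdvd : (5 : ℤ) ∣ x + 5 ^ (l * t + 1) * y ↔ (5 : ℤ) ∣ x := by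
      have h5 : (5 : ℤ) ∣ 5 ^ (l * t + 1) * y := by
        rw [pow_succ]
        exact ⟨5 ^ (l * t) * y, by ring⟩
      exact (dvd_add_left h5)
    simp only [hdvd]
    rw [q_shift K l t x y hlen]
  · intro b w hw w' hw' hne hne' hD hA
    obtain ⟨hx, hq⟩ := hval b w hne
    obtain ⟨_, hq'⟩ := hval b w' hne'
    have hlen := length_of_mem_words hw
    have hlen' := length_of_mem_words hw'
    exact A_inj (fun d hd => ((mem_words.mp hw).2 d hd).1) (fun d hd => ((mem_words.mp hw').2 d hd).1)
      (hlen.trans hlen'.symm) hD (q_adm hx hlen hq).1 (q_adm hx hlen' hq').1 hA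
  · intro b h0 hb w hw hne
    obtain ⟨hx, hq⟩ := hval b w hne
    have hlen := length_of_mem_words hw
    exact A_bound (fun d hd => ((mem_words.mp hw).2 d hd).1) hlen (q_adm hx hlen hq).1 h0 hb
  · intro w hw
    exact (sum_le_of_mem_words hw).2
  · intro x hx
    simp only [hx, if_false]
    exact q_ent hK l h hk t hx

theorem q_isProb {K : ℕ} (hK : 8 ≤ K) (l t : ℕ) {x : ℤ} (h : ¬ (5 : ℤ) ∣ x) :
    IsProb (words K (l * t)) (q K l t x) :=
  ⟨fun w _ => q_nonneg hK l t x w, q_sum hK l t h⟩

theorem EE_add {K : ℕ} (l s t : ℕ) (x : ℤ) (F : ℤ → ℝ) :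
    EE K l (s + t) x F = ∑ w ∈ words K (l * s), q K l s x w * EE K l t (A w x) F := by
  unfold EE
  rw [Nat.mul_add, sum_words_add]
  refine Finset.sum_congr rfl fun u hu => ?_
  rw [Finset.mul_sum]
  refine Finset.sum_congr rfl fun w _ => ?_
  rw [q_append K l s t x u w (length_of_mem_words hu), A_append]
  ring

/-- expectation of a function bounded below on units -/
theorem EE_ge {K : ℕ} (hK : 8 ≤ K) (l t : ℕ) {x : ℤ} (h : ¬ (5 : ℤ) ∣ x) (F : ℤ → ℝ) (σ : ℝ)
    (hF : ∀ y, ¬ (5 : ℤ) ∣ y → σ ≤ F y) : σ ≤ EE K l t x F := by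
  have h1 : ∑ w ∈ words K (l * t), q K l t x w * σ ≤ EE K l t x F := by
    unfold EE
    refine Finset.sum_le_sum fun w hw => ?_
    by_cases hq : q K l t x w = 0
    · rw [hq, zero_mul, zero_mul]
    · exact mul_le_mul_of_nonneg_left (hF _ (q_adm h (length_of_mem_words hw) hq).2)
        (q_nonneg hK l t x w)
  rw [← Finset.sum_mul, q_sum hK l t h, one_mul] at h1
  exact h1

end Pool.Agent.Lib_helper56.Low
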