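import Pool.Agent.LowAsm.LI

set_option autoImplicit false

namespace Pool.Agent.Lib_helper56.Low

open Finset


/-! ### Block SL: choice of the scale -/

private theorem SL_shift (c : ℕ → ℕ → ℝ) (h0 : ∀ j s, 0 ≤ c j s)
    (h1 : ∀ j s, c j s ≤ (j + 1) * Real.log 5) (N τ j : ℕ) :
    ∑ s ∈ range N, c j (s + τ) ≤ ∑ s ∈ range N, c j s + τ * ((j + 1) * Real.log 5) := by
  have e1 : ∑ s ∈ range (τ + N), c j s = ∑ s ∈ range τ, c j s + ∑ s ∈ range N, c j (τ + s) :=
    Finset.sum_range_add _ _ _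
  have e2 : ∑ s ∈ range (N + τ), c j s = ∑ s ∈ range N, c j s + ∑ s ∈ range τ, c j (N + s) :=
    Finset.sum_range_add _ _ _
  have e3 : ∑ s ∈ range τ, c j (N + s) ≤ τ * ((j + 1) * Real.log 5) := by
    calc ∑ s ∈ range τ, c j (N + s) ≤ ∑ _s ∈ range τ, ((j + 1) * Real.log 5) :=
          Finset.sum_le_sum (fun s _ => h1 j _)
      _ = τ * ((j + 1) * Real.log 5) := by rw [Finset.sum_const, Finset.card_range, nsmul_eq_mul]
  have e4 : 0 ≤ ∑ s ∈ range τ, c j s := Finset.sum_nonneg (fun s _ => h0 j s)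
  have e5 : ∑ s ∈ range N, c j (s + τ) = ∑ s ∈ range N, c j (τ + s) :=
    Finset.sum_congr rfl (fun s _ => by rw [add_comm])
  rw [add_comm N τ] at e2
  linarith

private theorem SL_mul (l : ℕ) (c : ℕ → ℕ → ℝ) (h0 : ∀ j s, 0 ≤ c j s)
    (h1 : ∀ j s, c j s ≤ (j + 1) * Real.log 5)
    (h2 : ∀ τ m s, c (l * τ + m) s - c (l * τ) s ≤ c m (s + τ)) (N τ j : ℕ) (hj : 1 ≤ j) :
    ∑ s ∈ range N, c (j * (l * τ)) s ≤ j * ∑ s ∈ range N, c (l * τ) s +
      j * (τ * ((j * (l * τ : ℕ) + 1) * Real.log 5)) := by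
  have hlog : 0 ≤ Real.log 5 := Real.log_nonneg (by norm_num)
  induction j, hj using Nat.le_induction with
  | base =>
    simp only [one_mul, Nat.cast_one]
    have : (0 : ℝ) ≤ τ * (((l * τ : ℕ) + 1) * Real.log 5) := by positivity
    linarith
  | succ j hj ih =>
    have e1 : ∑ s ∈ range N, c ((j + 1) * (l * τ)) s ≤
        ∑ s ∈ range N, c (l * τ) s + ∑ s ∈ range N, c (j * (l * τ)) (s + τ) := by
      rw [← Finset.sum_add_distrib]
      apply Finset.sum_le_sum
      intro s _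
      have := h2 τ (j * (l * τ)) s
      rw [show l * τ + j * (l * τ) = (j + 1) * (l * τ) by ring] at this
      linarith
    have e2 := SL_shift c h0 h1 N τ (j * (l * τ))
    have e3 : (0 : ℝ) ≤ (j + 1) * (τ * ((l * τ : ℕ) * Real.log 5)) := by positivity
    push_cast at e1 e2 e3 ih ⊢
    nlinarith

theorem SL (K : ℕ) (hK : 1 ≤ K) (δ : ℝ) (hδ : 0 < δ) : ∃ R₀ : ℕ, 1 ≤ R₀ ∧ ∀ R : ℕ, R₀ ≤ R →
    ∀ l : ℕ, 1 ≤ l → ∀ τ₀ : ℕ, 1 ≤ τ₀ → ∀ c : ℕ → ℕ → ℝ, (∀ j s, 0 ≤ c j s) →
      (∀ j s, c j s ≤ (j + 1) * Real.log 5) →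
      (∀ τ m s, c (l * τ + m) s - c (l * τ) s ≤ c m (s + τ)) →
      ∃ τ, τ₀ ≤ τ ∧ τ ≤ R₀ * τ₀ ∧
        ∑ s ∈ range (R * τ₀),
          (c (K * (l * τ)) (s + τ) - c ((K + 1) * (l * τ)) s + c (l * τ) s) ≤
            δ * (l * τ) * (R * τ₀) := by
  have hlog : 0 < Real.log 5 := Real.log_pos (by norm_num)
  obtain ⟨I, hI⟩ := exists_nat_gt (4 * (K + 1) * Real.log 5 / δ)
  obtain ⟨R₁, hR₁⟩ := exists_nat_gt (2 * (K + 1) ^ (I + 2) * Real.log 5 / δ)
  refine ⟨R₁ + (K + 1) ^ I + 1, by omega, ?_⟩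
  intro R hR l hl τ₀ hτ₀ c h0 h1 h2
  by_contra hcon
  push Not at hcon
  set N := R * τ₀ with hN
  have hRpos : 0 < R := by omega
  have hNpos : 0 < N := Nat.mul_pos hRpos hτ₀
  have hNpos' : (0 : ℝ) < N := by exact_mod_cast hNpos
  have hKpos : (0 : ℝ) < K + 1 := by positivity
  -- the scales
  set T : ℕ → ℕ := fun i => (K + 1) ^ i * τ₀ with hT
  have hTpos : ∀ i, 0 < T i := fun i => Nat.mul_pos (Nat.pow_pos (by omega)) hτ₀
  have hTsucc : ∀ i, T (i + 1) = (K + 1) * T i := by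
    intro i; simp only [hT, pow_succ]; ring
  set C : ℕ → ℝ := fun j => ∑ s ∈ range N, c j s with hC
  have hC0 : ∀ j, 0 ≤ C j := fun j => Finset.sum_nonneg (fun s _ => h0 j s)
  have key : ∀ i, i ≤ I → C (l * T i) ≤
      (2 * Real.log 5 - i * (δ / (2 * (K + 1)))) * ((l * T i : ℕ) * N) := by
    intro i
    induction i with
    | zero =>
      intro _
      have e1 : C (l * T 0) ≤ N * (((l * T 0 : ℕ) + 1) * Real.log 5) := by
        calc C (l * T 0) ≤ ∑ _s ∈ range N, (((l * T 0 : ℕ) + 1) * Real.log 5) :=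
              Finset.sum_le_sum (fun s _ => h1 _ _)
          _ = N * (((l * T 0 : ℕ) + 1) * Real.log 5) := by
              rw [Finset.sum_const, Finset.card_range, nsmul_eq_mul]
      have e2 : (1 : ℝ) ≤ (l * T 0 : ℕ) := by
        exact_mod_cast Nat.mul_pos hl (hTpos 0)
      have e3 : 0 ≤ (N : ℝ) * Real.log 5 * ((l * T 0 : ℕ) - 1) :=
        mul_nonneg (by positivity) (by linarith)
      simp only [Nat.cast_zero, zero_mul, sub_zero]
      nlinarith
    | succ i ih =>
      intro hi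
      have ih := ih (by omega)
      have hTi : T i ≤ (R₁ + (K + 1) ^ I + 1) * τ₀ := by
        apply Nat.mul_le_mul_right
        have : (K + 1) ^ i ≤ (K + 1) ^ I := Nat.pow_le_pow_right (by omega) (by omega)
        omega
      have hTi0 : τ₀ ≤ T i := Nat.le_mul_of_pos_left _ (Nat.pow_pos (by omega))
      have hc := hcon (T i) hTi0 hTi
      have e1 : ∑ s ∈ range N,
          (c (K * (l * T i)) (s + T i) - c ((K + 1) * (l * T i)) s + c (l * T i) s) =
          ∑ s ∈ range N, c (K * (l * T i)) (s + T i) - C ((K + 1) * (l * T i)) +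
            C (l * T i) := by
        rw [Finset.sum_add_distrib, Finset.sum_sub_distrib]
      rw [e1] at hc
      have e2 := SL_shift c h0 h1 N (T i) (K * (l * T i))
      have e3 := SL_mul l c h0 h1 h2 N (T i) K hK
      have e4 : (K + 1) * (l * T i) = l * T (i + 1) := by rw [hTsucc]; ring
      rw [e4] at hc
      -- the error term
      have hx : (1 : ℝ) ≤ (l * T i : ℕ) := by
        exact_mod_cast Nat.mul_pos hl (hTpos i)
      have e5 : (T i : ℝ) * ((K * (l * T i : ℕ) + 1) * Real.log 5) * (K + 1) ≤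
          δ / 2 * ((l * T i : ℕ) * N) := by
        have f1 : ((K : ℝ) * (l * T i : ℕ) + 1) ≤ (K + 1) * (l * T i : ℕ) := by nlinarith
        have f2 : (T i : ℝ) * (K + 1) ^ 2 * Real.log 5 ≤ δ / 2 * N := by
          have g1 : (T i : ℝ) ≤ (K + 1) ^ I * τ₀ := by
            have : T i ≤ (K + 1) ^ I * τ₀ :=
              Nat.mul_le_mul_right _ (Nat.pow_le_pow_right (by omega) (by omega))
            exact_mod_cast this
          have g2 : 2 * ((K : ℝ) + 1) ^ (I + 2) * Real.log 5 ≤ δ * R := by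
            have : 2 * ((K : ℝ) + 1) ^ (I + 2) * Real.log 5 / δ ≤ R := by
              refine hR₁.le.trans ?_
              have : R₁ ≤ R := by omega
              exact_mod_cast this
            rwa [div_le_iff₀ hδ, mul_comm (R : ℝ)] at this
          have g3 : (T i : ℝ) * (K + 1) ^ 2 * Real.log 5 ≤
              ((K + 1) ^ I * τ₀) * (K + 1) ^ 2 * Real.log 5 := by gcongr
          have g4 : (((K : ℝ) + 1) ^ I * τ₀) * (K + 1) ^ 2 * Real.log 5 =
              ((K : ℝ) + 1) ^ (I + 2) * Real.log 5 * τ₀ := by ring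
          have g5 : ((K : ℝ) + 1) ^ (I + 2) * Real.log 5 * τ₀ ≤ δ / 2 * R * τ₀ := by
            have : (0 : ℝ) ≤ τ₀ := by positivity
            nlinarith
          have g6 : (N : ℝ) = R * τ₀ := by rw [hN]; push_cast; ring
          rw [g6]
          calc (T i : ℝ) * (K + 1) ^ 2 * Real.log 5 ≤ _ := g3
            _ = _ := g4
            _ ≤ _ := g5
            _ = _ := by ring
        calc (T i : ℝ) * ((K * (l * T i : ℕ) + 1) * Real.log 5) * (K + 1)
            ≤ (T i : ℝ) * (((K + 1) * (l * T i : ℕ)) * Real.log 5) * (K + 1) := by gcongr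
          _ = ((T i : ℝ) * (K + 1) ^ 2 * Real.log 5) * (l * T i : ℕ) := by ring
          _ ≤ (δ / 2 * N) * (l * T i : ℕ) := by gcongr
          _ = δ / 2 * ((l * T i : ℕ) * N) := by ring
      have e6 : C (l * T (i + 1)) ≤ (K + 1) * C (l * T i) - δ / 2 * ((l * T i : ℕ) * N) := by
        have hNr : ((R : ℝ) * τ₀) = N := by rw [hN]; push_cast; ring
        have hc' : δ * ((l : ℝ) * T i) * N < ∑ s ∈ range N, c (K * (l * T i)) (s + T i) -
            C (l * T (i + 1)) + C (l * T i) := by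
          rw [← hNr]; exact hc
        have hCe : ∑ s ∈ range N, c (l * T i) s = C (l * T i) := rfl
        have hCe' : ∑ s ∈ range N, c (K * (l * T i)) s = C (K * (l * T i)) := rfl
        rw [hCe, hCe'] at e3
        rw [hCe'] at e2
        push_cast at e2 e3 e5 hc' ⊢
        nlinarith
      have e7 : ((l * T (i + 1) : ℕ) : ℝ) = (K + 1) * (l * T i : ℕ) := by
        rw [hTsucc]; push_cast; ring
      rw [e7]
      have e8 : ((K : ℝ) + 1) * C (l * T i) ≤
          (K + 1) * ((2 * Real.log 5 - i * (δ / (2 * (K + 1)))) * ((l * T i : ℕ) * N)) := by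
        gcongr
      have e9 : (2 * Real.log 5 - ((i + 1 : ℕ) : ℝ) * (δ / (2 * (K + 1)))) *
          ((K + 1) * (l * T i : ℕ) * N) =
          (K + 1) * ((2 * Real.log 5 - i * (δ / (2 * (K + 1)))) * ((l * T i : ℕ) * N)) -
            δ / 2 * ((l * T i : ℕ) * N) := by
        push_cast
        field_simp
        ring
      rw [e9]
      linarith
  have hfin := key I le_rfl
  have hneg : 2 * Real.log 5 - I * (δ / (2 * (K + 1))) < 0 := by
    have : 4 * (K + 1) * Real.log 5 < I * δ := by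
      rwa [div_lt_iff₀ hδ] at hI
    have e : (I : ℝ) * (δ / (2 * (K + 1))) = I * δ / (2 * (K + 1)) := by ring
    rw [e, sub_neg, lt_div_iff₀ (by positivity)]
    linarith
  have hpos : (0 : ℝ) < (l * T I : ℕ) * N := by
    have : (0 : ℝ) < (l * T I : ℕ) := by exact_mod_cast Nat.mul_pos hl (hTpos I)
    positivity
  have := hC0 (l * T I)
  nlinarith [mul_neg_of_neg_of_pos hneg hpos]


end Pool.Agent.Lib_helper56.Low
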