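import Pool.Agent.LowAsm.NG

set_option autoImplicit false

namespace Pool.Agent.Lib_helper56.Low

open Finset

theorem SS_shift (K l M : ℕ) (x y : ℤ) : SS K l M (x + 5 ^ (l * M + 1) * y) = SS K l M x := by
  induction M generalizing x y with
  | zero => rfl
  | succ M ih =>
    have he : (5 : ℤ) ^ (l * (M + 1) + 1) * y = 5 ^ (l + 1) * (5 ^ (l * M) * y) := by
      rw [← mul_assoc, ← pow_add]
      congr 2
      ring
    rw [he]
    show Real.log (hh K l (x + 5 ^ (l + 1) * (5 ^ (l * M) * y))) +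
        ∑ w ∈ words K l, ker K l (x + 5 ^ (l + 1) * (5 ^ (l * M) * y)) w *
          SS K l M (A w (x + 5 ^ (l + 1) * (5 ^ (l * M) * y))) =
      Real.log (hh K l x) + ∑ w ∈ words K l, ker K l x w * SS K l M (A w x)
    rw [hh_shift]
    congr 1
    refine Finset.sum_congr rfl (fun w hw => ?_)
    have hlen := length_of_mem_words hw
    rw [ker_shift K l x _ hlen]
    by_cases h0 : ker K l x w = 0
    · rw [h0, zero_mul, zero_mul]
    · congr 1
      have h1 := A_shift' w x (5 ^ (l * M) * y) (ker_adm h0).1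
      rw [hlen] at h1
      rw [h1, ← ih (A w x) (2 ^ w.sum * y)]
      congr 1
      ring

theorem SS_le_log {K : ℕ} (hK : 8 ≤ K) (l M : ℕ) {x : ℤ} (hx : ¬ (5 : ℤ) ∣ x) :
    SS K l M x ≤ Real.log (hh K (l * M) x) := by
  induction M generalizing x with
  | zero =>
    rw [Nat.mul_zero, hh_zero hK hx, Real.log_one]
    exact le_refl _
  | succ M ih =>
    have h1 : hh K (l * (M + 1)) x =
        hh K l x * ∑ w ∈ words K l, ker K l x w * hh K (l * M) (A w x) := by
      rw [← hh_cocycle hK l (l * M) hx]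
      congr 1
      ring
    classical
    set W := (words K l).filter (fun w => ker K l x w ≠ 0) with hW
    have hWsum : ∀ F : List ℕ → ℝ, ∑ w ∈ words K l, ker K l x w * F w =
        ∑ w ∈ W, ker K l x w * F w := by
      intro F
      rw [hW, Finset.sum_filter]
      refine Finset.sum_congr rfl (fun w _ => ?_)
      split_ifs with h
      · rfl
      · push Not at h
        rw [h, zero_mul]
    have hW1 : ∑ w ∈ W, ker K l x w = 1 := by
      have h2 := hWsum (fun _ => 1)
      simp only [mul_one] at h2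
      rw [← h2]
      exact ker_sum hK l hx
    have hunit : ∀ w ∈ W, ¬ (5 : ℤ) ∣ A w x := fun w hw =>
      (ker_adm (Finset.mem_filter.mp hw).2).2
    have hjensen := strictConcaveOn_log_Ioi.concaveOn.le_map_sum (t := W)
      (w := fun w => ker K l x w) (p := fun w => hh K (l * M) (A w x))
      (fun w _ => ker_nonneg hK l x w) hW1 (fun w hw => hh_pos hK (l * M) (hunit w hw))
    simp only [smul_eq_mul] at hjensen
    have hpos : 0 < ∑ w ∈ W, ker K l x w * hh K (l * M) (A w x) := by
      have hne : W.Nonempty := by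
        rw [Finset.nonempty_iff_ne_empty]
        intro h0
        rw [h0, Finset.sum_empty] at hW1
        exact zero_ne_one hW1
      refine Finset.sum_pos (fun w hw => mul_pos ?_ (hh_pos hK (l * M) (hunit w hw))) hne
      exact lt_of_le_of_ne (ker_nonneg hK l x w) (Ne.symm (Finset.mem_filter.mp hw).2)
    rw [h1, hWsum (fun w => hh K (l * M) (A w x)), Real.log_mul (hh_pos hK l hx).ne' hpos.ne']
    show Real.log (hh K l x) + ∑ w ∈ words K l, ker K l x w * SS K l M (A w x) ≤ _
    rw [hWsum (fun w => SS K l M (A w x))]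
    have h3 : ∑ w ∈ W, ker K l x w * SS K l M (A w x) ≤
        ∑ w ∈ W, ker K l x w * Real.log (hh K (l * M) (A w x)) :=
      Finset.sum_le_sum (fun w hw => mul_le_mul_of_nonneg_left (ih (hunit w hw))
        (ker_nonneg hK l x w))
    linarith

private theorem ssb_split (a b : ℕ) (F : ℕ → ℝ) :
    ∑ y ∈ range (a * b), F y = ∑ y₁ ∈ range b, ∑ y₀ ∈ range a, F (y₀ + a * y₁) := by
  induction b with
  | zero => simp
  | succ b ih =>
    rw [Nat.mul_succ, Finset.sum_range_add, ih, Finset.sum_range_succ]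
    congr 1
    refine Finset.sum_congr rfl (fun y _ => ?_)
    rw [add_comm]

private theorem ssb_per (N : ℕ) (F : ℤ → ℝ) (hF : ∀ x y, F (x + N * y) = F x) (x : ℤ) :
    F (x % N) = F x := by
  have h := hF (x % N) (x / N)
  rw [Int.emod_add_mul_ediv] at h
  exact h.symm

private theorem ssb_cyc (N : ℕ) (hN : 0 < N) (u : ℤ) (hu : IsCoprime u (N : ℤ)) (F : ℤ → ℝ)
    (hF : ∀ x y, F (x + N * y) = F x) :
    ∑ y ∈ range N, F (u * (y : ℤ)) = ∑ y ∈ range N, F (y : ℤ) := by
  have hN' : (0 : ℤ) < N := by exact_mod_cast hN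
  set g : ℕ → ℕ := fun y => ((u * (y : ℤ)) % (N : ℤ)).toNat with hg
  have hgc : ∀ y : ℕ, ((g y : ℕ) : ℤ) = (u * (y : ℤ)) % (N : ℤ) := fun y =>
    Int.toNat_of_nonneg (Int.emod_nonneg _ hN'.ne')
  have hmaps : ∀ y ∈ range N, g y ∈ range N := by
    intro y _
    rw [Finset.mem_range]
    have h1 := Int.emod_lt_of_pos (u * (y : ℤ)) hN'
    rw [← hgc y] at h1
    exact_mod_cast h1
  have hinj : Set.InjOn g (range N : Set ℕ) := by
    intro y hy z hz h
    have h1 : (u * (y : ℤ)) % (N : ℤ) = (u * (z : ℤ)) % (N : ℤ) := by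
      rw [← hgc, ← hgc, h]
    have h2 : (N : ℤ) ∣ u * ((z : ℤ) - y) := by
      have h3 := Int.ModEq.dvd (n := (N : ℤ)) (a := u * (y : ℤ)) (b := u * (z : ℤ)) h1
      rwa [← mul_sub] at h3
    have h3 : (N : ℤ) ∣ (z : ℤ) - y := (IsCoprime.dvd_of_dvd_mul_left hu.symm h2)
    have h4 : (y : ℤ) ≡ (z : ℤ) [ZMOD (N : ℤ)] := (Int.modEq_iff_dvd).mpr h3
    have h5 : y ≡ z [MOD N] := (Int.natCast_modEq_iff).mp h4
    have hy' := Finset.mem_range.mp (Finset.mem_coe.mp hy)
    have hz' := Finset.mem_range.mp (Finset.mem_coe.mp hz)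
    exact Nat.ModEq.eq_of_lt_of_lt h5 hy' hz'
  have himg : (range N).image g = range N := by
    refine Finset.eq_of_subset_of_card_le (Finset.image_subset_iff.mpr hmaps) ?_
    rw [Finset.card_image_of_injOn hinj]
  calc ∑ y ∈ range N, F (u * (y : ℤ)) = ∑ y ∈ range N, F ((g y : ℕ) : ℤ) := by
        refine Finset.sum_congr rfl (fun y _ => ?_)
        rw [hgc, ssb_per N F hF]
    _ = ∑ z ∈ (range N).image g, F ((z : ℕ) : ℤ) :=
        (Finset.sum_image (f := fun z : ℕ => F (z : ℤ)) (fun y hy z hz h => hinj hy hz h)).symm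
    _ = ∑ y ∈ range N, F (y : ℤ) := by rw [himg]

theorem SS_class {K : ℕ} (hK : 8 ≤ K) (l M : ℕ) (D : ℝ)
    (hD : ∀ c : ℤ, ¬ (5 : ℤ) ∣ c → DD K l c ≤ D) (c : ℤ) (hc : ¬ (5 : ℤ) ∣ c) :
    -(M * D) * 5 ^ (l * M) ≤ ∑ y ∈ range (5 ^ (l * M)), SS K l M (c + 5 * (y : ℤ)) := by
  induction M generalizing c with
  | zero => simp [SS]
  | succ M ih =>
    have hpow : 5 ^ (l * (M + 1)) = 5 ^ l * 5 ^ (l * M) := by
      rw [← pow_add]
      congr 1
      ring
    have hunit : ∀ y : ℤ, ¬ (5 : ℤ) ∣ c + 5 * y := by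
      intro y hy
      apply hc
      omega
    have hexp : ∀ y₀ y₁ : ℕ, c + 5 * (((y₀ + 5 ^ l * y₁ : ℕ)) : ℤ) =
        (c + 5 * (y₀ : ℤ)) + 5 ^ (l + 1) * (y₁ : ℤ) := by
      intro y₀ y₁
      push_cast
      ring
    rw [hpow, ssb_split, Finset.sum_comm]
    -- lower bound for fixed `y₀`
    have key : ∀ y₀ ∈ range (5 ^ l),
        (5 : ℝ) ^ (l * M) * Real.log (hh K l (c + 5 * (y₀ : ℤ))) + -(M * D) * 5 ^ (l * M) ≤
          ∑ y₁ ∈ range (5 ^ (l * M)), SS K l (M + 1) (c + 5 * (((y₀ + 5 ^ l * y₁ : ℕ)) : ℤ)) := by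
      intro y₀ _
      set b : ℤ := c + 5 * (y₀ : ℤ) with hb
      have hbu : ¬ (5 : ℤ) ∣ b := hunit y₀
      have h1 : ∀ y₁ ∈ range (5 ^ (l * M)),
          SS K l (M + 1) (c + 5 * (((y₀ + 5 ^ l * y₁ : ℕ)) : ℤ)) =
            Real.log (hh K l b) + ∑ w ∈ words K l, ker K l b w *
              SS K l M (A w b + 5 * (2 ^ w.sum * (y₁ : ℤ))) := by
        intro y₁ _
        rw [hexp, ← hb]
        show Real.log (hh K l (b + 5 ^ (l + 1) * (y₁ : ℤ))) +
          ∑ w ∈ words K l, ker K l (b + 5 ^ (l + 1) * (y₁ : ℤ)) w *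
            SS K l M (A w (b + 5 ^ (l + 1) * (y₁ : ℤ))) = _
        rw [hh_shift]
        congr 1
        refine Finset.sum_congr rfl (fun w hw => ?_)
        have hlen := length_of_mem_words hw
        rw [ker_shift K l b _ hlen]
        by_cases h0 : ker K l b w = 0
        · rw [h0, zero_mul, zero_mul]
        · congr 1
          have h1 := A_shift' w b (y₁ : ℤ) (ker_adm h0).1
          rw [hlen] at h1
          rw [h1]
          congr 1
          ring
      rw [Finset.sum_congr rfl h1, Finset.sum_add_distrib, Finset.sum_const, Finset.card_range,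
        Finset.sum_comm, nsmul_eq_mul]
      push_cast
      have h2 : ∀ w ∈ words K l, ker K l b w * (-(M * D) * 5 ^ (l * M)) ≤
          ∑ y₁ ∈ range (5 ^ (l * M)), ker K l b w *
              SS K l M (A w b + 5 * (2 ^ w.sum * (y₁ : ℤ))) := by
        intro w _
        rw [← Finset.mul_sum]
        by_cases h0 : ker K l b w = 0
        · rw [h0, zero_mul, zero_mul]
        · refine mul_le_mul_of_nonneg_left ?_ (ker_nonneg hK l b w)
          have h3 := ssb_cyc (5 ^ (l * M)) (by positivity) (2 ^ w.sum)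
            (by
              push_cast
              exact IsCoprime.pow (by norm_num : IsCoprime (2 : ℤ) 5))
            (fun y => SS K l M (A w b + 5 * y)) (fun y z => by
              have h4 := SS_shift K l M (A w b + 5 * y) z
              push_cast
              rw [← h4]
              congr 1
              ring)
          rw [h3]
          exact ih (A w b) (ker_adm h0).2
      have h3 : -(M * D) * 5 ^ (l * M) = ∑ w ∈ words K l, ker K l b w * (-(M * D) * 5 ^ (l * M)) := by
        rw [← Finset.sum_mul, ker_sum hK l hbu, one_mul]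
      have h4 := Finset.sum_le_sum h2
      rw [← h3] at h4
      linarith
    refine le_trans ?_ (Finset.sum_le_sum key)
    rw [Finset.sum_add_distrib, ← Finset.mul_sum, Finset.sum_const, Finset.card_range, nsmul_eq_mul]
    have hDc := hD c hc
    unfold DD at hDc
    rw [div_le_iff₀ (by positivity), Finset.sum_neg_distrib] at hDc
    have h5 : (0 : ℝ) < 5 ^ (l * M) := by positivity
    have h6 : -(D * 5 ^ l) ≤ ∑ y ∈ range (5 ^ l), Real.log (hh K l (c + 5 * (y : ℤ))) := by linarith
    have h7 := mul_le_mul_of_nonneg_left h6 h5.le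
    push_cast
    have hpow' : (5 : ℝ) ^ (l * (M + 1)) = 5 ^ l * 5 ^ (l * M) := by
      rw [← pow_add]
      congr 1
      ring
    have h8 : -(((M : ℝ) + 1) * D) * (5 ^ l * 5 ^ (l * M)) =
        5 ^ (l * M) * -(D * 5 ^ l) + 5 ^ l * (-(M * D) * 5 ^ (l * M)) := by ring
    rw [hpow', h8]
    linarith

private theorem ssb_EE_zero (K l : ℕ) (x : ℤ) (F : ℤ → ℝ) : EE K l 0 x F = F x := by
  unfold EE
  rw [Nat.mul_zero]
  simp [words, q, A]

private theorem ssb_EE_succ (K l t : ℕ) (x : ℤ) (F : ℤ → ℝ) :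
    EE K l (t + 1) x F = ∑ w ∈ words K l, ker K l x w * EE K l t (A w x) F := by
  unfold EE
  have h1 : l * (t + 1) = l + l * t := by ring
  rw [h1, sum_words_add]
  refine Finset.sum_congr rfl (fun u hu => ?_)
  rw [Finset.mul_sum]
  refine Finset.sum_congr rfl (fun w _ => ?_)
  have hlen := length_of_mem_words hu
  have h2 : (u ++ w).take l = u := by rw [← hlen]; exact List.take_left
  have h3 : (u ++ w).drop l = w := by rw [← hlen]; exact List.drop_left
  show ker K l x ((u ++ w).take l) * q K l t (A ((u ++ w).take l) x) ((u ++ w).drop l) *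
    F (A (u ++ w) x) = _
  rw [h2, h3, A_append]
  ring

theorem SS_add {K : ℕ} (l M N : ℕ) (x : ℤ) :
    SS K l (M + N) x = SS K l M x + EE K l M x (SS K l N) := by
  induction M generalizing x with
  | zero =>
    rw [ssb_EE_zero, Nat.zero_add]
    show _ = 0 + _
    rw [zero_add]
  | succ M ih =>
    have h1 : M + 1 + N = (M + N) + 1 := by ring
    rw [h1, ssb_EE_succ]
    show Real.log (hh K l x) + ∑ w ∈ words K l, ker K l x w * SS K l (M + N) (A w x) =
      (Real.log (hh K l x) + ∑ w ∈ words K l, ker K l x w * SS K l M (A w x)) + _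
    rw [add_assoc, ← Finset.sum_add_distrib]
    congr 1
    refine Finset.sum_congr rfl (fun w _ => ?_)
    rw [ih, mul_add]

theorem EE_SS {K : ℕ} (l t M : ℕ) (x : ℤ) :
    EE K l t x (SS K l M) =
      ∑ i ∈ range M, EE K l (t + i) x (fun y => Real.log (hh K l y)) := by
  induction M with
  | zero =>
    rw [Finset.sum_range_zero]
    unfold EE
    exact Finset.sum_eq_zero (fun w _ => by simp [SS])
  | succ M ih =>
    rw [Finset.sum_range_succ, ← ih, EE_add]
    have h1 : ∀ y : ℤ, SS K l (M + 1) y =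
        SS K l M y + EE K l M y (fun y => Real.log (hh K l y)) := by
      intro y
      have h2 : SS K l 1 = fun y => Real.log (hh K l y) := by
        funext z
        show Real.log (hh K l z) + ∑ w ∈ words K l, ker K l z w * SS K l 0 (A w z) = _
        simp [SS]
      rw [SS_add, h2]
    unfold EE at *
    rw [← Finset.sum_add_distrib]
    refine Finset.sum_congr rfl (fun w _ => ?_)
    rw [h1, mul_add]

theorem SS_eq {K : ℕ} (l M : ℕ) (x : ℤ) :
    SS K l M x = ∑ i ∈ range M, EE K l i x (fun y => Real.log (hh K l y)) := by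
  have h := EE_SS (K := K) l 0 M x
  rw [ssb_EE_zero] at h
  rw [h]
  refine Finset.sum_congr rfl (fun i _ => ?_)
  rw [Nat.zero_add]

theorem log_hh_bdd {K : ℕ} (hK : 8 ≤ K) (l : ℕ) : ∃ C : ℝ, 0 ≤ C ∧ ∀ x : ℤ, ¬ (5 : ℤ) ∣ x →
    |Real.log (hh K l x)| ≤ C := by
  refine ⟨∑ y ∈ range (5 ^ (l + 1)), |Real.log (hh K l (y : ℤ))|,
    Finset.sum_nonneg (fun _ _ => abs_nonneg _), fun x _ => ?_⟩
  have hN : (0 : ℤ) < 5 ^ (l + 1) := by positivity
  have h1 : hh K l (x % 5 ^ (l + 1)) = hh K l x := by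
    have h := hh_shift K l (x % 5 ^ (l + 1)) (x / 5 ^ (l + 1))
    rw [Int.emod_add_mul_ediv] at h
    exact h.symm
  have h2 : (((x % 5 ^ (l + 1)).toNat : ℕ) : ℤ) = x % 5 ^ (l + 1) :=
    Int.toNat_of_nonneg (Int.emod_nonneg _ hN.ne')
  have h3 : (x % 5 ^ (l + 1)).toNat ∈ range (5 ^ (l + 1)) := by
    rw [Finset.mem_range]
    have h4 := Int.emod_lt_of_pos x hN
    rw [← h2] at h4
    exact_mod_cast h4
  have h5 := Finset.single_le_sum (f := fun y : ℕ => |Real.log (hh K l (y : ℤ))|)
    (fun _ _ => abs_nonneg _) h3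
  simp only [h2, h1] at h5
  exact h5

end Pool.Agent.Lib_helper56.Low
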