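import Pool.Agent.LowAsm.OS

set_option autoImplicit false

namespace Pool.Agent.Lib_helper56.Low

open Finset


/-- log-sum inequality -/
theorem TL_jensen (R : Finset ℕ) (J s : ℕ → ℝ) (hJ : ∀ v ∈ R, 0 ≤ J v) (hs : ∀ v ∈ R, 0 ≤ s v)
    (hJs : ∀ v ∈ R, 0 < J v → 0 < s v) (h1 : ∑ v ∈ R, J v = 1) :
    ∑ v ∈ R, J v * Real.log (s v / J v) ≤ Real.log (∑ v ∈ R, s v) := by
  have hpos : 0 < ∑ v ∈ R, s v := by
    by_contra hcon
    have h0 : ∑ v ∈ R, s v = 0 := le_antisymm (not_lt.mp hcon) (Finset.sum_nonneg hs)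
    have h2 := (Finset.sum_eq_zero_iff_of_nonneg hs).mp h0
    have h3 : ∑ v ∈ R, J v = 0 := Finset.sum_eq_zero (fun v hv => by
      rcases (hJ v hv).lt_or_eq with h | h
      · exact absurd (h2 v hv) (hJs v hv h).ne'
      · exact h.symm)
    rw [h1] at h3
    exact one_ne_zero h3
  set W := ∑ v ∈ R, s v with hW
  have h2 : ∀ v ∈ R, J v * Real.log (s v / J v) - J v * Real.log W ≤ s v / W - J v := by
    intro v hv
    rcases (hJ v hv).lt_or_eq with h | h
    · have hsv := hJs v hv h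
      have e1 : J v * Real.log (s v / J v) - J v * Real.log W = J v * Real.log (s v / J v / W) := by
        rw [Real.log_div (by positivity) hpos.ne']
        ring
      rw [e1]
      have h3 := Real.log_le_sub_one_of_pos (show 0 < s v / J v / W by positivity)
      have h4 := mul_le_mul_of_nonneg_left h3 h.le
      refine h4.trans (le_of_eq ?_)
      field_simp
    · rw [← h]
      have := div_nonneg (hs v hv) hpos.le
      simpa using this
  have h5 := Finset.sum_le_sum h2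
  rw [Finset.sum_sub_distrib, Finset.sum_sub_distrib, ← Finset.sum_mul, ← Finset.sum_div, h1,
    ← hW, div_self hpos.ne', one_mul, sub_self] at h5
  linarith

theorem TL_sum_range_mul (m n : ℕ) (F : ℕ → ℝ) :
    ∑ Z ∈ range (m * n), F Z = ∑ T ∈ range m, ∑ Z ∈ range n, F (T + m * Z) := by
  induction n with
  | zero => simp
  | succ n ih =>
    rw [Nat.mul_succ, Finset.sum_range_add, ih]
    have : ∀ T ∈ range m, ∑ Z ∈ range (n + 1), F (T + m * Z) =
        ∑ Z ∈ range n, F (T + m * Z) + F (T + m * n) := fun T _ => Finset.sum_range_succ _ _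
    rw [Finset.sum_congr rfl this, Finset.sum_add_distrib]
    congr 1
    exact Finset.sum_congr rfl (fun T _ => by rw [add_comm])

/-- the class of `a` modulo `5^s` -/
def TLc {ι : Type} (S : Finset ι) (e : ι → ℤ) (s : ℕ) (a : ℤ) : Finset ι :=
  S.filter (fun i => e i % 5 ^ s = a % 5 ^ s)

theorem TLc_mem {ι : Type} {S : Finset ι} {e : ι → ℤ} {s : ℕ} {a : ℤ} {i : ι} :
    i ∈ TLc S e s a ↔ i ∈ S ∧ ∃ y : ℤ, e i = a + 5 ^ s * y := by
  unfold TLc
  rw [Finset.mem_filter]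
  refine and_congr_right (fun _ => ?_)
  have h := @Int.modEq_iff_add_fac a (e i) (5 ^ s)
  unfold Int.ModEq at h
  rw [← h]
  exact eq_comm

theorem TLc_congr {ι : Type} (S : Finset ι) (e : ι → ℤ) (s : ℕ) (a y : ℤ) :
    TLc S e s (a + 5 ^ s * y) = TLc S e s a := by
  unfold TLc
  rw [Int.add_mul_emod_self_left]

theorem TL_part {ι : Type} (S : Finset ι) (e : ι → ℤ) (s s' L : ℕ) (hs' : s' = s + L) (a : ℤ)
    (g : ι → ℝ) :
    ∑ i ∈ TLc S e s a, g i =
      ∑ v ∈ range (5 ^ L), ∑ i ∈ TLc S e s' (a + 5 ^ s * (v : ℤ)), g i := by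
  subst hs'
  have hp : (0 : ℤ) < 5 ^ L := by positivity
  have hps : (0 : ℤ) < 5 ^ s := by positivity
  have hmaps : ∀ i ∈ TLc S e s a, (((e i - a) / 5 ^ s) % 5 ^ L).toNat ∈ range (5 ^ L) := by
    intro i _
    rw [Finset.mem_range]
    have h1 := Int.emod_nonneg ((e i - a) / 5 ^ s) hp.ne'
    have h2 := Int.emod_lt_of_pos ((e i - a) / 5 ^ s) hp
    zify
    rw [Int.toNat_of_nonneg h1]
    exact h2
  rw [← Finset.sum_fiberwise_of_maps_to hmaps]
  refine Finset.sum_congr rfl (fun v hv => Finset.sum_congr ?_ (fun _ _ => rfl))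
  rw [Finset.mem_range] at hv
  ext i
  rw [Finset.mem_filter, TLc_mem, TLc_mem]
  constructor
  · rintro ⟨⟨hi, y, hy⟩, h⟩
    refine ⟨hi, y / 5 ^ L, ?_⟩
    have h1 : (e i - a) / 5 ^ s = y := by
      rw [hy, add_sub_cancel_left, Int.mul_ediv_cancel_left _ hps.ne']
    rw [h1] at h
    have h2 : y % 5 ^ L = v := by
      rw [← h, Int.toNat_of_nonneg (Int.emod_nonneg _ hp.ne')]
    have h3 := Int.emod_add_mul_ediv y (5 ^ L)
    rw [h2] at h3
    rw [hy]
    nth_rewrite 1 [← h3]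
    rw [pow_add]
    ring
  · rintro ⟨hi, y, hy⟩
    have h0 : e i = a + 5 ^ s * ((v : ℤ) + 5 ^ L * y) := by rw [hy, pow_add]; ring
    refine ⟨⟨hi, _, h0⟩, ?_⟩
    rw [h0, add_sub_cancel_left, Int.mul_ediv_cancel_left _ hps.ne', Int.add_mul_emod_self_left,
      Int.emod_eq_of_lt (by positivity) (by exact_mod_cast hv)]
    simp

open Classical in
/-- value of a window -/
noncomputable def TLval {ι : Type} (S : Finset ι) (P : ι → ℝ) (e : ι → ℤ) (L : ℕ) (Q c : ℝ)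
    (j : ℕ) (x : ℤ) : ℝ :=
  if NU S P e j L x then 1 / 2 * Real.log Q + 1 / 2 * Real.log c else Real.log c

theorem TLval_congr {ι : Type} (S : Finset ι) (P : ι → ℝ) (e : ι → ℤ) (L : ℕ) (Q c : ℝ)
    (j : ℕ) (x y : ℤ) (h : x % 5 ^ j = y % 5 ^ j) :
    TLval S P e L Q c j x = TLval S P e L Q c j y := by
  unfold TLval NU
  rw [h]

theorem TL_J {ι : Type} (f : ℕ → ℤ → ℝ) (L : ℕ) (Q c : ℝ) (hQ0 : 0 < Q) (hc0 : 0 < c)
    (hfpos : ∀ t y, ¬ (5 : ℤ) ∣ y → 0 < f t y)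
    (hfper : ∀ t y z, f t (y + 5 ^ (t + 1) * z) = f t y)
    (hfc : ∀ t y, ¬ (5 : ℤ) ∣ y → c * f t y ≤ f (t + L) y)
    (hfQ : ∀ t y, ∑ z ∈ range (5 ^ L), f (t + L) (y + 5 ^ (t + 1) * (z : ℤ)) = 5 ^ L * Q * f t y)
    (S : Finset ι) (P : ι → ℝ) (e : ι → ℤ) (hP : ∀ i ∈ S, 0 ≤ P i)
    (t : ℕ) (a τ : ℤ) (ha : ¬ (5 : ℤ) ∣ a + τ)
    (hΘ : 0 < ∑ i ∈ TLc S e (t + 1) a, P i) :
    ∃ J : ℕ → ℕ → ℝ, (∀ T v, 0 ≤ J T v) ∧
      (∀ T ∈ range (5 ^ L), ∑ v ∈ range (5 ^ L), J T v = 1) ∧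
      (∀ v ∈ range (5 ^ L), ∑ T ∈ range (5 ^ L), J T v =
        5 ^ L * ((∑ i ∈ TLc S e (t + L + 1) (a + 5 ^ (t + 1) * (v : ℤ)), P i) /
          (∑ i ∈ TLc S e (t + 1) a, P i))) ∧
      5 ^ L * TLval S P e L Q c (t + 1) a ≤
        ∑ T ∈ range (5 ^ L), ∑ v ∈ range (5 ^ L),
          J T v * Real.log (((∑ i ∈ TLc S e (t + L + 1) (a + 5 ^ (t + 1) * (v : ℤ)), P i) /
            (∑ i ∈ TLc S e (t + 1) a, P i)) *
            (f (t + L) (a + τ + 5 ^ (t + 1) * ((T : ℤ) + (v : ℤ))) / f t (a + τ)) / J T v) := by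
  have hM : (0 : ℝ) < 5 ^ L := by positivity
  have hf0 := hfpos t (a + τ) ha
  have h5 : ∀ x : ℤ, ¬ (5 : ℤ) ∣ a + τ + 5 ^ (t + 1) * x := by
    intro x h
    apply ha
    have : (5 : ℤ) ∣ 5 ^ (t + 1) * x := Dvd.dvd.mul_right (dvd_pow_self 5 (by omega)) _
    exact (dvd_add_left this).mp h
  set Θ := ∑ i ∈ TLc S e (t + 1) a, P i with hΘdef
  let θ : ℤ → ℝ := fun x => (∑ i ∈ TLc S e (t + L + 1) (a + 5 ^ (t + 1) * x), P i) / Θ
  let ρ : ℤ → ℝ := fun x => f (t + L) (a + τ + 5 ^ (t + 1) * x) / f t (a + τ)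
  have hθ : ∀ x, 0 ≤ θ x := fun x => by
    refine div_nonneg (Finset.sum_nonneg (fun i hi => hP i (TLc_mem.mp hi).1)) hΘ.le
  have hρ : ∀ x, 0 < ρ x := fun x => div_pos (hfpos _ _ (h5 x)) hf0
  have hθp : ∀ x, θ (x + 5 ^ L) = θ x := fun x => by
    simp only [θ]
    have : a + 5 ^ (t + 1) * (x + 5 ^ L) = a + 5 ^ (t + 1) * x + 5 ^ (t + L + 1) * 1 := by
      rw [show t + L + 1 = t + 1 + L by ring, pow_add 5 (t + 1) L]
      ring
    rw [this, TLc_congr]
  have hρp : ∀ x, ρ (x + 5 ^ L) = ρ x := fun x => by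
    simp only [ρ]
    have : a + τ + 5 ^ (t + 1) * (x + 5 ^ L) = a + τ + 5 ^ (t + 1) * x + 5 ^ (t + L + 1) * 1 := by
      rw [show t + L + 1 = t + 1 + L by ring, pow_add 5 (t + 1) L]
      ring
    rw [this, hfper]
  have hθ1 : ∑ i ∈ range (5 ^ L), θ (i : ℤ) = 1 := by
    simp only [θ]
    rw [← Finset.sum_div, ← TL_part S e (t + 1) (t + L + 1) L (by ring) a P, ← hΘdef,
      div_self hΘ.ne']
  have hρQ : ∑ i ∈ range (5 ^ L), ρ (i : ℤ) = 5 ^ L * Q := by
    simp only [ρ]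
    rw [← Finset.sum_div, hfQ t (a + τ), mul_div_assoc, div_self hf0.ne', mul_one]
  have hρc : ∀ x, c ≤ ρ x := fun x => by
    simp only [ρ]
    rw [le_div_iff₀ hf0]
    have h1 := hfc t _ (h5 x)
    rwa [hfper] at h1
  by_cases hNU : NU S P e (t + 1) L a
  · have hflat : ∀ x, 1 ≤ 2 * 5 ^ L * θ x := fun x => by
      have h1 := hNU (a + 5 ^ (t + 1) * x) (by rw [Int.add_mul_emod_self_left])
      rw [show t + 1 + L = t + L + 1 by ring] at h1
      have h2 : Θ ≤ 2 * 5 ^ L * ∑ i ∈ TLc S e (t + L + 1) (a + 5 ^ (t + 1) * x), P i := h1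
      simp only [θ]
      rw [← mul_div_assoc, le_div_iff₀ hΘ, one_mul]
      exact h2
    obtain ⟨J, h1, h2, h3, h4⟩ := one_step L θ ρ hθ hρ hθp hρp hθ1 hflat Q c hQ0 hc0 hρQ hρc
    refine ⟨J, h1, h2, h3, ?_⟩
    unfold TLval
    rw [if_pos hNU]
    exact h4
  · refine ⟨fun _ v => θ (v : ℤ), fun _ v => hθ _, fun _ _ => hθ1, ?_, ?_⟩
    · intro v _
      rw [Finset.sum_const, Finset.card_range, nsmul_eq_mul]
      push_cast
      rfl
    · unfold TLval
      rw [if_neg hNU]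
      have key : ∀ T v : ℕ, θ (v : ℤ) * Real.log c ≤
          θ (v : ℤ) * Real.log (θ (v : ℤ) * ρ ((T : ℤ) + (v : ℤ)) / θ (v : ℤ)) := by
        intro T v
        rcases (hθ (v : ℤ)).lt_or_eq with h | h
        · refine mul_le_mul_of_nonneg_left ?_ h.le
          rw [mul_div_assoc, mul_comm, div_mul_cancel₀ _ h.ne']
          exact Real.log_le_log hc0 (hρc _)
        · rw [← h]; simp
      calc 5 ^ L * Real.log c
          = ∑ T ∈ range (5 ^ L), ∑ v ∈ range (5 ^ L), θ (v : ℤ) * Real.log c := by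
            rw [Finset.sum_congr rfl (fun T _ => (Finset.sum_mul (range (5 ^ L))
              (fun v : ℕ => θ (v : ℤ)) (Real.log c)).symm), hθ1, Finset.sum_const,
              Finset.card_range, nsmul_eq_mul]
            push_cast
            ring
        _ ≤ _ := Finset.sum_le_sum (fun T _ => Finset.sum_le_sum (fun v _ => key T v))

theorem TL_main {ι : Type} (f : ℕ → ℤ → ℝ) (L : ℕ) (Q c : ℝ) (hQ0 : 0 < Q) (hc0 : 0 < c)
    (hfpos : ∀ t y, ¬ (5 : ℤ) ∣ y → 0 < f t y)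
    (hfper : ∀ t y z, f t (y + 5 ^ (t + 1) * z) = f t y)
    (hfc : ∀ t y, ¬ (5 : ℤ) ∣ y → c * f t y ≤ f (t + L) y)
    (hfQ : ∀ t y, ∑ z ∈ range (5 ^ L), f (t + L) (y + 5 ^ (t + 1) * (z : ℤ)) = 5 ^ L * Q * f t y)
    (S : Finset ι) (P : ι → ℝ) (e : ι → ℤ) (hP : ∀ i ∈ S, 0 ≤ P i) (B : ℕ) :
    ∀ (t : ℕ) (a τ : ℤ), ¬ (5 : ℤ) ∣ a → (5 : ℤ) ∣ τ → 0 < ∑ i ∈ TLc S e (t + 1) a, P i →
    5 ^ (L * B) * (Real.log (∑ i ∈ TLc S e (t + 1) a, P i) + Real.log (f t (a + τ)) +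
      (∑ i ∈ TLc S e (t + 1) a, P i * ∑ k ∈ range B, TLval S P e L Q c (t + L * k + 1) (e i)) /
        (∑ i ∈ TLc S e (t + 1) a, P i)) ≤
    ∑ Z ∈ range (5 ^ (L * B)), Real.log (∑ i ∈ TLc S e (t + 1) a,
      P i * f (t + L * B) (e i + τ + 5 ^ (t + 1) * (Z : ℤ))) := by
  induction B with
  | zero =>
    intro t a τ ha hτ hΘ
    have hu : ¬ (5 : ℤ) ∣ a + τ := fun h => ha ((dvd_add_left hτ).mp h)
    have h1 : ∀ i ∈ TLc S e (t + 1) a, P i * f (t + 0) (e i + τ + 5 ^ (t + 1) * ((0 : ℕ) : ℤ)) =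
        P i * f t (a + τ) := by
      intro i hi
      show P i * f t (e i + τ + 5 ^ (t + 1) * ((0 : ℕ) : ℤ)) = P i * f t (a + τ)
      obtain ⟨_, y, hy⟩ := TLc_mem.mp hi
      rw [hy, show a + 5 ^ (t + 1) * y + τ + 5 ^ (t + 1) * ((0 : ℕ) : ℤ) =
        a + τ + 5 ^ (t + 1) * y by push_cast; ring, hfper]
    rw [Nat.mul_zero, pow_zero, pow_zero, Finset.sum_range_one,
      Finset.sum_congr rfl h1, ← Finset.sum_mul, Real.log_mul hΘ.ne' (hfpos _ _ hu).ne']
    simp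
  | succ B ih =>
    intro t a τ ha hτ hΘ
    have hu : ¬ (5 : ℤ) ∣ a + τ := fun h => ha ((dvd_add_left hτ).mp h)
    obtain ⟨J, hJ0, hJ1, hJ2, hJ3⟩ := TL_J f L Q c hQ0 hc0 hfpos hfper hfc hfQ S P e hP t a τ hu hΘ
    set Θ := ∑ i ∈ TLc S e (t + 1) a, P i with hΘdef
    have hf0 := hfpos t (a + τ) hu
    have hM : (0 : ℝ) < 5 ^ L := by positivity
    have hLB : (0 : ℝ) < 5 ^ (L * B) := by positivity
    have hpow : (5 : ℕ) ^ (L * (B + 1)) = 5 ^ L * 5 ^ (L * B) := by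
      rw [Nat.mul_succ, pow_add, mul_comm]
    have hpowR : (5 : ℝ) ^ (L * (B + 1)) = 5 ^ L * 5 ^ (L * B) := by
      rw [Nat.mul_succ, pow_add, mul_comm]
    have h5pow : (5 : ℤ) ∣ 5 ^ (t + 1) := dvd_pow_self 5 (by omega)
    -- masses of the subclasses
    let U : ℕ → Finset ι := fun v => TLc S e (t + L + 1) (a + 5 ^ (t + 1) * (v : ℤ))
    let m : ℕ → ℝ := fun v => ∑ i ∈ U v, P i
    have hm0 : ∀ v, 0 ≤ m v := fun v => Finset.sum_nonneg (fun i hi => hP i (TLc_mem.mp hi).1)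
    let s : ℕ → ℕ → ℕ → ℝ := fun T Z v => ∑ i ∈ U v,
      P i * f (t + L + L * B) (e i + (τ + 5 ^ (t + 1) * (T : ℤ)) + 5 ^ (t + L + 1) * (Z : ℤ))
    have hunit : ∀ (v T Z : ℕ), ∀ i ∈ U v,
        ¬ (5 : ℤ) ∣ e i + (τ + 5 ^ (t + 1) * (T : ℤ)) + 5 ^ (t + L + 1) * (Z : ℤ) := by
      intro v T Z i hi h
      obtain ⟨_, y, hy⟩ := TLc_mem.mp hi
      apply ha
      rw [hy] at h
      have e1 : a + 5 ^ (t + 1) * (v : ℤ) + 5 ^ (t + L + 1) * y + (τ + 5 ^ (t + 1) * (T : ℤ)) +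
          5 ^ (t + L + 1) * (Z : ℤ) =
          a + (5 ^ (t + 1) * ((v : ℤ) + 5 ^ L * y + (T : ℤ) + 5 ^ L * (Z : ℤ)) + τ) := by
        rw [show t + L + 1 = t + 1 + L by ring, pow_add 5 (t + 1) L]
        ring
      rw [e1] at h
      exact (dvd_add_left ((Dvd.dvd.mul_right h5pow _).add hτ)).mp h
    have hs0 : ∀ T Z v, 0 ≤ s T Z v := fun T Z v =>
      Finset.sum_nonneg (fun i hi => mul_nonneg (hP i (TLc_mem.mp hi).1)
        (hfpos _ _ (hunit v T Z i hi)).le)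
    have hspos : ∀ T Z v, 0 < m v → 0 < s T Z v := by
      intro T Z v hv
      obtain ⟨i, hi, hPi⟩ := Finset.exists_lt_of_sum_lt (f := fun _ => (0 : ℝ)) (g := P)
        (s := U v) (by simpa using hv)
      refine Finset.sum_pos' (fun i hi => mul_nonneg (hP i (TLc_mem.mp hi).1)
        (hfpos _ _ (hunit v T Z i hi)).le) ⟨i, hi, mul_pos hPi (hfpos _ _ (hunit v T Z i hi))⟩
    have hJm : ∀ T ∈ range (5 ^ L), ∀ v ∈ range (5 ^ L), 0 < J T v → 0 < m v := by
      intro T hT v hv hJ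
      have h1 : J T v ≤ ∑ T ∈ range (5 ^ L), J T v :=
        Finset.single_le_sum (f := fun T => J T v) (fun T _ => hJ0 T v) hT
      rw [hJ2 v hv] at h1
      have h2 : 0 < 5 ^ L * (m v / Θ) := lt_of_lt_of_le hJ h1
      rcases (hm0 v).lt_or_eq with h | h
      · exact h
      · rw [← h] at h2
        simp at h2
    -- the sum over `Z`
    have hsum : ∑ Z ∈ range (5 ^ (L * (B + 1))), Real.log (∑ i ∈ TLc S e (t + 1) a,
        P i * f (t + L * (B + 1)) (e i + τ + 5 ^ (t + 1) * (Z : ℤ))) =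
        ∑ T ∈ range (5 ^ L), ∑ Z ∈ range (5 ^ (L * B)),
          Real.log (∑ v ∈ range (5 ^ L), s T Z v) := by
      rw [hpow, TL_sum_range_mul]
      refine Finset.sum_congr rfl (fun T _ => Finset.sum_congr rfl (fun Z _ => ?_))
      congr 1
      rw [TL_part S e (t + 1) (t + L + 1) L (by ring) a]
      refine Finset.sum_congr rfl (fun v _ => Finset.sum_congr rfl (fun i _ => ?_))
      congr 2
      · ring
      · push_cast
        rw [show t + L + 1 = t + 1 + L by ring, pow_add 5 (t + 1) L]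
        ring
    rw [hsum]
    -- Jensen
    have hjen : ∀ T ∈ range (5 ^ L), ∀ Z ∈ range (5 ^ (L * B)),
        ∑ v ∈ range (5 ^ L), J T v * Real.log (s T Z v / J T v) ≤
          Real.log (∑ v ∈ range (5 ^ L), s T Z v) := by
      intro T hT Z _
      exact TL_jensen _ _ _ (fun v _ => hJ0 T v) (fun v _ => hs0 T Z v)
        (fun v hv hJ => hspos T Z v (hJm T hT v hv hJ)) (hJ1 T hT)
    refine le_trans ?_ (Finset.sum_le_sum (fun T hT => Finset.sum_le_sum (hjen T hT)))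
    -- the induction hypothesis
    let G : ℕ → ℝ := fun v =>
      (∑ i ∈ U v, P i * ∑ k ∈ range B, TLval S P e L Q c (t + L + L * k + 1) (e i)) / m v
    have hstep : ∀ T ∈ range (5 ^ L), ∀ v ∈ range (5 ^ L),
        5 ^ (L * B) * (J T v * (Real.log Θ + Real.log (f t (a + τ)))) +
        5 ^ (L * B) * (J T v * Real.log ((m v / Θ) *
            (f (t + L) (a + τ + 5 ^ (t + 1) * ((T : ℤ) + (v : ℤ))) / f t (a + τ)) / J T v)) +
        5 ^ (L * B) * (J T v * G v) ≤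
        ∑ Z ∈ range (5 ^ (L * B)), J T v * Real.log (s T Z v / J T v) := by
      intro T hT v hv
      rcases (hJ0 T v).lt_or_eq with hJ | hJ
      · have hmv := hJm T hT v hv hJ
        have hav : ¬ (5 : ℤ) ∣ a + 5 ^ (t + 1) * (v : ℤ) := fun h =>
          ha ((dvd_add_left (Dvd.dvd.mul_right h5pow _)).mp h)
        have hτT : (5 : ℤ) ∣ τ + 5 ^ (t + 1) * (T : ℤ) := hτ.add (Dvd.dvd.mul_right h5pow _)
        have h1 := ih (t + L) (a + 5 ^ (t + 1) * (v : ℤ)) (τ + 5 ^ (t + 1) * (T : ℤ)) hav hτT hmv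
        have hfpos1 : 0 < f (t + L) (a + τ + 5 ^ (t + 1) * ((T : ℤ) + (v : ℤ))) := by
          apply hfpos
          intro h
          exact hu ((dvd_add_left (Dvd.dvd.mul_right h5pow _)).mp h)
        have h2 : ∑ Z ∈ range (5 ^ (L * B)), J T v * Real.log (s T Z v / J T v) =
            J T v * ∑ Z ∈ range (5 ^ (L * B)), Real.log (s T Z v) -
              5 ^ (L * B) * (J T v * Real.log (J T v)) := by
          rw [← Finset.mul_sum]
          have h3 : ∀ Z ∈ range (5 ^ (L * B)), Real.log (s T Z v / J T v) =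
              Real.log (s T Z v) - Real.log (J T v) := fun Z _ =>
            Real.log_div (hspos T Z v hmv).ne' hJ.ne'
          rw [Finset.sum_congr rfl h3, Finset.sum_sub_distrib, Finset.sum_const,
            Finset.card_range, nsmul_eq_mul]
          push_cast
          ring
        rw [h2]
        have h4 : Real.log ((m v / Θ) *
            (f (t + L) (a + τ + 5 ^ (t + 1) * ((T : ℤ) + (v : ℤ))) / f t (a + τ)) / J T v) =
            Real.log (m v) - Real.log Θ +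
            (Real.log (f (t + L) (a + τ + 5 ^ (t + 1) * ((T : ℤ) + (v : ℤ)))) -
              Real.log (f t (a + τ))) - Real.log (J T v) := by
          rw [Real.log_div (by positivity) hJ.ne', Real.log_mul (by positivity) (by positivity),
            Real.log_div hmv.ne' hΘ.ne', Real.log_div hfpos1.ne' hf0.ne']
        rw [h4]
        have h5 : a + 5 ^ (t + 1) * (v : ℤ) + (τ + 5 ^ (t + 1) * (T : ℤ)) =
            a + τ + 5 ^ (t + 1) * ((T : ℤ) + (v : ℤ)) := by ring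
        rw [h5] at h1
        have h6 := mul_le_mul_of_nonneg_left h1 hJ.le
        have h7 : J T v * (5 ^ (L * B) * (Real.log (m v) +
            Real.log (f (t + L) (a + τ + 5 ^ (t + 1) * ((T : ℤ) + (v : ℤ)))) + G v)) ≤
            J T v * ∑ Z ∈ range (5 ^ (L * B)), Real.log (s T Z v) := h6
        nlinarith [h7]
      · rw [← hJ]; simp
    have hswap : ∑ T ∈ range (5 ^ L), ∑ Z ∈ range (5 ^ (L * B)), ∑ v ∈ range (5 ^ L),
        J T v * Real.log (s T Z v / J T v) =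
        ∑ T ∈ range (5 ^ L), ∑ v ∈ range (5 ^ L), ∑ Z ∈ range (5 ^ (L * B)),
          J T v * Real.log (s T Z v / J T v) :=
      Finset.sum_congr rfl (fun T _ => Finset.sum_comm)
    rw [hswap]
    refine le_trans ?_ (Finset.sum_le_sum (fun T hT => Finset.sum_le_sum (hstep T hT)))
    simp_rw [Finset.sum_add_distrib, ← Finset.mul_sum, ← Finset.sum_mul]
    have hA : ∑ T ∈ range (5 ^ L), ∑ v ∈ range (5 ^ L), J T v = 5 ^ L := by
      rw [Finset.sum_congr rfl hJ1, Finset.sum_const, Finset.card_range, nsmul_eq_mul, mul_one]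
      push_cast
      rfl
    have hG : ∑ T ∈ range (5 ^ L), ∑ v ∈ range (5 ^ L), J T v * G v =
        5 ^ L * ((∑ i ∈ TLc S e (t + 1) a,
          P i * ∑ k ∈ range B, TLval S P e L Q c (t + L + L * k + 1) (e i)) / Θ) := by
      rw [Finset.sum_comm]
      have h1 : ∀ v ∈ range (5 ^ L), ∑ T ∈ range (5 ^ L), J T v * G v = 5 ^ L *
          ((∑ i ∈ U v, P i * ∑ k ∈ range B, TLval S P e L Q c (t + L + L * k + 1) (e i)) / Θ) := by
        intro v hv
        rw [← Finset.sum_mul, hJ2 v hv, mul_assoc]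
        congr 1
        show m v / Θ * G v = _
        rcases (hm0 v).lt_or_eq with h | h
        · simp only [G]
          field_simp
        · have h2 : ∀ i ∈ U v, P i = 0 := (Finset.sum_eq_zero_iff_of_nonneg
            (fun i hi => hP i (TLc_mem.mp hi).1)).mp h.symm
          rw [← h, zero_div, zero_mul, Finset.sum_eq_zero (fun i hi => by rw [h2 i hi, zero_mul]),
            zero_div]
      rw [Finset.sum_congr rfl h1, ← Finset.mul_sum, ← Finset.sum_div,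
        TL_part S e (t + 1) (t + L + 1) L (by ring) a]
    rw [hA, hG]
    -- the first window
    have hval : ∑ i ∈ TLc S e (t + 1) a,
        P i * ∑ k ∈ range (B + 1), TLval S P e L Q c (t + L * k + 1) (e i) =
        ∑ i ∈ TLc S e (t + 1) a,
          P i * ∑ k ∈ range B, TLval S P e L Q c (t + L + L * k + 1) (e i) +
        Θ * TLval S P e L Q c (t + 1) a := by
      rw [hΘdef, Finset.sum_mul, ← Finset.sum_add_distrib]
      refine Finset.sum_congr rfl (fun i hi => ?_)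
      rw [Finset.sum_range_succ', mul_add]
      congr 1
      · congr 1
        refine Finset.sum_congr rfl (fun k _ => ?_)
        congr 1
        ring
      · rw [Nat.mul_zero, Nat.add_zero]
        congr 1
        refine TLval_congr S P e L Q c (t + 1) _ _ ?_
        unfold TLc at hi
        exact (Finset.mem_filter.mp hi).2
    rw [hval, add_div, mul_div_assoc Θ, hpowR]
    have h9 : Θ * (TLval S P e L Q c (t + 1) a / Θ) = TLval S P e L Q c (t + 1) a := by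
      field_simp
    rw [h9]
    have h10 := mul_le_mul_of_nonneg_left hJ3 hLB.le
    have h11 : 5 ^ (L * B) * (∑ T ∈ range (5 ^ L), ∑ v ∈ range (5 ^ L),
        J T v * Real.log ((m v / Θ) *
          (f (t + L) (a + τ + 5 ^ (t + 1) * ((T : ℤ) + (v : ℤ))) / f t (a + τ)) / J T v)) ≥
        5 ^ (L * B) * (5 ^ L * TLval S P e L Q c (t + 1) a) := h10
    nlinarith [h11]

open Classical in
theorem TL_NUp {ι : Type} (S : Finset ι) (P : ι → ℝ) (e : ι → ℤ) (hP : IsProb S P) (L : ℕ)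
    (Q c : ℝ) (j : ℕ) :
    ∑ i ∈ S, P i * TLval S P e L Q c j (e i) =
      NUp S P e j L * (1 / 2 * Real.log Q + 1 / 2 * Real.log c) +
        (1 - NUp S P e j L) * Real.log c := by
  unfold NUp TLval
  have h1 : ∀ i ∈ S, P i * (if NU S P e j L (e i) then 1 / 2 * Real.log Q + 1 / 2 * Real.log c
      else Real.log c) = (if NU S P e j L (e i) then P i else 0) *
        (1 / 2 * Real.log Q + 1 / 2 * Real.log c - Real.log c) + P i * Real.log c := by
    intro i _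
    split_ifs <;> ring
  rw [Finset.sum_congr rfl h1, Finset.sum_add_distrib, ← Finset.sum_mul, ← Finset.sum_mul,
    hP.sum_eq, Finset.sum_filter]
  ring

open Classical in
/-- tree lemma. `f t` is a positive weight function depending on `y` mod `5^(t+1)`. -/
theorem tree_lemma {ι : Type} (f : ℕ → ℤ → ℝ) (L : ℕ) (Q c : ℝ) (hQ0 : 0 < Q) (hc0 : 0 < c)
    (hfpos : ∀ t y, ¬ (5 : ℤ) ∣ y → 0 < f t y)
    (hfper : ∀ t y z, f t (y + 5 ^ (t + 1) * z) = f t y)
    (hfc : ∀ t y, ¬ (5 : ℤ) ∣ y → c * f t y ≤ f (t + L) y)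
    (hfQ : ∀ t y, ∑ z ∈ range (5 ^ L), f (t + L) (y + 5 ^ (t + 1) * (z : ℤ)) = 5 ^ L * Q * f t y)
    (S : Finset ι) (P : ι → ℝ) (e : ι → ℤ) (hP : IsProb S P)
    (he : ∀ i ∈ S, P i ≠ 0 → ¬ (5 : ℤ) ∣ e i) (t₁ B : ℕ) (c₁ : ℝ) (hc₁ : 0 < c₁)
    (hf1 : ∀ y, ¬ (5 : ℤ) ∣ y → c₁ ≤ f t₁ y) :
    5 ^ (t₁ + L * B) * (Real.log c₁ + ∑ k ∈ range B,
        (NUp S P e (t₁ + L * k + 1) L * (1 / 2 * Real.log Q + 1 / 2 * Real.log c)
          + (1 - NUp S P e (t₁ + L * k + 1) L) * Real.log c)) ≤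
      ∑ Y ∈ range (5 ^ (t₁ + L * B)),
        Real.log (∑ i ∈ S, P i * f (t₁ + L * B) (e i + 5 * (Y : ℤ))) := by
  have hLB : (0 : ℝ) < 5 ^ (L * B) := by positivity
  have h5pow : (5 : ℤ) ∣ 5 ^ (t₁ + 1) := dvd_pow_self 5 (by omega)
  -- classes modulo `5^(t₁+1)`
  let m : ℕ → ℝ := fun v => ∑ i ∈ TLc S e (t₁ + 1) (v : ℤ), P i
  have hm0 : ∀ v, 0 ≤ m v := fun v =>
    Finset.sum_nonneg (fun i hi => hP.nonneg i (TLc_mem.mp hi).1)
  have hpart : ∀ g : ι → ℝ, ∑ i ∈ S, g i =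
      ∑ v ∈ range (5 ^ (t₁ + 1)), ∑ i ∈ TLc S e (t₁ + 1) (v : ℤ), g i := by
    intro g
    have h1 := TL_part S e 0 (t₁ + 1) (t₁ + 1) (by ring) 0 g
    have h2 : TLc S e 0 0 = S := by
      ext i
      rw [TLc_mem]
      constructor
      · exact fun h => h.1
      · exact fun h => ⟨h, e i, by ring⟩
    rw [h2] at h1
    rw [h1]
    refine Finset.sum_congr rfl (fun v _ => ?_)
    rw [pow_zero, one_mul, zero_add]
  have hm1 : ∑ v ∈ range (5 ^ (t₁ + 1)), m v = 1 := by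
    rw [← hP.sum_eq, hpart P]
  let s : ℕ → ℕ → ℕ → ℝ := fun T Z v => ∑ i ∈ TLc S e (t₁ + 1) (v : ℤ),
    P i * f (t₁ + L * B) (e i + 5 * (T : ℤ) + 5 ^ (t₁ + 1) * (Z : ℤ))
  have hunit : ∀ (T Z : ℕ), ∀ i ∈ S, P i ≠ 0 →
      ¬ (5 : ℤ) ∣ e i + 5 * (T : ℤ) + 5 ^ (t₁ + 1) * (Z : ℤ) := by
    intro T Z i hi hPi h
    apply he i hi hPi
    have h1 := (dvd_add_left (Dvd.dvd.mul_right h5pow (Z : ℤ))).mp h
    exact (dvd_add_left (Dvd.intro _ rfl)).mp h1
  have hterm : ∀ (T Z : ℕ), ∀ i ∈ S,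
      0 ≤ P i * f (t₁ + L * B) (e i + 5 * (T : ℤ) + 5 ^ (t₁ + 1) * (Z : ℤ)) := by
    intro T Z i hi
    by_cases hPi : P i = 0
    · rw [hPi, zero_mul]
    · exact mul_nonneg (hP.nonneg i hi) (hfpos _ _ (hunit T Z i hi hPi)).le
  have hs0 : ∀ T Z v, 0 ≤ s T Z v := fun T Z v =>
    Finset.sum_nonneg (fun i hi => hterm T Z i (TLc_mem.mp hi).1)
  have hspos : ∀ T Z v, 0 < m v → 0 < s T Z v := by
    intro T Z v hv
    obtain ⟨i, hi, hPi⟩ := Finset.exists_lt_of_sum_lt (f := fun _ => (0 : ℝ)) (g := P)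
      (s := TLc S e (t₁ + 1) (v : ℤ)) (by simpa using hv)
    exact Finset.sum_pos' (fun i hi => hterm T Z i (TLc_mem.mp hi).1)
      ⟨i, hi, mul_pos hPi (hfpos _ _ (hunit T Z i (TLc_mem.mp hi).1 hPi.ne'))⟩
  have hsum : ∑ Y ∈ range (5 ^ (t₁ + L * B)),
      Real.log (∑ i ∈ S, P i * f (t₁ + L * B) (e i + 5 * (Y : ℤ))) =
      ∑ T ∈ range (5 ^ t₁), ∑ Z ∈ range (5 ^ (L * B)),
        Real.log (∑ v ∈ range (5 ^ (t₁ + 1)), s T Z v) := by
    rw [pow_add, TL_sum_range_mul]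
    refine Finset.sum_congr rfl (fun T _ => Finset.sum_congr rfl (fun Z _ => ?_))
    congr 1
    rw [hpart]
    refine Finset.sum_congr rfl (fun v _ => Finset.sum_congr rfl (fun i _ => ?_))
    congr 2
    push_cast
    ring
  rw [hsum]
  have hjen : ∀ T ∈ range (5 ^ t₁), ∀ Z ∈ range (5 ^ (L * B)),
      ∑ v ∈ range (5 ^ (t₁ + 1)), m v * Real.log (s T Z v / m v) ≤
        Real.log (∑ v ∈ range (5 ^ (t₁ + 1)), s T Z v) := by
    intro T _ Z _
    exact TL_jensen _ _ _ (fun v _ => hm0 v) (fun v _ => hs0 T Z v)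
      (fun v _ hv => hspos T Z v hv) hm1
  refine le_trans ?_ (Finset.sum_le_sum (fun T hT => Finset.sum_le_sum (hjen T hT)))
  have hstep : ∀ T ∈ range (5 ^ t₁),
      5 ^ (L * B) * (Real.log c₁ + ∑ k ∈ range B,
        (NUp S P e (t₁ + L * k + 1) L * (1 / 2 * Real.log Q + 1 / 2 * Real.log c)
          + (1 - NUp S P e (t₁ + L * k + 1) L) * Real.log c)) ≤
      ∑ Z ∈ range (5 ^ (L * B)), ∑ v ∈ range (5 ^ (t₁ + 1)), m v * Real.log (s T Z v / m v) := by
    intro T _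
    rw [Finset.sum_comm]
    have hv : ∀ v ∈ range (5 ^ (t₁ + 1)),
        5 ^ (L * B) * (m v * Real.log c₁ + ∑ i ∈ TLc S e (t₁ + 1) (v : ℤ),
          P i * ∑ k ∈ range B, TLval S P e L Q c (t₁ + L * k + 1) (e i)) ≤
        ∑ Z ∈ range (5 ^ (L * B)), m v * Real.log (s T Z v / m v) := by
      intro v _
      rcases (hm0 v).lt_or_eq with h | h
      · -- the class is not divisible by 5
        have hv5 : ¬ (5 : ℤ) ∣ (v : ℤ) := by
          obtain ⟨i, hi, hPi⟩ := Finset.exists_lt_of_sum_lt (f := fun _ => (0 : ℝ)) (g := P)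
            (s := TLc S e (t₁ + 1) (v : ℤ)) (by simpa using h)
          obtain ⟨hiS, y, hy⟩ := TLc_mem.mp hi
          intro hd
          apply he i hiS hPi.ne'
          rw [hy]
          exact hd.add (Dvd.dvd.mul_right h5pow _)
        have hu : ¬ (5 : ℤ) ∣ (v : ℤ) + 5 * (T : ℤ) := fun hd =>
          hv5 ((dvd_add_left (Dvd.intro _ rfl)).mp hd)
        have h1 := TL_main f L Q c hQ0 hc0 hfpos hfper hfc hfQ S P e hP.nonneg B t₁ (v : ℤ)
          (5 * (T : ℤ)) hv5 (Dvd.intro _ rfl) h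
        have h2 : ∑ Z ∈ range (5 ^ (L * B)), m v * Real.log (s T Z v / m v) =
            m v * ∑ Z ∈ range (5 ^ (L * B)), Real.log (s T Z v) -
              5 ^ (L * B) * (m v * Real.log (m v)) := by
          rw [← Finset.mul_sum]
          have h3 : ∀ Z ∈ range (5 ^ (L * B)), Real.log (s T Z v / m v) =
              Real.log (s T Z v) - Real.log (m v) := fun Z _ =>
            Real.log_div (hspos T Z v h).ne' h.ne'
          rw [Finset.sum_congr rfl h3, Finset.sum_sub_distrib, Finset.sum_const,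
            Finset.card_range, nsmul_eq_mul]
          push_cast
          ring
        rw [h2]
        have h4 := mul_le_mul_of_nonneg_left h1 h.le
        have h5 : Real.log c₁ ≤ Real.log (f t₁ ((v : ℤ) + 5 * (T : ℤ))) :=
          Real.log_le_log hc₁ (hf1 _ hu)
        have h6 : m v * (5 ^ (L * B) * (Real.log (m v) + Real.log (f t₁ ((v : ℤ) + 5 * (T : ℤ))) +
            (∑ i ∈ TLc S e (t₁ + 1) (v : ℤ),
              P i * ∑ k ∈ range B, TLval S P e L Q c (t₁ + L * k + 1) (e i)) / m v)) ≤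
            m v * ∑ Z ∈ range (5 ^ (L * B)), Real.log (s T Z v) := h4
        have h7 : m v * (5 ^ (L * B) * (Real.log (m v) + Real.log (f t₁ ((v : ℤ) + 5 * (T : ℤ))) +
            (∑ i ∈ TLc S e (t₁ + 1) (v : ℤ),
              P i * ∑ k ∈ range B, TLval S P e L Q c (t₁ + L * k + 1) (e i)) / m v)) =
            5 ^ (L * B) * (m v * Real.log (m v)) +
            5 ^ (L * B) * (m v * Real.log (f t₁ ((v : ℤ) + 5 * (T : ℤ)))) +
            5 ^ (L * B) * ∑ i ∈ TLc S e (t₁ + 1) (v : ℤ),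
              P i * ∑ k ∈ range B, TLval S P e L Q c (t₁ + L * k + 1) (e i) := by
          field_simp
        rw [h7] at h6
        have h8 : 5 ^ (L * B) * (m v * Real.log c₁) ≤
            5 ^ (L * B) * (m v * Real.log (f t₁ ((v : ℤ) + 5 * (T : ℤ)))) :=
          mul_le_mul_of_nonneg_left (mul_le_mul_of_nonneg_left h5 h.le) hLB.le
        linarith
      · have h2 : ∀ i ∈ TLc S e (t₁ + 1) (v : ℤ), P i = 0 :=
          (Finset.sum_eq_zero_iff_of_nonneg (fun i hi => hP.nonneg i (TLc_mem.mp hi).1)).mp h.symm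
        rw [← h, Finset.sum_eq_zero (fun i hi => by rw [h2 i hi, zero_mul])]
        simp
    refine le_trans (le_of_eq ?_) (Finset.sum_le_sum hv)
    have hR : ∑ v ∈ range (5 ^ (t₁ + 1)), 5 ^ (L * B) * (m v * Real.log c₁ +
        ∑ i ∈ TLc S e (t₁ + 1) (v : ℤ),
          P i * ∑ k ∈ range B, TLval S P e L Q c (t₁ + L * k + 1) (e i)) =
        5 ^ (L * B) * (Real.log c₁ + ∑ i ∈ S,
          P i * ∑ k ∈ range B, TLval S P e L Q c (t₁ + L * k + 1) (e i)) := by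
      rw [← Finset.mul_sum, Finset.sum_add_distrib, ← Finset.sum_mul, hm1, one_mul, ← hpart]
    rw [hR]
    congr 2
    have h1 : ∑ i ∈ S, P i * ∑ k ∈ range B, TLval S P e L Q c (t₁ + L * k + 1) (e i) =
        ∑ k ∈ range B, ∑ i ∈ S, P i * TLval S P e L Q c (t₁ + L * k + 1) (e i) := by
      rw [Finset.sum_comm]
      exact Finset.sum_congr rfl (fun i _ => Finset.mul_sum _ _ _)
    rw [h1]
    exact Finset.sum_congr rfl (fun k _ => (TL_NUp S P e hP L Q c _).symm)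
  refine le_trans (le_of_eq ?_) (Finset.sum_le_sum hstep)
  rw [Finset.sum_const, Finset.card_range, nsmul_eq_mul, pow_add]
  push_cast
  ring


end Pool.Agent.Lib_helper56.Low
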