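import Pool.Agent.LowAsm.A

set_option autoImplicit false

namespace Pool.Agent.Lib_helper56.Low

open Finset

/-! ### Block V: the weights v -/

theorem blkV_st_shift (d : ℕ) (x y : ℤ) : st d (x + 5 * y) = st d x + 2 ^ d * y := by
  unfold st
  rw [show (2 : ℤ) ^ d * (x + 5 * y) - 1 = (2 ^ d * x - 1) + 5 * (2 ^ d * y) by ring,
    Int.add_mul_ediv_left _ _ (by norm_num)]

theorem blkV_dvd_shift (d : ℕ) (x y : ℤ) :
    (5 : ℤ) ∣ 2 ^ d * (x + 5 * y) - 1 ↔ (5 : ℤ) ∣ 2 ^ d * x - 1 := by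
  rw [show (2 : ℤ) ^ d * (x + 5 * y) - 1 = (2 ^ d * x - 1) + 5 * (2 ^ d * y) by ring]
  exact Int.dvd_add_left (dvd_mul_right _ _)

theorem v_nonneg (K n : ℕ) (x : ℤ) : 0 ≤ v K n x := by
  induction n generalizing x with
  | zero => exact zero_le_one
  | succ n ih =>
    rw [v]
    refine Finset.sum_nonneg fun d _ => ?_
    split_ifs
    · exact mul_nonneg (by positivity) (ih _)
    · exact le_refl _

theorem v_shift (K n : ℕ) (x y : ℤ) : v K n (x + 5 ^ n * y) = v K n x := by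
  induction n generalizing x y with
  | zero => rfl
  | succ n ih =>
    rw [v, v]
    refine Finset.sum_congr rfl fun d _ => ?_
    rw [show (5 : ℤ) ^ (n + 1) * y = 5 * (5 ^ n * y) by ring, blkV_st_shift,
      show (2 : ℤ) ^ d * (5 ^ n * y) = 5 ^ n * (2 ^ d * y) by ring, ih]
    simp only [blkV_dvd_shift]

theorem v_add (K m n : ℕ) (x : ℤ) :
    v K (m + n) x = ∑ w ∈ words K m, if adm w x then (5 / 6 : ℝ) ^ w.sum * v K n (A w x) else 0 := by
  induction m generalizing x with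
  | zero =>
    rw [Nat.zero_add, words, Finset.sum_singleton, if_pos (show adm [] x from trivial)]
    simp [A]
  | succ m ih =>
    rw [sum_words_succ, Nat.succ_add, v]
    refine Finset.sum_congr rfl fun d _ => ?_
    by_cases h : (5 : ℤ) ∣ 2 ^ d * x - 1
    · rw [if_pos h, ih, Finset.mul_sum]
      refine Finset.sum_congr rfl fun w _ => ?_
      by_cases h2 : adm w (st d x)
      · rw [if_pos h2, if_pos (show adm (d :: w) x from ⟨h, h2⟩), List.sum_cons, pow_add, A]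
        ring
      · rw [if_neg h2, if_neg (show ¬ adm (d :: w) x from fun h3 => h2 h3.2), mul_zero]
    · rw [if_neg h]
      refine (Finset.sum_eq_zero fun w _ => ?_).symm
      rw [if_neg (show ¬ adm (d :: w) x from fun h3 => h h3.1)]

theorem v_eq_sum (K n : ℕ) (x : ℤ) :
    v K n x = ∑ w ∈ words K n, if adm w x then (5 / 6 : ℝ) ^ w.sum else 0 := by
  have := v_add K n 0 x
  rw [Nat.add_zero] at this
  rw [this]
  refine Finset.sum_congr rfl fun w _ => ?_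
  rw [v, mul_one]

theorem v_zero_of_dvd (K n : ℕ) (x : ℤ) (h : (5 : ℤ) ∣ x) : v K (n + 1) x = 0 := by
  rw [v]
  refine Finset.sum_eq_zero fun d _ => ?_
  rw [if_neg]
  intro h2
  have h3 : (5 : ℤ) ∣ 1 := by
    have h4 := Int.dvd_sub (h.mul_left (2 ^ d)) h2
    simpa using h4
  exact absurd h3 (by norm_num)

/-- a small compatible letter -/
theorem blkV_letter {x : ℤ} (h : ¬ (5 : ℤ) ∣ x) :
    ∃ d : ℕ, 1 ≤ d ∧ d ≤ 4 ∧ (5 : ℤ) ∣ 2 ^ d * x - 1 := by
  have h5 : x % 5 = 1 ∨ x % 5 = 2 ∨ x % 5 = 3 ∨ x % 5 = 4 := by omega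
  rcases h5 with h | h | h | h
  · exact ⟨4, by norm_num, by norm_num, by norm_num; omega⟩
  · exact ⟨3, by norm_num, by norm_num, by norm_num; omega⟩
  · exact ⟨1, by norm_num, by norm_num, by norm_num; omega⟩
  · exact ⟨2, by norm_num, by norm_num, by norm_num; omega⟩

/-- a compatible letter `≤ 8` with a unit child -/
theorem blkV_child {x : ℤ} (h : ¬ (5 : ℤ) ∣ x) :
    ∃ d : ℕ, 1 ≤ d ∧ d ≤ 8 ∧ (5 : ℤ) ∣ 2 ^ d * x - 1 ∧ ¬ (5 : ℤ) ∣ st d x := by
  obtain ⟨d, h1, h4, hd⟩ := blkV_letter h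
  by_cases hs : (5 : ℤ) ∣ st d x
  · refine ⟨d + 4, by omega, by omega, ?_, ?_⟩
    · have e : (2 : ℤ) ^ (d + 4) * x - 1 = 16 * (2 ^ d * x - 1) + 15 := by ring
      rw [e]
      exact dvd_add (hd.mul_left _) (by norm_num)
    · have e1 : 5 * st d x = 2 ^ d * x - 1 := Int.mul_ediv_cancel' hd
      have hd' : (5 : ℤ) ∣ 2 ^ (d + 4) * x - 1 := by
        have e : (2 : ℤ) ^ (d + 4) * x - 1 = 16 * (2 ^ d * x - 1) + 15 := by ring
        rw [e]
        exact dvd_add (hd.mul_left _) (by norm_num)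
      have e2 : 5 * st (d + 4) x = 2 ^ (d + 4) * x - 1 := Int.mul_ediv_cancel' hd'
      have e3 : (2 : ℤ) ^ (d + 4) * x - 1 = 16 * (2 ^ d * x) - 1 := by ring
      rw [e3] at e2
      obtain ⟨k, hk⟩ := hd
      obtain ⟨j, hj⟩ := hs
      rintro ⟨i, hi⟩
      have : 5 * (5 * i) = 16 * (5 * (5 * j) + 1) - 1 := by
        rw [← hi, ← hj, e2, e1]; ring
      omega
  · exact ⟨d, h1, by omega, hd, hs⟩

theorem v_pos {K : ℕ} (hK : 8 ≤ K) (n : ℕ) {x : ℤ} (h : ¬ (5 : ℤ) ∣ x) : 0 < v K n x := by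
  induction n generalizing x with
  | zero => exact zero_lt_one
  | succ n ih =>
    obtain ⟨d, h1, h8, hd, hs⟩ := blkV_child h
    rw [v]
    refine Finset.sum_pos' (fun e _ => ?_) ⟨d, Finset.mem_Icc.mpr ⟨h1, h8.trans hK⟩, ?_⟩
    · split_ifs
      · exact mul_nonneg (by positivity) (v_nonneg _ _ _)
      · exact le_refl _
    · rw [if_pos hd]
      exact mul_pos (by positivity) (ih hs)

theorem v_mono {K K' : ℕ} (hK : K ≤ K') (n : ℕ) (x : ℤ) : v K n x ≤ v K' n x := by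
  induction n generalizing x with
  | zero => exact le_refl _
  | succ n ih =>
    rw [v, v]
    calc ∑ d ∈ Icc 1 K, (if (5 : ℤ) ∣ 2 ^ d * x - 1 then (5 / 6 : ℝ) ^ d * v K n (st d x) else 0)
        ≤ ∑ d ∈ Icc 1 K,
          (if (5 : ℤ) ∣ 2 ^ d * x - 1 then (5 / 6 : ℝ) ^ d * v K' n (st d x) else 0) := by
          refine Finset.sum_le_sum fun d _ => ?_
          split_ifs
          · exact mul_le_mul_of_nonneg_left (ih _) (by positivity)
          · exact le_refl _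
      _ ≤ ∑ d ∈ Icc 1 K',
          (if (5 : ℤ) ∣ 2 ^ d * x - 1 then (5 / 6 : ℝ) ^ d * v K' n (st d x) else 0) := by
          refine Finset.sum_le_sum_of_subset_of_nonneg (Finset.Icc_subset_Icc_right hK)
            fun d _ _ => ?_
          split_ifs
          · exact mul_nonneg (by positivity) (v_nonneg _ _ _)
          · exact le_refl _

/-- change of variables in sums over a period -/
theorem blkV_perm (L s : ℕ) (a : ℤ) (g : ℤ → ℝ) (hg : ∀ x y, g (x + 5 ^ L * y) = g x) :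
    ∑ y ∈ range (5 ^ L), g (a + 2 ^ s * (y : ℤ)) = ∑ y ∈ range (5 ^ L), g (y : ℤ) := by
  have hM : (0 : ℤ) < 5 ^ L := by positivity
  have hcop : IsCoprime ((5 : ℤ) ^ L) (2 ^ s) := by
    apply IsCoprime.pow
    exact ⟨1, -2, by norm_num⟩
  set φ : ℕ → ℕ := fun y => ((a + 2 ^ s * (y : ℤ)) % 5 ^ L).toNat with hφ
  have hφc : ∀ y, ((φ y : ℕ) : ℤ) = (a + 2 ^ s * (y : ℤ)) % 5 ^ L := fun y =>
    Int.toNat_of_nonneg (Int.emod_nonneg _ hM.ne')
  have hmaps : ∀ y ∈ range (5 ^ L), φ y ∈ range (5 ^ L) := by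
    intro y _
    rw [mem_range]
    have := Int.emod_lt_of_pos (a + 2 ^ s * (y : ℤ)) hM
    rw [← hφc] at this
    exact_mod_cast this
  have hinj : Set.InjOn φ (range (5 ^ L) : Set ℕ) := by
    intro y hy y' hy' hyy
    rw [Finset.mem_coe, mem_range] at hy hy'
    have h1 : (a + 2 ^ s * (y : ℤ)) % 5 ^ L = (a + 2 ^ s * (y' : ℤ)) % 5 ^ L := by
      rw [← hφc, ← hφc, hyy]
    have h2 : (5 : ℤ) ^ L ∣ 2 ^ s * ((y : ℤ) - y') := by
      have := Int.emod_emod_of_dvd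
      have h3 := Int.ModEq.dvd (show (a + 2 ^ s * (y' : ℤ)) ≡ (a + 2 ^ s * (y : ℤ)) [ZMOD 5 ^ L]
        from h1.symm)
      rwa [show (a + 2 ^ s * (y : ℤ)) - (a + 2 ^ s * (y' : ℤ)) = 2 ^ s * ((y : ℤ) - y') by ring]
        at h3
    have h3 : (5 : ℤ) ^ L ∣ (y : ℤ) - y' := hcop.dvd_of_dvd_mul_left h2
    have hy1 : (y : ℤ) < 5 ^ L := by exact_mod_cast hy
    have hy2 : (y' : ℤ) < 5 ^ L := by exact_mod_cast hy'
    have h4 : (y : ℤ) - y' = 0 := by
      refine Int.eq_zero_of_abs_lt_dvd h3 ?_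
      rw [abs_lt]
      omega
    omega
  have hval : ∀ y : ℕ, g (a + 2 ^ s * (y : ℤ)) = g ((φ y : ℕ) : ℤ) := by
    intro y
    have h1 := Int.emod_add_mul_ediv (a + 2 ^ s * (y : ℤ)) (5 ^ L)
    rw [hφc, ← hg ((a + 2 ^ s * (y : ℤ)) % 5 ^ L) ((a + 2 ^ s * (y : ℤ)) / 5 ^ L), h1]
  have himg : (range (5 ^ L)).image φ = range (5 ^ L) :=
    Finset.eq_of_subset_of_card_le (Finset.image_subset_iff.mpr hmaps)
      (by rw [Finset.card_image_of_injOn hinj])
  calc ∑ y ∈ range (5 ^ L), g (a + 2 ^ s * (y : ℤ))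
      = ∑ y ∈ range (5 ^ L), g ((φ y : ℕ) : ℤ) := Finset.sum_congr rfl fun y _ => hval y
    _ = ∑ y ∈ (range (5 ^ L)).image φ, g (y : ℤ) := by rw [Finset.sum_image hinj]
    _ = ∑ y ∈ range (5 ^ L), g (y : ℤ) := by rw [himg]

/-- splitting a sum over a period into residue classes mod 5 -/
theorem blkV_split (L : ℕ) (g : ℤ → ℝ) :
    ∑ y ∈ range (5 ^ (L + 1)), g (y : ℤ) =
      ∑ c ∈ range 5, ∑ u ∈ range (5 ^ L), g ((c : ℤ) + 5 * (u : ℤ)) := by
  rw [← Finset.sum_product']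
  refine Finset.sum_nbij' (fun y => (y % 5, y / 5)) (fun p => p.1 + 5 * p.2) ?_ ?_ ?_ ?_ ?_
  · intro y hy
    rw [mem_range, pow_succ] at hy
    rw [mem_product, mem_range, mem_range]
    refine ⟨Nat.mod_lt _ (by norm_num), ?_⟩
    exact Nat.div_lt_of_lt_mul (by rw [mul_comm]; exact hy)
  · rintro ⟨c, u⟩ hp
    rw [mem_product, mem_range, mem_range] at hp
    rw [mem_range, pow_succ]
    dsimp only at hp ⊢
    omega
  · intro y _
    exact Nat.mod_add_div y 5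
  · rintro ⟨c, u⟩ hp
    rw [mem_product, mem_range, mem_range] at hp
    dsimp only at hp ⊢
    ext
    · dsimp only; omega
    · dsimp only; omega
  · intro y _
    dsimp only
    congr 1
    have := Nat.mod_add_div y 5
    exact_mod_cast this.symm

theorem blkV_geom (K : ℕ) : ∑ d ∈ Icc 1 K, (5 / 6 : ℝ) ^ d = 5 * (1 - (5 / 6 : ℝ) ^ K) := by
  induction K with
  | zero => simp
  | succ K ih =>
    rw [Finset.sum_Icc_succ_top (by omega), ih, pow_succ]
    ring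

/-- each letter is compatible with exactly one class modulo 5 -/
theorem blkV_class (d : ℕ) : ∃ c ∈ range 5, ∀ c' ∈ range 5, ((5 : ℤ) ∣ 2 ^ d * (c' : ℤ) - 1 ↔ c' = c) := by
  induction d with
  | zero =>
    refine ⟨1, by simp, fun c' hc' => ?_⟩
    rw [mem_range] at hc'
    rw [pow_zero, one_mul]
    omega
  | succ d ih =>
    obtain ⟨c, hc, h⟩ := ih
    rw [mem_range] at hc
    refine ⟨(3 * c) % 5, by rw [mem_range]; exact Nat.mod_lt _ (by norm_num), fun c' hc' => ?_⟩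
    rw [mem_range] at hc'
    have e1 : ((5 : ℤ) ∣ 2 ^ (d + 1) * (c' : ℤ) - 1) ↔
        ((5 : ℤ) ∣ 2 ^ d * (((2 * c') % 5 : ℕ) : ℤ) - 1) := by
      have e2 : (2 : ℤ) ^ (d + 1) * (c' : ℤ) - 1 =
          (2 ^ d * (((2 * c') % 5 : ℕ) : ℤ) - 1) + 5 * (2 ^ d * ((2 * c' / 5 : ℕ) : ℤ)) := by
        have h3 : (2 * (c' : ℤ)) = (((2 * c') % 5 : ℕ) : ℤ) + 5 * ((2 * c' / 5 : ℕ) : ℤ) := by
          have := Nat.mod_add_div (2 * c') 5
          exact_mod_cast this.symm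
        rw [pow_succ, mul_assoc, h3]
        ring
      rw [e2]
      exact Int.dvd_add_left (dvd_mul_right _ _)
    rw [e1, h _ (by rw [mem_range]; exact Nat.mod_lt _ (by norm_num))]
    omega

theorem blkV_total (K L : ℕ) :
    ∑ y ∈ range (5 ^ L), v K L (y : ℤ) = 5 ^ L * (1 - (5 / 6 : ℝ) ^ K) ^ L := by
  induction L with
  | zero => simp [v]
  | succ L ih =>
    rw [blkV_split L (fun y => v K (L + 1) y)]
    have h1 : ∀ c ∈ range 5, ∀ u ∈ range (5 ^ L), v K (L + 1) ((c : ℤ) + 5 * (u : ℤ)) =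
        ∑ d ∈ Icc 1 K, if (5 : ℤ) ∣ 2 ^ d * (c : ℤ) - 1 then
          (5 / 6 : ℝ) ^ d * v K L (st d (c : ℤ) + 2 ^ d * (u : ℤ)) else 0 := by
      intro c _ u _
      rw [v]
      refine Finset.sum_congr rfl fun d _ => ?_
      rw [blkV_st_shift]
      simp only [blkV_dvd_shift]
    rw [Finset.sum_congr rfl fun c hc => Finset.sum_congr rfl fun u hu => h1 c hc u hu]
    rw [Finset.sum_congr rfl fun c hc => Finset.sum_comm]
    rw [Finset.sum_comm]
    have h2 : ∀ d ∈ Icc 1 K, ∑ c ∈ range 5, ∑ u ∈ range (5 ^ L),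
        (if (5 : ℤ) ∣ 2 ^ d * (c : ℤ) - 1 then
          (5 / 6 : ℝ) ^ d * v K L (st d (c : ℤ) + 2 ^ d * (u : ℤ)) else 0) =
        (5 / 6 : ℝ) ^ d * (5 ^ L * (1 - (5 / 6 : ℝ) ^ K) ^ L) := by
      intro d _
      obtain ⟨c, hc, hcc⟩ := blkV_class d
      rw [Finset.sum_eq_single c]
      · have h3 : (5 : ℤ) ∣ 2 ^ d * (c : ℤ) - 1 := (hcc c hc).mpr rfl
        rw [Finset.sum_congr rfl fun u _ => if_pos h3, ← Finset.mul_sum,
          blkV_perm L d (st d (c : ℤ)) (fun y => v K L y) (fun x y => v_shift K L x y), ih]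
      · intro c' hc' hne
        refine Finset.sum_eq_zero fun u _ => ?_
        rw [if_neg (fun h3 => hne ((hcc c' hc').mp h3))]
      · exact fun h3 => absurd hc h3
    rw [Finset.sum_congr rfl h2, ← Finset.sum_mul, blkV_geom, pow_succ, pow_succ]
    ring

/-- martingale property -/
theorem v_avg (K n L : ℕ) (x : ℤ) :
    ∑ y ∈ range (5 ^ L), v K (n + L) (x + 5 ^ n * (y : ℤ)) =
      5 ^ L * (1 - (5 / 6 : ℝ) ^ K) ^ L * v K n x := by
  have h1 : ∀ y ∈ range (5 ^ L), v K (n + L) (x + 5 ^ n * (y : ℤ)) =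
      ∑ w ∈ words K n, if adm w x then
        (5 / 6 : ℝ) ^ w.sum * v K L (A w x + 2 ^ w.sum * (y : ℤ)) else 0 := by
    intro y _
    rw [v_add]
    refine Finset.sum_congr rfl fun w hw => ?_
    have hl := length_of_mem_words hw
    by_cases ha : adm w x
    · rw [if_pos ha, ← hl, if_pos ((adm_shift w x y).mpr ha), A_shift w x y ha]
    · rw [if_neg ha, ← hl, if_neg (fun h => ha ((adm_shift w x y).mp h))]
  rw [Finset.sum_congr rfl h1, Finset.sum_comm, v_eq_sum, Finset.mul_sum]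
  refine Finset.sum_congr rfl fun w _ => ?_
  by_cases ha : adm w x
  · rw [Finset.sum_congr rfl fun y _ => if_pos ha, if_pos ha, ← Finset.mul_sum,
      blkV_perm L w.sum (A w x) (fun y => v K L y) (fun x y => v_shift K L x y), blkV_total]
    ring
  · rw [Finset.sum_congr rfl fun y _ => if_neg ha, if_neg ha]
    simp

theorem v_one_bounds {K : ℕ} (hK : 8 ≤ K) {x : ℤ} (h : ¬ (5 : ℤ) ∣ x) :
    1 / 3 ≤ v K 1 x ∧ v K 1 x ≤ 5 := by
  rw [v]
  constructor
  · obtain ⟨d, h1, h4, hd⟩ := blkV_letter h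
    have h2 : (5 / 6 : ℝ) ^ d ≤ ∑ d ∈ Icc 1 K,
        if (5 : ℤ) ∣ 2 ^ d * x - 1 then (5 / 6 : ℝ) ^ d * v K 0 (st d x) else 0 := by
      have h3 := Finset.single_le_sum (f := fun d => if (5 : ℤ) ∣ 2 ^ d * x - 1 then
        (5 / 6 : ℝ) ^ d * v K 0 (st d x) else 0) (s := Icc 1 K)
        (fun e _ => by
          split_ifs
          · exact mul_nonneg (by positivity) (v_nonneg _ _ _)
          · exact le_refl _) (Finset.mem_Icc.mpr ⟨h1, by omega⟩ : d ∈ Icc 1 K)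
      rw [if_pos hd, v, mul_one] at h3
      exact h3
    have h3 : (5 / 6 : ℝ) ^ 4 ≤ (5 / 6 : ℝ) ^ d :=
      pow_le_pow_of_le_one (by norm_num) (by norm_num) h4
    have h5 : (1 / 3 : ℝ) ≤ (5 / 6 : ℝ) ^ 4 := by norm_num
    linarith
  · calc ∑ d ∈ Icc 1 K, (if (5 : ℤ) ∣ 2 ^ d * x - 1 then (5 / 6 : ℝ) ^ d * v K 0 (st d x) else 0)
        ≤ ∑ d ∈ Icc 1 K, (5 / 6 : ℝ) ^ d := by
          refine Finset.sum_le_sum fun d _ => ?_
          split_ifs
          · rw [v, mul_one]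
          · positivity
      _ = 5 * (1 - (5 / 6 : ℝ) ^ K) := blkV_geom K
      _ ≤ 5 := by
          have : (0 : ℝ) ≤ (5 / 6 : ℝ) ^ K := by positivity
          linarith

end Pool.Agent.Lib_helper56.Low
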