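import Pool.Agent.LowAsm.EN

set_option autoImplicit false

namespace Pool.Agent.Lib_helper56.Low

open Finset


section WLcore

variable {G : Type*} [AddCommGroup G] [Fintype G] {β : Type*} [Fintype β] [DecidableEq β]

/-- entropy of a probability vector -/
noncomputable def wlHn {α : Type*} [Fintype α] (q : α → ℝ) : ℝ := ∑ a, Real.negMulLog (q a)

/-- convolution -/
def wlcnv (q r : G → ℝ) (u : G) : ℝ := ∑ v, r v * q (u - v)

/-- push forward of a vector -/
def wlpsh (dig : G → β) (r : G → ℝ) (b : β) : ℝ := ∑ v, if dig v = b then r v else 0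

theorem wl_Hn_cnv_term {q r : G → ℝ} (hq : q ∈ stdSimplex ℝ G) (hr : r ∈ stdSimplex ℝ G) (u : G) :
    ∑ v, r v * Real.negMulLog (q (u - v)) ≤ Real.negMulLog (wlcnv q r u) := by
  have h := Real.concaveOn_negMulLog.le_map_sum (t := (univ : Finset G)) (w := r)
    (p := fun v => q (u - v)) (fun i _ => hr.1 i) hr.2 (fun i _ => hq.1 _)
  simpa [smul_eq_mul, wlcnv] using h

theorem wl_sum_term (q r : G → ℝ) (hr : ∑ v, r v = 1) :
    ∑ u, ∑ v, r v * Real.negMulLog (q (u - v)) = wlHn q := by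
  rw [Finset.sum_comm]
  have : ∀ v, ∑ u, r v * Real.negMulLog (q (u - v)) = r v * wlHn q := by
    intro v
    rw [← Finset.mul_sum, wlHn]
    congr 1
    exact Fintype.sum_equiv (Equiv.subRight v) _ _ (fun u => rfl)
  simp only [this, ← Finset.sum_mul, hr, one_mul]

theorem wl_Hn_le_cnv {q r : G → ℝ} (hq : q ∈ stdSimplex ℝ G) (hr : r ∈ stdSimplex ℝ G) :
    wlHn q ≤ wlHn (wlcnv q r) := by
  rw [← wl_sum_term q r hr.2, wlHn]
  exact Finset.sum_le_sum fun u _ => wl_Hn_cnv_term hq hr u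

theorem wl_rigid {q r : G → ℝ} (hq : q ∈ stdSimplex ℝ G) (hr : r ∈ stdSimplex ℝ G)
    (h : wlHn (wlcnv q r) ≤ wlHn q) {v v' : G} (hv : r v ≠ 0) (hv' : r v' ≠ 0) (u : G) :
    q (u - v) = q (u - v') := by
  have h1 : ∀ u ∈ (univ : Finset G),
      ∑ v, r v * Real.negMulLog (q (u - v)) = Real.negMulLog (wlcnv q r u) := by
    refine (Finset.sum_eq_sum_iff_of_le fun u _ => wl_Hn_cnv_term hq hr u).1 ?_
    rw [wl_sum_term q r hr.2]
    exact le_antisymm (wl_Hn_le_cnv hq hr) h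
  have h2 := (Real.strictConcaveOn_negMulLog.map_sum_eq_iff_of_nonneg (t := (univ : Finset G)) (w := r)
    (p := fun v => q (u - v)) (fun i _ => hr.1 i) hr.2 (fun i _ => hq.1 _)).1
    (by simpa [smul_eq_mul, wlcnv] using (h1 u (mem_univ u)).symm)
  exact h2 (mem_univ v) hv (mem_univ v') hv'

theorem wl_continuous_Hn {α : Type*} [Fintype α] : Continuous (wlHn : (α → ℝ) → ℝ) := by
  unfold wlHn
  fun_prop

omit [AddCommGroup G] in
theorem wl_psh_mem {r : G → ℝ} (dig : G → β) (hr : r ∈ stdSimplex ℝ G) :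
    (∀ b, 0 ≤ wlpsh dig r b) ∧ ∑ b, wlpsh dig r b = 1 := by
  constructor
  · intro b
    exact Finset.sum_nonneg fun v _ => by split_ifs <;> [exact hr.1 v; exact le_rfl]
  · unfold wlpsh
    rw [Finset.sum_comm]
    simpa using hr.2

omit [AddCommGroup G] in
/-- if all the mass of `r` lies in one fibre of `dig` then the entropy of the digit vanishes -/
theorem wl_Hn_psh_eq_zero {r : G → ℝ} (dig : G → β) (hr : r ∈ stdSimplex ℝ G)
    (h : ∀ v v', r v ≠ 0 → r v' ≠ 0 → dig v = dig v') : wlHn (wlpsh dig r) = 0 := by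
  obtain ⟨v0, hv0⟩ : ∃ v, r v ≠ 0 := by
    by_contra hcon
    push Not at hcon
    have := hr.2
    simp [hcon] at this
  have h0 : ∀ b, b ≠ dig v0 → wlpsh dig r b = 0 := by
    intro b hb
    refine Finset.sum_eq_zero fun v _ => ?_
    split_ifs with hvb
    · by_contra hne
      exact hb (hvb.symm.trans (h v v0 hne hv0))
    · rfl
  have h1 : wlpsh dig r (dig v0) = 1 := by
    have := (wl_psh_mem dig hr).2
    rwa [Finset.sum_eq_single (dig v0) (fun b _ hb => h0 b hb) (by simp)] at this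
  unfold wlHn
  refine Finset.sum_eq_zero fun b _ => ?_
  by_cases hb : b = dig v0
  · rw [hb, h1]; simp
  · rw [h0 b hb]; simp

/-- WINDOW LEMMA -/
theorem wl_core (dig : G → β)
    (hgen : ∀ v v' : G, dig v ≠ dig v' → ∀ x : G, ∃ k : ℕ, k • (v - v') = x)
    (η : ℝ) (hη : 0 < η) :
    ∃ ε : ℝ, 0 < ε ∧ ∀ q ∈ stdSimplex ℝ G, ∀ r ∈ stdSimplex ℝ G,
      wlHn (wlcnv q r) - wlHn q ≤ ε → η ≤ wlHn (wlpsh dig r) →
        ∀ u, 1 / (2 * (Fintype.card G : ℝ)) ≤ q u := by
  classical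
  have hcard : (0 : ℝ) < Fintype.card G := by exact_mod_cast Fintype.card_pos
  set F : (G → ℝ) × (G → ℝ) → ℝ := fun z => wlHn (wlcnv z.1 z.2) - wlHn z.1 with hF
  have hFc : Continuous F := by
    have h1 : Continuous fun z : (G → ℝ) × (G → ℝ) => wlcnv z.1 z.2 := by
      unfold wlcnv
      fun_prop
    exact (wl_continuous_Hn.comp h1).sub (wl_continuous_Hn.comp continuous_fst)
  have hpc : Continuous fun z : (G → ℝ) × (G → ℝ) => wlHn (wlpsh dig z.2) := by
    have h1 : Continuous fun z : (G → ℝ) × (G → ℝ) => wlpsh dig z.2 := by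
      unfold wlpsh
      refine continuous_pi fun b => continuous_finsetSum _ fun v _ => ?_
      split_ifs
      · fun_prop
      · fun_prop
    exact wl_continuous_Hn.comp h1
  set K : Set ((G → ℝ) × (G → ℝ)) :=
    ((stdSimplex ℝ G) ×ˢ (stdSimplex ℝ G)) ∩
      ({z | η ≤ wlHn (wlpsh dig z.2)} ∩ ⋃ u : G, {z | z.1 u ≤ 1 / (2 * (Fintype.card G : ℝ))}) with hK
  have hKc : IsCompact K := by
    refine ((isCompact_stdSimplex (𝕜 := ℝ) (ι := G)).prod
      (isCompact_stdSimplex (𝕜 := ℝ) (ι := G))).inter_right ?_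
    refine (isClosed_le continuous_const hpc).inter ?_
    refine isClosed_iUnion_of_finite fun u => ?_
    exact isClosed_le (by fun_prop) continuous_const
  rcases K.eq_empty_or_nonempty with hE | hne
  · refine ⟨1, one_pos, fun q hq r hr _ hη' u => ?_⟩
    by_contra hcon
    push Not at hcon
    have : (q, r) ∈ K := ⟨⟨hq, hr⟩, hη', Set.mem_iUnion.2 ⟨u, hcon.le⟩⟩
    rw [hE] at this
    exact this
  · obtain ⟨z, hz, hmin⟩ := hKc.exists_isMinOn hne hFc.continuousOn
    have hz1 : z.1 ∈ stdSimplex ℝ G := hz.1.1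
    have hz2 : z.2 ∈ stdSimplex ℝ G := hz.1.2
    have hzη : η ≤ wlHn (wlpsh dig z.2) := hz.2.1
    obtain ⟨u0, hu0⟩ := Set.mem_iUnion.1 hz.2.2
    have hu0' : z.1 u0 ≤ 1 / (2 * (Fintype.card G : ℝ)) := hu0
    have hpos : 0 < F z := by
      by_contra hcon
      push Not at hcon
      have hle : wlHn (wlcnv z.1 z.2) ≤ wlHn z.1 := by
        have : F z = wlHn (wlcnv z.1 z.2) - wlHn z.1 := rfl
        linarith
      obtain ⟨v, v', hv, hv', hd⟩ : ∃ v v', z.2 v ≠ 0 ∧ z.2 v' ≠ 0 ∧ dig v ≠ dig v' := by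
        by_contra hno
        push Not at hno
        have := wl_Hn_psh_eq_zero dig hz2 hno
        linarith
      have hinv : ∀ u, z.1 (u + (v - v')) = z.1 u := by
        intro u
        have := wl_rigid hz1 hz2 hle hv hv' (u + v)
        rw [add_sub_cancel_right] at this
        rw [this]
        abel_nf
      have hinvk : ∀ (k : ℕ) u, z.1 (u + k • (v - v')) = z.1 u := by
        intro k
        induction k with
        | zero => intro u; simp
        | succ k ih => intro u; rw [succ_nsmul, ← add_assoc, hinv, ih]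
      have hconst : ∀ u, z.1 u = z.1 u0 := by
        intro u
        obtain ⟨k, hk⟩ := hgen v v' hd (u - u0)
        have := hinvk k u0
        rw [hk] at this
        rw [← this]
        abel_nf
      have hsum := hz1.2
      rw [Finset.sum_congr rfl fun u _ => hconst u, Finset.sum_const, nsmul_eq_mul,
        Finset.card_univ] at hsum
      have h2 : (Fintype.card G : ℝ) * z.1 u0 ≤ (Fintype.card G : ℝ) *
          (1 / (2 * (Fintype.card G : ℝ))) := mul_le_mul_of_nonneg_left hu0' hcard.le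
      have h3 : (Fintype.card G : ℝ) * (1 / (2 * (Fintype.card G : ℝ))) = 1 / 2 := by
        field_simp
      linarith
    refine ⟨F z / 2, half_pos hpos, fun q hq r hr hle hη' u => ?_⟩
    by_contra hcon
    push Not at hcon
    have hmem : (q, r) ∈ K := ⟨⟨hq, hr⟩, hη', Set.mem_iUnion.2 ⟨u, hcon.le⟩⟩
    have h1 : F z ≤ F (q, r) := hmin hmem
    have h2 : F (q, r) = wlHn (wlcnv q r) - wlHn q := rfl
    linarith


end WLcore

/-- sums over a period and sums over `ZMod N` -/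
theorem wl_sum_range (N : ℕ) [NeZero N] (f : ℕ → ℝ) :
    ∑ i ∈ range N, f i = ∑ z : ZMod N, f z.val := by
  symm
  refine Finset.sum_bij (fun z _ => z.val) (fun z _ => mem_range.2 (ZMod.val_lt z))
    (fun z _ z' _ h => ZMod.val_injective N h) (fun i hi => ⟨(i : ZMod N), mem_univ _, ?_⟩)
    (fun z _ => rfl)
  exact ZMod.val_natCast_of_lt (mem_range.1 hi)

theorem wl_per (N : ℕ) {f : ℤ → ℝ} (hf : ∀ x, f (x + N) = f x) {x y : ℤ}
    (h : (x : ZMod N) = (y : ZMod N)) : f x = f y := by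
  have hk : ∀ (k : ℕ) (x : ℤ), f (x + N * k) = f x := by
    intro k
    induction k with
    | zero => intro x; simp
    | succ k ih =>
      intro x
      have : x + (N : ℤ) * ((k + 1 : ℕ) : ℤ) = (x + N * k) + N := by push_cast; ring
      rw [this, hf, ih]
  have hz : ∀ (k : ℤ) (x : ℤ), f (x + N * k) = f x := by
    intro k x
    obtain ⟨n, rfl | rfl⟩ := k.eq_nat_or_neg
    · exact hk n x
    · have := hk n (x + N * -(n : ℤ))
      rw [← this]
      congr 1
      ring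
  rw [ZMod.intCast_eq_intCast_iff_dvd_sub] at h
  obtain ⟨c, hc⟩ := h
  have : y = x + N * c := by linarith
  rw [this, hz]

theorem WL (L : ℕ) (hL : 1 ≤ L) (η : ℝ) (hη : 0 < η) : ∃ ε₂ : ℝ, 0 < ε₂ ∧
    ∀ a b : ℤ → ℝ, (∀ x, 0 ≤ a x) → (∀ x, 0 ≤ b x) → (∀ x, a (x + 5 ^ L) = a x) →
      (∀ x, b (x + 5 ^ L) = b x) → ∑ i ∈ range (5 ^ L), a (i : ℤ) = 1 →
      ∑ i ∈ range (5 ^ L), b (i : ℤ) = 1 →
      ∑ y ∈ range (5 ^ L), Real.negMulLog (∑ u ∈ range (5 ^ L), b (u : ℤ) * a ((y : ℤ) - (u : ℤ)))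
        - ∑ y ∈ range (5 ^ L), Real.negMulLog (a (y : ℤ)) ≤ ε₂ →
      η ≤ ∑ δ ∈ range 5, Real.negMulLog
        (∑ u ∈ (range (5 ^ L)).filter (fun u => u % 5 = δ), b (u : ℤ)) →
      ∀ u : ℤ, 1 ≤ 2 * 5 ^ L * a u := by
  have : NeZero (5 ^ L) := ⟨by positivity⟩
  have hN : ((5 ^ L : ℕ) : ℤ) = (5 : ℤ) ^ L := by push_cast; rfl
  set dig : ZMod (5 ^ L) → Fin 5 := fun z => ⟨z.val % 5, Nat.mod_lt _ (by norm_num)⟩ with hdig
  have h5N : 5 ∣ 5 ^ L := dvd_pow_self 5 (by omega)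
  have hgen : ∀ v v' : ZMod (5 ^ L), dig v ≠ dig v' → ∀ x : ZMod (5 ^ L),
      ∃ k : ℕ, k • (v - v') = x := by
    intro v v' hne x
    have hne' : v.val % 5 ≠ v'.val % 5 := fun h => hne (Fin.ext h)
    have hcop : IsCoprime ((v.val : ℤ) - (v'.val : ℤ)) ((5 ^ L : ℕ) : ℤ) := by
      rw [hN]
      refine IsCoprime.pow_right ?_
      rw [isCoprime_comm, Prime.coprime_iff_not_dvd (by norm_num : Prime (5 : ℤ))]
      intro hd
      apply hne'
      omega
    obtain ⟨s, t, hst⟩ := hcop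
    refine ⟨((s : ZMod (5 ^ L)) * x).val, ?_⟩
    rw [nsmul_eq_mul, ZMod.natCast_val, ZMod.cast_id', id]
    have h1 : (s : ZMod (5 ^ L)) * (v - v') = 1 := by
      have := congrArg (fun z : ℤ => (z : ZMod (5 ^ L))) hst
      push_cast at this
      rw [ZMod.natCast_zmod_val, ZMod.natCast_zmod_val] at this
      have h0 : ((5 : ZMod (5 ^ L)) ^ L) = 0 := by
        have := ZMod.natCast_self (5 ^ L)
        push_cast at this
        exact this
      rw [h0, mul_zero, add_zero] at this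
      exact this
    calc (s : ZMod (5 ^ L)) * x * (v - v') = ((s : ZMod (5 ^ L)) * (v - v')) * x := by ring
      _ = x := by rw [h1, one_mul]
  obtain ⟨ε, hε, H⟩ := wl_core dig hgen η hη
  refine ⟨ε, hε, fun a b ha hb hap hbp ha1 hb1 hdiff hact u => ?_⟩
  have hap' : ∀ x, a (x + ((5 ^ L : ℕ) : ℤ)) = a x := by rw [hN]; exact hap
  have hbp' : ∀ x, b (x + ((5 ^ L : ℕ) : ℤ)) = b x := by rw [hN]; exact hbp
  set A : ZMod (5 ^ L) → ℝ := fun z => a (z.val : ℤ) with hA
  set B : ZMod (5 ^ L) → ℝ := fun z => b (z.val : ℤ) with hB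
  have hAs : A ∈ stdSimplex ℝ (ZMod (5 ^ L)) :=
    ⟨fun z => ha _, by rw [← ha1, wl_sum_range (5 ^ L) (fun i => a (i : ℤ))]⟩
  have hBs : B ∈ stdSimplex ℝ (ZMod (5 ^ L)) :=
    ⟨fun z => hb _, by rw [← hb1, wl_sum_range (5 ^ L) (fun i => b (i : ℤ))]⟩
  have hAi : ∀ z : ℤ, A (z : ZMod (5 ^ L)) = a z := by
    intro z
    refine wl_per (5 ^ L) hap' ?_
    push_cast
    rw [ZMod.natCast_zmod_val]
  have h1 : wlHn A = ∑ y ∈ range (5 ^ L), Real.negMulLog (a (y : ℤ)) := by
    rw [wl_sum_range (5 ^ L) (fun i => Real.negMulLog (a (i : ℤ)))]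
    rfl
  have h2 : wlHn (wlcnv A B) = ∑ y ∈ range (5 ^ L),
      Real.negMulLog (∑ u ∈ range (5 ^ L), b (u : ℤ) * a ((y : ℤ) - (u : ℤ))) := by
    rw [wl_sum_range (5 ^ L) (fun y => Real.negMulLog
      (∑ u ∈ range (5 ^ L), b (u : ℤ) * a ((y : ℤ) - (u : ℤ))))]
    unfold wlHn wlcnv
    refine Finset.sum_congr rfl fun z _ => ?_
    congr 1
    rw [wl_sum_range (5 ^ L) (fun u => b (u : ℤ) * a ((z.val : ℤ) - (u : ℤ)))]
    refine Finset.sum_congr rfl fun v _ => ?_
    congr 1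
    rw [← hAi]
    congr 1
    push_cast
    rw [ZMod.natCast_zmod_val, ZMod.natCast_zmod_val]
  have h3 : wlHn (wlpsh dig B) = ∑ δ ∈ range 5, Real.negMulLog
        (∑ u ∈ (range (5 ^ L)).filter (fun u => u % 5 = δ), b (u : ℤ)) := by
    unfold wlHn
    rw [Finset.sum_range]
    refine Finset.sum_congr rfl fun δ _ => ?_
    congr 1
    rw [Finset.sum_filter, wl_sum_range (5 ^ L) (fun u => if u % 5 = (δ : ℕ) then b (u : ℤ) else 0)]
    unfold wlpsh
    refine Finset.sum_congr rfl fun v _ => ?_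
    have : (dig v = δ) ↔ (v.val % 5 = (δ : ℕ)) := by
      rw [hdig]
      constructor
      · intro h
        rw [← h]
      · intro h
        exact Fin.ext h
    simp only [this, hB]
  have h4 := H A hAs B hBs (by rw [h1, h2]; exact hdiff) (by rw [h3]; exact hact)
    (u : ZMod (5 ^ L))
  rw [hAi, ZMod.card] at h4
  have h5 : (0 : ℝ) < 2 * ((5 ^ L : ℕ) : ℝ) := by positivity
  rw [div_le_iff₀ h5] at h4
  push_cast at h4
  linarith


end Pool.Agent.Lib_helper56.Low
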